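import Pool.Agent.MP_deef5c_ag.E.Defs

/-! Identities for the cubic forms, uniqueness of roots. -/

open PowerSeries IsLocalRing Function Pool.Agent.MP_deef5c_ag.O
open scoped Polynomial

namespace Pool.Agent.MP_deef5c_ag.E

universe u

section Ring

variable {R S : Type*} [CommRing R] [CommRing S] {F : Type*} [FunLike F R S] [RingHomClass F R S]

theorem map_TT (φ : F) (x s : R) : φ (TT x s) = TT (φ x) (φ s) := by simp [TT]

theorem map_ST (φ : F) (c x s t : R) : φ (ST c x s t) = ST (φ c) (φ x) (φ s) (φ t) := by simp [ST]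

theorem map_Qf (φ : F) (u v : R) : φ (Qf u v) = Qf (φ u) (φ v) := by simp [Qf]

theorem map_ch (φ : F) (q r w T Z Y : R) :
    φ (ch q r w T Z Y) = ch (φ q) (φ r) (φ w) (φ T) (φ Z) (φ Y) := by simp [ch, map_Qf]

theorem map_NE (φ : F) (a r w T Th β ρ ω : R) : φ (NE a r w T Th β ρ ω) =
    NE (φ a) (φ r) (φ w) (φ T) (φ Th) (φ β) (φ ρ) (φ ω) := by simp [NE, map_Qf]

theorem ch_smul (q r w T Z Y u : R) : ch q r w T (u * Z) (u * Y) = u ^ 3 * ch q r w T Z Y := by
  simp only [ch, Qf]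
  ring

theorem ch_poly (q r w T Z : R) : ch q r w T Z 1 = (1 - r ^ 2) * Z ^ 3 +
    (T * w ^ 2 - 2 * r * q) * Z ^ 2 + (2 * r * w * T - q ^ 2) * Z + -(T * (1 - r ^ 2)) := by
  simp only [ch, Qf]
  ring

/-- the Moebius transformation `1 + N` preserves the cubic form -/
theorem mob {q r w : R} (h : r ^ 2 - q * w = -3) (T Z Y : R) :
    ch q r w T ((1 + r) * Z + q * Y) ((1 - r) * Y - w * Z) = -8 * ch q r w T Z Y := by
  have h1 : r * ((1 + r) * Z + q * Y) + q * ((1 - r) * Y - w * Z) = r * Z + q * Y - 3 * Z := by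
    linear_combination Z * h
  have h2 : -(w * ((1 + r) * Z + q * Y)) - r * ((1 - r) * Y - w * Z) =
      -(w * Z) - r * Y - 3 * Y := by
    linear_combination Y * h
  rw [ch, h1, h2]
  simp only [ch, Qf]
  ring

/-- the forms `Qf (l v) (l (N v))` span a module of rank two -/
theorem bic {q r w : R} (h : r ^ 2 - q * w = -3) (l m t : R) :
    (1 - r ^ 2) * Qf (l * t + m) (l * (r * t + q) + m * (-(w * t) - r)) =
      Qf l (l * r - m * w) * Qf t (r * t + q) + Qf m (l * q - m * r) * Qf 1 (-(w * t) - r) := by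
  simp only [Qf]
  linear_combination (l * m ^ 2 * q * t * w - l * m ^ 2 * r ^ 2 * t + l * m ^ 2 * t + l ^ 2 * m * q * t ^ 2 * w - l ^ 2 * m * r ^ 2 * t ^ 2 + l ^ 2 * m * t ^ 2) * h

end Ring

variable {D k : Type u} [CommRing D] [IsLocalRing D] [CL D] [Field k]

theorem nzd (π : D →+* k) (hπ : Surjective π) {F g : D⟦X⟧} (hF : PowerSeries.map π F ≠ 0)
    (h : F * g = 0) : g = 0 := by
  have := cin_of_mul π hπ ⊥ F g hF (by rw [h]; intro a; simp)
  ext a
  simpa using this a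

/-- two roots with the same reduction are equal -/
theorem ch_uniq [CharP k 3] (π : D →+* k) (hπ : Surjective π) {q r w T ξ η : D⟦X⟧}
    (hq : PowerSeries.map π q ≠ 0) (hr : PowerSeries.map π r = 0) (hw : PowerSeries.map π w = 0)
    (h1 : ch q r w T ξ 1 = 0) (h2 : ch q r w T η 1 = 0)
    (h : PowerSeries.map π ξ = PowerSeries.map π η) : ξ = η := by
  rw [ch_poly] at h1 h2
  refine sub_eq_zero.1 (nzd π hπ (F := (1 - r ^ 2) * (ξ ^ 2 + ξ * η + η ^ 2) +
    (T * w ^ 2 - 2 * r * q) * (ξ + η) + (2 * r * w * T - q ^ 2)) ?_ (by linear_combination h1 - h2))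
  have h3 : (3 : k⟦X⟧) = 0 := by
    rw [← map_ofNat (C : k →+* k⟦X⟧) 3, show (3 : k) = 0 from CharP.cast_eq_zero k 3, map_zero]
  simp only [map_add, map_sub, map_mul, map_pow, map_one, hr, hw, h]
  intro h0
  exact hq (pow_eq_zero_iff two_ne_zero |>.1
    (by linear_combination -h0 + (PowerSeries.map π η) ^ 2 * h3))

end Pool.Agent.MP_deef5c_ag.E
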