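import Pool.Agent.MP_deef5c_ag.E.ARing

/-! The certificate: an explicit linear form, checked by evaluation. -/

open PowerSeries IsLocalRing Function Pool.Agent.MP_deef5c_ag.O
open scoped Polynomial

namespace Pool.Agent.MP_deef5c_ag.E

universe u

namespace ACert

abbrev Tm : Type := ℤ × ℕ × ℕ × ℕ × ℕ × ℕ × ℕ

def tab : ℕ → ℕ → ℕ
  | 0, 0 => 0x100000000000000000000000000000000000000000000000000000000000000000000001000000000200000000000000000000000000000000000000000000000000000000000001a00000012a00000020400000000000000000000000000000000000000000000000000000000000016200000005200000229600000000000000000000000000000000000000000002200000002200000094900002084200000155900000000000000000000000000000000002600000021600000020a0000255100002146980001092690000000000000000000000000020000002a5000000195000000168000292505000090000000000000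
  | 0, 1 => 0x1000000000000000000000000000000000000000000000000000000000000000000000002800000011800000000000000000000000000000000000000000000000000000000000001a00000026400000026000000000000000000000000000000000000000000000000000002000000016a000000919000020a500000000000000000000000000000000000000000000140000002140000009800000149990002264a40000000000000000000000000000000000250000001a0000000095000025219000198168000181296
  | 0, 2 => 0x800000000000000000000000000000000000000000000000000000000000000000000000400000004900000000000000000000000000000000000000000000000000000000000000800000008500000089100000000000000000000000000000000000000000000000000000400000006900000046800000402200000000000000000000000000000000000000000000800000008a000000aa2000008269000085196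
  | 0, 3 => 0x1000000000000000000000000000000000000000000000000000000000000000000000002000000021000000000000000000000000000000000000000000000000000000000000001000000001000000102000000000000000000000000000000000000000000000000000002000000014000000124000002000
  | 0, 4 => 0x20000000000000000000000000000000000000000000000000000000000000000000000014000000205
  | 0, 5 => 0x4
  | 1, 0 => 0x20000000000000000000000000000000000000000000000000000000000000000000000014000000224000000000000000000000000000000000000000000000000000000000000026000000199000000192000000000000000000000000000000000000000000000000000010000000285000000624000010590000000000000000000000000000000000000000000028000000128000000448000028541000119841000000000000000000000000000000000019000000252000000069000019161000266000000240000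
  | 1, 1 => 0x400000000000000000000000000000000000000000000000000000000000000000000000900000008400000000000000000000000000000000000000000000000000000000000000500000006900000046200000000000000000000000000000000000000000000000000000800000008400000098200000822a000000000000000000000000000000000000000000006000000044000000649000006126000049196
  | 1, 2 => 0x1100000001a000000000000000000000000000000000000000000000000000000000000019000000100000000066
  | 1, 3 => 0x10000000000000000000000000000000000000000000000000000000000000000000000028000000108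
  | 1, 4 => 0x8
  | 2, 0 => 0x800000000000000000000000000000000000000000000000000000000000000000000000500000004a0000000000000000000000000000000000000000000000000000000000000090000000a400000089100000000000000000000000000000000000000000000000000000400000005a00000055600000420800000000000000000000000000000000000000000000a00000008900000089900000a288000084000
  | 2, 1 => 0x200000000000000000000000000000000000000000000000000000000000000000000000100000001200000000000000000000000000000000000000000000000000000000000000200000001000000021800000000000000000000000000000000000000000000000000000100000000500000001a000001065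
  | 2, 2 => 0x20000000000000000000000000000000000000000000000000000000000000000000000014000000205
  | 2, 3 => 0x4
  | 3, 0 => 0x2000000000000000000000000000000000000000000000000000000000000000000000001000000012000000000000000000000000000000000000000000000000000000000000002000000002000000201000000000000000000000000000000000000000000000000000001000000028000000218000001000
  | 3, 1 => 0x1000000000000000000000000000000000000000000000000000000000000000000000002800000010a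
  | 3, 2 => 0x8
  | 4, 0 => 0x20000000000000000000000000000000000000000000000000000000000000000000000014000000204
  | 4, 1 => 0x4
  | 5, 0 => 0x8
  | _, _ => 0

def Le5 : List Tm :=
  [(-1, 0, 3, 0, 0, 1, 0), (2, 1, 1, 0, 0, 0, 1), (1, 0, 2, 0, 0, 0, 1), (-1, 0, 3, 0, 0, 0, 1), (1, 0, 0, 0, 0, 0, 2), (-2, 1, 1, 0, 0, 0, 2), (-1, 0, 2, 0, 0, 0, 2), (2, 1, 1, 1, 0, 0, 0), (1, 2, 0, 1, 0, 0, 0), (2, 0, 1, 1, 0, 0, 0), (1, 0, 2, 1, 0, 0, 0), (-1, 0, 0, 3, 0, 0, 0), (2, 1, 0, 0, 1, 0, 0), (2, 1, 1, 0, 1, 0, 0), (1, 2, 0, 0, 1, 0, 0), (2, 0, 1, 0, 1, 0, 0), (2, 0, 0, 0, 3, 0, 0)]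

def Le6 : List Tm :=
  [(1, 0, 0, 0, 0, 1, 0), (-1, 3, 0, 0, 0, 1, 0), (1, 0, 3, 0, 0, 1, 0), (1, 2, 0, 0, 0, 0, 1), (2, 0, 1, 0, 0, 0, 1), (-1, 0, 0, 0, 0, 0, 2), (-1, 2, 0, 0, 0, 0, 2), (-2, 0, 1, 0, 0, 0, 2), (-1, 0, 0, 0, 0, 0, 3), (3, 0, 0, 0, 0, 0, 4), (-3, 0, 0, 0, 0, 0, 5), (1, 0, 0, 0, 0, 0, 6), (2, 1, 0, 1, 0, 0, 0), (-1, 0, 2, 1, 0, 0, 0), (1, 0, 0, 3, 0, 0, 0), (1, 0, 0, 0, 1, 0, 0), (-2, 1, 1, 0, 1, 0, 0), (-1, 0, 2, 0, 1, 0, 0)]

def Le7 : List Tm :=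
  [(-1, 0, 0, 0, 0, 1, 0), (1, 0, 3, 0, 0, 1, 0), (1, 0, 0, 0, 0, 0, 1), (2, 1, 0, 0, 0, 0, 1), (-1, 3, 0, 0, 0, 0, 1), (-1, 0, 2, 0, 0, 0, 1), (1, 0, 3, 0, 0, 0, 1), (-2, 1, 0, 0, 0, 0, 2), (1, 0, 2, 0, 0, 0, 2), (1, 0, 0, 1, 0, 0, 0), (-2, 1, 1, 1, 0, 0, 0), (-1, 0, 2, 1, 0, 0, 0), (1, 0, 0, 3, 0, 0, 0), (-2, 1, 1, 0, 1, 0, 0), (-1, 2, 0, 0, 1, 0, 0), (-2, 0, 1, 0, 1, 0, 0), (-1, 0, 2, 0, 1, 0, 0), (-1, 0, 0, 0, 3, 0, 0)]

def Lp3 : List Tm :=
  [(2, 0, 3, 0, 0, 1, 1), (-1, 0, 0, 0, 0, 1, 2), (-4, 1, 1, 1, 0, 0, 1), (-2, 0, 2, 1, 0, 0, 1), (2, 0, 0, 3, 0, 0, 1), (-4, 1, 1, 0, 1, 0, 1), (-2, 2, 0, 0, 1, 0, 1), (-4, 0, 1, 0, 1, 0, 1), (-2, 0, 2, 0, 1, 0, 1), (-2, 0, 0, 0, 3, 0, 1), (-1, 3, 0, 0, 0, 0, 2), (-2, 0, 2, 0, 0, 0, 2), (2, 0, 3, 0, 0, 0, 2), (2, 0, 2, 0, 0, 0, 3), (1, 0, 2, 0, 1, 0, 0), (-1, 0, 0, 0, 3, 0, 0)]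

def Lp2 : List Tm :=
  [(-2, 0, 5, 0, 0, 1, 1), (2, 0, 6, 0, 0, 1, 1), (-1, 0, 3, 0, 0, 1, 2), (2, 0, 5, 0, 0, 1, 2), (-4, 1, 4, 1, 0, 1, 0), (-2, 0, 5, 1, 0, 1, 0), (2, 0, 3, 3, 0, 1, 0), (-4, 1, 4, 0, 1, 1, 0), (-2, 2, 3, 0, 1, 1, 0), (1, 0, 2, 0, 1, 1, 0), (-4, 0, 4, 0, 1, 1, 0), (-2, 0, 5, 0, 1, 1, 0), (-1, 0, 0, 0, 3, 1, 0), (-2, 0, 3, 0, 3, 1, 0), (1, 0, 6, 0, 0, 2, 0), (4, 1, 3, 1, 0, 0, 1), (-4, 1, 4, 1, 0, 0, 1), (2, 0, 4, 1, 0, 0, 1), (-2, 0, 5, 1, 0, 0, 1), (-2, 0, 2, 3, 0, 0, 1), (2, 0, 3, 3, 0, 0, 1), (4, 1, 3, 0, 1, 0, 1), (-4, 1, 4, 0, 1, 0, 1), (2, 2, 2, 0, 1, 0, 1), (-2, 2, 3, 0, 1, 0, 1), (4, 0, 3, 0, 1, 0, 1), (-2, 0, 4, 0, 1, 0, 1), (-2, 0, 5, 0, 1, 0, 1), (2, 0, 0, 0, 3, 0, 1), (2, 0, 2, 0, 3, 0, 1), (-2, 0, 3, 0, 3, 0, 1), (-4, 1, 3, 1, 0, 0, 2), (1, 0, 2, 1, 0, 0, 2), (-2, 0, 4, 1, 0, 0, 2), (-1, 0, 0, 3, 0, 0, 2), (2, 0, 2, 3, 0, 0, 2), (2, 1, 1, 0, 1, 0, 2), (-4, 1, 3, 0, 1, 0, 2),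 (-2, 2, 2, 0, 1, 0, 2), (1, 0, 2, 0, 1, 0, 2), (-4, 0, 3, 0, 1, 0, 2), (-2, 0, 4, 0, 1, 0, 2), (-2, 0, 2, 0, 3, 0, 2), (-1, 0, 3, 0, 0, 0, 2), (1, 0, 4, 0, 0, 0, 2), (-2, 0, 5, 0, 0, 0, 2), (1, 0, 6, 0, 0, 0, 2), (-2, 0, 4, 0, 0, 0, 3), (2, 0, 5, 0, 0, 0, 3), (1, 0, 4, 0, 0, 0, 4), (8, 1, 2, 1, 1, 0, 0), (8, 1, 3, 1, 1, 0, 0), (10, 2, 2, 1, 1, 0, 0), (4, 3, 1, 1, 1, 0, 0), (4, 0, 3, 1, 1, 0, 0), (2, 0, 4, 1, 1, 0, 0), (4, 1, 1, 1, 3, 0, 0), (2, 0, 2, 1, 3, 0, 0), (4, 1, 3, 2, 0, 0, 0), (4, 2, 2, 2, 0, 0, 0), (1, 0, 4, 2, 0, 0, 0), (-4, 1, 1, 3, 1, 0, 0), (-2, 2, 0, 3, 1, 0, 0), (-4, 0, 1, 3, 1, 0, 0), (-2, 0, 2, 3, 1, 0, 0), (-2, 0, 0, 3, 3, 0, 0), (-4, 1, 1, 4, 0, 0, 0), (-2, 0, 2, 4, 0, 0, 0), (1, 0, 0, 6, 0, 0, 0), (1, 3, 2, 0, 1, 0, 0), (8, 1, 2, 0, 2, 0, 0), (4, 1, 3, 0, 2, 0, 0), (4, 2, 1, 0, 2, 0, 0), (6, 2, 2, 0, 2, 0, 0), (4, 3, 1, 0, 2, 0, 0), (1, 4, 0, 0, 2, 0, 0), (4, 0, 2, 0, 2, 0, 0), (4, 0, 3,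 0, 2, 0, 0), (1, 0, 4, 0, 2, 0, 0), (-1, 3, 0, 0, 3, 0, 0), (4, 1, 1, 0, 4, 0, 0), (2, 2, 0, 0, 4, 0, 0), (4, 0, 1, 0, 4, 0, 0), (2, 0, 2, 0, 4, 0, 0), (1, 0, 0, 0, 6, 0, 0)]

def Lp1 : List Tm :=
  [(1, 0, 5, 0, 1, 1, 0), (1, 0, 3, 0, 3, 1, 0), (-2, 0, 2, 0, 3, 0, 1), (2, 0, 3, 0, 3, 0, 1), (-1, 0, 0, 0, 3, 0, 2), (2, 0, 2, 0, 3, 0, 2), (-1, 0, 4, 1, 1, 0, 0), (-4, 1, 1, 1, 3, 0, 0), (-1, 0, 2, 1, 3, 0, 0), (1, 0, 2, 3, 1, 0, 0), (1, 0, 0, 3, 3, 0, 0), (1, 0, 5, 0, 1, 0, 0), (-2, 1, 3, 0, 2, 0, 0), (-1, 0, 4, 0, 2, 0, 0), (-1, 0, 3, 0, 3, 0, 0), (-2, 1, 1, 0, 4, 0, 0), (-2, 2, 0, 0, 4, 0, 0), (-4, 0, 1, 0, 4, 0, 0), (-1, 0, 2, 0, 4, 0, 0), (-2, 0, 0, 0, 6, 0, 0)]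
/-- the value of the linear form on `v1^a v2^b u2^c u3^d h0^e h1^f` -/
def lv (a b c d e f : ℕ) : ℕ :=
  if a ≤ 1 ∧ a + 2 * b + 2 * c + 3 * d + 3 * e + 2 * f ≤ 16 then
    (tab d e >>> (2 * (a + 2 * (b + 9 * (c + 9 * f))))) % 4 else 0

def sm (L : List Tm) (a b c d e f : ℕ) : ℤ :=
  (L.map fun t => t.1 * (lv (t.2.1 + a) (t.2.2.1 + b) (t.2.2.2.1 + c) (t.2.2.2.2.1 + d)
    (t.2.2.2.2.2.1 + e) (t.2.2.2.2.2.2 + f) : ℤ)).sum

def chk (L : List Tm) (m : ℕ) : Bool :=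
  (L.all fun t => decide (m ≤ t.2.1 + 2 * t.2.2.1 + 2 * t.2.2.2.1 + 3 * t.2.2.2.2.1 +
    3 * t.2.2.2.2.2.1 + 2 * t.2.2.2.2.2.2)) &&
  (List.range 2).all fun a => (List.range 9).all fun b => (List.range (9 - b)).all fun c =>
    (List.range (9 - b - c)).all fun f => (List.range 6).all fun d => (List.range (6 - d)).all fun e =>
      decide (16 < m + a + 2 * b + 2 * c + 3 * d + 3 * e + 2 * f) || decide (sm L a b c d e f % 3 = 0)

theorem sm_dvd {L : List Tm} {m : ℕ} (h : chk L m = true) (a b c d e f : ℕ) :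
    (3 : ℤ) ∣ sm L a b c d e f := by
  simp only [chk, List.all_eq_true, List.mem_range, Bool.or_eq_true, Bool.and_eq_true,
    decide_eq_true_eq] at h
  by_cases hw : a ≤ 1 ∧ m + a + 2 * b + 2 * c + 3 * d + 3 * e + 2 * f ≤ 16
  · rcases h.2 a (by omega) b (by omega) c (by omega) f (by omega) d (by omega) e (by omega) with
      h | h
    · omega
    · exact Int.dvd_of_emod_eq_zero h
  · refine List.dvd_sum fun x hx => ?_
    obtain ⟨t, ht, rfl⟩ := List.mem_map.1 hx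
    have := h.1 t ht
    rw [lv, if_neg (by omega)]
    simp

def ex (t : Tm) : ℤ × (Fin 6 → ℕ) :=
  (t.1, ![t.2.1, t.2.2.1, t.2.2.2.1, t.2.2.2.2.1, t.2.2.2.2.2.1, t.2.2.2.2.2.2])

def ev {A : Type u} [CommRing A] (v : Fin 6 → A) (L : List Tm) : A :=
  (L.map fun t => (t.1 : A) * (v 0 ^ t.2.1 * v 1 ^ t.2.2.1 * v 2 ^ t.2.2.2.1 * v 3 ^ t.2.2.2.2.1 *
    v 4 ^ t.2.2.2.2.2.1 * v 5 ^ t.2.2.2.2.2.2)).sum

def ll (e : Fin 6 → ℕ) : ℤ := lv (e 0) (e 1) (e 2) (e 3) (e 4) (e 5)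

def nz (L : List Tm) : Bool :=
  L.all fun t => decide (0 < t.2.1 + t.2.2.1 + t.2.2.2.1 + t.2.2.2.2.1 + t.2.2.2.2.2.1 + t.2.2.2.2.2.2)

theorem ev_zero {A : Type u} [CommRing A] {v : Fin 6 → A}
    (H : ∀ L : List (ℤ × (Fin 6 → ℕ)), (∀ t ∈ L, t.2 ≠ 0) →
      (∀ e, (3 : ℤ) ∣ (L.map fun t => t.1 * ll (t.2 + e)).sum) →
      (L.map fun t => (t.1 : A) * ∏ i, v i ^ t.2 i).sum = 0)
    {L : List Tm} {m : ℕ} (h1 : nz L = true) (h2 : chk L m = true) : ev v L = 0 := by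
  have := H (L.map ex) (fun t ht h0 => ?_) fun e => ?_
  · simpa only [ev, List.map_map, Function.comp_def, ex, Fin.prod_univ_six, Matrix.cons_val] using this
  · obtain ⟨t, ht', rfl⟩ := List.mem_map.1 ht
    simp only [nz, List.all_eq_true, decide_eq_true_eq] at h1
    have h3 := h1 t ht'
    have e0 := congrFun h0 0
    have e1 := congrFun h0 1
    have e2 := congrFun h0 2
    have e3 := congrFun h0 3
    have e4 := congrFun h0 4
    have e5 := congrFun h0 5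
    simp only [ex, Matrix.cons_val, Pi.zero_apply] at e0 e1 e2 e3 e4 e5
    omega
  · simpa only [sm, List.map_map, Function.comp_def, ex, ll, Pi.add_apply, Matrix.cons_val] using
      sm_dvd h2 (e 0) (e 1) (e 2) (e 3) (e 4) (e 5)

theorem c5 : chk Le5 4 = true := by decide +kernel

theorem c6 : chk Le6 3 = true := by decide +kernel

theorem c7 : chk Le7 2 = true := by decide +kernel

theorem c3 : chk Lp3 7 = true := by decide +kernel

theorem c2 : chk Lp2 10 = true := by decide +kernel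

theorem c1 : chk Lp1 13 = true := by decide +kernel

end ACert

open ACert in
theorem exists_cert (k : Type u) [Field k] [IsAlgClosed k] [CharP k 3] :
    ∃ (A : Type u) (_ : CommRing A) (_ : IsLocalRing A) (_ : IsArtinianRing A)
      (_ : Algebra (WittVector 3 k) A) (π : A →+* k) (Φ : MF A) (v1 v2 u2 u3 h0 h1 : A),
      (∀ w, π (algebraMap (WittVector 3 k) A w) = w.coeff 0) ∧ (3 : A) ≠ 0 ∧ Φ.Loc 16 ∧
      Cert Φ v1 v2 u2 u3 h0 h1 := by
  obtain ⟨A, _, _, _, _, π, Φ, v, h1, h2, h3, h4, h5, h6, h7⟩ :=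
    exists_ring k ![1, 2, 2, 3, 3, 2] (by decide) ll fun e he => by
      simp only [Fin.sum_univ_six, Matrix.cons_val] at he
      rw [ll, lv, if_neg (by omega), Nat.cast_zero]
  have e5 := ev_zero h6 (by decide) c5
  have e6 := ev_zero h6 (by decide) c6
  have e7 := ev_zero h6 (by decide) c7
  have p3 := ev_zero h6 (by decide) c3
  have p2 := ev_zero h6 (by decide +kernel) c2
  have p1 := ev_zero h6 (by decide) c1
  have p0 := h7 ![0, 2, 0, 4, 0, 0] (by decide) (by decide +kernel)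
  simp only [ev, Le5, Le6, Le7, Lp3, Lp2, Lp1, List.map_cons, List.map_nil, List.sum_cons,
    List.sum_nil, Fin.prod_univ_six, Matrix.cons_val] at e5 e6 e7 p3 p2 p1 p0
  push_cast at e5 e6 e7 p3 p2 p1
  refine ⟨A, _, ‹_›, ‹_›, ‹_›, π, Φ, v 0, v 1, v 2, v 3, v 4, v 5, h1, h2, h3, h4, h5 0, h5 1, h5 2,
    h5 3, h5 4, h5 5, ?_, ?_, ?_, ?_, ?_, ?_, by linear_combination p0⟩ <;>
    simp only [cB, cC, cD, cU]
  · linear_combination e5
  · linear_combination e6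
  · linear_combination e7
  · linear_combination p3
  · linear_combination p2
  · linear_combination p1

end Pool.Agent.MP_deef5c_ag.E
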