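import Pool.Agent.MP_deef5c_ag.E.ABas

/-! Cubic covers of the formal disc: the implicit function theorem. -/

open PowerSeries IsLocalRing Function Pool.Agent.MP_deef5c_ag.O
open scoped Polynomial

namespace Pool.Agent.MP_deef5c_ag.E

universe u

variable {D k : Type u} [CommRing D] [IsLocalRing D] [CL D]

theorem ACub_unit {R : Type u} [CommRing R] [IsLocalRing R] {u m : R} (hu : IsUnit u)
    (hm : m ∈ maximalIdeal R) : IsUnit (u + m) := by
  by_contra h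
  have h1 := sub_mem (show u + m ∈ maximalIdeal R from h) hm
  rw [add_sub_cancel_right] at h1
  exact h1 hu

theorem ACub_one {R : Type u} [CommRing R] [IsLocalRing R] {r : R} (hr : r ∈ maximalIdeal R) :
    IsUnit (1 - r ^ 2) := by
  rw [sub_eq_add_neg]
  exact ACub_unit isUnit_one (neg_mem (Ideal.pow_mem_of_mem _ hr 2 two_pos))

theorem ACub_inv [Field k] (π : D →+* k) (hπ : Surjective π) (g : D⟦X⟧)
    (hord : order (PowerSeries.map π g) = (1 : ℕ)) :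
    ∃ Ψ : En D, Ψ g = X ∧ Ψ X ∈ maximalIdeal D⟦X⟧ := by
  have hX := sub_X (Qb_mem π hπ g 1 one_pos hord)
  obtain ⟨Ψ, h1, h2⟩ := exists_inv π hπ (sub g) (by rw [hX]; exact hord)
  refine ⟨Ψ, ?_, fun hu => ?_⟩
  · conv_lhs => rw [← hX, ← AlgHom.mul_apply, h2]
    rfl
  · have h5 := hu.map (sub g)
    rw [← AlgHom.mul_apply, h1, AlgHom.one_apply, PowerSeries.isUnit_iff_constantCoeff,
      constantCoeff_X] at h5
    exact not_isUnit_zero h5

/-- By `ch_poly` the form is `e₀ + ξ * (...)` with `e₀ = -T (1 - r^2)`.  All differences `φ f - ψ f` are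
multiples of `d = φ X - ψ X` (`sub_dvd`), and `φ e₀ - ψ e₀ = d * unit`: write `T = X * T₁ + C T₀`
(`eq_X_mul_shift_add_const`) with `T₁` a unit, so `φ T - ψ T = d * φ T₁ + ψ X * (φ T₁ - ψ T₁)`.
Hence `d * (unit + element of the maximal ideal) = 0`; finish with `en_ext`. -/
theorem cub_uniq {q r w T ξ : D⟦X⟧} (hr : constantCoeff r ∈ maximalIdeal D)
    (hT : constantCoeff T ∈ maximalIdeal D) (hT1 : IsUnit (coeff 1 T)) {φ ψ : En D}
    (hφ : constantCoeff (φ X) ∈ maximalIdeal D) (hψ : constantCoeff (ψ X) ∈ maximalIdeal D)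
    (hξ : constantCoeff ξ ∈ maximalIdeal D) (h1 : ch (φ q) (φ r) (φ w) (φ T) ξ 1 = 0)
    (h2 : ch (ψ q) (ψ r) (ψ w) (ψ T) ξ 1 = 0) : φ = ψ := by
  obtain ⟨T₁, hT₁⟩ : ∃ T₁ : D⟦X⟧, T₁ = PowerSeries.mk fun p => coeff (p + 1) T := ⟨_, rfl⟩
  have hu : IsUnit T₁ := by
    rw [PowerSeries.isUnit_iff_constantCoeff, ← coeff_zero_eq_constantCoeff_apply, hT₁, coeff_mk]
    exact hT1
  have eT : T = X * T₁ + C (constantCoeff T) := hT₁ ▸ eq_X_mul_shift_add_const T
  have e1 : φ T = φ X * φ T₁ + C (constantCoeff T) := by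
    conv_lhs => rw [eT, map_add, map_mul, Base_en_C]
  have e2 : ψ T = ψ X * ψ T₁ + C (constantCoeff T) := by
    conv_lhs => rw [eT, map_add, map_mul, Base_en_C]
  obtain ⟨e, he⟩ := sub_dvd φ ψ hφ hψ T₁
  obtain ⟨α, hα⟩ := sub_dvd φ ψ hφ hψ (1 - r ^ 2)
  obtain ⟨β, hβ⟩ := sub_dvd φ ψ hφ hψ (T * w ^ 2 - 2 * r * q)
  obtain ⟨γ, hγ⟩ := sub_dvd φ ψ hφ hψ (2 * r * w * T - q ^ 2)
  have hA : IsUnit (φ (1 - r ^ 2)) := (ACub_one ((mem_max_iff r).2 hr)).map φ
  have ht : IsUnit (φ T₁ + ψ X * e) :=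
    ACub_unit (hu.map φ) (Ideal.mul_mem_right _ _ ((mem_max_iff _).2 hψ))
  have hm : ψ T * α - ξ * (α * ξ ^ 2 + β * ξ + γ) ∈ maximalIdeal D⟦X⟧ :=
    sub_mem (Ideal.mul_mem_right _ _ ((mem_max_iff _).2 (en_mem ψ hψ hT)))
      (Ideal.mul_mem_right _ _ ((mem_max_iff _).2 hξ))
  have hU := ACub_unit (ht.mul hA) hm
  have e3 : φ T - ψ T = (φ X - ψ X) * (φ T₁ + ψ X * e) := by
    rw [e1, e2]
    linear_combination ψ X * he
  rw [ch_poly] at h1 h2
  simp only [map_sub, map_mul, map_pow, map_one, map_ofNat] at hα hβ hγ hU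
  refine en_ext (sub_eq_zero.1 ((hU.mul_left_eq_zero).1 ?_)) hφ
  linear_combination h2 - h1 + ξ ^ 3 * hα + ξ ^ 2 * hβ + ξ * hγ - ψ T * hα -
    (1 - φ r ^ 2) * e3

/-- Work over `D' = D⟦X⟧` (`CL.powerSeries`) with residue map `residue D ∘ constantCoeff`.  Let
`ι = PowerSeries.map C : D⟦Y⟧ → D'⟦Y⟧` and `g = ch (ι q) (ι r) (ι w) (ι T) (C X) 1`; its reduction is
`-T (1 - r^2)`, of order one, so `sub g` has an inverse `Ψ` (`exists_inv`), `Ψ g = Y`.  Take
`φ = constantCoeff ∘ Ψ ∘ ι`.  (If `φ X` were a unit then `Ψ Y` would be a unit, hence `Y = sub g (Ψ Y)`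
... more simply `Ψ Y` unit gives `sub g (Ψ Y) = Y` unit.) -/
theorem cub_ex {q r w T : D⟦X⟧} (hr : constantCoeff r ∈ maximalIdeal D)
    (hT : constantCoeff T ∈ maximalIdeal D) (hT1 : IsUnit (coeff 1 T)) :
    ∃ φ : En D, constantCoeff (φ X) ∈ maximalIdeal D ∧ ch (φ q) (φ r) (φ w) (φ T) X 1 = 0 := by
  let π : D⟦X⟧ →+* ResidueField D := (residue D).comp constantCoeff
  have hπ : Surjective π := fun y => by
    obtain ⟨a, rfl⟩ := residue_surjective y
    exact ⟨C a, by simp [π]⟩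
  let ι : D⟦X⟧ →+* D⟦X⟧⟦X⟧ := PowerSeries.map (C : D →+* D⟦X⟧)
  have hι : ∀ f, PowerSeries.map π (ι f) = PowerSeries.map (residue D) f := fun f => by
    ext n
    simp [π, ι]
  obtain ⟨g, hg⟩ : ∃ g, g = ch (ι q) (ι r) (ι w) (ι T) (C X) 1 := ⟨_, rfl⟩
  have hord : order (PowerSeries.map π g) = (1 : ℕ) := by
    have h0 : π X = 0 := by simp [π]
    have h1 : order (PowerSeries.map (residue D) T) = (1 : ℕ) := by
      refine order_eq_nat.2 ⟨?_, fun i hi => ?_⟩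
      · rw [coeff_map]
        exact (hT1.map _).ne_zero
      · rw [Nat.lt_one_iff.1 hi, coeff_map, coeff_zero_eq_constantCoeff_apply, residue_eq_zero_iff]
        exact hT
    have h2 := order_zero_of_unit ((ACub_one ((mem_max_iff r).2 hr)).map
      (PowerSeries.map (residue D)))
    rw [map_sub, map_pow, map_one] at h2
    rw [hg, map_ch, hι, hι, hι, hι, map_C, h0, map_zero, map_one, ch_poly]
    simp only [ne_eq, OfNat.ofNat_ne_zero, not_false_eq_true, zero_pow, mul_zero, zero_add]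
    rw [order_neg, order_mul, h1, h2, add_zero]
  obtain ⟨Ψ, h3, h4⟩ := ACub_inv π hπ g hord
  let χ : D⟦X⟧⟦X⟧ →+* D⟦X⟧ := (constantCoeff (R := D⟦X⟧)).comp (Ψ : D⟦X⟧⟦X⟧ →+* D⟦X⟧⟦X⟧)
  have hχ : ∀ a, χ (C a) = a := fun a => by
    change constantCoeff (Ψ (C a)) = a
    rw [Base_en_C, constantCoeff_C]
  let φ : En D :=
    { χ.comp ι with
      commutes' := fun a => by
        change χ (PowerSeries.map C (C a)) = C a
        rw [map_C, hχ] }
  have hφ : ∀ f, φ f = χ (ι f) := fun _ => rfl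
  refine ⟨φ, ?_, ?_⟩
  · rw [hφ, show ι X = X from map_X _, ← mem_max_iff]
    exact (mem_max_iff _).1 h4
  · have h5 : χ g = 0 := by
      change constantCoeff (Ψ g) = 0
      rw [h3, constantCoeff_X]
    rw [hg, map_ch, hχ, map_one] at h5
    exact h5

end Pool.Agent.MP_deef5c_ag.E
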