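import Pool.Agent.MP_deef5c_ag.E.ADa

/-! The congruences for the top step, first part. -/

open PowerSeries IsLocalRing Function Pool.Agent.MP_deef5c_ag.O
open scoped Polynomial

namespace Pool.Agent.MP_deef5c_ag.E

universe u

variable {D : Type u} [CommRing D] {G : MF D} {s a a1 a2 b b1 b2 W W1 W2 θ : D}

theorem AD1_W (h : DA G s a a1 a2 b b1 b2 W W1 W2 θ) : W = θ * (b ^ 3 - a ^ 2 * b) := by
  linear_combination (-W) * h.inv - θ * h.e0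

theorem AD1_wt (h : DA G s a a1 a2 b b1 b2 W W1 W2 θ) :
    dr a1 b θ ∈ G.F 8 ∧ dr1 s a1 a2 b b1 θ ∈ G.F 7 ∧ dw a a1 a2 b b1 b2 W θ ∈ G.F 13 ∧
      dρ a a1 b θ ∈ G.F 8 ∧ dω a a1 b b1 b2 W θ ∈ G.F 13 := by
  have : HW G a 3 := ⟨h.ma⟩
  have : HW G a1 2 := ⟨h.ma1⟩
  have : HW G a2 1 := ⟨h.ma2⟩
  have : HW G b 3 := ⟨h.mb⟩
  have : HW G b1 2 := ⟨h.mb1⟩
  have : HW G b2 1 := ⟨h.mb2⟩
  have : HW G W 9 := ⟨h.mW⟩
  unfold dr dr1 dw dρ dω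
  exact ⟨HW.of (by norm_num), HW.of (by norm_num), HW.of (by norm_num), HW.of (by norm_num),
    HW.of (by norm_num)⟩

theorem AD1_var {x y : D} {n : ℕ} (h : x - y ∈ G.F n) : ∃ e ∈ G.F n, x = y + e :=
  ⟨x - y, h, by ring⟩

/-- Put `Θ = 1 - s + s^3`, `Ξ = b^3 - a^2 b = Θ W`, `p = 2 a1 b + a b1`.  Modulo multiples of `3` (weight `16`
plus the weight of the cofactor): `Θ W1 = -a p + W`, `Θ W2 = Ξ2 + 2 W1` with
`Ξ2 = -2 a1^2 b - a (2 a2 b + 4 a1 b1 + a b2)`, so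
`Θ^2 (W1^2 + W W2) = (a p)^2 + Ξ Ξ2 - W a p = a1^2 b^4 - Θ^2 a dw`.  Multiply by `θ^2`.
Method: introduce `W1 = θ (...)`, `W2 = θ (...)` from `e1`, `e2`, `inv`; prove an exact identity
`lhs = (W1^2 + W W2 + 3) + 3 * (...)` by `linear_combination`, then use `HW.of`. -/
theorem d1 (h : DA G s a a1 a2 b b1 b2 W W1 W2 θ) :
    dr a1 b θ ^ 2 + 3 - a * dw a a1 a2 b b1 b2 W θ ∈ G.F 19 ∧ dw a a1 a2 b b1 b2 W θ ∈ G.F 13 := by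
  refine ⟨?_, (AD1_wt h).2.2.1⟩
  have hW := AD1_W h
  obtain ⟨α, e1⟩ : ∃ α, W1 = θ * (W - a * (2 * a1 * b + a * b1)) + 3 * α :=
    ⟨θ * (b ^ 2 * b1 - s ^ 2 * W), by linear_combination (-W1) * h.inv - θ * h.e1⟩
  obtain ⟨β, e2⟩ : ∃ β, W2 = θ * (-2 * a1 ^ 2 * b - a * (2 * a2 * b + 4 * a1 * b1 + a * b2) +
      2 * W1) + 3 * β :=
    ⟨θ * (2 * b * b1 ^ 2 + b ^ 2 * b2 - 2 * s * W - 2 * s ^ 2 * W1), by
      linear_combination (-W2) * h.inv - θ * h.e2⟩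
  have e : dr a1 b θ ^ 2 + 3 - a * dw a a1 a2 b b1 b2 W θ = (W1 ^ 2 + W * W2 + 3) +
      3 * (θ ^ 2 * a1 ^ 2 * b ^ 4 - 2 * α * θ * (W - a * (2 * a1 * b + a * b1)) - 3 * α ^ 2 -
        2 * θ * W * α - W * β - θ ^ 2 * (W ^ 2 - a * (2 * a1 * b + a * b1) * W)) := by
    rw [e2, e1]
    unfold dr dw
    linear_combination
      (-θ * (-2 * a1 ^ 2 * b - a * (2 * a2 * b + 4 * a1 * b1 + a * b2))) * hW
  rw [e]
  refine add_mem h.p ?_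
  have : HW G (3 : D) 16 := ⟨h.three⟩
  have : HW G a 3 := ⟨h.ma⟩
  have : HW G b 3 := ⟨h.mb⟩
  have : HW G W 9 := ⟨h.mW⟩
  exact HW.of (by norm_num)

/-- Modulo weight `19`: `ah - a ≡ a1 W = a1 θ (b^3 - a^2 b)`, the second term is `2 b r = 2 a1 b^3 θ`, the
third is `2 a1 θ a^2 b`; the sum is a multiple of `3`. -/
theorem d2 (h : DA G s a a1 a2 b b1 b2 W W1 W2 θ) {δ ah rh : D} (hδ : δ - W ∈ G.F 17)
    (ha : ah - a - a1 * δ ∈ G.F 19) (hr : rh - dr a1 b θ ∈ G.F 16) :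
    ah - a + (b - b1 * W) * (dr a1 b θ + rh) - dρ a a1 b θ * (a + ah) ∈ G.F 19 := by
  have hW := AD1_W h
  obtain ⟨w1, -, -, w2, -⟩ := AD1_wt h
  obtain ⟨ε, hε, rfl⟩ := AD1_var hδ
  obtain ⟨η, hη, e1⟩ := AD1_var (show ah - (a + a1 * (W + ε)) ∈ G.F 19 by rwa [← sub_sub])
  obtain ⟨ζ, hζ, e2⟩ := AD1_var hr
  have e : ah - a + (b - b1 * W) * (dr a1 b θ + rh) - dρ a a1 b θ * (a + ah) =
      3 * (a1 * θ * (b ^ 3 - a ^ 2 * b)) + a1 * ε + η + b * ζ -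
        b1 * W * (2 * dr a1 b θ + ζ) - dρ a a1 b θ * (a1 * (W + ε) + η) := by
    rw [e1, e2]
    unfold dr dρ
    linear_combination a1 * hW
  rw [e]
  generalize dr a1 b θ = r at w1 ⊢
  generalize dρ a a1 b θ = t at w2 ⊢
  have : HW G (3 : D) 16 := ⟨h.three⟩
  have : HW G a 3 := ⟨h.ma⟩
  have : HW G a1 2 := ⟨h.ma1⟩
  have : HW G b 3 := ⟨h.mb⟩
  have : HW G b1 2 := ⟨h.mb1⟩
  have : HW G W 9 := ⟨h.mW⟩
  have : HW G r 8 := ⟨w1⟩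
  have : HW G t 8 := ⟨w2⟩
  have : HW G ε 17 := ⟨hε⟩
  have : HW G η 19 := ⟨hη⟩
  have : HW G ζ 16 := ⟨hζ⟩
  exact HW.of (by norm_num)

/-- Modulo weight `19` the expression is `b dw + dr1 W - a dω`, which is a multiple of `3` of weight
`32` after using `W = θ (b^3 - a^2 b)` in the terms `a2 b^2 θ W` and `2 a1 b b1 θ W`. -/
theorem d3 (h : DA G s a a1 a2 b b1 b2 W W1 W2 θ) {δ ah rh w ρ : D} (hδ : δ - W ∈ G.F 17)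
    (ha : ah - a - a1 * δ ∈ G.F 19) (hr : rh - dr a1 b θ - dr1 s a1 a2 b b1 θ * δ ∈ G.F 19)
    (hw : w - dw a a1 a2 b b1 b2 W θ ∈ G.F 16) (hρ : ρ ∈ G.F 8) :
    (b - b1 * W) * w + (1 + ρ) * (rh - dr a1 b θ) - ah * dω a a1 b b1 b2 W θ ∈ G.F 19 ∧
      dω a a1 b b1 b2 W θ ∈ G.F 13 := by
  have hW := AD1_W h
  obtain ⟨-, w1, w2, -, w3⟩ := AD1_wt h
  refine ⟨?_, w3⟩
  obtain ⟨ε, hε, rfl⟩ := AD1_var hδ
  obtain ⟨η, hη, e1⟩ := AD1_var (show ah - (a + a1 * (W + ε)) ∈ G.F 19 by rwa [← sub_sub])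
  obtain ⟨ζ, hζ, e2⟩ := AD1_var hr
  obtain ⟨ν, hν, e3⟩ := AD1_var hw
  have e : (b - b1 * W) * w + (1 + ρ) * (rh - dr a1 b θ) - ah * dω a a1 b b1 b2 W θ =
      3 * (θ ^ 2 * (b * (b ^ 3 - a ^ 2 * b) * (a2 * b + 2 * a1 * b1) +
        a1 * b ^ 2 * W * (1 - s ^ 2))) + b * ν - b1 * W * (dw a a1 a2 b b1 b2 W θ + ν) +
        dr1 s a1 a2 b b1 θ * ε + ζ + ρ * (dr1 s a1 a2 b b1 θ * (W + ε) + ζ) -
        (a1 * (W + ε) + η) * dω a a1 b b1 b2 W θ := by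
    have e0 : b * dw a a1 a2 b b1 b2 W θ + dr1 s a1 a2 b b1 θ * W - a * dω a a1 b b1 b2 W θ =
        3 * (θ ^ 2 * (b * (b ^ 3 - a ^ 2 * b) * (a2 * b + 2 * a1 * b1) +
          a1 * b ^ 2 * W * (1 - s ^ 2))) := by
      unfold dw dr1 dω
      linear_combination (a2 * b ^ 2 * θ + 2 * a1 * b * b1 * θ) * hW
    rw [e1, e3]
    linear_combination e0 + (1 + ρ) * e2
  rw [e]
  generalize dr1 s a1 a2 b b1 θ = r at w1 ⊢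
  generalize dw a a1 a2 b b1 b2 W θ = t at w2 ⊢
  generalize dω a a1 b b1 b2 W θ = v at w3 ⊢
  have : HW G (3 : D) 16 := ⟨h.three⟩
  have : HW G a1 2 := ⟨h.ma1⟩
  have : HW G b 3 := ⟨h.mb⟩
  have : HW G b1 2 := ⟨h.mb1⟩
  have : HW G W 9 := ⟨h.mW⟩
  have : HW G r 7 := ⟨w1⟩
  have : HW G t 13 := ⟨w2⟩
  have : HW G v 13 := ⟨w3⟩
  have : HW G ρ 8 := ⟨hρ⟩
  have : HW G ε 17 := ⟨hε⟩
  have : HW G η 19 := ⟨hη⟩
  have : HW G ζ 19 := ⟨hζ⟩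
  have : HW G ν 16 := ⟨hν⟩
  exact HW.of (by norm_num)

end Pool.Agent.MP_deef5c_ag.E
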