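import Pool.Agent.MP_deef5c_ag.E.ADa

/-! The congruences for the top step, second part. -/

open PowerSeries IsLocalRing Function Pool.Agent.MP_deef5c_ag.O
open scoped Polynomial

namespace Pool.Agent.MP_deef5c_ag.E

universe u

variable {D : Type u} [CommRing D] {G : MF D} {s a a1 a2 b b1 b2 W W1 W2 θ : D}

theorem AD4_B {a r ρ ω : D} (h3 : (3 : D) ∈ G.F 16) (ha : a ∈ G.F 3) (hr : r ∈ G.F 8)
    (hρ : ρ ∈ G.F 8) (hω : ω ∈ G.F 13) :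
    Qf (1 - ρ) (-(ω * a) - (1 - ρ) * r) - (1 - r ^ 2) ∈ G.F 21 := by
  have : HW G (3 : D) 16 := ⟨h3⟩
  have : HW G a 3 := ⟨ha⟩
  have : HW G r 8 := ⟨hr⟩
  have : HW G ρ 8 := ⟨hρ⟩
  have : HW G ω 13 := ⟨hω⟩
  have e : Qf (1 - ρ) (-(ω * a) - (1 - ρ) * r) - (1 - r ^ 2) =
      (1 - r ^ 2) * (3 * ρ ^ 2 - 3 * ρ - ρ ^ 3) -
        (1 - ρ) * (ω ^ 2 * a ^ 2 + 2 * ω * a * (1 - ρ) * r) := by
    unfold Qf
    ring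
  rw [e]
  exact HW.of (by norm_num)

theorem AD4_C {β r ρ w : D} (h3 : (3 : D) ∈ G.F 16) (hb : β ∈ G.F 3) (hr : r ∈ G.F 8)
    (hρ : ρ ∈ G.F 8) (hw : w ∈ G.F 13) :
    Qf (1 + ρ) ((1 + ρ) * r - β * w) - (1 - r ^ 2) ∈ G.F 21 := by
  have : HW G (3 : D) 16 := ⟨h3⟩
  have : HW G β 3 := ⟨hb⟩
  have : HW G r 8 := ⟨hr⟩
  have : HW G ρ 8 := ⟨hρ⟩
  have : HW G w 13 := ⟨hw⟩
  have e : Qf (1 + ρ) ((1 + ρ) * r - β * w) - (1 - r ^ 2) =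
      (1 - r ^ 2) * (3 * ρ ^ 2 + 3 * ρ + ρ ^ 3) -
        (1 + ρ) * (β ^ 2 * w ^ 2 - 2 * β * w * (1 + ρ) * r) := by
    unfold Qf
    ring
  rw [e]
  exact HW.of (by norm_num)

theorem AD4_E {r ρ w ω : D} (hr : r ∈ G.F 8) (hw : w ∈ G.F 13) (hω : ω ∈ G.F 13) :
    Qf (-ω) (-(ω * r) - (1 - ρ) * w) ∈ G.F 39 := by
  have : HW G r 8 := ⟨hr⟩
  have : HW G w 13 := ⟨hw⟩
  have : HW G ω 13 := ⟨hω⟩
  unfold Qf
  exact HW.of (by norm_num)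

theorem AD4_A {e : D} (h3 : (3 : D) ∈ G.F 16) (ha : a ∈ G.F 3) (ha1 : a1 ∈ G.F 2)
    (hb : b ∈ G.F 3) (hb1 : b1 ∈ G.F 2) (hW : W ∈ G.F 9) (he : e ∈ G.F 19) :
    Qf (b - b1 * W) (a - a1 * W + e) -
      (b ^ 3 - a ^ 2 * b + 2 * a * a1 * b * W + a ^ 2 * b1 * W) ∈ G.F 22 := by
  have : HW G (3 : D) 16 := ⟨h3⟩
  have : HW G a 3 := ⟨ha⟩
  have : HW G a1 2 := ⟨ha1⟩
  have : HW G b 3 := ⟨hb⟩
  have : HW G b1 2 := ⟨hb1⟩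
  have : HW G W 9 := ⟨hW⟩
  have : HW G e 19 := ⟨he⟩
  have e1 : Qf (b - b1 * W) (a - a1 * W + e) -
      (b ^ 3 - a ^ 2 * b + 2 * a * a1 * b * W + a ^ 2 * b1 * W) =
      3 * b * b1 ^ 2 * W ^ 2 - 3 * b ^ 2 * b1 * W - b1 ^ 3 * W ^ 3 - 2 * a * b * e -
        b * (e - a1 * W) ^ 2 + 2 * a * b1 * W * (e - a1 * W) + b1 * W * (e - a1 * W) ^ 2 := by
    unfold Qf
    ring
  rw [e1]
  exact HW.of (by norm_num)

theorem AD4_T (h : DA G s a a1 a2 b b1 b2 W W1 W2 θ) {e : D} (he : e ∈ G.F 22) :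
    s + (W - W * W1 + e) + (s + (W - W * W1 + e)) ^ 2 - 2 * (s + (W - W * W1 + e)) ^ 4 -
      (s + s ^ 2 - 2 * s ^ 4) -
      (b ^ 3 - a ^ 2 * b + 2 * a * a1 * b * W + a ^ 2 * b1 * W) ∈ G.F 22 := by
  have : HW G (3 : D) 16 := ⟨h.three⟩
  have : HW G s 1 := ⟨h.ms⟩
  have : HW G b 3 := ⟨h.mb⟩
  have : HW G b1 2 := ⟨h.mb1⟩
  have : HW G W 9 := ⟨h.mW⟩
  have : HW G W1 8 := ⟨h.mW1⟩
  have : HW G e 22 := ⟨he⟩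
  obtain ⟨δ, hδ⟩ : ∃ δ, δ = W - W * W1 + e := ⟨_, rfl⟩
  have : HW G δ 9 := ⟨by rw [hδ]; exact HW.of (by norm_num)⟩
  have e1 : s + δ + (s + δ) ^ 2 - 2 * (s + δ) ^ 4 - (s + s ^ 2 - 2 * s ^ 4) -
      (b ^ 3 - a ^ 2 * b + 2 * a * a1 * b * W + a ^ 2 * b1 * W) =
      3 * (s - 3 * s ^ 3) * δ - 3 * (4 * s ^ 2 * δ ^ 2) - 8 * s * δ ^ 3 - 2 * δ ^ 4 +
        (e - W * W1) * (δ + W) + (1 - s + s ^ 3) * e - 3 * b ^ 2 * b1 * W + 3 * s ^ 2 * W ^ 2 := by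
    linear_combination (1 - s + s ^ 3 + δ + W) * hδ - h.e0 + W * h.e1
  rw [← hδ, e1]
  exact HW.of (by norm_num)

/-- All congruences modulo weight `22`; `r = dr`, `β = b - b1 W`, `Θ = 1 - s + s^3`.
(1) `Qf (1 - ρ) (-(ω a) - (1 - ρ) r) ≡ 1 - r^2 ≡ Qf (1 + ρ) ((1 + ρ) r - β w)` modulo weight `21` (the terms
`3 ρ`, `ρ^3` have weight `24`), and the last `Qf` has weight `39`; so the terms with `T`, `Th` give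
`-(Th - T) (1 - r^2) ≡ -(Th - T)` since `Th - T` has weight `9`.
(2) `(1 + ρ) a - β r = a + ε`, `ε ≡ dρ a - b r = - a1 θ (b^3 - a^2 b) = - a1 W` modulo weight `19`, so the first
`Qf` is `≡ b^3 - a^2 b + 2 a1 a b W + a^2 b1 W`.
(3) `Th - T ≡ (1 + 2 s - 8 s^3) δ + δ^2 ≡ Θ δ + W^2 ≡ Θ W - Θ W W1 + W^2`, and
`Θ W1 ≡ -2 a a1 b - a^2 b1 + W` by `e1`.  Everything cancels. -/
theorem d4 (h : DA G s a a1 a2 b b1 b2 W W1 W2 θ) {δ w ρ ω T Th : D}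
    (hδ : δ - (W - W * W1) ∈ G.F 22) (hw : w ∈ G.F 13) (hω : ω ∈ G.F 13)
    (hρ : ρ - dρ a a1 b θ ∈ G.F 16) (hT : T ∈ G.F 1)
    (hd : Th - T - (s + δ + (s + δ) ^ 2 - 2 * (s + δ) ^ 4 - (s + s ^ 2 - 2 * s ^ 4)) ∈ G.F 22) :
    NE a (dr a1 b θ) w T Th (b - b1 * W) ρ ω ∈ G.F 22 := by
  have : HW G a 3 := ⟨h.ma⟩
  have : HW G a1 2 := ⟨h.ma1⟩
  have : HW G b 3 := ⟨h.mb⟩
  have : HW G b1 2 := ⟨h.mb1⟩
  have : HW G W 9 := ⟨h.mW⟩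
  have hr : dr a1 b θ ∈ G.F 8 := by
    unfold dr
    exact HW.of (by norm_num)
  have hρ0 : dρ a a1 b θ ∈ G.F 8 := by
    unfold dρ
    exact HW.of (by norm_num)
  have hρ8 : ρ ∈ G.F 8 := by
    have := add_mem (G.le hρ (by norm_num : 8 ≤ 16)) hρ0
    rwa [sub_add_cancel] at this
  have hβ : b - b1 * W ∈ G.F 3 := HW.of (by norm_num)
  have hB := AD4_B h.three h.ma hr hρ8 hω
  have hC := AD4_C h.three hβ hr hρ8 hw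
  have hE := AD4_E (ρ := ρ) hr hw hω
  have hT' := AD4_T h hδ
  rw [show W - W * W1 + (δ - (W - W * W1)) = δ by ring] at hT'
  obtain ⟨η, hη⟩ : ∃ η, η = ρ - dρ a a1 b θ := ⟨_, rfl⟩
  obtain ⟨r, hr'⟩ : ∃ r, r = dr a1 b θ := ⟨_, rfl⟩
  rw [← hη] at hρ
  have : HW G η 16 := ⟨hρ⟩
  have : HW G r 8 := ⟨hr' ▸ hr⟩
  have he : η * a + b1 * W * r ∈ G.F 19 := HW.of (by norm_num)
  have hA := AD4_A h.three h.ma h.ma1 h.mb h.mb1 h.mW he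
  have e1 : a - a1 * W + (η * a + b1 * W * r) = (1 + ρ) * a - (b - b1 * W) * r := by
    unfold dρ at hη
    unfold dr at hr'
    linear_combination a * hη + b * hr' + a1 * θ * h.e0 + a1 * W * h.inv
  rw [e1] at hA
  rw [← hr'] at hB hC hE ⊢
  unfold NE
  obtain ⟨P, hP⟩ : ∃ P, P = b ^ 3 - a ^ 2 * b + 2 * a * a1 * b * W + a ^ 2 * b1 * W := ⟨_, rfl⟩
  have : HW G P 9 := ⟨by rw [hP]; exact HW.of (by norm_num)⟩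
  rw [← hP] at hA hT'
  have hTT : Th - T - P ∈ G.F 22 := by
    have := add_mem hd hT'
    rwa [sub_add_sub_cancel] at this
  generalize Qf (b - b1 * W) ((1 + ρ) * a - (b - b1 * W) * r) = qA at hA ⊢
  generalize Qf (1 - ρ) (-(ω * a) - (1 - ρ) * r) = qB at hB ⊢
  generalize Qf (1 + ρ) ((1 + ρ) * r - (b - b1 * W) * w) = qC at hC ⊢
  generalize Qf (-ω) (-(ω * r) - (1 - ρ) * w) = qE at hE ⊢
  obtain ⟨xA, rfl⟩ : ∃ x, qA = x + P := ⟨qA - P, by ring⟩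
  obtain ⟨xB, rfl⟩ : ∃ x, qB = x + (1 - r ^ 2) := ⟨qB - (1 - r ^ 2), by ring⟩
  obtain ⟨xC, rfl⟩ : ∃ x, qC = x + (1 - r ^ 2) := ⟨qC - (1 - r ^ 2), by ring⟩
  obtain ⟨xT, rfl⟩ : ∃ x, Th = x + P + T := ⟨Th - T - P, by ring⟩
  rw [add_sub_cancel_right] at hA hB hC
  rw [show xT + P + T - T - P = xT by ring] at hTT
  have : HW G xA 22 := ⟨hA⟩
  have : HW G xB 21 := ⟨hB⟩
  have : HW G xC 21 := ⟨hC⟩
  have : HW G qE 39 := ⟨hE⟩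
  have : HW G xT 22 := ⟨hTT⟩
  have : HW G T 1 := ⟨hT⟩
  have e2 : xA + P - (xT + P + T) * (xB + (1 - r ^ 2)) +
      T * (xC + (1 - r ^ 2) - (xT + P + T) * qE) =
      xA - xT + (xT + P) * r ^ 2 - (xT + P + T) * xB + T * xC - T * (xT + P + T) * qE := by
    ring
  rw [e2]
  exact HW.of (by norm_num)

end Pool.Agent.MP_deef5c_ag.E
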