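import Pool.Agent.MP_deef5c_ag.E.Defs

/-! The congruences for the top step: definitions. -/

open PowerSeries IsLocalRing Function Pool.Agent.MP_deef5c_ag.O
open scoped Polynomial

namespace Pool.Agent.MP_deef5c_ag.E

universe u

variable {D : Type u} [CommRing D]

/-- `a1, a2` etc. play the role of first and second derivatives -/
structure DA (G : MF D) (s a a1 a2 b b1 b2 W W1 W2 θ : D) : Prop where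
  three : (3 : D) ∈ G.F 16
  ms : s ∈ G.F 1
  ma : a ∈ G.F 3
  ma1 : a1 ∈ G.F 2
  ma2 : a2 ∈ G.F 1
  mb : b ∈ G.F 3
  mb1 : b1 ∈ G.F 2
  mb2 : b2 ∈ G.F 1
  mW : W ∈ G.F 9
  mW1 : W1 ∈ G.F 8
  mW2 : W2 ∈ G.F 7
  inv : (1 - s + s ^ 3) * θ = 1
  e0 : b ^ 3 - a ^ 2 * b = (1 - s + s ^ 3) * W
  e1 : 3 * b ^ 2 * b1 - 2 * a * a1 * b - a ^ 2 * b1 = (-1 + 3 * s ^ 2) * W + (1 - s + s ^ 3) * W1
  e2 : 6 * b * b1 ^ 2 + 3 * b ^ 2 * b2 - 2 * a1 ^ 2 * b - 2 * a * a2 * b - 4 * a * a1 * b1 -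
    a ^ 2 * b2 = 6 * s * W + 2 * (-1 + 3 * s ^ 2) * W1 + (1 - s + s ^ 3) * W2
  p : W1 ^ 2 + W * W2 + 3 ∈ G.F 19

def dr (a1 b θ : D) : D := a1 * b ^ 2 * θ

def dr1 (s a1 a2 b b1 θ : D) : D :=
  a2 * b ^ 2 * θ + 2 * a1 * b * b1 * θ + a1 * b ^ 2 * θ ^ 2 * (1 - 3 * s ^ 2)

def dw (a a1 a2 b b1 b2 W θ : D) : D :=
  -(θ ^ 2 * (a * (2 * a1 * b + a * b1) ^ 2 + 2 * a * a1 ^ 2 * b ^ 2 -
    (b ^ 3 - a ^ 2 * b) * (2 * a2 * b + 4 * a1 * b1 + a * b2) - W * (2 * a1 * b + a * b1)))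

def dρ (a a1 b θ : D) : D := a1 * θ * a * b

def dω (a a1 b b1 b2 W θ : D) : D :=
  θ ^ 2 * b * (b2 * (b ^ 3 - a ^ 2 * b) + b1 * W - (2 * a1 * b + a * b1) ^ 2 - 2 * a1 ^ 2 * b ^ 2)

end Pool.Agent.MP_deef5c_ag.E
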