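import Pool.Agent.MP_deef5c_ag.E.AFil

/-! The certificate read in power series. -/

open PowerSeries IsLocalRing Function Pool.Agent.MP_deef5c_ag.O
open scoped Polynomial

namespace Pool.Agent.MP_deef5c_ag.E

universe u

variable {A k : Type u} [CommRing A] [IsLocalRing A] [Field k] {Φ : MF A}

theorem ADat_three (hΦ : Φ.Loc 16) (h3 : (3 : A) ∈ Φ.F 16) {a : A} {i : ℕ} (ha : a ∈ Φ.F (i + 1)) :
    3 * (C a : A⟦X⟧) = 0 := by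
  have h1 : 3 * a ∈ Φ.F (16 + 1) := Φ.mul h3 (Φ.le ha (by omega))
  rw [hΦ.top, Ideal.mem_bot] at h1
  rw [← map_ofNat (C : A →+* A⟦X⟧) 3, ← map_mul, h1, map_zero]

theorem ADat_red (hΦ : Φ.Loc 16) {π : A →+* k} (hπ : Surjective π) {a : A} {i : ℕ}
    (ha : a ∈ Φ.F (i + 1)) : π a = 0 := by
  have h1 : a ∈ Φ.F 1 := Φ.le ha (by omega)
  rw [hΦ.one, ← ker_eq_maximalIdeal π hπ, RingHom.mem_ker] at h1
  exact h1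

omit [IsLocalRing A] in
theorem ADat_three_ps (h3 : (3 : A) ∈ Φ.F 16) : (3 : A⟦X⟧) ∈ Φ.ps.F 16 := by
  rw [← map_ofNat (C : A →+* A⟦X⟧) 3]
  exact Φ.C_mem h3

omit [IsLocalRing A] in
theorem ADat_mc {v1 v2 u2 u3 h0 h1 : A} (h : Cert Φ v1 v2 u2 u3 h0 h1) (j : ℕ) (hj : j < 8) :
    cc v1 v2 u2 u3 h0 h1 j ∈ Φ.F (9 - j) := by
  have : HW Φ v1 1 := ⟨h.mv1⟩
  have : HW Φ v2 2 := ⟨h.mv2⟩
  have : HW Φ u2 2 := ⟨h.mu2⟩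
  have : HW Φ u3 3 := ⟨h.mu3⟩
  have : HW Φ h0 3 := ⟨h.mh0⟩
  have : HW Φ h1 2 := ⟨h.mh1⟩
  interval_cases j <;> simp only [cc, cB, cC, cD, cU] <;> exact HW.of (by norm_num)

/-- `3 * a = 0` for `a ∈ F 1` since `F 17 = ⊥`; apply `C` to these relations and to the equations.
`eqC` is `X^5 e5 + X^6 e6 + X^7 e7` up to multiples of `3 v1, 3 v2, 3 u2, 3 u3, 3 h0, 3 h1`, and `eqP` is
`x^3 p3 + x^2 p2 + x p1 + p0` exactly. -/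
theorem dat_of_cert (hΦ : Φ.Loc 16) (π : A →+* k) (hπ : Surjective π) {v1 v2 u2 u3 h0 h1 : A}
    (h : Cert Φ v1 v2 u2 u3 h0 h1) :
    Dat Φ π (X ^ 3 + C v1 * X ^ 2 + C v2 * X) (C (cU h1) * X ^ 2 + C u2 * X + C u3)
      (C h1 * X + C h0) (cc v1 v2 u2 u3 h0 h1) := by
  have : HW Φ v1 1 := ⟨h.mv1⟩
  have : HW Φ v2 2 := ⟨h.mv2⟩
  have : HW Φ u2 2 := ⟨h.mu2⟩
  have : HW Φ u3 3 := ⟨h.mu3⟩
  have : HW Φ h0 3 := ⟨h.mh0⟩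
  have : HW Φ h1 2 := ⟨h.mh1⟩
  have mU : cU h1 ∈ Φ.F 2 := by
    rw [cU]
    exact HW.of (by norm_num)
  have : HW Φ (cU h1) 2 := ⟨mU⟩
  have t1 := ADat_three hΦ h.three h.mv1
  have t2 := ADat_three hΦ h.three h.mv2
  have t3 := ADat_three hΦ h.three h.mu2
  have t4 := ADat_three hΦ h.three h.mu3
  have t5 := ADat_three hΦ h.three mU
  refine ⟨h.three, HW.of (by norm_num), HW.of (by norm_num), ADat_mc h, ?_, ?_, ?_, ?_, ?_, ?_⟩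
  · simp [ADat_red hΦ hπ h.mv1, ADat_red hΦ hπ h.mv2]
  · simp [ADat_red hΦ hπ mU, ADat_red hΦ hπ h.mu2, ADat_red hΦ hπ h.mu3]
  · simp [ADat_red hΦ hπ h.mh0, ADat_red hΦ hπ h.mh1]
  · linear_combination X ^ 2 * t5 + X * t3 + t4
  · have E5 := congrArg (C : A →+* A⟦X⟧) h.e5
    have E6 := congrArg (C : A →+* A⟦X⟧) h.e6
    have E7 := congrArg (C : A →+* A⟦X⟧) h.e7
    simp only [WW, w0, w1, w2, cc, Th, cU, cB, cC, cD, map_add, map_sub, map_mul, map_pow, map_neg,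
      map_ofNat, map_zero] at E5 E6 E7 ⊢
    generalize (C v1 : A⟦X⟧) = v1 at *
    generalize (C v2 : A⟦X⟧) = v2 at *
    generalize (C u2 : A⟦X⟧) = u2 at *
    generalize (C u3 : A⟦X⟧) = u3 at *
    generalize (C h0 : A⟦X⟧) = h0 at *
    generalize (C h1 : A⟦X⟧) = h1 at *
    linear_combination X ^ 5 * E5 + X ^ 6 * E6 + X ^ 7 * E7 +
      (-X * u3 ^ 2 - X ^ 2 * u2 * u3 - 2 * X ^ 3 * u3 * h1 + 2 * X ^ 3 * u3 * h1 ^ 2 -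
        X ^ 4 * u2 * h1 + X ^ 4 * u2 * h1 ^ 2 - X ^ 5 * h1 ^ 2 + 2 * X ^ 5 * h1 ^ 3 -
        X ^ 5 * h1 ^ 4) * t3 +
      (-X ^ 2 * u3 * h1 + X ^ 2 * u3 * h1 ^ 2 - X ^ 4 * h1 ^ 2 + 2 * X ^ 4 * h1 ^ 3 -
        X ^ 4 * h1 ^ 4) * t4 +
      (-X ^ 4 * v2 ^ 2 - X ^ 4 * v2 ^ 2 * h0 + X ^ 5 * v2 ^ 2 - X ^ 5 * v2 ^ 2 * h1 -
        X ^ 5 * v1 * v2 - X ^ 5 * v1 * v2 * h0 - 2 * X ^ 6 * v2 - 2 * X ^ 6 * v2 * h0 +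
        X ^ 6 * v1 * v2 - X ^ 6 * v1 * v2 * h1 + 2 * X ^ 7 * v2 - 2 * X ^ 7 * v2 * h1 -
        X ^ 7 * v2 ^ 2 - X ^ 7 * v1 - X ^ 7 * v1 * h0 - X ^ 8 - X ^ 8 * h0 + X ^ 8 * v1 -
        X ^ 8 * v1 * h1 - X ^ 8 * v1 * v2 + X ^ 9 - X ^ 9 * h1 - 2 * X ^ 9 * v2 - X ^ 10 * v1 -
        X ^ 11) * t1 +
      (-X ^ 5 * v2 - X ^ 5 * v2 * h0 + X ^ 6 * v2 - X ^ 6 * v2 * h1 - X ^ 7 - X ^ 7 * h0 + X ^ 8 -
        X ^ 8 * h1 - X ^ 8 * v2 - X ^ 10) * t2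
  · intro x
    have P3 := congrArg (C : A →+* A⟦X⟧) h.p3
    have P2 := congrArg (C : A →+* A⟦X⟧) h.p2
    have P1 := congrArg (C : A →+* A⟦X⟧) h.p1
    have P0 := congrArg (C : A →+* A⟦X⟧) h.p0
    simp only [w0, w1, w2, cc, cB, map_add, map_sub, map_mul, map_pow, map_neg,
      map_ofNat, map_zero] at P3 P2 P1 P0 ⊢
    linear_combination x ^ 3 * P3 + x ^ 2 * P2 + x * P1 + P0

omit [IsLocalRing A] in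
theorem ADat_WW (c : ℕ → A) : WW c = X ^ 9 + C (c 7) * X ^ 7 + C (c 6) * X ^ 6 + C (c 5) * X ^ 5 +
    C (c 4) * X ^ 4 + C (c 3) * X ^ 3 + C (c 2) * X ^ 2 + C (c 1) * X + C (c 0) := by
  simp only [WW, w0, w1, w2]
  ring

omit [IsLocalRing A] in
theorem ADat_d1 (c : ℕ → A) : d⁄dX A (WW c) = 9 * X ^ 8 + 7 * C (c 7) * X ^ 6 +
    6 * C (c 6) * X ^ 5 + 5 * C (c 5) * X ^ 4 + 4 * C (c 4) * X ^ 3 + 3 * C (c 3) * X ^ 2 +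
    2 * C (c 2) * X + C (c 1) := by
  rw [ADat_WW]
  simp only [map_add, Derivation.leibniz, Derivation.leibniz_pow, derivative_C, derivative_X,
    smul_eq_mul, nsmul_eq_mul]
  push_cast
  ring

omit [IsLocalRing A] in
theorem ADat_d2 (c : ℕ → A) : d⁄dX A (d⁄dX A (WW c)) = 72 * X ^ 7 + 42 * C (c 7) * X ^ 5 +
    30 * C (c 6) * X ^ 4 + 20 * C (c 5) * X ^ 3 + 12 * C (c 4) * X ^ 2 + 6 * C (c 3) * X +
    2 * C (c 2) := by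
  have h : ∀ n : ℕ, d⁄dX A (n : A⟦X⟧) = 0 := fun n => Derivation.map_natCast _ n
  have h9 := h 9
  have h7 := h 7
  have h6 := h 6
  have h5 := h 5
  have h4 := h 4
  have h3 := h 3
  have h2 := h 2
  push_cast at h9 h7 h6 h5 h4 h3 h2
  rw [ADat_d1]
  simp only [map_add, Derivation.leibniz, Derivation.leibniz_pow, derivative_C, derivative_X,
    smul_eq_mul, nsmul_eq_mul, h9, h7, h6, h5, h4, h3, h2]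
  push_cast
  ring

theorem WW_mem {π : A →+* k} {a u H : A⟦X⟧} {c : ℕ → A} (h : Dat Φ π a u H c) :
    WW c ∈ Φ.ps.F 9 := by
  have : HW Φ (c 0) 9 := ⟨h.mc 0 (by norm_num)⟩
  have : HW Φ (c 1) 8 := ⟨h.mc 1 (by norm_num)⟩
  have : HW Φ (c 2) 7 := ⟨h.mc 2 (by norm_num)⟩
  have : HW Φ (c 3) 6 := ⟨h.mc 3 (by norm_num)⟩
  have : HW Φ (c 4) 5 := ⟨h.mc 4 (by norm_num)⟩
  have : HW Φ (c 5) 4 := ⟨h.mc 5 (by norm_num)⟩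
  have : HW Φ (c 6) 3 := ⟨h.mc 6 (by norm_num)⟩
  have : HW Φ (c 7) 2 := ⟨h.mc 7 (by norm_num)⟩
  rw [ADat_WW]
  exact HW.of (by norm_num)

theorem WW_red (hΦ : Φ.Loc 16) {π : A →+* k} (hπ : Surjective π) {a u H : A⟦X⟧} {c : ℕ → A}
    (h : Dat Φ π a u H c) : PowerSeries.map π (WW c) = X ^ 9 := by
  have hc : ∀ j < 8, π (c j) = 0 := fun j hj =>
    ADat_red hΦ hπ (i := 0) (Φ.le (h.mc j hj) (by omega))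
  rw [ADat_WW]
  simp [hc]

/-- `W' = w1 + 2 X w2 + 3 (...)` (arguments `X^3`), with `(...)` of weight `8` -/
theorem WW_der {π : A →+* k} {a u H : A⟦X⟧} {c : ℕ → A} (h : Dat Φ π a u H c) :
    d⁄dX A (WW c) - (w1 c (X ^ 3) + 2 * X * w2 c (X ^ 3)) ∈ Φ.ps.F 24 := by
  have : HW Φ (c 3) 6 := ⟨h.mc 3 (by norm_num)⟩
  have : HW Φ (c 4) 5 := ⟨h.mc 4 (by norm_num)⟩
  have : HW Φ (c 5) 4 := ⟨h.mc 5 (by norm_num)⟩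
  have : HW Φ (c 6) 3 := ⟨h.mc 6 (by norm_num)⟩
  have : HW Φ (c 7) 2 := ⟨h.mc 7 (by norm_num)⟩
  have : HW Φ.ps (3 : A⟦X⟧) 16 := ⟨ADat_three_ps h.three⟩
  have e : d⁄dX A (WW c) - (w1 c (X ^ 3) + 2 * X * w2 c (X ^ 3)) =
      3 * (3 * X ^ 8 + 2 * C (c 7) * X ^ 6 + 2 * C (c 6) * X ^ 5 + C (c 5) * X ^ 4 +
        C (c 4) * X ^ 3 + C (c 3) * X ^ 2) := by
    rw [ADat_d1]
    simp only [w1, w2]
    ring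
  rw [e]
  exact HW.of (by norm_num)

/-- `W'' = 2 w2 + 3 (...)`, and `(w1 + 2 X w2)^2 + 2 W w2 = w1^2 - w0 w2 + 3 (...)` -/
theorem WW_P {π : A →+* k} {a u H : A⟦X⟧} {c : ℕ → A} (h : Dat Φ π a u H c) :
    d⁄dX A (WW c) ^ 2 + WW c * d⁄dX A (d⁄dX A (WW c)) + 3 ∈ Φ.ps.F 19 := by
  have : HW Φ (c 0) 9 := ⟨h.mc 0 (by norm_num)⟩
  have : HW Φ (c 1) 8 := ⟨h.mc 1 (by norm_num)⟩
  have : HW Φ (c 2) 7 := ⟨h.mc 2 (by norm_num)⟩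
  have : HW Φ (c 3) 6 := ⟨h.mc 3 (by norm_num)⟩
  have : HW Φ (c 4) 5 := ⟨h.mc 4 (by norm_num)⟩
  have : HW Φ (c 5) 4 := ⟨h.mc 5 (by norm_num)⟩
  have : HW Φ (c 6) 3 := ⟨h.mc 6 (by norm_num)⟩
  have : HW Φ (c 7) 2 := ⟨h.mc 7 (by norm_num)⟩
  have : HW Φ.ps (3 : A⟦X⟧) 16 := ⟨ADat_three_ps h.three⟩
  have : HW Φ.ps (WW c) 9 := ⟨WW_mem h⟩
  have : HW Φ.ps (w0 c (X ^ 3)) 9 := ⟨by
    rw [w0]
    exact HW.of (by norm_num)⟩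
  have : HW Φ.ps (w1 c (X ^ 3)) 8 := ⟨by
    rw [w1]
    exact HW.of (by norm_num)⟩
  have : HW Φ.ps (w2 c (X ^ 3)) 7 := ⟨by
    rw [w2]
    exact HW.of (by norm_num)⟩
  obtain ⟨δ, hδ⟩ : ∃ δ, δ = d⁄dX A (WW c) - (w1 c (X ^ 3) + 2 * X * w2 c (X ^ 3)) := ⟨_, rfl⟩
  have : HW Φ.ps δ 24 := ⟨hδ ▸ WW_der h⟩
  obtain ⟨ε, hε⟩ : ∃ ε : A⟦X⟧, ε = 24 * X ^ 7 + 14 * C (c 7) * X ^ 5 + 10 * C (c 6) * X ^ 4 +
    6 * C (c 5) * X ^ 3 + 4 * C (c 4) * X ^ 2 + 2 * C (c 3) * X := ⟨_, rfl⟩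
  have e1 : d⁄dX A (WW c) = w1 c (X ^ 3) + 2 * X * w2 c (X ^ 3) + δ := by
    rw [hδ]
    ring
  have e2 : d⁄dX A (d⁄dX A (WW c)) = 2 * w2 c (X ^ 3) + 3 * ε := by
    rw [ADat_d2, hε, w2]
    ring
  have e3 : WW c = w0 c (X ^ 3) + X * w1 c (X ^ 3) + X ^ 2 * w2 c (X ^ 3) := rfl
  have e : d⁄dX A (WW c) ^ 2 + WW c * d⁄dX A (d⁄dX A (WW c)) + 3 =
      δ * (2 * (w1 c (X ^ 3) + 2 * X * w2 c (X ^ 3)) + δ) + 3 * (WW c * ε) +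
        3 * (w0 c (X ^ 3) * w2 c (X ^ 3) + 2 * X * w1 c (X ^ 3) * w2 c (X ^ 3) +
          2 * X ^ 2 * w2 c (X ^ 3) ^ 2) := by
    rw [e2, e1]
    linear_combination h.eqP (X ^ 3) + 2 * w2 c (X ^ 3) * e3
  rw [e]
  exact HW.of (by norm_num)

end Pool.Agent.MP_deef5c_ag.E
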