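import Pool.Agent.MP_deef5c_ag.E.AFil

/-! Newton and Hensel for a cubic over a filtered ring. -/

open PowerSeries IsLocalRing Function Pool.Agent.MP_deef5c_ag.O
open scoped Polynomial

namespace Pool.Agent.MP_deef5c_ag.E

universe u

variable {A : Type u} [CommRing A] [IsLocalRing A] [IsArtinianRing A] {Φ : MF A}

theorem AHen_cubic {R : Type u} [CommRing R] [IsLocalRing R] [CL R] (a₂ a₁ a₀ θ₀ : R)
    (h0 : θ₀ ^ 3 + a₂ * θ₀ ^ 2 + a₁ * θ₀ + a₀ ∈ maximalIdeal R)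
    (h1 : IsUnit (3 * θ₀ ^ 2 + 2 * a₂ * θ₀ + a₁)) :
    ∃ θ : R, θ ^ 3 + a₂ * θ ^ 2 + a₁ * θ + a₀ = 0 ∧ θ - θ₀ ∈ maximalIdeal R := by
  have hm : (Polynomial.X ^ 3 + Polynomial.C a₂ * Polynomial.X ^ 2 + Polynomial.C a₁ * Polynomial.X
      + Polynomial.C a₀ : R[X]).Monic := by monicity!
  obtain ⟨θ, h2, h3⟩ := HenselianRing.is_henselian (I := maximalIdeal R) _ hm θ₀
    (by simpa using h0) (by
      refine IsUnit.map _ ?_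
      convert h1 using 1
      simp
      ring)
  exact ⟨θ, by simpa using h2, h3⟩

theorem AHen_unit {R : Type u} [CommRing R] [IsLocalRing R] {u m : R} (hu : IsUnit u)
    (hm : m ∈ maximalIdeal R) : IsUnit (u + m) := by
  by_contra h
  have h1 : u + m - m ∈ maximalIdeal R := sub_mem ((mem_maximalIdeal _).2 h) hm
  rw [add_sub_cancel_right] at h1
  exact (mem_maximalIdeal _).1 h1 hu

/-- Let `p` be the cubic.  `p ξ₀ = p' ξ₀ * z` with `z` of weight `e` (`div_mem`); `ξ₁ = ξ₀ - z` has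
`p ξ₁` of weight `2 e`, and `b = p' ξ₁` still has weight `d` with unit coefficient of `X^d` (the
difference has weight `e ≥ d + 1`).  Dividing twice, `p ξ₁ = b^2 y` with `y` of weight `2e - 2d ≥ 1`.
Look for `ξ = ξ₁ + b η` with `y + η + E₂ η^2 + e₃ b η^3 = 0`, `E₂ = 3 e₃ ξ₁ + e₂`: put `η = y / θ` where `θ`
is the root near `-1` of the monic polynomial `θ^3 + θ^2 + E₂ y θ + e₃ b y^2` (the ring `A⟦X⟧` is
complete local by `CL.powerSeries`, so Henselian: `IsAdicComplete.henselianRing`). -/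
theorem hen {e d : ℕ} (hΦ : Φ.Loc e) (hd : 0 < d) (he : 2 * d ≤ e) {e₃ e₂ e₁ e₀ ξ₀ : A⟦X⟧}
    (h0 : e₃ * ξ₀ ^ 3 + e₂ * ξ₀ ^ 2 + e₁ * ξ₀ + e₀ ∈ Φ.ps.F (e + d))
    (h1 : 3 * e₃ * ξ₀ ^ 2 + 2 * e₂ * ξ₀ + e₁ ∈ Φ.ps.F d)
    (hu : IsUnit (coeff d (3 * e₃ * ξ₀ ^ 2 + 2 * e₂ * ξ₀ + e₁))) :
    ∃ ξ, e₃ * ξ ^ 3 + e₂ * ξ ^ 2 + e₁ * ξ + e₀ = 0 ∧ ξ - ξ₀ ∈ Φ.ps.F d := by
  obtain ⟨z, hz, ez⟩ := div_mem hΦ h1 hu le_rfl h0
  obtain ⟨b, hb⟩ : ∃ b, b = 3 * e₃ * ξ₀ ^ 2 + 2 * e₂ * ξ₀ + e₁ +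
      z * (3 * e₃ * z - 2 * (3 * e₃ * ξ₀ + e₂)) := ⟨_, rfl⟩
  have hz' : z * (3 * e₃ * z - 2 * (3 * e₃ * ξ₀ + e₂)) ∈ Φ.ps.F e := Ideal.mul_mem_right _ _ hz
  have hbd : b ∈ Φ.ps.F d := hb ▸ add_mem h1 (Φ.ps.le hz' (by omega))
  have hbu : IsUnit (coeff d b) := by
    rw [hb, map_add]
    exact AHen_unit hu (hΦ.one ▸ Φ.le (hz' d) (by omega))
  have hp : z * z * (3 * e₃ * ξ₀ + e₂ - e₃ * z) ∈ Φ.ps.F (2 * e - d + d) :=
    Ideal.mul_mem_right _ _ (Φ.ps.le (Φ.ps.mul hz hz) (by omega))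
  obtain ⟨y₁, hy₁, ey₁⟩ := div_mem hΦ hbd hbu (by omega) hp
  obtain ⟨y, hy, ey⟩ := div_mem (n := 2 * e - 2 * d) hΦ hbd hbu (by omega)
    (Φ.ps.le hy₁ (by omega))
  have hym : y ∈ maximalIdeal A⟦X⟧ :=
    (mem_max_iff y).2 ((mem_one_iff hΦ).1 (Φ.ps.le hy (by omega)))
  obtain ⟨θ, eθ, hθ⟩ := AHen_cubic (1 : A⟦X⟧) ((3 * e₃ * (ξ₀ - z) + e₂) * y) (e₃ * b * y ^ 2) (-1)
    (by
      have : (-1 : A⟦X⟧) ^ 3 + 1 * (-1) ^ 2 + (3 * e₃ * (ξ₀ - z) + e₂) * y * -1 + e₃ * b * y ^ 2 =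
        (e₃ * b * y - (3 * e₃ * (ξ₀ - z) + e₂)) * y := by ring
      exact this ▸ Ideal.mul_mem_left _ _ hym)
    (by
      have : (3 : A⟦X⟧) * (-1) ^ 2 + 2 * 1 * -1 + (3 * e₃ * (ξ₀ - z) + e₂) * y =
        1 + (3 * e₃ * (ξ₀ - z) + e₂) * y := by ring
      exact this ▸ AHen_unit isUnit_one (Ideal.mul_mem_left _ _ hym))
  have hθu : IsUnit θ := by
    have := AHen_unit isUnit_one.neg hθ
    rwa [add_sub_cancel] at this
  obtain ⟨ι, hι⟩ := hθu.exists_right_inv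
  refine ⟨ξ₀ - z + b * (y * ι), ?_, ?_⟩
  · have e1 : y + y * ι + (3 * e₃ * (ξ₀ - z) + e₂) * (y * ι) ^ 2 + e₃ * b * (y * ι) ^ 3 = 0 := by
      linear_combination y * ι ^ 3 * eθ - (y * (θ ^ 2 * ι ^ 2 + θ * ι + 1) + y * ι * (θ * ι + 1)
        + (3 * e₃ * (ξ₀ - z) + e₂) * y ^ 2 * ι ^ 2) * hι
    have e2 : e₃ * (ξ₀ - z) ^ 3 + e₂ * (ξ₀ - z) ^ 2 + e₁ * (ξ₀ - z) + e₀ = b * (b * y) := by
      linear_combination ez + ey₁ + b * ey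
    linear_combination e2 + b ^ 2 * e1 - b * (y * ι) * hb
  · have : ξ₀ - z + b * (y * ι) - ξ₀ = b * (y * ι) - z := by ring
    exact this ▸ sub_mem (Ideal.mul_mem_right _ _ hbd) (Φ.ps.le hz (by omega))

/-- Artin-Schreier equations have solutions (Hensel; the derivative `3 γ^2 - 1` is a unit) -/
theorem as_root {k : Type u} [Field k] [CharP k 3] (π : A →+* k) (hπ : Surjective π) (f : A⟦X⟧)
    (c : k) (hc : c ^ 3 - c = π (constantCoeff f)) :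
    ∃ γ : A⟦X⟧, γ ^ 3 - γ = f ∧ π (constantCoeff γ) = c := by
  obtain ⟨a, rfl⟩ := hπ c
  have hk : ∀ x : A, x ∈ maximalIdeal A ↔ π x = 0 := fun x => by
    rw [← ker_eq_maximalIdeal π hπ, RingHom.mem_ker]
  have h3 : (3 : k) = 0 := by exact_mod_cast CharP.cast_eq_zero k 3
  obtain ⟨γ, eγ, hγ⟩ := AHen_cubic (0 : A⟦X⟧) (-1) (-f) (C a)
    (by
      rw [mem_max_iff, hk]
      simp only [map_add, map_mul, map_pow, map_neg, map_zero, map_one, constantCoeff_C]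
      linear_combination hc)
    (by
      have : (3 : A⟦X⟧) * C a ^ 2 + 2 * 0 * C a + -1 = -1 + 3 * C a ^ 2 := by ring
      refine this ▸ AHen_unit isUnit_one.neg ?_
      rw [mem_max_iff, hk]
      simp only [map_mul, map_pow, map_ofNat, constantCoeff_C, h3, zero_mul])
  refine ⟨γ, by linear_combination eγ, ?_⟩
  rw [mem_max_iff, hk, map_sub, map_sub, constantCoeff_C] at hγ
  exact sub_eq_zero.1 hγ

end Pool.Agent.MP_deef5c_ag.E
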