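import Pool.Agent.MP_deef5c_ag.E.ADat
import Pool.Agent.MP_deef5c_ag.E.AHen
import Pool.Agent.MP_deef5c_ag.E.AD1
import Pool.Agent.MP_deef5c_ag.E.AD4

/-! The data of the top step. -/

open PowerSeries IsLocalRing Function Pool.Agent.MP_deef5c_ag.O
open scoped Polynomial

namespace Pool.Agent.MP_deef5c_ag.E

universe u

variable {A k : Type u} [CommRing A] [IsLocalRing A] [IsArtinianRing A] [Field k] [CharP k 3]
  {Φ : MF A}

omit [IsLocalRing A] [IsArtinianRing A] in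
theorem ADl_mul (f g : A⟦X⟧) : d⁄dX A (f * g) = f * d⁄dX A g + g * d⁄dX A f := by
  rw [Derivation.leibniz, smul_eq_mul, smul_eq_mul]

omit [IsLocalRing A] [IsArtinianRing A] in
theorem ADl_sq (f : A⟦X⟧) : d⁄dX A (f ^ 2) = 2 * f * d⁄dX A f := by
  rw [pow_two, ADl_mul]
  ring

omit [IsLocalRing A] [IsArtinianRing A] in
theorem ADl_cube (f : A⟦X⟧) : d⁄dX A (f ^ 3) = 3 * f ^ 2 * d⁄dX A f := by
  rw [pow_succ, ADl_mul, ADl_sq]
  ring

omit [IsLocalRing A] [IsArtinianRing A] in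
theorem ADl_two : d⁄dX A (2 : A⟦X⟧) = 0 := by
  rw [← map_ofNat (C : A →+* A⟦X⟧) 2, derivative_C]

omit [IsLocalRing A] [IsArtinianRing A] in
theorem ADl_three : d⁄dX A (3 : A⟦X⟧) = 0 := by
  rw [← map_ofNat (C : A →+* A⟦X⟧) 3, derivative_C]

theorem ADl_three0 : (3 : k⟦X⟧) = 0 := by
  rw [← map_ofNat (C : k →+* k⟦X⟧) 3, show (3 : k) = 0 from CharP.cast_eq_zero k 3, map_zero]

/-- `γ` from `as_root` (`f = Th A + H`, residue `-c`), `b = γ a + u`; `b^3 - a^2 b = Θ W` by `eqC`, `u3`.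
Differentiate once and twice (`Derivation.leibniz`, `Derivation.leibniz_pow`); weights by `der_mem`. -/
theorem exists_da (hΦ : Φ.Loc 16) (π : A →+* k) (hπ : Surjective π) {a u H : A⟦X⟧} {c : ℕ → A}
    (h : Dat Φ π a u H c) {c₀ : k} (hc : c₀ - c₀ ^ 3 = 1) :
    ∃ b θ : A⟦X⟧, DA Φ.ps X a (d⁄dX A a) (d⁄dX A (d⁄dX A a)) b (d⁄dX A b) (d⁄dX A (d⁄dX A b)) (WW c)
      (d⁄dX A (WW c)) (d⁄dX A (d⁄dX A (WW c))) θ ∧
      d⁄dX A (dr (d⁄dX A a) b θ) = dr1 X (d⁄dX A a) (d⁄dX A (d⁄dX A a)) b (d⁄dX A b) θ ∧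
      X ^ 4 ∣ PowerSeries.map π b + C c₀ * X ^ 3 := by
  have hH : π (constantCoeff H) = 0 := by
    have := congrArg (coeff 0) h.rH
    rwa [coeff_map, coeff_zero_eq_constantCoeff_apply, map_zero] at this
  obtain ⟨γ, hγ, hγ0⟩ := as_root π hπ (Th A + H) (-c₀) (by
    simp only [Th, map_add, map_sub, map_one, map_pow, constantCoeff_X, hH, map_zero]
    linear_combination hc)
  have hΘ : IsUnit (1 - X + X ^ 3 : A⟦X⟧) := by
    rw [PowerSeries.isUnit_iff_constantCoeff]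
    simp
  obtain ⟨θ, hθ⟩ := hΘ.exists_right_inv
  obtain ⟨b, hb⟩ : ∃ b, b = γ * a + u := ⟨_, rfl⟩
  have hbm : b ∈ Φ.ps.F 3 := hb ▸ add_mem (Ideal.mul_mem_left _ _ h.ma) h.mu
  have hW := WW_mem h
  have e0 : b ^ 3 - a ^ 2 * b = (1 - X + X ^ 3) * WW c := by
    have h1 := h.eqC
    rw [← hγ, Th] at h1
    rw [hb]
    linear_combination -h1 + (γ ^ 2 * a ^ 2 + γ * a * u) * h.u3
  have e1 : 3 * b ^ 2 * d⁄dX A b - 2 * a * d⁄dX A a * b - a ^ 2 * d⁄dX A b =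
      (-1 + 3 * X ^ 2) * WW c + (1 - X + X ^ 3) * d⁄dX A (WW c) := by
    have h1 := congrArg (d⁄dX A) e0
    simp only [map_sub, map_add, ADl_mul, ADl_sq, ADl_cube, derivative_X, derivative_one] at h1
    linear_combination h1
  refine ⟨b, θ, ⟨?_, Φ.X_mem, h.ma, der_mem h.ma, der_mem (der_mem h.ma), hbm, der_mem hbm,
    der_mem (der_mem hbm), hW, der_mem hW, der_mem (der_mem hW), hθ, e0, e1, ?_, WW_P h⟩, ?_, ?_⟩
  · rw [← map_ofNat (C : A →+* A⟦X⟧) 3]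
    exact Φ.C_mem h.three
  · have h1 := congrArg (d⁄dX A) e1
    simp only [map_sub, map_add, map_neg, ADl_mul, ADl_sq, ADl_cube, derivative_X, derivative_one,
      ADl_two, ADl_three] at h1
    linear_combination h1
  · have h1 := congrArg (d⁄dX A) hθ
    simp only [map_sub, map_add, ADl_mul, ADl_cube, derivative_X, derivative_one] at h1
    have h2 : d⁄dX A θ = θ ^ 2 * (1 - 3 * X ^ 2) := by
      linear_combination θ * h1 - d⁄dX A θ * hθ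
    simp only [dr, dr1, ADl_mul, ADl_sq, h2]
    ring
  · have h1 : X ∣ PowerSeries.map π γ + C c₀ := by
      rw [X_dvd_iff, map_add, constantCoeff_C, ← coeff_zero_eq_constantCoeff_apply, coeff_map,
        coeff_zero_eq_constantCoeff_apply, hγ0, neg_add_cancel]
    obtain ⟨g, hg⟩ := h1
    refine ⟨g, ?_⟩
    rw [hb, map_add, map_mul, h.ra, h.ru]
    linear_combination X ^ 3 * hg

/-- Take `b, θ` from `exists_da`, `r = dr`, `β = b - b' W`, `δ = σ X - X`.  `w = dw + w₁` where `w₁` (weight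
`16`) comes from `d1` and `div_mem` for `a`; `ρ = dρ + ρ₁` from `d2` and `div_mem` for `a + σ a` (reduction
`2 X^3 + xb^9`); `ω = dω + ω₁` from `d3` and `div_mem` for `σ a`.  The hypotheses of `d2, d3` come from
`taylor`, `taylor0`.  For `d4`: `TT x X - (X + X^2 - 2 X^4)` has weight `20` (`mx`), apply `taylor0` to it;
`σ (TT x X) = TT x (σ X)`.  Reductions: `map π a' = (X^3)' = 0` (`map_der`), so `r ↦ 0`, and
`a w = r^2 + 3` gives `w ↦ 0`. -/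
theorem exists_dl (hΦ : Φ.Loc 16) (π : A →+* k) (hπ : Surjective π) {a u H : A⟦X⟧} {c : ℕ → A}
    (h : Dat Φ π a u H c) {c₀ : k} (hc : c₀ - c₀ ^ 3 = 1) {x : A⟦X⟧} {σ : En A}
    (S : SLv Φ π (WW c) x σ) : ∃ r w β ρ ω, DL Φ π c₀ x σ a r w β ρ ω := by
  obtain ⟨b, θ, hd, hr1, hb4⟩ := exists_da hΦ π hπ h hc
  have i1 : HW Φ.ps a 3 := ⟨hd.ma⟩
  have i2 : HW Φ.ps (d⁄dX A a) 2 := ⟨hd.ma1⟩
  have i3 : HW Φ.ps b 3 := ⟨hd.mb⟩
  have i4 : HW Φ.ps (d⁄dX A b) 2 := ⟨hd.mb1⟩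
  have i5 : HW Φ.ps (WW c) 9 := ⟨hd.mW⟩
  have i6 : HW Φ.ps (d⁄dX A (WW c)) 8 := ⟨hd.mW1⟩
  have hδ17 : σ X - X - WW c ∈ Φ.ps.F 17 := by
    have h1 : WW c * d⁄dX A (WW c) ∈ Φ.ps.F 17 := Φ.ps.mul hd.mW hd.mW1
    have h2 := sub_mem (Φ.ps.le S.ms (by norm_num : 17 ≤ 25)) h1
    convert h2 using 1
    ring
  have hδ9 : σ X - X ∈ Φ.ps.F 9 := by
    have h2 := add_mem (Φ.ps.le hδ17 (by norm_num : 9 ≤ 17)) hd.mW
    rwa [sub_add_cancel] at h2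
  have hr8 : dr (d⁄dX A a) b θ ∈ Φ.ps.F 8 := by
    unfold dr
    exact HW.of (by norm_num)
  have ta : σ a - a - d⁄dX A a * (σ X - X) ∈ Φ.ps.F 19 := taylor σ hδ9 hd.ma
  have ta0 : σ a - a ∈ Φ.ps.F 11 := taylor0 σ hδ9 hd.ma
  have tr0 : σ (dr (d⁄dX A a) b θ) - dr (d⁄dX A a) b θ ∈ Φ.ps.F 16 := taylor0 σ hδ9 hr8
  have tr : σ (dr (d⁄dX A a) b θ) - dr (d⁄dX A a) b θ -
      dr1 X (d⁄dX A a) (d⁄dX A (d⁄dX A a)) b (d⁄dX A b) θ * (σ X - X) ∈ Φ.ps.F 19 := by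
    rw [← hr1]
    exact Φ.ps.le (taylor σ hδ9 hr8) (by norm_num)
  have hca : coeff 3 (PowerSeries.map π a) = 1 := by rw [h.ra, coeff_X_pow_self]
  have hcs : coeff 3 (PowerSeries.map π (σ a)) = 1 := by
    have h1 := X_pow_dvd_iff.1 (dvd_red hΦ π hπ ta0) 3 (by norm_num)
    rwa [map_sub, map_sub, hca, sub_eq_zero] at h1
  have hsa : σ a ∈ Φ.ps.F 3 := by
    have h2 := add_mem (Φ.ps.le ta0 (by norm_num : 3 ≤ 11)) hd.ma
    rwa [sub_add_cancel] at h2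
  have h2k : (2 : k) ≠ 0 := fun h0 => one_ne_zero (α := k) (by
    have h3 : (3 : k) = 0 := CharP.cast_eq_zero k 3
    linear_combination h3 - h0)
  obtain ⟨hd1, hdw⟩ := d1 hd
  obtain ⟨w₁, hw₁, ew⟩ := div_mem hΦ (n := 16) hd.ma
    (unit_coeff π hπ (by rw [hca]; exact one_ne_zero)) le_rfl hd1
  obtain ⟨ρ₁, hρ₁, eρ⟩ := div_mem hΦ (n := 16) (add_mem hd.ma hsa)
    (unit_coeff π hπ (by rw [map_add, map_add, hca, hcs, one_add_one_eq_two]; exact h2k)) le_rfl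
    (d2 hd hδ17 ta tr0)
  have hρ8 : dρ a (d⁄dX A a) b θ + ρ₁ ∈ Φ.ps.F 8 := by
    refine add_mem ?_ (Φ.ps.le hρ₁ (by norm_num))
    unfold dρ
    exact HW.of (by norm_num)
  obtain ⟨hd3, hdω⟩ := d3 hd (w := dw a (d⁄dX A a) (d⁄dX A (d⁄dX A a)) b (d⁄dX A b)
    (d⁄dX A (d⁄dX A b)) (WW c) θ + w₁) hδ17 ta tr (by rwa [add_sub_cancel_left]) hρ8
  obtain ⟨ω₁, hω₁, eω⟩ := div_mem hΦ (n := 16) hsa
    (unit_coeff π hπ (by rw [hcs]; exact one_ne_zero)) le_rfl hd3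
  have hw13 := add_mem hdw (Φ.ps.le hw₁ (by norm_num : 13 ≤ 16))
  have hω13 := add_mem hdω (Φ.ps.le hω₁ (by norm_num : 13 ≤ 16))
  have hr0 : PowerSeries.map π (dr (d⁄dX A a) b θ) = 0 := by
    rw [dr, map_mul, map_mul, map_der, h.ra, ADl_cube, ADl_three0]
    simp
  refine ⟨_, _, b - d⁄dX A b * WW c, _, _, h.ra, hr0, ?_, ?_, by linear_combination ew, hd.ma, hr8,
    hw13, HW.of (by norm_num), hρ8, hω13, by linear_combination eρ, by linear_combination eω, ?_⟩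
  · have h1 : a * (dw a (d⁄dX A a) (d⁄dX A (d⁄dX A a)) b (d⁄dX A b)
        (d⁄dX A (d⁄dX A b)) (WW c) θ + w₁) = dr (d⁄dX A a) b θ ^ 2 + 3 := by
      linear_combination -ew
    have h2 := congrArg (PowerSeries.map π) h1
    rw [map_mul, h.ra, map_add (PowerSeries.map π) (_ ^ 2), map_pow, hr0, map_ofNat, ADl_three0,
      zero_pow two_ne_zero, add_zero] at h2
    exact (mul_eq_zero.1 h2).resolve_left (pow_ne_zero _ X_ne_zero)
  · have h1 : (X : k⟦X⟧) ^ 4 ∣ PowerSeries.map π (d⁄dX A b * WW c) :=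
      dvd_red hΦ π hπ (HW.of (by norm_num))
    have h2 := dvd_sub hb4 h1
    convert h2 using 1
    rw [map_sub]
    ring
  · obtain ⟨e, he⟩ : ∃ e, e = x - X ^ 3 := ⟨_, rfl⟩
    have i7 : HW Φ.ps e 19 := ⟨he ▸ S.mx⟩
    have hx : x = X ^ 3 + e := by rw [he]; ring
    have hg : TT x X - (X + X ^ 2 - 2 * X ^ 4) ∈ Φ.ps.F 20 := by
      have h1 : TT x X - (X + X ^ 2 - 2 * X ^ 4) =
          X ^ 4 * (X ^ 3 + e) ^ 15 * (1 + X - x - X ^ 3) - X * e := by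
        rw [← hx, he, TT]
        ring
      rw [h1]
      generalize (1 + X - x - X ^ 3 : A⟦X⟧) = y
      exact HW.of (by norm_num)
    have hT : TT x X ∈ Φ.ps.F 1 := by
      rw [TT, mul_assoc]
      exact Ideal.mul_mem_right _ _ Φ.X_mem
    refine d4 hd (δ := σ X - X) (Φ.ps.le S.ms (by norm_num)) hw13 hω13
      (by rwa [add_sub_cancel_left]) hT ?_
    have h1 := Φ.ps.le (taylor0 σ hδ9 hg) (by norm_num : 22 ≤ 20 + 8)
    convert h1 using 1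
    rw [map_sub, map_TT, S.sx, map_sub, map_add, map_mul, map_pow, map_pow, map_ofNat]
    ring

end Pool.Agent.MP_deef5c_ag.E
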