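import Pool.Agent.MP_deef5c_ag.E.ABas

/-! The filtration on power series: derivatives, substitutions, division. -/

open PowerSeries IsLocalRing Function Pool.Agent.MP_deef5c_ag.O
open scoped Polynomial

namespace Pool.Agent.MP_deef5c_ag.E

universe u

variable {A : Type u} [CommRing A] {Φ : MF A}

theorem der_mem {n : ℕ} {f : A⟦X⟧} (hf : f ∈ Φ.ps.F (n + 1)) : d⁄dX A f ∈ Φ.ps.F n := by
  intro j
  rw [coeff_derivative]
  exact Ideal.mul_mem_right _ _ (Φ.le (hf (j + 1)) (by omega))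

/-- splitting off the constant coefficient -/
theorem AFil_split (f : A⟦X⟧) : ∃ g : A⟦X⟧, f = X * g + C (constantCoeff f) ∧
    ∀ n, f ∈ Φ.ps.F (n + 1) → g ∈ Φ.ps.F n := by
  refine ⟨_, eq_X_mul_shift_add_const f, fun n hf j => ?_⟩
  rw [coeff_mk]
  exact Φ.le (hf (j + 1)) (by omega)

/-- write `f = ∑_{j<n} C c_j X^j + X^n g` -/
theorem en_memF {Ψ : MF A} {d : ℕ} (h : ∀ i, Φ.F i ≤ Ψ.F (d * i)) (σ : En A)
    (hσ : σ X ∈ Ψ.ps.F d) {n : ℕ} {f : A⟦X⟧} (hf : f ∈ Φ.ps.F n) : σ f ∈ Ψ.ps.F (d * n) := by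
  induction n generalizing f with
  | zero => exact Ψ.ps.mem_zero _
  | succ n ih =>
    obtain ⟨g, hg, hg'⟩ := AFil_split (Φ := Φ) f
    have h0 : constantCoeff f ∈ Φ.F (n + 1) := by
      simpa using hf 0
    rw [hg, map_add, map_mul, Base_en_C]
    refine add_mem (Ψ.ps.le (Ψ.ps.mul hσ (ih (hg' n hf))) (by rw [Nat.mul_succ]; omega)) ?_
    exact Ψ.C_mem (h _ h0)

theorem en_mem1 (σ : En A) (hσ : σ X ∈ Φ.ps.F 1) {n : ℕ} {f : A⟦X⟧} (hf : f ∈ Φ.ps.F n) :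
    σ f ∈ Φ.ps.F n := by
  simpa using en_memF (Ψ := Φ) (d := 1) (fun i => by simp) σ hσ hf

theorem en_mem3 (σ : En A) (hσ : σ X ∈ Φ.tri.ps.F 3) {n : ℕ} {f : A⟦X⟧} (hf : f ∈ Φ.ps.F n) :
    σ f ∈ Φ.tri.ps.F (3 * n) :=
  en_memF (fun i a ha => Φ.mem_tri.2 (by rwa [show (3 * i + 2) / 3 = i by omega])) σ hσ hf

theorem en_mem31 (σ : En A) (hσ : σ X ∈ Φ.tri.ps.F 1) {n : ℕ} {f : A⟦X⟧} (hf : f ∈ Φ.ps.F n) :
    σ f ∈ Φ.tri.ps.F n := by
  simpa using en_memF (Ψ := Φ.tri) (d := 1)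
    (fun i a ha => Φ.mem_tri.2 (Φ.le ha (by omega))) σ hσ hf

theorem AFil_sub (σ : En A) (g : A⟦X⟧) (c : A) :
    σ (X * g + C c) - (X * g + C c) = X * (σ g - g) + (σ X - X) * σ g := by
  rw [map_add, map_mul, Base_en_C]
  ring

theorem AFil_err (σ : En A) (g : A⟦X⟧) (c : A) :
    σ (X * g + C c) - (X * g + C c) - d⁄dX A (X * g + C c) * (σ X - X) =
      X * (σ g - g - d⁄dX A g * (σ X - X)) + (σ X - X) * (σ g - g) := by
  rw [AFil_sub, map_add, Derivation.leibniz, derivative_C, derivative_X, smul_eq_mul, smul_eq_mul]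
  ring

theorem AFil_one (σ : En A) (hσ : σ X - X ∈ Φ.ps.F 9) : σ X ∈ Φ.ps.F 1 := by
  have := add_mem (Φ.ps.le hσ (show 1 ≤ 9 by omega)) Φ.X_mem
  rwa [sub_add_cancel] at this

theorem AFil_a (σ : En A) (hσ : σ X - X ∈ Φ.ps.F 9) (m : ℕ) (hm : m ≤ 9) (f : A⟦X⟧) :
    σ f - f ∈ Φ.ps.F m := by
  induction m generalizing f with
  | zero => exact Φ.ps.mem_zero _
  | succ m ih =>
    obtain ⟨g, hg, -⟩ := AFil_split (Φ := Φ) f
    rw [hg, AFil_sub]
    exact add_mem (Φ.ps.le (Φ.ps.mul Φ.X_mem (ih (by omega) g)) (by omega))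
      (Ideal.mul_mem_right _ _ (Φ.ps.le hσ hm))

theorem AFil_t0 (σ : En A) (hσ : σ X - X ∈ Φ.ps.F 9) {n : ℕ} {f : A⟦X⟧} (hf : f ∈ Φ.ps.F n) :
    σ f - f ∈ Φ.ps.F (n + 8) := by
  induction n generalizing f with
  | zero => exact AFil_a σ hσ _ (by omega) f
  | succ n ih =>
    obtain ⟨g, hg, hg'⟩ := AFil_split (Φ := Φ) f
    have h1 := hg' n hf
    rw [hg, AFil_sub]
    exact add_mem (Φ.ps.le (Φ.ps.mul Φ.X_mem (ih h1)) (by omega))
      (Φ.ps.le (Φ.ps.mul hσ (en_mem1 σ (AFil_one σ hσ) h1)) (by omega))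

theorem AFil_b (σ : En A) (hσ : σ X - X ∈ Φ.ps.F 9) (m : ℕ) (hm : m ≤ 18) (f : A⟦X⟧) :
    σ f - f - d⁄dX A f * (σ X - X) ∈ Φ.ps.F m := by
  induction m generalizing f with
  | zero => exact Φ.ps.mem_zero _
  | succ m ih =>
    obtain ⟨g, hg, -⟩ := AFil_split (Φ := Φ) f
    rw [hg, AFil_err]
    exact add_mem (Φ.ps.le (Φ.ps.mul Φ.X_mem (ih (by omega) g)) (by omega))
      (Φ.ps.le (Φ.ps.mul hσ (AFil_a σ hσ 9 le_rfl g)) (by omega))

/-- Write `f = ∑_{j<N} C c_j X^j + X^N g` with `N = n + 16`.  With `δ = σ X - X`, the element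
`(X + δ)^j - X^j - j X^(j-1) δ` has weight `j + 16` (induction on `j`); each term coming from the tail
has weight at least `N`. -/
theorem taylor (σ : En A) (hσ : σ X - X ∈ Φ.ps.F 9) {n : ℕ} {f : A⟦X⟧} (hf : f ∈ Φ.ps.F n) :
    σ f - f - d⁄dX A f * (σ X - X) ∈ Φ.ps.F (n + 16) := by
  induction n generalizing f with
  | zero => exact AFil_b σ hσ _ (by omega) f
  | succ n ih =>
    obtain ⟨g, hg, hg'⟩ := AFil_split (Φ := Φ) f
    have h1 := hg' n hf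
    rw [hg, AFil_err]
    exact add_mem (Φ.ps.le (Φ.ps.mul Φ.X_mem (ih h1)) (by omega))
      (Φ.ps.le (Φ.ps.mul hσ (AFil_t0 σ hσ h1)) (by omega))

theorem taylor0 (σ : En A) (hσ : σ X - X ∈ Φ.ps.F 9) {n : ℕ} {f : A⟦X⟧} (hf : f ∈ Φ.ps.F n) :
    σ f - f ∈ Φ.ps.F (n + 8) :=
  AFil_t0 σ hσ hf

variable [IsLocalRing A] {e : ℕ} {k : Type u} [Field k]

theorem mem_one_iff (hΦ : Φ.Loc e) {f : A⟦X⟧} :
    f ∈ Φ.ps.F 1 ↔ constantCoeff f ∈ maximalIdeal A := by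
  rw [← hΦ.one]
  refine ⟨fun h => by simpa using h 0, fun h j => ?_⟩
  rcases j with _ | j
  · simpa using h
  · rw [show 1 - (j + 1) = 0 by omega]
    exact Φ.mem_zero _

theorem dvd_red (hΦ : Φ.Loc e) (π : A →+* k) (hπ : Surjective π) {n : ℕ} {f : A⟦X⟧}
    (hf : f ∈ Φ.ps.F n) : X ^ n ∣ PowerSeries.map π f := by
  refine X_pow_dvd_iff.2 fun m hm => ?_
  rw [coeff_map, pi_eq_zero_iff π hπ, ← hΦ.one]
  exact Φ.le (hf m) (by omega)

theorem unit_coeff (π : A →+* k) (hπ : Surjective π) {d : ℕ} {f : A⟦X⟧}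
    (h : coeff d (PowerSeries.map π f) ≠ 0) : IsUnit (coeff d f) := by
  rwa [coeff_map, Ne, pi_eq_zero_iff π hπ, mem_maximalIdeal, mem_nonunits_iff, not_not] at h

omit [IsLocalRing A] in
theorem AFil_cmul {i j : ℕ} {f g : A⟦X⟧} (hf : ∀ a, coeff a f ∈ Φ.F i) (hg : ∀ a, coeff a g ∈ Φ.F j)
    (a : ℕ) : coeff a (f * g) ∈ Φ.F (i + j) := by
  rw [coeff_mul]
  exact sum_mem fun p _ => Φ.mul (hf _) (hg _)

/-- Write `α = X^d u + l` with `u` a unit and `l = ∑_{j<d} C α_j X^j`, whose coefficients lie in `F 1`.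
The coefficients of index `< d` of `f` vanish (`F (e+1) = ⊥`), so `f = X^d f₁` with `f₁` of weight `n`,
and `f - α f₁ u⁻¹ = - l f₁ u⁻¹` has weight `n + d` again.  Descending induction on `i` such that all
coefficients of `f` lie in `F i`, starting from `i = e + 1`. -/
theorem div_mem (hΦ : Φ.Loc e) {d n : ℕ} {α f : A⟦X⟧} (hα : α ∈ Φ.ps.F d) (hu : IsUnit (coeff d α))
    (hn : e ≤ n) (hf : f ∈ Φ.ps.F (n + d)) : ∃ h ∈ Φ.ps.F n, f = α * h := by
  set u : A⟦X⟧ := mk fun j => coeff (j + d) α with hudef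
  have hu' : IsUnit u := by
    rw [PowerSeries.isUnit_iff_constantCoeff, ← coeff_zero_eq_constantCoeff_apply, hudef, coeff_mk,
      zero_add]
    exact hu
  obtain ⟨v, hv⟩ := hu'.exists_right_inv
  have hXd : (X : A⟦X⟧) ^ d ∈ Φ.ps.F d := by simpa using Φ.ps.pow Φ.X_mem d
  have hl : α - X ^ d * u ∈ Φ.ps.F d := sub_mem hα (Ideal.mul_mem_right _ _ hXd)
  have hl1 : ∀ a, coeff a (α - X ^ d * u) ∈ Φ.F 1 := fun a => by
    rcases lt_or_ge a d with h | h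
    · exact Φ.le (hl a) (by omega)
    · rw [map_sub, coeff_X_pow_mul', if_pos h, hudef, coeff_mk, Nat.sub_add_cancel h, sub_self]
      exact zero_mem _
  have key : ∀ t i, i + t = e + 1 → ∀ f ∈ Φ.ps.F (n + d), (∀ a, coeff a f ∈ Φ.F i) →
      ∃ h ∈ Φ.ps.F n, f = α * h := by
    intro t
    induction t with
    | zero =>
      intro i hi f _ hfi
      refine ⟨0, zero_mem _, ?_⟩
      ext a
      have := hfi a
      rw [show i = e + 1 by omega, hΦ.top, Ideal.mem_bot] at this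
      rw [this, mul_zero, map_zero]
    | succ t ih =>
      intro i hi f hf hfi
      have hdvd : X ^ d ∣ f := X_pow_dvd_iff.2 fun m hm => by
        have := Φ.le (hf m) (show e + 1 ≤ n + d - m by omega)
        rwa [hΦ.top, Ideal.mem_bot] at this
      obtain ⟨g, rfl⟩ := hdvd
      have hc : ∀ a, coeff a g = coeff (a + d) (X ^ d * g) := fun a => (coeff_X_pow_mul g d a).symm
      have hg : g ∈ Φ.ps.F n := fun a => by
        rw [hc]
        exact Φ.le (hf (a + d)) (by omega)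
      have hgi : ∀ a, coeff a g ∈ Φ.F i := fun a => by
        rw [hc]
        exact hfi _
      have hgv : g * v ∈ Φ.ps.F n := Ideal.mul_mem_right _ _ hg
      obtain ⟨h, hh, hh'⟩ := ih (i + 1) (by omega) ((α - X ^ d * u) * (g * v))
        (Φ.ps.le (Φ.ps.mul hl hgv) (by omega)) fun a =>
          Φ.le (AFil_cmul hl1 (AFil_cmul hgi fun b => Φ.mem_zero (coeff b v)) a) (by omega)
      refine ⟨g * v - h, sub_mem hgv hh, ?_⟩
      linear_combination -hh' - X ^ d * g * hv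
  exact key (e + 1) 0 (by omega) f hf fun a => Φ.mem_zero _

end Pool.Agent.MP_deef5c_ag.E
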