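import Pool.Agent.MP_deef5c_ag.E.ATopA
import Pool.Agent.MP_deef5c_ag.O.GrpA

/-! Assembling the lifted action. -/

open PowerSeries IsLocalRing Function Pool.Agent.MP_deef5c_ag.O
open scoped Polynomial

namespace Pool.Agent.MP_deef5c_ag.E

universe u

variable {k : Type u} [Field k]

/-- the higher order terms of the second equation -/
def AFin_V {R : Type*} [CommRing R] (x s t : R) : R :=
  s - x - s ^ 3 + x ^ 15 * s ^ 3 * (1 + s - x - s ^ 3) + s ^ 5 * t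

theorem AFin_eq {R : Type*} [CommRing R] {x s t : R} (h : t ^ 3 - s ^ 6 * t = TT x s) :
    s = t ^ 3 - s * AFin_V x s t := by
  unfold TT at h
  unfold AFin_V
  linear_combination -h

theorem AFin_dvd {R : Type*} [CommRing R] {x s b : R} (t : R) (hx : b ∣ x) (hs : b ∣ s) :
    b ∣ AFin_V x s t := by
  obtain ⟨x, rfl⟩ := hx
  obtain ⟨s, rfl⟩ := hs
  exact ⟨s - x - b ^ 2 * s ^ 3 + b ^ 17 * x ^ 15 * s ^ 3 * (1 + b * s - b * x - (b * s) ^ 3) +
    b ^ 4 * s ^ 5 * t, by unfold AFin_V; ring⟩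

theorem AFin_q {R : Type*} [CommRing R] {b u v : R} :
    b ∣ u - v ↔ Ideal.Quotient.mk (Ideal.span {b}) u = Ideal.Quotient.mk (Ideal.span {b}) v := by
  rw [Ideal.Quotient.eq, Ideal.mem_span_singleton]

theorem AFin_step {R : Type*} [CommRing R] {b t s s' u u' : R} (h1 : b ∣ s - s') (h2 : b ∣ u - u')
    (h3 : t ∣ u) (h4 : t ∣ s') : b * t ∣ s * u - s' * u' := by
  rw [show s * u - s' * u' = (s - s') * u + (u - u') * s' by ring]
  exact dvd_add (mul_dvd_mul h1 h3) (mul_dvd_mul h2 h4)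

theorem AFin_ord {R : Type*} [CommRing R] {x s t : R} (x0 : t ∣ x) (s0 : t ∣ s)
    (e1 : s ^ 3 - x ^ 6 * s = x) (e2 : t ^ 3 - s ^ 6 * t = TT x s) :
    t ^ 6 ∣ s - t ^ 3 ∧ t ^ 9 ∣ x := by
  have e := AFin_eq e2
  have v1 := AFin_dvd t x0 s0
  have s2 : t ^ 2 ∣ s := by
    rw [e]
    exact dvd_sub (pow_dvd_pow t (by norm_num)) (by rw [pow_two]; exact mul_dvd_mul s0 v1)
  have s3 : t ^ 3 ∣ s := by
    rw [e]
    exact dvd_sub dvd_rfl (by rw [pow_succ]; exact mul_dvd_mul s2 v1)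
  have x9 : t ^ 9 ∣ x := by
    rw [← e1]
    refine dvd_sub ?_ ?_
    · rw [show t ^ 9 = (t ^ 3) ^ 3 by ring]
      exact pow_dvd_pow_of_dvd s3 3
    · rw [show t ^ 9 = t ^ 6 * t ^ 3 by ring]
      exact mul_dvd_mul (pow_dvd_pow_of_dvd x0 6) s3
  refine ⟨?_, x9⟩
  rw [show s - t ^ 3 = -(s * AFin_V x s t) by linear_combination e, dvd_neg,
    show t ^ 6 = t ^ 3 * t ^ 3 by ring]
  exact mul_dvd_mul s3 (AFin_dvd t ((pow_dvd_pow t (by norm_num)).trans x9) s3)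

theorem AFin_zero {f : k⟦X⟧} (h : ∀ n, X ^ n ∣ f) : f = 0 := by
  ext n
  exact X_pow_dvd_iff.1 (h (n + 1)) n (Nat.lt_succ_self n)

/-- the ideal `I = (x - x', s - s')` satisfies `I ≤ X I`; or show `X^n ∣ x - x'`, `X^n ∣ s - s'` by
induction: `x - x'` is a combination with coefficients in `(X)`, and so is `s - s'` by the second
equation, `TT x s = s + (terms of degree ≥ 2)` -/
theorem mod_uniq {x s x' s' : k⟦X⟧} (x0 : constantCoeff x = 0) (s0 : constantCoeff s = 0)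
    (x0' : constantCoeff x' = 0) (s0' : constantCoeff s' = 0) (e1 : s ^ 3 - x ^ 6 * s = x)
    (e2 : X ^ 3 - s ^ 6 * X = TT x s) (e1' : s' ^ 3 - x' ^ 6 * s' = x')
    (e2' : X ^ 3 - s' ^ 6 * X = TT x' s') : x = x' ∧ s = s' := by
  rw [← X_dvd_iff] at x0 s0 x0' s0'
  have key : ∀ n, X ^ n ∣ x - x' ∧ X ^ n ∣ s - s' := by
    intro n
    induction n with
    | zero => simp
    | succ n ih =>
      have q1 := AFin_q.1 ih.1
      have q2 := AFin_q.1 ih.2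
      rw [pow_succ]
      constructor
      · rw [show x - x' = s * (s ^ 2 - x ^ 6) - s' * (s' ^ 2 - x' ^ 6) by
          linear_combination e1' - e1]
        exact AFin_step ih.2 (AFin_q.2 (by simp only [map_sub, map_pow, q1, q2]))
          (dvd_sub (dvd_pow s0 two_ne_zero) (dvd_pow x0 (by norm_num))) s0'
      · rw [show s - s' = -(s * AFin_V x s X - s' * AFin_V x' s' X) by
          linear_combination AFin_eq e2 - AFin_eq e2', dvd_neg]
        exact AFin_step ih.2 (AFin_q.2 (by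
          simp only [AFin_V, map_sub, map_add, map_mul, map_pow, q1, q2])) (AFin_dvd _ x0 s0) s0'
  exact ⟨sub_eq_zero.1 (AFin_zero fun n => (key n).1), sub_eq_zero.1 (AFin_zero fun n => (key n).2)⟩

/-- `X ∣ s`, so `X^3 ∣ x`, `X^3 ∣ s (unit)`, `X^9 ∣ x`, ... -/
theorem Mod.ord {c : k} {ρ : EE →* (k⟦X⟧ ≃ₐ[k] k⟦X⟧)} {x s : k⟦X⟧} (M : Mod c ρ x s) :
    X ^ 6 ∣ s - X ^ 3 ∧ X ^ 9 ∣ x := by
  exact AFin_ord (X_dvd_iff.2 M.x0) (X_dvd_iff.2 M.s0) M.e1 M.e2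

/-- the action as a homomorphism to the endomorphisms -/
noncomputable def AFin_r (ρ : EE →* (k⟦X⟧ ≃ₐ[k] k⟦X⟧)) : EE →* En k :=
  (Units.coeHom _).comp ((AlgEquiv.algHomUnitsEquiv k k⟦X⟧).symm.toMonoidHom.comp ρ)

theorem AFin_ch {R : Type*} [CommRing R] (q T Z : R) :
    ch q 0 0 T Z 1 = Z ^ 3 - q ^ 2 * Z - T := by
  rw [ch_poly]
  ring

theorem AFin_ST (c : k⟦X⟧) {x s : k⟦X⟧} (hs : X ^ 3 ∣ s) (hx : X ^ 9 ∣ x) :
    X ^ 10 ∣ ST c x s X - X + c * s ^ 3 := by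
  obtain ⟨s, rfl⟩ := hs
  obtain ⟨x, rfl⟩ := hx
  exact ⟨X ^ 45 * x ^ 6 * ((X ^ 3 * s) ^ 2 - (X ^ 9 * x) ^ 6) ^ 3 + X ^ 2 * s ^ 4 -
    X ^ 26 * s ^ 3 * x ^ 3 + X ^ 71 * x ^ 9 * (X ^ 3 * s - c - (X ^ 9 * x) ^ 3), by
      unfold ST; ring⟩

theorem AFin_sh {x s : k⟦X⟧} (hs : X ^ 6 ∣ s - X ^ 3) (hx : X ^ 9 ∣ x) :
    X ^ 3 ∣ s ∧ (s ≠ 0 ∧ s + x ^ 3 ≠ 0) ∧ ¬ X ^ 20 ∣ (s + x ^ 3) ^ 6 := by
  have key : ∀ f : k⟦X⟧, X ^ 6 ∣ f - X ^ 3 → ¬ X ^ 20 ∣ f ^ 6 := by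
    rintro f ⟨m, hm⟩ h
    rw [show f = X ^ 3 * (1 + X ^ 3 * m) by linear_combination hm, mul_pow, ← pow_mul,
      show 20 = 3 * 6 + 2 from rfl, pow_add,
      mul_dvd_mul_iff_left (pow_ne_zero _ X_ne_zero)] at h
    have := X_dvd_iff.1 ((dvd_pow_self X two_ne_zero).trans h)
    simp at this
  have h1 : X ^ 6 ∣ s + x ^ 3 - X ^ 3 := by
    rw [add_sub_right_comm]
    exact dvd_add hs (dvd_pow ((pow_dvd_pow X (by norm_num)).trans hx) three_ne_zero)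
  refine ⟨?_, ⟨fun e => key s hs ?_, fun e => key _ h1 ?_⟩, key _ h1⟩
  · have := dvd_add ((pow_dvd_pow X (by norm_num : 3 ≤ 6)).trans hs) (dvd_refl (X ^ 3))
    rwa [sub_add_cancel] at this
  · rw [e, zero_pow (by norm_num)]
    exact dvd_zero _
  · rw [e, zero_pow (by norm_num)]
    exact dvd_zero _

variable {A : Type u} [CommRing A] [IsLocalRing A] [IsArtinianRing A]

omit [IsArtinianRing A] in
theorem AFin_cc (π : A →+* k) (hπ : Surjective π) (f : A⟦X⟧) :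
    constantCoeff f ∈ maximalIdeal A ↔ constantCoeff (PowerSeries.map π f) = 0 := by
  rw [← pi_eq_zero_iff π hπ, ← coeff_zero_eq_constantCoeff_apply,
    ← coeff_zero_eq_constantCoeff_apply, coeff_map]

/-- `hom_of_rel` with `q = m = 3`, `α = 1` into the units of `En A` (`Units.ofPowEqOne`,
`AlgEquiv.algHomUnitsEquiv`, see `three_one` in `O/ThreeOne.lean`); reductions by `map_en`. -/
theorem locLifts_of (π : A →+* k) (hπ : Surjective π) (ρ : EE →* (k⟦X⟧ ≃ₐ[k] k⟦X⟧)) (σ τ : En A)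
    (hσ : σ ^ 3 = 1) (hτ : τ ^ 3 = 1) (hc : τ * σ = σ * τ)
    (h1 : PowerSeries.map π (σ X) = ρ sg X) (h2 : PowerSeries.map π (τ X) = ρ ta X)
    (h3 : constantCoeff (ρ sg X) = 0) (h4 : constantCoeff (ρ ta X) = 0) : LocLifts ρ π := by
  have hgen : ∀ g : EE, g = sg ^ g.toAdd.1.val * ta ^ g.toAdd.2.val := by decide
  obtain ⟨φ, hφσ, hφτ⟩ := hom_of_rel sg ta (Units.ofPowEqOne σ 3 hσ three_ne_zero)
    (Units.ofPowEqOne τ 3 hτ three_ne_zero) 3 3 1 three_pos three_pos (by decide) (by decide)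
    (Units.pow_ofPowEqOne _ _) (Units.pow_ofPowEqOne _ _) (by decide)
    (Units.ext (by rw [pow_one]; exact hc)) (fun g => ⟨_, _, hgen g⟩) fun i j e => by
      have e1 := congrArg Multiplicative.toAdd e
      simp only [sg, ta, toAdd_mul, toAdd_pow, toAdd_ofAdd, toAdd_one, Prod.smul_mk, smul_zero,
        nsmul_eq_mul, mul_one, Prod.mk_add_mk, add_zero, zero_add, Prod.mk_eq_zero] at e1
      exact ⟨(ZMod.natCast_eq_zero_iff i 3).1 e1.1, (ZMod.natCast_eq_zero_iff j 3).1 e1.2⟩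
  refine ⟨(AlgEquiv.algHomUnitsEquiv A A⟦X⟧).toMonoidHom.comp φ, fun g f => ?_⟩
  change PowerSeries.map π ((φ g : En A) f) = AFin_r ρ g (PowerSeries.map π f)
  rw [hgen g]
  simp only [map_mul, map_pow, hφσ, hφτ, Units.val_mul, Units.val_pow_eq_pow_val,
    Units.val_ofPowEqOne, AlgHom.mul_apply]
  rw [map_en_pow π σ (AFin_r ρ sg) h1 (GrpA_mem.2 h3),
    map_en_pow π τ (AFin_r ρ ta) h2 (GrpA_mem.2 h4)]

/-- Let `σ' = sub ξ`; `cub_uniq` (`TT_unit`) gives `σ' * Sg = Sg * σ`.  The reductions of `Sg x`, `Sg X` satisfy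
the equations of `mod_uniq`, so they are `x₀, s₀`.  The reduction `η` of `ξ` and `ρ sg X` (apply `ρ sg` to
`e2`) are roots of `Z^3 - sh^6 Z - TT x₀ sh`, `sh = s₀ + x₀^3`, congruent modulo `X^10` (`Mod.ord`); their
difference `d` satisfies `d (d^2 - sh^6) = 0` and `sh^6` is not divisible by `X^19`, so `d = 0`.  Then
`τ^3 X`, `σ'^3 X` are roots of the cubic of `X`, and `τ (σ' X)`, `σ' (τ X)` are roots of the cubic of `ξ`, with
the right reductions (`map_en`, relations in `EE`), so `ch_uniq`, `en_ext` give the relations. -/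
theorem lift_of [CharP k 3] {Φ : MF A} (π : A →+* k) (hπ : Surjective π) {W x : A⟦X⟧} {σ : En A}
    (S : SLv Φ π W x σ) {c : k} {a r w β ρ₁ ω : A⟦X⟧} (h : DL Φ π c x σ a r w β ρ₁ ω)
    {Sg τ : En A} (g1 : constantCoeff (Sg X) ∈ maximalIdeal A)
    (g2 : constantCoeff (τ X) ∈ maximalIdeal A)
    (g3 : ch (Sg a) (Sg r) (Sg w) (Sg (TT x X)) X 1 = 0) (g4 : τ * Sg = Sg)
    (g5 : PowerSeries.map π (τ X) = X + PowerSeries.map π (Sg X) ^ 3) {ξ : A⟦X⟧}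
    (g6 : ch (Sg (σ a)) (Sg (σ r)) (Sg (σ w)) (Sg (σ (TT x X))) ξ 1 = 0)
    (g7 : X ^ 10 ∣ PowerSeries.map π ξ - X + C c * PowerSeries.map π (Sg X) ^ 3)
    {ρ : EE →* (k⟦X⟧ ≃ₐ[k] k⟦X⟧)} {x₀ s₀ : k⟦X⟧} (M : Mod c ρ x₀ s₀) : LocLifts ρ π := by
  obtain ⟨o1, o2⟩ := M.ord
  obtain ⟨o3, o4, o5⟩ := AFin_sh o1 o2
  have hs0 := (AFin_cc π hπ _).1 g1
  have hσ0 := (AFin_cc π hπ _).1 S.s0
  have hS := map_en π Sg _ (sub_X (GrpA_mem.2 hs0)).symm
    (by rw [sub_X (GrpA_mem.2 hs0)]; exact GrpA_mem.2 hs0)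
  have hσ := map_en π σ _ (sub_X (GrpA_mem.2 hσ0)).symm
    (by rw [sub_X (GrpA_mem.2 hσ0)]; exact GrpA_mem.2 hσ0)
  generalize sub (PowerSeries.map π (Sg X)) = Sb at hS
  generalize sub (PowerSeries.map π (σ X)) = σb at hσ
  have hSX : Sb X = PowerSeries.map π (Sg X) := by rw [hS, map_X]
  have ra : PowerSeries.map π (Sg a) = PowerSeries.map π (Sg X) ^ 3 := by
    rw [hS a, h.ra, map_pow, hSX]
  have rr : PowerSeries.map π (Sg r) = 0 := by rw [hS, h.rr, map_zero]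
  have rw' : PowerSeries.map π (Sg w) = 0 := by rw [hS, h.rw', map_zero]
  obtain ⟨hx, hs⟩ : PowerSeries.map π (Sg x) = x₀ ∧ PowerSeries.map π (Sg X) = s₀ := by
    refine mod_uniq ((AFin_cc π hπ _).1 (en_mem Sg g1 S.x0)) hs0 M.x0 M.s0 ?_ ?_ M.e1 M.e2
    · have := congrArg Sb S.rx
      rwa [map_sub, map_mul, map_pow, map_pow, ← hS, hSX] at this
    · have := congrArg (PowerSeries.map π) g3
      rw [map_ch, ra, rr, rw', map_TT, map_TT, map_X, map_one, map_zero, AFin_ch] at this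
      linear_combination this
  rw [hs] at g5 g7 ra hSX
  have rsX : PowerSeries.map π (Sg (σ X)) = s₀ + x₀ ^ 3 := by
    rw [hS, S.rs, map_add, map_pow, hSX, ← hS, hx]
  have rsa : PowerSeries.map π (Sg (σ a)) = (s₀ + x₀ ^ 3) ^ 3 := by
    rw [← rsX, hS, hS, hσ, hσ, h.ra, map_pow, map_pow, map_X]
  have rsr : PowerSeries.map π (Sg (σ r)) = 0 := by rw [hS, hσ, h.rr, map_zero, map_zero]
  have rsw : PowerSeries.map π (Sg (σ w)) = 0 := by rw [hS, hσ, h.rw', map_zero, map_zero]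
  have hη : PowerSeries.map π ξ = ρ sg X := by
    have e1 := congrArg (PowerSeries.map π) g6
    rw [map_ch, rsa, rsr, rsw, map_TT, map_TT, map_TT, S.sx, hx, rsX, map_one, map_zero,
      AFin_ch] at e1
    have e2 := congrArg (ρ sg) M.e2
    rw [map_sub, map_mul, map_pow, map_pow, map_TT, M.sx, M.ss] at e2
    have e3 : X ^ 10 ∣ PowerSeries.map π ξ - ρ sg X := by
      have := dvd_sub g7 (AFin_ST (C c) o3 o2)
      rwa [← M.st, add_sub_add_right_eq_sub, sub_sub_sub_cancel_right] at this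
    have e4 : (3 : k⟦X⟧) = 0 := by
      rw [← map_ofNat (C (R := k)) 3, show (OfNat.ofNat 3 : k) = 0 from CharP.cast_eq_zero k 3,
        map_zero]
    generalize PowerSeries.map π ξ = η at e1 e3
    generalize ρ sg X = ζ at e2 e3
    have e5 : (η - ζ) * ((η - ζ) ^ 2 - (s₀ + x₀ ^ 3) ^ 6) = 0 := by
      linear_combination e1 - e2 + (η * ζ ^ 2 - η ^ 2 * ζ) * e4
    refine sub_eq_zero.1 ((mul_eq_zero.1 e5).resolve_right fun e => o5 ?_)
    rw [← sub_eq_zero.1 e]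
    exact pow_mul (X : k⟦X⟧) 10 2 ▸ pow_dvd_pow_of_dvd e3 2
  have hX3 : (X : k⟦X⟧) ∣ s₀ ^ 3 := dvd_pow ((dvd_pow_self X three_ne_zero).trans o3) three_ne_zero
  have c1 : constantCoeff (ρ sg X) = 0 := by
    have := (dvd_pow_self X (by norm_num)).trans (AFin_ST (C c) o3 o2)
    rw [← M.st] at this
    have h2 := dvd_add (dvd_sub this (hX3.mul_left (C c))) (dvd_refl X)
    rwa [add_sub_cancel_right, sub_add_cancel, X_dvd_iff] at h2
  have c2 : constantCoeff (ρ ta X) = 0 := by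
    rw [M.tt]
    exact X_dvd_iff.1 (dvd_add dvd_rfl hX3)
  have hξ : constantCoeff ξ ∈ maximalIdeal A := (AFin_cc π hπ _).2 (hη ▸ c1)
  have hσ'X := sub_X hξ
  generalize sub ξ = σ' at hσ'X
  subst hσ'X
  rw [← M.tt] at g5
  have tr : ∀ φ : En A, ch (φ (Sg a)) (φ (Sg r)) (φ (Sg w)) (φ (Sg (TT x X))) (φ X) 1 = 0 :=
    fun φ => by
      have := congrArg φ g3
      rwa [map_ch, map_one, map_zero] at this
  have hT := TT_unit π hπ S.x0
  have hcm : σ' * Sg = Sg * σ :=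
    cub_uniq ((AFin_cc π hπ _).2 (by rw [h.rr, map_zero])) hT.1 hT.2 (en_mem σ' hξ g1)
      (en_mem Sg g1 S.s0) hξ (tr σ') g6
  have hcm' : ∀ f, σ' (Sg f) = Sg (σ f) := fun f => DFunLike.congr_fun hcm f
  have g4' : ∀ f, τ (Sg f) = Sg f := fun f => DFunLike.congr_fun g4 f
  have fix : ∀ φ : En A, φ * Sg = Sg → PowerSeries.map π (φ X) = X → φ = 1 := fun φ h1 h2 => by
    have h3 : ∀ f, φ (Sg f) = Sg f := fun f => DFunLike.congr_fun h1 f
    have h4 := tr φ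
    simp only [h3] at h4
    have h5 : φ X = X := ch_uniq π hπ (by rw [ra]; exact pow_ne_zero _ o4.1) rr rw' h4 g3
      (by rw [h2, map_X])
    exact en_ext h5 (by rw [h5, constantCoeff_X]; exact zero_mem _)
  have m1 := map_en π σ' (AFin_r ρ sg) hη (GrpA_mem.2 c1)
  have m2 := map_en π τ (AFin_r ρ ta) g5 (GrpA_mem.2 c2)
  refine locLifts_of π hπ ρ σ' τ (fix _ ?_ ?_) (fix _ ?_ ?_) (en_ext ?_ (en_mem τ g2 hξ)) hη g5
    c1 c2
  · rw [show σ' ^ 3 * Sg = Sg * σ ^ 3 from (SemiconjBy.pow_right hcm.symm 3).symm, S.s3, mul_one]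
  · rw [map_en_pow π σ' (AFin_r ρ sg) hη (GrpA_mem.2 c1), ← map_pow,
      show sg ^ 3 = 1 by decide, map_one, map_X, AlgHom.one_apply]
  · rw [pow_three, mul_assoc, mul_assoc, g4, g4, g4]
  · rw [map_en_pow π τ (AFin_r ρ ta) g5 (GrpA_mem.2 c2), ← map_pow,
      show ta ^ 3 = 1 by decide, map_one, map_X, AlgHom.one_apply]
  · have h1 := congrArg τ g6
    rw [map_ch, map_one, map_zero, g4', g4', g4', g4'] at h1
    have h2 := tr (σ' * τ)
    simp only [AlgHom.mul_apply, g4', hcm'] at h2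
    refine ch_uniq π hπ (by rw [rsa]; exact pow_ne_zero _ o4.2) rsr rsw h1 h2 ?_
    rw [AlgHom.mul_apply, AlgHom.mul_apply, m2, m1, m1, m2, ← AlgHom.mul_apply, ← AlgHom.mul_apply, ← map_mul, ← map_mul, mul_comm]

end Pool.Agent.MP_deef5c_ag.E
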