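import Pool.Agent.MP_deef5c_ag.E.ADat
import Pool.Agent.MP_deef5c_ag.E.ACub

/-! The lift on the intermediate curve. -/

open PowerSeries IsLocalRing Function Pool.Agent.MP_deef5c_ag.O
open scoped Polynomial

namespace Pool.Agent.MP_deef5c_ag.E

universe u

variable {A k : Type u} [CommRing A] [IsLocalRing A] [IsArtinianRing A] [Field k] [CharP k 3]
  {Φ : MF A}

omit [IsLocalRing A] [IsArtinianRing A] in
theorem ASlv_en (σ : En A) (c : ℕ → A) (y : A⟦X⟧) :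
    σ (w0 c y) = w0 c (σ y) ∧ σ (-w1 c y) = -w1 c (σ y) ∧ σ (w2 c y) = w2 c (σ y) := by
  simp [w0, w1, w2, Base_en_C]

omit [IsArtinianRing A] in
theorem ASlv_unit (hΦ : Φ.Loc 16) {f : A⟦X⟧} (hf : f ∈ Φ.ps.F 1) : ∃ g, (1 - f) * g = 1 :=
  (isUnit_one_sub_self_of_mem_nonunits f
    ((mem_max_iff f).2 ((mem_one_iff hΦ).1 hf))).exists_right_inv

omit [IsLocalRing A] [IsArtinianRing A] in
theorem ASlv_wt {c : ℕ → A} (hc : ∀ j < 8, c j ∈ Φ.F (9 - j)) {x : A⟦X⟧} {n : ℕ} (hn : n ≤ 3)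
    (hx : x ∈ Φ.ps.F n) :
    w0 c x ∈ Φ.ps.F (3 * n) ∧ w1 c x ∈ Φ.ps.F (2 * n + 2) ∧ w2 c x ∈ Φ.ps.F (n + 4) := by
  have : HW Φ (c 0) 9 := ⟨hc 0 (by norm_num)⟩
  have : HW Φ (c 1) 8 := ⟨hc 1 (by norm_num)⟩
  have : HW Φ (c 2) 7 := ⟨hc 2 (by norm_num)⟩
  have : HW Φ (c 3) 6 := ⟨hc 3 (by norm_num)⟩
  have : HW Φ (c 4) 5 := ⟨hc 4 (by norm_num)⟩
  have : HW Φ (c 5) 4 := ⟨hc 5 (by norm_num)⟩
  have : HW Φ (c 6) 3 := ⟨hc 6 (by norm_num)⟩
  have : HW Φ (c 7) 2 := ⟨hc 7 (by norm_num)⟩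
  have : HW Φ.ps x n := ⟨hx⟩
  unfold w0 w1 w2
  exact ⟨HW.of (by omega), HW.of (by omega), HW.of (by omega)⟩

omit [IsLocalRing A] [IsArtinianRing A] in
theorem ASlv_dif {c : ℕ → A} (hc : ∀ j < 8, c j ∈ Φ.F (9 - j)) {x y : A⟦X⟧}
    (hx : x ∈ Φ.ps.F 3) (hy : y ∈ Φ.ps.F 3) (hd : x - y ∈ Φ.ps.F 19) :
    w0 c x - w0 c y ∈ Φ.ps.F 25 ∧ w1 c x - w1 c y ∈ Φ.ps.F 24 ∧ w2 c x - w2 c y ∈ Φ.ps.F 23 := by
  have : HW Φ (c 3) 6 := ⟨hc 3 (by norm_num)⟩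
  have : HW Φ (c 4) 5 := ⟨hc 4 (by norm_num)⟩
  have : HW Φ (c 5) 4 := ⟨hc 5 (by norm_num)⟩
  have : HW Φ (c 6) 3 := ⟨hc 6 (by norm_num)⟩
  have : HW Φ (c 7) 2 := ⟨hc 7 (by norm_num)⟩
  have e0 : w0 c x - w0 c y =
      (x - y) * (x ^ 2 + x * y + y ^ 2 + C (c 6) * (x + y) + C (c 3)) := by unfold w0; ring
  have e1 : w1 c x - w1 c y = (x - y) * (C (c 7) * (x + y) + C (c 4)) := by unfold w1; ring
  have e2 : w2 c x - w2 c y = (x - y) * C (c 5) := by unfold w2; ring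
  rw [e0, e1, e2]
  generalize x - y = d at hd
  have : HW Φ.ps x 3 := ⟨hx⟩
  have : HW Φ.ps y 3 := ⟨hy⟩
  have : HW Φ.ps d 19 := ⟨hd⟩
  exact ⟨HW.of (by norm_num), HW.of (by norm_num), HW.of (by norm_num)⟩

omit [IsArtinianRing A] in
theorem ASlv_mx (hΦ : Φ.Loc 16) {c : ℕ → A} (hc : ∀ j < 8, c j ∈ Φ.F (9 - j)) {x : A⟦X⟧}
    (hx : x ∈ Φ.ps.F 1) (E : ch (w0 c x) (-w1 c x) (w2 c x) x X 1 = 0) :
    x ∈ Φ.ps.F 3 ∧ x - X ^ 3 ∈ Φ.ps.F 19 := by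
  have h3 : x ∈ Φ.ps.F 3 := by
    obtain ⟨h0, h1, h2⟩ := ASlv_wt hc (by norm_num) hx
    generalize w0 c x = q at *
    generalize w1 c x = r at *
    generalize w2 c x = w at *
    have : HW Φ.ps q 3 := ⟨h0⟩
    have : HW Φ.ps r 4 := ⟨h1⟩
    have : HW Φ.ps w 5 := ⟨h2⟩
    obtain ⟨g, hg⟩ := ASlv_unit hΦ (f := (w * X - r) ^ 2) (HW.of (by norm_num))
    have e : x = X * ((1 - r) * X + q) * ((1 + r) * X - q) * g := by
      unfold ch Qf at E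
      linear_combination (-x) * hg - g * E
    rw [e]
    exact HW.of (by norm_num)
  refine ⟨h3, ?_⟩
  obtain ⟨h0, h1, h2⟩ := ASlv_wt hc le_rfl h3
  generalize w0 c x = q at *
  generalize w1 c x = r at *
  generalize w2 c x = w at *
  have e : x - X ^ 3 = x * (w * X - r) ^ 2 - X * (q - r * X) ^ 2 := by
    unfold ch Qf at E
    linear_combination -E
  have : HW Φ.ps q 9 := ⟨h0⟩
  have : HW Φ.ps r 8 := ⟨h1⟩
  have : HW Φ.ps w 7 := ⟨h2⟩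
  have : HW Φ.ps x 3 := ⟨h3⟩
  rw [e]
  exact HW.of (by norm_num)

omit [IsArtinianRing A] [CharP k 3] in
theorem ASlv_ms {π : A →+* k} {a u H : A⟦X⟧} {c : ℕ → A} (h : Dat Φ π a u H c) {x g : A⟦X⟧}
    (hx : x ∈ Φ.ps.F 3) (hd : x - X ^ 3 ∈ Φ.ps.F 19)
    (hg : (1 - (-w1 c x + w2 c x * X)) * g = 1) :
    g * ((1 + -w1 c x) * X + w0 c x * 1) - X - (WW c - WW c * d⁄dX A (WW c)) ∈ Φ.ps.F 25 := by
  have hy : (X : A⟦X⟧) ^ 3 ∈ Φ.ps.F 3 := HW.of (by norm_num)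
  obtain ⟨d0, d1, d2⟩ := ASlv_dif h.mc hx hy hd
  obtain ⟨-, h1, h2⟩ := ASlv_wt h.mc le_rfl hx
  have d3 := WW_der h
  have hW := WW_mem h
  have h3 : (3 : A⟦X⟧) ∈ Φ.ps.F 16 := by
    rw [← map_ofNat (C : A →+* A⟦X⟧) 3]
    exact Φ.C_mem h.three
  have eW : WW c = w0 c (X ^ 3) + X * w1 c (X ^ 3) + X ^ 2 * w2 c (X ^ 3) := rfl
  generalize d⁄dX A (WW c) = W' at *
  generalize WW c = W at *
  generalize w0 c x = q at *
  generalize w1 c x = r at *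
  generalize w2 c x = w at *
  generalize w0 c (X ^ 3) = q' at *
  generalize w1 c (X ^ 3) = r' at *
  generalize w2 c (X ^ 3) = w' at *
  obtain ⟨e0, rfl⟩ : ∃ e, q' = q - e := ⟨q - q', by ring⟩
  obtain ⟨e1, rfl⟩ : ∃ e, r' = r - e := ⟨r - r', by ring⟩
  obtain ⟨e2, rfl⟩ : ∃ e, w' = w - e := ⟨w - w', by ring⟩
  obtain ⟨e3, rfl⟩ : ∃ e, W' = e + (r - e1 + 2 * X * (w - e2)) := ⟨_, (sub_add_cancel _ _).symm⟩
  rw [sub_sub_cancel] at d0 d1 d2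
  rw [add_sub_cancel_right] at d3
  have e : g * ((1 + -r) * X + q * 1) - X - (W - W * (e3 + (r - e1 + 2 * X * (w - e2)))) =
      (e0 + X * e1 + X ^ 2 * e2 - 3 * X * r) * g + W * (w * X - r) ^ 2 * g +
        W * (e3 - e1 - 2 * (X * e2) + 3 * X * w) := by
    linear_combination (X + W * (1 + w * X - r)) * hg - g * eW
  have : HW Φ.ps r 8 := ⟨h1⟩
  have : HW Φ.ps w 7 := ⟨h2⟩
  have : HW Φ.ps e0 25 := ⟨d0⟩
  have : HW Φ.ps e1 24 := ⟨d1⟩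
  have : HW Φ.ps e2 23 := ⟨d2⟩
  have : HW Φ.ps e3 24 := ⟨d3⟩
  have : HW Φ.ps W 9 := ⟨hW⟩
  have : HW Φ.ps (3 : A⟦X⟧) 16 := ⟨h3⟩
  rw [e]
  exact HW.of (by norm_num)

/-- Apply `cub_ex` to `q = w0 c X`, `r = - w1 c X`, `w = w2 c X`, `T = X`: get `φ`, `x = φ X`, and
`φ (w0 c X) = w0 c x` etc.; `r^2 - q w = -3` is `eqP`.  Write again `q, r, w` for the values at `x`.  Let
`v = 1 - r - w X` (a unit), `μ = ((1 + r) X + q) v⁻¹`, `σ = sub μ`.  By `mob`, `ch_smul`, `μ` is a root of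
`ch q r w x · 1`; apply `σ` to the equation of `X` (`map_ch`) and use `cub_uniq`: `σ * φ = φ`.  Reductions:
`r, w ↦ 0`, `q ↦ xb^3` with `xb ≠ 0`.  `σ^3 X` is a root with reduction `X + 3 xb^3 = X` (`map_en` with
`sub (X + xb^3)`), so `ch_uniq`, `en_ext` give `σ^3 = 1`.  Weights: `x` has weight `1`, so `q` has weight
`3`, so `x (1 - (w X + r)^2) = X ((1 + r) X + q) ((1 - r) X - q)` gives weight `3` for `x`; then `q, r, w` have
weights `9, 8, 7`, `x - X^3` has weight `19`, `wi c x - wi c (X^3)` has weight `25 - i`.  Finally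
`(μ - X) v = q + 2 r X + w X^2 ≡ W` modulo weight `25` (`3 X w1` has weight `25`) and
`1 - v = r + w X ≡ - W'` modulo weight `23` (`WW_der`). -/
theorem slv (hΦ : Φ.Loc 16) (π : A →+* k) (hπ : Surjective π) {a u H : A⟦X⟧} {c : ℕ → A}
    (h : Dat Φ π a u H c) : ∃ x σ, SLv Φ π (WW c) x σ := by
  have hc : ∀ j < 8, c j ∈ maximalIdeal A := fun j hj => hΦ.one ▸ Φ.le (h.mc j hj) (by omega)
  have hc' : ∀ j < 8, π (c j) = 0 := fun j hj => (pi_eq_zero_iff π hπ _).2 (hc j hj)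
  have hr₀ : constantCoeff (-w1 c X) ∈ maximalIdeal A := by simpa [w1] using hc 1 (by norm_num)
  have hT : constantCoeff (X : A⟦X⟧) ∈ maximalIdeal A := by simp
  have hT1 : IsUnit (coeff 1 (X : A⟦X⟧)) := by simp
  obtain ⟨φ, hx0, E₀⟩ := cub_ex (q := w0 c X) (w := w2 c X) hr₀ hT hT1
  have E := E₀
  rw [(ASlv_en φ c X).1, (ASlv_en φ c X).2.1, (ASlv_en φ c X).2.2] at E
  generalize hx : φ X = x at E
  have hx1 : constantCoeff x ∈ maximalIdeal A := hx ▸ hx0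
  obtain ⟨h3, h19⟩ := ASlv_mx hΦ h.mc ((mem_one_iff hΦ).2 hx1) E
  obtain ⟨m0, m1, m2⟩ := ASlv_wt h.mc le_rfl h3
  have : HW Φ.ps (w0 c x) 9 := ⟨m0⟩
  have : HW Φ.ps (w1 c x) 8 := ⟨m1⟩
  have : HW Φ.ps (w2 c x) 7 := ⟨m2⟩
  obtain ⟨g, hg⟩ := ASlv_unit hΦ (f := -w1 c x + w2 c x * X) (HW.of (by norm_num))
  have hms := ASlv_ms h h3 h19 hg
  have hμ0 : constantCoeff (g * ((1 + -w1 c x) * X + w0 c x * 1)) ∈ maximalIdeal A :=
    (mem_one_iff hΦ).1 (HW.of (by norm_num))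
  have hroot : ch (w0 c x) (-w1 c x) (w2 c x) x (g * ((1 + -w1 c x) * X + w0 c x * 1)) 1 = 0 := by
    have h1 := ch_smul (w0 c x) (-w1 c x) (w2 c x) x ((1 + -w1 c x) * X + w0 c x * 1)
      ((1 - -w1 c x) * 1 - w2 c x * X) g
    rw [mob (by rw [neg_sq]; exact h.eqP x), E, mul_zero, mul_zero,
      show g * ((1 - -w1 c x) * 1 - w2 c x * X) = 1 by linear_combination hg] at h1
    exact h1
  have r0 : PowerSeries.map π (w0 c x) = PowerSeries.map π x ^ 3 := by simp [w0, hc']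
  have r1 : PowerSeries.map π (-w1 c x) = 0 := by simp [w1, hc']
  have r2 : PowerSeries.map π (w2 c x) = 0 := by simp [w2, hc']
  have rg : PowerSeries.map π g = 1 := by
    have h1 := congrArg (PowerSeries.map π) hg
    rwa [map_mul, map_sub, map_add, map_mul, r1, r2, map_one, zero_mul, add_zero, sub_zero,
      one_mul] at h1
  have rμ : PowerSeries.map π (g * ((1 + -w1 c x) * X + w0 c x * 1)) =
      X + PowerSeries.map π x ^ 3 := by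
    rw [map_mul, rg, map_add, map_mul, map_add, map_mul, r0, r1, map_one, map_X]
    ring
  have rx : X ^ 3 - PowerSeries.map π x ^ 6 * X = PowerSeries.map π x := by
    have h1 := congrArg (PowerSeries.map π) E
    rw [map_ch, r0, r1, r2, map_X, map_one, map_zero] at h1
    unfold ch Qf at h1
    linear_combination h1
  generalize g * ((1 + -w1 c x) * X + w0 c x * 1) = μ at hms hμ0 hroot rμ
  have hσ : sub μ X = μ := sub_X hμ0
  generalize sub μ = σ at hσ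
  subst hσ
  have sx : σ x = x := by
    have h1 := congrArg σ E₀
    rw [map_ch, map_one, map_zero] at h1
    have h2 : σ * φ = φ := by
      refine cub_uniq hr₀ hT hT1 (en_mem σ hμ0 hx0) hx0 hμ0 h1 ?_
      rw [(ASlv_en φ c X).1, (ASlv_en φ c X).2.1, (ASlv_en φ c X).2.2, hx]
      exact hroot
    rw [← hx]
    exact DFunLike.congr_fun h2 X
  have step : ∀ ξ, ch (w0 c x) (-w1 c x) (w2 c x) x ξ 1 = 0 →
      ch (w0 c x) (-w1 c x) (w2 c x) x (σ ξ) 1 = 0 := fun ξ hξ => by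
    have h1 := congrArg σ hξ
    rwa [map_ch, map_one, map_zero, (ASlv_en σ c x).1, (ASlv_en σ c x).2.1, (ASlv_en σ c x).2.2,
      sx] at h1
  have hb0 : constantCoeff (X + PowerSeries.map π x ^ 3) ∈ maximalIdeal k := by
    have h1 : constantCoeff (PowerSeries.map π x) = 0 := (pi_eq_zero_iff π hπ _).2 hx1
    simp [h1]
  have hb := sub_X hb0
  have hen := map_en π σ (sub (X + PowerSeries.map π x ^ 3)) (rμ.trans hb.symm) (hb.symm ▸ hb0)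
  have hbx := hen x
  rw [sx] at hbx
  have s3 : σ (σ (σ X)) = X := by
    refine ch_uniq π hπ ?_ r1 r2 (step _ (step _ hroot)) E ?_
    · rw [r0]
      refine pow_ne_zero _ fun h0 => ?_
      rw [h0] at rx
      simp at rx
    · have h1 : (3 : k⟦X⟧) = 0 := by
        rw [← map_ofNat (C : k →+* k⟦X⟧) 3, show (OfNat.ofNat 3 : k) = 0 from CharP.cast_eq_zero k 3,
          map_zero]
      rw [hen, hen, rμ, map_add, hb, map_pow, ← hbx, map_add, map_add, hb, map_pow, ← hbx, map_X]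
      linear_combination PowerSeries.map π x ^ 3 * h1
  refine ⟨x, σ, hx1, hμ0, rx, rμ, sx, (en_ext ?_ hT).symm, h19, hms⟩
  rw [pow_succ, pow_two]
  exact s3.symm

end Pool.Agent.MP_deef5c_ag.E
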