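import Pool.Agent.MP_deef5c_ag.E.ACert
import Pool.Agent.MP_deef5c_ag.E.ASlv
import Pool.Agent.MP_deef5c_ag.E.ADl
import Pool.Agent.MP_deef5c_ag.E.ATopB
import Pool.Agent.MP_deef5c_ag.E.AFin

/-! The local action lifts to a ring in which three is not zero. -/

open PowerSeries IsLocalRing Function Pool.Agent.MP_deef5c_ag.O
open scoped Polynomial

namespace Pool.Agent.MP_deef5c_ag.E

universe u

theorem lift_a {k : Type u} [Field k] [IsAlgClosed k] [CharP k 3] {c : k} (hc : c - c ^ 3 = 1)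
    {ρ : EE →* (k⟦X⟧ ≃ₐ[k] k⟦X⟧)} {x₀ s₀ : k⟦X⟧} (M : Mod c ρ x₀ s₀) :
    ∃ (A : Type u) (_ : CommRing A) (_ : IsLocalRing A) (_ : IsArtinianRing A)
      (_ : Algebra (WittVector 3 k) A) (π : A →+* k),
      (∀ w, π (algebraMap (WittVector 3 k) A w) = w.coeff 0) ∧ (3 : A) ≠ 0 ∧ LocLifts ρ π := by
  obtain ⟨A, _, _, _, _, π, Φ, v1, v2, u2, u3, h0, h1, hπ, h3, hΦ, H⟩ := exists_cert k
  have hs : Surjective π := fun a => ⟨algebraMap _ A (WittVector.teichmuller 3 a), by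
    rw [hπ, WittVector.teichmuller_coeff_zero]⟩
  have D := dat_of_cert hΦ π hs H
  obtain ⟨x, σ, S⟩ := slv hΦ π hs D
  obtain ⟨r, w, β, ρ₁, ω, h⟩ := exists_dl hΦ π hs D hc S
  obtain ⟨Sg, τ, g1, g2, g3, g4, g5, g6, g7⟩ := top_a hΦ π hs S h
  obtain ⟨ξ, g8, g9⟩ := top_b hΦ H.three π hs S h g3 g6 g7
  exact ⟨A, _, ‹_›, ‹_›, ‹_›, π, hπ, h3, lift_of π hs S h g1 g2 g3 g4 g5 g8 g9 M⟩

end Pool.Agent.MP_deef5c_ag.E
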