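import Pool.Agent.MP_deef5c_ag.E.Defs

/-! Auxiliary constructions for the Artinian ring defined by a linear form. -/

open MvPolynomial

namespace Pool.Agent.MP_deef5c_ag.E

universe u

variable {W : Type u} [CommRing W]

/-- the ideals of coefficients -/
def ARing_J (W : Type u) [CommRing W] (i : ℕ) : Ideal W :=
  if i = 0 then ⊤ else if i ≤ 16 then Ideal.span {3} else Ideal.span {9}

theorem ARing_nine_le : (Ideal.span {9} : Ideal W) ≤ Ideal.span {3} :=
  Ideal.span_singleton_le_span_singleton.2 ⟨3, by norm_num⟩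

theorem ARing_J_zero : ARing_J W 0 = ⊤ := by simp [ARing_J]

theorem ARing_J_small {i : ℕ} (h1 : 1 ≤ i) (h2 : i ≤ 16) : ARing_J W i = Ideal.span {3} := by
  rw [ARing_J, if_neg (by omega), if_pos h2]

theorem ARing_J_big {i : ℕ} (h : 17 ≤ i) : ARing_J W i = Ideal.span {9} := by
  rw [ARing_J, if_neg (by omega), if_neg (by omega)]

theorem ARing_J_pos {i : ℕ} (h : 1 ≤ i) : ARing_J W i ≤ Ideal.span {3} := by
  by_cases h2 : i ≤ 16
  · rw [ARing_J_small h h2]
  · rw [ARing_J_big (by omega)]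
    exact ARing_nine_le

theorem ARing_nine_le_J (i : ℕ) : (Ideal.span {9} : Ideal W) ≤ ARing_J W i := by
  unfold ARing_J
  split_ifs
  · exact le_top
  · exact ARing_nine_le
  · exact le_rfl

theorem ARing_J_anti {i j : ℕ} (h : i ≤ j) : ARing_J W j ≤ ARing_J W i := by
  by_cases hi : i = 0
  · rw [hi, ARing_J_zero]
    exact le_top
  by_cases hi2 : i ≤ 16
  · rw [ARing_J_small (by omega) hi2]
    exact ARing_J_pos (by omega)
  · rw [ARing_J_big (i := i) (by omega), ARing_J_big (i := j) (by omega)]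

theorem ARing_J_mul {i j : ℕ} {a b : W} (ha : a ∈ ARing_J W i) (hb : b ∈ ARing_J W j) :
    a * b ∈ ARing_J W (i + j) := by
  by_cases hi : i = 0
  · rw [hi, zero_add]
    exact Ideal.mul_mem_left _ _ hb
  by_cases hj : j = 0
  · rw [hj, add_zero]
    exact Ideal.mul_mem_right _ _ ha
  obtain ⟨x, rfl⟩ := Ideal.mem_span_singleton.1 (ARing_J_pos (by omega) ha)
  obtain ⟨y, rfl⟩ := Ideal.mem_span_singleton.1 (ARing_J_pos (by omega) hb)
  exact ARing_nine_le_J _ (Ideal.mem_span_singleton.2 ⟨x * y, by ring⟩)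

/-- the weight of a monomial -/
def ARing_wgt (wt : Fin 6 → ℕ) (m : Fin 6 →₀ ℕ) : ℕ := ∑ i, wt i * m i

theorem ARing_wgt_add (wt : Fin 6 → ℕ) (m n : Fin 6 →₀ ℕ) :
    ARing_wgt wt (m + n) = ARing_wgt wt m + ARing_wgt wt n := by
  simp [ARing_wgt, mul_add, Finset.sum_add_distrib]

theorem ARing_wgt_zero (wt : Fin 6 → ℕ) : ARing_wgt wt 0 = 0 := by simp [ARing_wgt]

theorem ARing_wgt_pos {wt : Fin 6 → ℕ} (hw : ∀ i, 0 < wt i) {m : Fin 6 →₀ ℕ} (hm : m ≠ 0) :
    1 ≤ ARing_wgt wt m := by
  by_contra h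
  apply hm
  ext i
  have h0 : ∑ i, wt i * m i = 0 := by
    unfold ARing_wgt at h
    omega
  have := Finset.sum_eq_zero_iff.1 h0 i (Finset.mem_univ i)
  rcases Nat.mul_eq_zero.1 this with h1 | h1
  · exact absurd h1 (hw i).ne'
  · simpa using h1

theorem ARing_wgt_single (wt : Fin 6 → ℕ) (i : Fin 6) :
    ARing_wgt wt (Finsupp.single i 1) = wt i := by
  unfold ARing_wgt
  rw [Finset.sum_eq_single i]
  · simp
  · intro j _ hj
    simp [hj.symm]
  · simp

/-- the filtration of the polynomial ring -/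
def ARing_F (W : Type u) [CommRing W] (wt : Fin 6 → ℕ) : MF (MvPolynomial (Fin 6) W) where
  F n :=
    { carrier := {f | ∀ m, coeff m f ∈ ARing_J W (n - ARing_wgt wt m)}
      add_mem' := fun hf hg m => by
        rw [coeff_add]
        exact add_mem (hf m) (hg m)
      zero_mem' := fun m => by simp
      smul_mem' := fun g f hf m => by
        rw [smul_eq_mul, coeff_mul]
        refine sum_mem fun p hp => Ideal.mul_mem_left _ _ (ARing_J_anti ?_ (hf p.2))
        have := Finset.HasAntidiagonal.mem_antidiagonal.1 hp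
        rw [← this, ARing_wgt_add]
        omega }
  zero := eq_top_iff.2 fun f _ m => by
    rw [Nat.zero_sub, ARing_J_zero]
    exact Submodule.mem_top
  anti := fun i j hij f hf m => ARing_J_anti (by omega) (hf m)
  mul := fun {i j f g} hf hg m => by
    rw [coeff_mul]
    refine sum_mem fun p hp => ARing_J_anti ?_ (ARing_J_mul (hf p.1) (hg p.2))
    have := Finset.HasAntidiagonal.mem_antidiagonal.1 hp
    rw [← this, ARing_wgt_add]
    omega

theorem ARing_mem_F {wt : Fin 6 → ℕ} {n : ℕ} {f : MvPolynomial (Fin 6) W} :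
    f ∈ (ARing_F W wt).F n ↔ ∀ m, coeff m f ∈ ARing_J W (n - ARing_wgt wt m) := Iff.rfl

/-- the linear form -/
noncomputable def ARing_lam (W : Type u) [CommRing W] (l : (Fin 6 → ℕ) → ℤ) :
    MvPolynomial (Fin 6) W →ₗ[W] W :=
  (basisMonomials (Fin 6) W).constr W fun m => if m = 0 then 1 else 3 * (l m : W)

theorem ARing_lam_monomial (l : (Fin 6 → ℕ) → ℤ) (m : Fin 6 →₀ ℕ) (c : W) :
    ARing_lam W l (monomial m c) = c * if m = 0 then 1 else 3 * (l m : W) := by
  have h : monomial m c = c • (basisMonomials (Fin 6) W) m := by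
    rw [coe_basisMonomials, smul_monomial, smul_eq_mul, mul_one]
  rw [h, map_smul, ARing_lam, Module.Basis.constr_basis, smul_eq_mul]

/-- the ideal of relations -/
def ARing_I (W : Type u) [CommRing W] (l : (Fin 6 → ℕ) → ℤ) : Ideal (MvPolynomial (Fin 6) W) where
  carrier := {f | ∀ g, ARing_lam W l (f * g) ∈ (Ideal.span {9} : Ideal W)}
  add_mem' := fun hf hg g => by
    rw [add_mul, map_add]
    exact add_mem (hf g) (hg g)
  zero_mem' := fun g => by simp
  smul_mem' := fun c f hf g => by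
    rw [smul_eq_mul, mul_comm c f, mul_assoc]
    exact hf _

theorem ARing_mem_I {l : (Fin 6 → ℕ) → ℤ} {f : MvPolynomial (Fin 6) W}
    (h : ∀ e, ARing_lam W l (f * monomial e 1) ∈ (Ideal.span {9} : Ideal W)) : f ∈ ARing_I W l := by
  intro g
  induction g using MvPolynomial.induction_on' with
  | monomial e c =>
    have h1 : f * monomial e c = c • (f * monomial e 1) := by
      rw [← mul_smul_comm, smul_monomial, smul_eq_mul, mul_one]
    rw [h1, map_smul, smul_eq_mul]
    exact Ideal.mul_mem_left _ _ (h e)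
  | add p q hp hq =>
    rw [mul_add, map_add]
    exact add_mem hp hq

theorem ARing_F_le_I {wt : Fin 6 → ℕ} {l : (Fin 6 → ℕ) → ℤ}
    (hl : ∀ e, 17 ≤ ∑ i, wt i * e i → l e = 0) : (ARing_F W wt).F 17 ≤ ARing_I W l := by
  intro f hf
  refine ARing_mem_I fun e => ?_
  rw [f.as_sum, Finset.sum_mul, map_sum]
  refine sum_mem fun m _ => ?_
  rw [monomial_mul, mul_one, ARing_lam_monomial]
  have hm := ARing_mem_F.1 hf m
  by_cases h0 : ARing_wgt wt m = 0
  · rw [h0, Nat.sub_zero, ARing_J_big le_rfl] at hm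
    exact Ideal.mul_mem_right _ _ hm
  have hne : m + e ≠ 0 := by
    intro h
    have := ARing_wgt_add wt m e
    rw [h, ARing_wgt_zero] at this
    omega
  rw [if_neg hne]
  by_cases h1 : ARing_wgt wt m ≤ 16
  · obtain ⟨x, hx⟩ := Ideal.mem_span_singleton.1 (ARing_J_pos (by omega) hm)
    rw [hx]
    exact Ideal.mem_span_singleton.2 ⟨x * l ⇑(m + e), by ring⟩
  · have h2 : l ⇑(m + e) = 0 := by
      apply hl
      have := ARing_wgt_add wt m e
      unfold ARing_wgt at this h1
      omega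
    rw [h2]
    simp

theorem ARing_lam_sub (l : (Fin 6 → ℕ) → ℤ) (f : MvPolynomial (Fin 6) W) :
    ARing_lam W l f - constantCoeff f ∈ (Ideal.span {3} : Ideal W) := by
  induction f using MvPolynomial.induction_on' with
  | monomial m c =>
    rw [ARing_lam_monomial, constantCoeff_monomial]
    split_ifs
    · simp
    · exact Ideal.mem_span_singleton.2 ⟨c * l m, by ring⟩
  | add p q hp hq =>
    rw [map_add, map_add, add_sub_add_comm]
    exact add_mem hp hq

theorem ARing_I_const {l : (Fin 6 → ℕ) → ℤ} {f : MvPolynomial (Fin 6) W} (hf : f ∈ ARing_I W l) :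
    constantCoeff f ∈ (Ideal.span {3} : Ideal W) := by
  have h1 := ARing_nine_le (hf 1)
  rw [mul_one] at h1
  have h2 := sub_mem h1 (ARing_lam_sub l f)
  rwa [sub_sub_cancel] at h2

theorem ARing_mem_F_one {wt : Fin 6 → ℕ} (hw : ∀ i, 0 < wt i) {f : MvPolynomial (Fin 6) W} :
    f ∈ (ARing_F W wt).F 1 ↔ constantCoeff f ∈ (Ideal.span {3} : Ideal W) := by
  rw [ARing_mem_F, constantCoeff_eq]
  constructor
  · intro h
    have := h 0
    rwa [ARing_wgt_zero, ARing_J_small (by omega) (by omega)] at this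
  · intro h m
    by_cases hm : m = 0
    · rw [hm, ARing_wgt_zero, ARing_J_small (by omega) (by omega)]
      exact h
    · have := ARing_wgt_pos hw hm
      rw [show 1 - ARing_wgt wt m = 0 by omega, ARing_J_zero]
      exact Submodule.mem_top

theorem ARing_three_mem (wt : Fin 6 → ℕ) : (3 : MvPolynomial (Fin 6) W) ∈ (ARing_F W wt).F 16 := by
  intro m
  rw [show (3 : MvPolynomial (Fin 6) W) = C 3 from rfl, coeff_C]
  split_ifs with h
  · rw [← h, ARing_wgt_zero, ARing_J_small (by omega) (by omega)]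
    exact Ideal.mem_span_singleton_self _
  · exact zero_mem _

theorem ARing_X_mem (wt : Fin 6 → ℕ) (i : Fin 6) :
    (X i : MvPolynomial (Fin 6) W) ∈ (ARing_F W wt).F (wt i) := by
  intro m
  rw [coeff_X]
  split_ifs with h
  · rw [← h, ARing_wgt_single, Nat.sub_self, ARing_J_zero]
    exact Submodule.mem_top
  · exact zero_mem _

theorem ARing_three_not_mem (l : (Fin 6 → ℕ) → ℤ) (h : (3 : W) ∉ (Ideal.span {9} : Ideal W)) :
    (3 : MvPolynomial (Fin 6) W) ∉ ARing_I W l := by
  intro h3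
  have := h3 1
  rw [mul_one, show (3 : MvPolynomial (Fin 6) W) = monomial 0 3 from rfl, ARing_lam_monomial,
    if_pos rfl, mul_one] at this
  exact h this

theorem ARing_prod (e : Fin 6 → ℕ) :
    ∏ i, (X i : MvPolynomial (Fin 6) W) ^ e i = monomial (Finsupp.equivFunOnFinite.symm e) 1 := by
  rw [monomial_eq, C_1, one_mul, Finsupp.prod_fintype _ _ (by simp)]
  rfl

theorem ARing_lam_list (l : (Fin 6 → ℕ) → ℤ) (e : Fin 6 →₀ ℕ) (L : List (ℤ × (Fin 6 → ℕ)))
    (hL : ∀ t ∈ L, t.2 ≠ 0) :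
    ARing_lam W l ((L.map fun t => (t.1 : MvPolynomial (Fin 6) W) * ∏ i, X i ^ t.2 i).sum *
      monomial e 1) = 3 * (((L.map fun t => t.1 * l (t.2 + e)).sum : ℤ) : W) := by
  induction L with
  | nil => simp
  | cons t L ih =>
    rw [List.map_cons, List.sum_cons, List.map_cons, List.sum_cons, add_mul, map_add,
      ih fun s hs => hL s (List.mem_cons_of_mem _ hs), ARing_prod,
      show ((t.1 : ℤ) : MvPolynomial (Fin 6) W) = C (t.1 : W) by simp, C_mul_monomial, monomial_mul,
      ARing_lam_monomial, if_neg]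
    · have : ⇑(Finsupp.equivFunOnFinite.symm t.2 + e) = t.2 + ⇑e := by
        ext i
        simp
      rw [this]
      push_cast
      ring
    · intro h
      apply hL t List.mem_cons_self
      ext i
      have := DFunLike.congr_fun h i
      simp only [Finsupp.add_apply, Finsupp.equivFunOnFinite_symm_apply_apply, Finsupp.zero_apply] at this
      simp only [Pi.zero_apply]
      omega

theorem ARing_list_mem (l : (Fin 6 → ℕ) → ℤ) (L : List (ℤ × (Fin 6 → ℕ)))
    (hL : ∀ t ∈ L, t.2 ≠ 0) (h : ∀ e, (3 : ℤ) ∣ (L.map fun t => t.1 * l (t.2 + e)).sum) :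
    (L.map fun t => (t.1 : MvPolynomial (Fin 6) W) * ∏ i, X i ^ t.2 i).sum ∈ ARing_I W l := by
  refine ARing_mem_I fun e => ?_
  rw [ARing_lam_list l e L hL]
  obtain ⟨x, hx⟩ := h e
  rw [hx]
  exact Ideal.mem_span_singleton.2 ⟨x, by push_cast; ring⟩

theorem ARing_top_mem {wt : Fin 6 → ℕ} (hw : ∀ i, 0 < wt i) {l : (Fin 6 → ℕ) → ℤ}
    (hl : ∀ e, 17 ≤ ∑ i, wt i * e i → l e = 0) (e : Fin 6 → ℕ) (he : ∑ i, wt i * e i = 16)
    (h3 : (3 : ℤ) ∣ l e + 1) :
    (∏ i, (X i : MvPolynomial (Fin 6) W) ^ e i) - -3 ∈ ARing_I W l := by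
  refine ARing_mem_I fun d => ?_
  have hwe : ARing_wgt wt (Finsupp.equivFunOnFinite.symm e) = 16 := he
  have hne : Finsupp.equivFunOnFinite.symm e + d ≠ 0 := by
    intro h
    have := ARing_wgt_add wt (Finsupp.equivFunOnFinite.symm e) d
    rw [h, ARing_wgt_zero] at this
    omega
  rw [sub_neg_eq_add, add_mul, map_add, ARing_prod, monomial_mul,
    show (3 : MvPolynomial (Fin 6) W) = C 3 from rfl, C_mul_monomial, ARing_lam_monomial,
    ARing_lam_monomial, if_neg hne]
  by_cases hd : d = 0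
  · rw [if_pos hd, hd, add_zero]
    obtain ⟨x, hx⟩ := h3
    have h1 : l ⇑(Finsupp.equivFunOnFinite.symm e) = 3 * x - 1 := by
      rw [← hx]
      simp
    rw [h1]
    exact Ideal.mem_span_singleton.2 ⟨x, by push_cast; ring⟩
  · have h2 : l ⇑(Finsupp.equivFunOnFinite.symm e + d) = 0 := by
      apply hl
      have := ARing_wgt_add wt (Finsupp.equivFunOnFinite.symm e) d
      have h4 := ARing_wgt_pos hw hd
      rw [hwe] at this
      unfold ARing_wgt at this h4
      omega
    rw [if_neg hd, h2]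
    exact Ideal.mem_span_singleton.2 ⟨l d, by push_cast; ring⟩

/-- the image of a filtration under a surjection -/
def ARing_map {Q A : Type u} [CommRing Q] [CommRing A] (Φ : MF Q) (f : Q →+* A)
    (hf : Function.Surjective f) : MF A where
  F n := (Φ.F n).map f
  zero := by rw [Φ.zero, Ideal.map_top]
  anti := fun i j hij => Ideal.map_mono (Φ.anti hij)
  mul := fun {i j a b} ha hb => by
    obtain ⟨x, hx, rfl⟩ := (Ideal.mem_map_iff_of_surjective f hf).1 ha
    obtain ⟨y, hy, rfl⟩ := (Ideal.mem_map_iff_of_surjective f hf).1 hb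
    rw [← map_mul]
    exact Ideal.mem_map_of_mem _ (Φ.mul hx hy)

theorem ARing_pow_le {A : Type u} [CommRing A] (Φ : MF A) (n : ℕ) : Φ.F 1 ^ n ≤ Φ.F n := by
  induction n with
  | zero =>
    rw [Φ.zero]
    exact le_top
  | succ n ih =>
    rw [pow_succ]
    exact Ideal.mul_le.2 fun a ha b hb => Φ.mul (ih ha) hb

theorem ARing_local {A k : Type u} [CommRing A] [Field k] (π : A →+* k)
    (hπ : Function.Surjective π) (h : ∀ a, π a = 0 → IsNilpotent a) : IsLocalRing A := by
  have : Nontrivial A := π.domain_nontrivial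
  refine IsLocalRing.of_isUnit_or_isUnit_one_sub_self fun a => ?_
  by_cases ha : π a = 0
  · exact Or.inr (h a ha).isUnit_one_sub
  · obtain ⟨b, hb⟩ := hπ (π a)⁻¹
    have h1 := (h (1 - a * b) (by rw [map_sub, map_one, map_mul, hb, mul_inv_cancel₀ ha,
      sub_self])).isUnit_one_sub
    rw [sub_sub_cancel] at h1
    exact Or.inl (isUnit_of_mul_isUnit_left h1)

end Pool.Agent.MP_deef5c_ag.E
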