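import Pool.Agent.MP_deef5c_ag.E.Defs
import Pool.Agent.MP_deef5c_ag.E.ARingX

/-! An Artinian ring defined by a linear form on a polynomial ring over the Witt vectors. -/

open PowerSeries IsLocalRing Function Pool.Agent.MP_deef5c_ag.O
open scoped Polynomial

namespace Pool.Agent.MP_deef5c_ag.E

universe u

/-- Let `W = WittVector 3 k` (a discrete valuation ring with uniformiser `3`), `Q = MvPolynomial (Fin 6) W`,
`λ : Q →ₗ[W] W` with `λ (monomial m c) = c` for `m = 0` and `3 * l m * c` otherwise,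
`I = {f | ∀ g, λ (f * g) ∈ (9)}` (enough to test monomials `g`), `A = Q ⧸ I`.  The filtration is the image
of `F n = {f | ∀ m, coeff m f ∈ J (n - weight m)}` with `J 0 = ⊤`, `J i = (3)` for `1 ≤ i ≤ 16`,
`J i = (9)` for `i ≥ 17`.  Then `F 17 ≤ I ≤ F 1`, `F 1` is the kernel of `Q → W → k`
(`WittVector.mem_span_p_iff_coeff_zero_eq_zero`), so the kernel of `π` is nilpotent and `A` is local,
Noetherian, hence Artinian (`isArtinianRing_iff_isNilpotent_maximalIdeal`). -/
theorem exists_ring (k : Type u) [Field k] [IsAlgClosed k] [CharP k 3] (wt : Fin 6 → ℕ)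
    (hw : ∀ i, 0 < wt i) (l : (Fin 6 → ℕ) → ℤ) (hl : ∀ e, 17 ≤ ∑ i, wt i * e i → l e = 0) :
    ∃ (A : Type u) (_ : CommRing A) (_ : IsLocalRing A) (_ : IsArtinianRing A)
      (_ : Algebra (WittVector 3 k) A) (π : A →+* k) (Φ : MF A) (v : Fin 6 → A),
      (∀ w, π (algebraMap (WittVector 3 k) A w) = w.coeff 0) ∧ (3 : A) ≠ 0 ∧ Φ.Loc 16 ∧
      (3 : A) ∈ Φ.F 16 ∧ (∀ i, v i ∈ Φ.F (wt i)) ∧
      (∀ L : List (ℤ × (Fin 6 → ℕ)), (∀ t ∈ L, t.2 ≠ 0) →
        (∀ e, (3 : ℤ) ∣ (L.map fun t => t.1 * l (t.2 + e)).sum) →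
        (L.map fun t => (t.1 : A) * ∏ i, v i ^ t.2 i).sum = 0) ∧
      ∀ e, ∑ i, wt i * e i = 16 → (3 : ℤ) ∣ l e + 1 → ∏ i, v i ^ e i = -3 := by
  have hker : ∀ w : WittVector 3 k, w ∈ (Ideal.span {3} : Ideal (WittVector 3 k)) ↔ w.coeff 0 = 0 :=
    fun w => by simpa using WittVector.mem_span_p_iff_coeff_zero_eq_zero (p := 3) w
  have h39 : (3 : WittVector 3 k) ∉ (Ideal.span {9} : Ideal (WittVector 3 k)) := by
    intro h
    obtain ⟨x, hx⟩ := Ideal.mem_span_singleton.1 h
    have hirr : Irreducible (3 : WittVector 3 k) := by simpa using WittVector.irreducible 3 (k := k)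
    have h1 : (3 : WittVector 3 k) * (3 * x - 1) = 0 := by linear_combination -hx
    rcases mul_eq_zero.1 h1 with h2 | h2
    · exact hirr.ne_zero h2
    · exact hirr.not_isUnit (IsUnit.of_mul_eq_one x (sub_eq_zero.1 h2))
  let I := ARing_I (WittVector 3 k) l
  let A := MvPolynomial (Fin 6) (WittVector 3 k) ⧸ I
  let φ : MvPolynomial (Fin 6) (WittVector 3 k) →+* k :=
    (WittVector.constantCoeff (p := 3)).comp MvPolynomial.constantCoeff
  have hφ : ∀ f, φ f = 0 ↔ f ∈ (ARing_F (WittVector 3 k) wt).F 1 := fun f => by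
    rw [ARing_mem_F_one hw, hker]
    rfl
  let π : A →+* k := Ideal.Quotient.lift I φ fun f hf =>
    (hφ f).2 ((ARing_mem_F_one hw).2 (ARing_I_const hf))
  let q : MvPolynomial (Fin 6) (WittVector 3 k) →+* A := Ideal.Quotient.mk I
  have hq : Surjective q := Ideal.Quotient.mk_surjective
  have hπq : ∀ f, π (q f) = φ f := fun f => rfl
  let Φ : MF A := ARing_map (ARing_F (WittVector 3 k) wt) q hq
  have hΦ : ∀ n, Φ.F n = ((ARing_F (WittVector 3 k) wt).F n).map q := fun n => rfl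
  have halg : ∀ w, π (algebraMap (WittVector 3 k) A w) = w.coeff 0 := fun w => by
    change φ (MvPolynomial.C w) = _
    simp [φ]
  have hsurj : Surjective π := fun c =>
    ⟨algebraMap (WittVector 3 k) A (WittVector.teichmuller 3 c), by
      rw [halg, WittVector.teichmuller_coeff_zero]⟩
  have htop : Φ.F 17 = ⊥ := by
    rw [hΦ, Ideal.map_eq_bot_iff_le_ker, Ideal.mk_ker]
    exact ARing_F_le_I hl
  have hone : Φ.F 1 = RingHom.ker π := by
    ext a
    obtain ⟨f, rfl⟩ := hq a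
    rw [RingHom.mem_ker, hπq, hφ, hΦ]
    refine ⟨fun h => ?_, Ideal.mem_map_of_mem _⟩
    obtain ⟨g, hg, hgf⟩ := (Ideal.mem_map_iff_of_surjective q hq).1 h
    rw [← hφ, ← hπq, ← hgf, hπq, hφ]
    exact hg
  have hloc : IsLocalRing A := ARing_local π hsurj fun a ha => ⟨17, by
    have h1 : a ∈ Φ.F 1 := by
      rw [hone]
      exact ha
    have h2 := Φ.pow h1 17
    rw [one_mul, htop] at h2
    exact h2⟩
  have hmax : Φ.F 1 = maximalIdeal A := by
    rw [hone]
    exact eq_maximalIdeal (RingHom.ker_isMaximal_of_surjective π hsurj)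
  have hart : IsArtinianRing A := (isArtinianRing_iff_isNilpotent_maximalIdeal A).2 ⟨17, by
    rw [← hmax, Ideal.zero_eq_bot, eq_bot_iff, ← htop]
    exact ARing_pow_le Φ 17⟩
  have h3 : (3 : A) = q 3 := (map_ofNat q 3).symm
  refine ⟨A, inferInstance, hloc, hart, inferInstance, π, Φ, fun i => q (MvPolynomial.X i), halg,
    ?_, ⟨hmax, htop⟩, ?_, fun i => Ideal.mem_map_of_mem _ (ARing_X_mem wt i), ?_, ?_⟩
  · rw [h3]
    exact fun h => ARing_three_not_mem l h39 (Ideal.Quotient.eq_zero_iff_mem.1 h)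
  · rw [h3]
    exact Ideal.mem_map_of_mem _ (ARing_three_mem wt)
  · intro L hL h
    have h1 : q _ = 0 := Ideal.Quotient.eq_zero_iff_mem.2 (ARing_list_mem l L hL h)
    rw [map_list_sum, List.map_map] at h1
    rw [← h1]
    refine congrArg List.sum (List.map_congr_left fun t _ => ?_)
    simp
  · intro e he h
    have h1 : q _ = q _ := Ideal.Quotient.eq.2 (ARing_top_mem hw hl e he h)
    rw [map_neg, ← h3] at h1
    rw [← h1]
    simp

end Pool.Agent.MP_deef5c_ag.E
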