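import Pool.Agent.MP_deef5c_ag.E.AFil
import Pool.Agent.MP_deef5c_ag.E.ACub

/-! The top curve and the lift of the first generator. -/

open PowerSeries IsLocalRing Function Pool.Agent.MP_deef5c_ag.O
open scoped Polynomial

namespace Pool.Agent.MP_deef5c_ag.E

universe u

variable {A k : Type u} [CommRing A] [IsLocalRing A] [IsArtinianRing A] [Field k] [CharP k 3]
  {Φ : MF A}

theorem TT_unit (π : A →+* k) (hπ : Surjective π) {x : A⟦X⟧}
    (hx : constantCoeff x ∈ maximalIdeal A) :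
    constantCoeff (TT x X) ∈ maximalIdeal A ∧ IsUnit (coeff 1 (TT x X)) := by
  have e : TT x X = X * ((1 + x ^ 15 * X ^ 3) * (1 + X - x - X ^ 3)) := by rw [TT, mul_assoc]
  rw [e]
  refine ⟨by simp, ?_⟩
  rw [coeff_succ_X_mul, coeff_zero_eq_constantCoeff_apply]
  simpa using isUnit_one_sub_self_of_mem_nonunits _ hx

theorem ATopA_unit {R : Type*} [CommRing R] [IsLocalRing R] {f : R} (hf : f ∈ maximalIdeal R) :
    IsUnit (1 + f) := by
  simpa using isUnit_one_sub_self_of_mem_nonunits _ (neg_mem hf)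

/-- `Sg` from `cub_ex`; `τ = sub (((1 + r) X + a) / (1 - r - w X))` (images under `Sg`), and `τ * Sg = Sg` by
`mob`, `ch_smul`, `cub_uniq`.  Weights: `Sg X` has weight `1` for `Φ.tri` (`mem_one_iff`, `Loc.tri`), so
`Sg a` has weight `3` (`en_mem31`); `TT (Sg x) (Sg X) = Sg X * unit`, and
`T (1 - (w X + r)^2) = X ((1 + r) X + a) ((1 - r) X - a)` has weight `3`.  The reduced equation is
`X^3 - s^6 X = TT xb s`, with `X^3 ∣ s` (`dvd_red`), and `xb = s^3 - xb^6 s` (apply the reduction `sub s` of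
`Sg` to `rx`, `map_en`) is divisible by `X^4`; so `s ≡ X^3` modulo `X^4`. -/
theorem top_a (hΦ : Φ.Loc 16) (π : A →+* k) (hπ : Surjective π) {W x : A⟦X⟧} {σ : En A}
    (S : SLv Φ π W x σ) {c : k} {a r w β ρ ω : A⟦X⟧} (h : DL Φ π c x σ a r w β ρ ω) :
    ∃ Sg τ : En A, constantCoeff (Sg X) ∈ maximalIdeal A ∧ constantCoeff (τ X) ∈ maximalIdeal A ∧
      ch (Sg a) (Sg r) (Sg w) (Sg (TT x X)) X 1 = 0 ∧ τ * Sg = Sg ∧
      PowerSeries.map π (τ X) = X + PowerSeries.map π (Sg X) ^ 3 ∧ Sg X ∈ Φ.tri.ps.F 3 ∧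
      X ^ 4 ∣ PowerSeries.map π (Sg X) - X ^ 3 := by
  have m1 : ∀ {n : ℕ} {f : A⟦X⟧}, f ∈ Φ.ps.F (n + 1) → constantCoeff f ∈ maximalIdeal A :=
    fun hf => (mem_one_iff hΦ).1 (Φ.ps.le hf (by omega))
  obtain ⟨hT, hT1⟩ := TT_unit π hπ S.x0
  obtain ⟨Sg, hs, hc⟩ := cub_ex (q := a) (w := w) (m1 h.mr) hT hT1
  have hX : (X : A⟦X⟧) ∈ maximalIdeal A⟦X⟧ := (mem_max_iff _).2 (by simp)
  have ms : Sg X ∈ maximalIdeal A⟦X⟧ := (mem_max_iff _).2 hs
  have mx : Sg x ∈ maximalIdeal A⟦X⟧ := (mem_max_iff _).2 (en_mem Sg hs S.x0)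
  have ma : Sg a ∈ maximalIdeal A⟦X⟧ := (mem_max_iff _).2 (en_mem Sg hs (m1 h.ma))
  have mr : Sg r ∈ maximalIdeal A⟦X⟧ := (mem_max_iff _).2 (en_mem Sg hs (m1 h.mr))
  have mt : Sg w * X + Sg r ∈ maximalIdeal A⟦X⟧ := add_mem (Ideal.mul_mem_left _ _ hX) mr
  have rel : Sg r ^ 2 - Sg a * Sg w = -3 := by
    have := congrArg Sg h.rel
    rwa [map_sub, map_pow, map_mul, map_neg, map_ofNat] at this
  obtain ⟨v, hv⟩ := (ATopA_unit (neg_mem mt)).exists_right_inv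
  obtain ⟨ξ, hξ⟩ : ∃ ξ, ξ = ((1 + Sg r) * X + Sg a) * v := ⟨_, rfl⟩
  have e1 : (1 + -(Sg w * X + Sg r)) * ξ = (1 + Sg r) * X + Sg a * 1 := by
    linear_combination (1 + -(Sg w * X + Sg r)) * hξ + ((1 + Sg r) * X + Sg a) * hv
  have mξ : constantCoeff ξ ∈ maximalIdeal A := (mem_max_iff _).1
    (hξ ▸ Ideal.mul_mem_right _ _ (add_mem (Ideal.mul_mem_left _ _ hX) ma))
  have hτ : sub ξ X = ξ := sub_X mξ
  have c2 : ch (Sg a) (Sg r) (Sg w) (Sg (TT x X)) ξ 1 = 0 := by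
    have e2 := mob rel (Sg (TT x X)) X 1
    have e3 : (1 - Sg r) * 1 - Sg w * X = (1 + -(Sg w * X + Sg r)) * 1 := by ring
    rw [hc, mul_zero, ← e1, e3, ch_smul] at e2
    exact ((ATopA_unit (neg_mem mt)).pow 3).mul_right_eq_zero.1 e2
  have c1 := congrArg (sub ξ) hc
  rw [map_ch, hτ, map_one, map_zero] at c1
  have hb0 : constantCoeff (PowerSeries.map π (Sg X)) ∈ maximalIdeal k := by
    rw [← coeff_zero_eq_constantCoeff_apply, coeff_map, coeff_zero_eq_constantCoeff_apply,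
      (pi_eq_zero_iff π hπ _).2 hs]
    exact zero_mem _
  have hb := sub_X hb0
  have red := map_en π Sg (sub (PowerSeries.map π (Sg X))) hb.symm (hb.symm ▸ hb0)
  have ra : PowerSeries.map π (Sg a) = PowerSeries.map π (Sg X) ^ 3 := by
    rw [red a, h.ra, map_pow, hb]
  have rr : PowerSeries.map π (Sg r) = 0 := by rw [red r, h.rr, map_zero]
  have rw' : PowerSeries.map π (Sg w) = 0 := by rw [red w, h.rw', map_zero]
  have w3 : Sg X ∈ Φ.tri.ps.F 3 := by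
    have w1 : Sg X ∈ Φ.tri.ps.F 1 := (mem_one_iff hΦ.tri).2 hs
    have : HW Φ.tri.ps (Sg a) 3 := ⟨en_mem31 Sg w1 h.ma⟩
    have u1 := ATopA_unit (Ideal.mul_mem_left _ (Sg x ^ 15) (Ideal.pow_mem_of_mem _ ms 3 three_pos))
    have u2 := ATopA_unit (sub_mem (sub_mem ms mx) (Ideal.pow_mem_of_mem _ ms 3 three_pos))
    have u3 := ATopA_unit (neg_mem (Ideal.pow_mem_of_mem _ mt 2 two_pos))
    refine (Ideal.mul_unit_mem_iff_mem _ ((u1.mul u2).mul u3)).1 ?_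
    have e4 : Sg X * ((1 + Sg x ^ 15 * Sg X ^ 3) * (1 + (Sg X - Sg x - Sg X ^ 3)) *
        (1 + -(Sg w * X + Sg r) ^ 2)) = X ^ 3 - X * (Sg r * X + Sg a) ^ 2 := by
      rw [map_TT] at hc
      simp only [ch, Qf, TT] at hc
      linear_combination -hc
    rw [e4]
    exact HW.of (by norm_num)
  refine ⟨Sg, sub ξ, hs, hτ.symm ▸ mξ, hc, ?_, ?_, w3, ?_⟩
  · exact cub_uniq (m1 h.mr) hT hT1 (en_mem (sub ξ) (hτ.symm ▸ mξ) hs) hs mξ c1 c2
  · have e5 := congrArg (PowerSeries.map π) e1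
    simpa [hτ, ra, rr, rw'] using e5
  · have e6 := congrArg (PowerSeries.map π) hc
    rw [map_TT, map_ch, map_TT, ra, rr, rw', map_X, map_one, map_zero] at e6
    have e7 := congrArg (sub (PowerSeries.map π (Sg X))) S.rx
    rw [map_sub, map_mul, map_pow, map_pow, hb, ← red] at e7
    have d3 := dvd_red hΦ.tri π hπ w3
    generalize PowerSeries.map π (Sg X) = s at e6 e7 d3 ⊢
    generalize PowerSeries.map π (Sg x) = y at e6 e7
    simp only [ch, Qf, TT] at e6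
    have e8 : s - X ^ 3 = s ^ 2 * (-(X * s ^ 4) - y ^ 15 * s ^ 2 * (1 + s - y - s ^ 3) - 1 + s ^ 2
        + (s ^ 2 - y ^ 6)) := by linear_combination -e6 - s * e7
    rw [e8]
    refine Dvd.dvd.mul_right ?_ _
    have d6 := pow_dvd_pow_of_dvd d3 2
    rw [← pow_mul] at d6
    exact (pow_dvd_pow _ (by norm_num)).trans d6

end Pool.Agent.MP_deef5c_ag.E
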