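import Pool.Agent.MP_deef5c_ag.E.BSD

/-! The Cartier identity and the reduced equations. -/

open Polynomial IsLocalRing Function

namespace Pool.Agent.MP_deef5c_ag.E

universe u

/-- good pairs -/
def BCar_good {V : Type u} [CommRing V] (N w : V[X]) : Prop :=
  (3 : V[X]) ∣ derivative (derivative (N * w ^ 2)) + N ^ 3

theorem BCar_lin {V : Type u} [CommRing V] {e : ℤ} (he : e = 1 ∨ e = -1) (t : V) :
    BCar_good (C (e : V)) (X - C t) := by
  have h : (C (e : V) : V[X]) ^ 2 = 1 := by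
    rcases he with rfl | rfl <;> simp
  refine ⟨C (e : V), ?_⟩
  rw [sq (X - C t)]
  simp only [derivative_mul, derivative_add, derivative_sub, derivative_C, derivative_X,
    derivative_one, derivative_zero]
  linear_combination C (e : V) * h

theorem BCar_cube {V : Type u} [CommRing V] (A w : V[X]) :
    (3 : V[X]) ∣ derivative (derivative (A * w ^ 3)) - derivative (derivative A) * w ^ 3 := by
  refine ⟨2 * derivative A * w ^ 2 * derivative w + 2 * A * w * derivative w ^ 2 +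
    A * w ^ 2 * derivative (derivative w), ?_⟩
  rw [show w ^ 3 = w * w * w by ring]
  simp only [derivative_mul, derivative_add]
  ring

theorem BCar_mul {V : Type u} [CommRing V] {N₁ w₁ N₂ w₂ : V[X]} (h₁ : BCar_good N₁ w₁)
    (h₂ : BCar_good N₂ w₂) : BCar_good (N₁ * w₂ + N₂ * w₁) (w₁ * w₂) := by
  obtain ⟨a, ha⟩ := h₁
  obtain ⟨b, hb⟩ := h₂
  obtain ⟨c, hc⟩ := BCar_cube (N₁ * w₁ ^ 2) w₂
  obtain ⟨d, hd⟩ := BCar_cube (N₂ * w₂ ^ 2) w₁
  refine ⟨a * w₂ ^ 3 + b * w₁ ^ 3 + c + d + N₁ * w₂ * (N₂ * w₁) * (N₁ * w₂ + N₂ * w₁), ?_⟩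
  rw [show (N₁ * w₂ + N₂ * w₁) * (w₁ * w₂) ^ 2 = N₁ * w₁ ^ 2 * w₂ ^ 3 + N₂ * w₂ ^ 2 * w₁ ^ 3 by ring,
    derivative_add, derivative_add]
  linear_combination w₂ ^ 3 * ha + w₁ ^ 3 * hb + hc + hd

theorem BCar_three {V : Type u} [CommRing V] {N₁ w₁ N₂ w₂ N₃ w₃ : V[X]} (h₁ : BCar_good N₁ w₁)
    (h₂ : BCar_good N₂ w₂) (h₃ : BCar_good N₃ w₃) :
    BCar_good (N₁ * w₂ * w₃ + N₂ * w₁ * w₃ + N₃ * w₁ * w₂) (w₁ * w₂ * w₃) := by
  have := BCar_mul (BCar_mul h₁ h₂) h₃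
  rwa [show (N₁ * w₂ + N₂ * w₁) * w₃ + N₃ * (w₁ * w₂) =
    N₁ * w₂ * w₃ + N₂ * w₁ * w₃ + N₃ * w₁ * w₂ by ring] at this

theorem BCar_np {V : Type u} [CommRing V] {e : Fin 3 → ℤ} (he : ∀ i, e i = 1 ∨ e i = -1)
    (T : Fin 3 → V) : BCar_good (np e T) (Qp T) := by
  have := BCar_three (BCar_lin (he 0) (T 0)) (BCar_lin (he 1) (T 1)) (BCar_lin (he 2) (T 2))
  rwa [mul_assoc (C _), mul_assoc (C _), mul_assoc (C _)] at this

/-- Call `(N, w)` good if `3 ∣ (N w^2)'' + N^3`.  `(± 1, X - t)` is good; if `(N₁, w₁)`, `(N₂, w₂)` are good then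
so is `(N₁ w₂ + N₂ w₁, w₁ w₂)`: the form is `N₁ w₁^2 w₂^3 + N₂ w₂^2 w₁^3`, the derivative of a cube is a multiple
of `3`, and cubing is additive modulo `3`. -/
theorem cartier {V : Type u} [CommRing V] {e : Fin 4 → Fin 3 → ℤ}
    (he : ∀ c i, e c i = 1 ∨ e c i = -1) (z : Fin 4 → Fin 3 → V) :
    (3 : V[X]) ∣ derivative (derivative (NN e z 0 * WQ (fun c => Qp (z c)) 0 ^ 2)) + NN e z 0 ^ 3 := by
  exact BCar_three (BCar_np (he 1) (z 1)) (BCar_np (he 2) (z 2)) (BCar_np (he 3) (z 3))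

variable {V : Type u} [CommRing V] [IsDomain V] [IsLocalRing V] {ρ δ : V} {z : Fin 4 → Fin 3 → V}
  {e : Fin 4 → Fin 3 → ℤ} {G : Fin 4 → V[X]} {y : Fin 4 → V}

theorem SD.charP (h : SD ρ δ z e G y) : CharP (ResidueField V) 3 := by
  refine (CharP.charP_iff_prime_eq_zero Nat.prime_three).2 ?_
  have h1 := congrArg (residue V) h.h3
  rw [map_mul, map_pow, map_pow, (residue_eq_zero_iff ρ).2 h.hρ, map_neg, map_ofNat] at h1
  have h2 : (3 : ResidueField V) = 0 := by linear_combination h1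
  exact_mod_cast h2

theorem SD.mapG (h : SD ρ δ z e G y) (j : Fin 4) :
    (G j).map (residue V) = C (residue V ((G j).coeff 0)) := by
  ext n
  rw [coeff_map, coeff_C]
  split_ifs with hn
  · rw [hn]
  · exact (residue_eq_zero_iff _).2 (h.hG j n hn)

/-- `NQ_rel`, `3 = -δ^2 ρ^16`, cancel `C δ` -/
theorem SD.rel (h : SD ρ δ z e G y) :
    G 0 * Qp (z 0) + G 1 * Qp (z 1) - G 2 * Qp (z 2) =
        -(C (δ * ρ ^ 16) * (np (e 3) (z 3) * (Qp (z 0) * Qp (z 1) * Qp (z 2)))) ∧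
      G 0 * Qp (z 0) - G 1 * Qp (z 1) - G 3 * Qp (z 3) =
        -(C (δ * ρ ^ 16) * (np (e 2) (z 2) * (Qp (z 0) * Qp (z 1) * Qp (z 3)))) := by
  have h3 : (C δ : V[X]) ^ 2 * C ρ ^ 16 = -3 := by
    rw [← map_pow, ← map_pow, ← map_mul, h.h3, map_neg, map_ofNat]
  obtain ⟨a, b⟩ := NQ_rel (fun c => np (e c) (z c)) fun c => Qp (z c)
  have hN : ∀ j, NQ (fun c => np (e c) (z c)) (fun c => Qp (z c)) j = C δ * G j := h.hN
  simp only [hN] at a b
  have hδ : (C δ : V[X]) ≠ 0 := C_ne_zero.2 h.δ0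
  rw [map_mul, map_pow]
  refine ⟨mul_left_cancel₀ hδ ?_, mul_left_cancel₀ hδ ?_⟩
  · linear_combination a + np (e 3) (z 3) * (Qp (z 0) * Qp (z 1) * Qp (z 2)) * h3
  · linear_combination b + np (e 2) (z 2) * (Qp (z 0) * Qp (z 1) * Qp (z 3)) * h3

/-- in `cartier` put `NN = C δ * G 0`, `3 = -δ^2 ρ^16`, cancel `C δ`, reduce, cancel the unit `L 0` -/
theorem SD.red (h : SD ρ δ z e G y) {q : Fin 4 → (ResidueField V)[X]} {L : Fin 4 → ResidueField V}
    (hq : ∀ c, q c = Qp fun i => residue V (z c i)) (hL : ∀ j, L j = residue V ((G j).coeff 0)) :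
    C (L 2) * q 2 = C (L 0) * q 0 + C (L 1) * q 1 ∧ C (L 3) * q 3 = C (L 0) * q 0 - C (L 1) * q 1 ∧
      derivative (derivative ((q 1 * q 2 * q 3) ^ 2)) = C (-(residue V δ ^ 2 * L 0 ^ 2)) ∧
      ∀ j, NN e (fun c i => residue V (z c i)) j = C (residue V δ * L j) := by
  have hρ : residue V ρ = 0 := (residue_eq_zero_iff ρ).2 h.hρ
  have hQ : ∀ c, (Qp (z c)).map (residue V) = q c := fun c => by rw [map_Qp, hq]
  have hG : ∀ j, (G j).map (residue V) = C (L j) := fun j => by rw [h.mapG, hL]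
  have h0 : (C (δ * ρ ^ 16) : V[X]).map (residue V) = 0 := by
    rw [map_C, map_mul, map_pow, hρ]
    simp
  obtain ⟨a, b⟩ := h.rel
  have a' := congrArg (Polynomial.map (residue V)) a
  have b' := congrArg (Polynomial.map (residue V)) b
  simp only [Polynomial.map_sub, Polynomial.map_add, Polynomial.map_mul, Polynomial.map_neg, hQ, hG,
    h0, zero_mul, neg_zero] at a' b'
  refine ⟨by linear_combination -a', by linear_combination -b', ?_, fun j => ?_⟩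
  · have h3 : (C δ : V[X]) ^ 2 * C ρ ^ 16 = -3 := by
      rw [← map_pow, ← map_pow, ← map_mul, h.h3, map_neg, map_ofNat]
    have hδ : (C δ : V[X]) ≠ 0 := C_ne_zero.2 h.δ0
    obtain ⟨K, hK⟩ := cartier h.he z
    have hW : WQ (fun c => Qp (z c)) 0 = Qp (z 1) * Qp (z 2) * Qp (z 3) := rfl
    rw [h.hN, hW, mul_assoc (C δ), derivative_C_mul, derivative_C_mul] at hK
    have h4 : derivative (derivative (G 0 * (Qp (z 1) * Qp (z 2) * Qp (z 3)) ^ 2)) +
        C δ ^ 2 * G 0 ^ 3 = -(C (δ * ρ ^ 16) * K) := by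
      refine mul_left_cancel₀ hδ ?_
      rw [C_mul, C_pow]
      linear_combination hK + K * h3
    have h5 := congrArg (Polynomial.map (residue V)) h4
    simp only [Polynomial.map_add, Polynomial.map_mul, Polynomial.map_neg, Polynomial.map_pow,
      ← derivative_map, hQ, hG, h0, zero_mul, neg_zero, derivative_C_mul] at h5
    rw [map_C] at h5
    have hL0 : (C (L 0) : (ResidueField V)[X]) ≠ 0 :=
      C_ne_zero.2 (hL 0 ▸ ((h.hu 0).map (residue V)).ne_zero)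
    refine mul_left_cancel₀ hL0 ?_
    rw [C_neg, C_mul, C_pow, C_pow]
    linear_combination h5
  · rw [← map_NN, h.hN, Polynomial.map_mul, map_C, hG, map_mul]

end Pool.Agent.MP_deef5c_ag.E
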