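import Pool.Agent.MP_deef5c_ag.E.ABas

/-! Invariants of an automorphism of order three; the special fibre. -/

open PowerSeries IsLocalRing Function Pool.Agent.MP_deef5c_ag.O
open scoped Polynomial

namespace Pool.Agent.MP_deef5c_ag.E

universe u

/-- By `qspan`, `f = a₀ + a₁ X + a₂ X^2` with `aᵢ = sub S gᵢ` fixed by `τ` (`τ * sub S = sub S` by `en_ext`).
Apply `τ` and `τ^2`, subtract and cancel the non-zero-divisors (`nzd`): `a₁ + a₂ (τ X + X) = 0`,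
`a₁ + a₂ (τ^2 X + X) = 0`, so `a₂ = 0`, `a₁ = 0`. -/
theorem inv3 {D k : Type u} [CommRing D] [IsLocalRing D] [CL D] [Field k] (π : D →+* k)
    (hπ : Surjective π) (τ : En D) (h3 : τ (τ (τ X)) = X)
    (h1 : PowerSeries.map π (τ X) ≠ X) (h2 : PowerSeries.map π (τ (τ X)) ≠ X)
    (h12 : PowerSeries.map π (τ X) ≠ PowerSeries.map π (τ (τ X)))
    (ho : order (PowerSeries.map π (X * τ X * τ (τ X))) = (3 : ℕ)) (f : D⟦X⟧) (hf : τ f = f) :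
    ∃ g, sub (X * τ X * τ (τ X)) g = f := by
  have hm := Qb_mem π hπ _ 3 (by norm_num) ho
  have hS : τ (X * τ X * τ (τ X)) = X * τ X * τ (τ X) := by
    rw [map_mul, map_mul, h3]
    ring
  have e : τ * sub (X * τ X * τ (τ X)) = sub (X * τ X * τ (τ X)) := by
    refine en_ext ?_ ?_
    · rw [AlgHom.mul_apply, sub_X hm, hS]
    · rw [AlgHom.mul_apply, sub_X hm, hS]
      exact hm
  have e' : ∀ g, τ (sub (X * τ X * τ (τ X)) g) = sub (X * τ X * τ (τ X)) g := fun g => by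
    rw [← AlgHom.mul_apply, e]
  obtain ⟨g, hg⟩ := qspan π hπ _ 3 (by norm_num) ho f
  simp only [Finset.sum_range_succ, Finset.sum_range_zero, zero_add, pow_zero, mul_one,
    pow_one] at hg
  refine ⟨g 0, ?_⟩
  have e0 := e' (g 0)
  have e1 := e' (g 1)
  have e2 := e' (g 2)
  generalize sub (X * τ X * τ (τ X)) (g 0) = a₀ at hg e0 ⊢
  generalize sub (X * τ X * τ (τ X)) (g 1) = a₁ at hg e1
  generalize sub (X * τ X * τ (τ X)) (g 2) = a₂ at hg e2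
  have f1 : f = a₀ + a₁ * τ X + a₂ * τ X ^ 2 := by
    rw [← hf, hg, map_add, map_add, map_mul, map_mul, map_pow, e0, e1, e2]
  have f2 : f = a₀ + a₁ * τ (τ X) + a₂ * τ (τ X) ^ 2 := by
    rw [← hf, f1, map_add, map_add, map_mul, map_mul, map_pow, e0, e1, e2]
  have g1 : a₁ + a₂ * (τ X + X) = 0 := by
    refine nzd π hπ (F := τ X - X) ?_ (by linear_combination hg - f1)
    rw [map_sub, PowerSeries.map_X]
    exact sub_ne_zero.2 h1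
  have g2 : a₁ + a₂ * (τ (τ X) + X) = 0 := by
    refine nzd π hπ (F := τ (τ X) - X) ?_ (by linear_combination hg - f2)
    rw [map_sub, PowerSeries.map_X]
    exact sub_ne_zero.2 h2
  have g3 : a₂ = 0 := by
    refine nzd π hπ (F := τ X - τ (τ X)) ?_ (by linear_combination g1 - g2)
    rw [map_sub]
    exact sub_ne_zero.2 h12
  rw [g3, zero_mul, add_zero] at g1
  rw [hg, g1, g3, zero_mul, zero_mul, add_zero, add_zero]

theorem BSp_dvd {k : Type u} [Field k] {n : ℕ} {f : k⟦X⟧} : X ^ n ∣ f ↔ (n : ℕ∞) ≤ order f :=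
  ⟨fun h => nat_le_order f n (X_pow_dvd_iff.1 h), fun h => X_pow_dvd_iff.2 fun m hm =>
    coeff_of_lt_order m (lt_of_lt_of_le (by exact_mod_cast hm) h)⟩

theorem BSp_ord {k : Type u} [Field k] (φ : En k) (hφ : order (φ X) = (3 : ℕ)) (n : ℕ) {f : k⟦X⟧}
    (h : X ^ (3 * n + 1) ∣ φ f) : X ^ (n + 1) ∣ f := by
  rw [BSp_dvd] at h ⊢
  rw [order_en φ 3 (by norm_num) hφ] at h
  generalize order f = o at h ⊢
  induction o using ENat.recTopCoe with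
  | top => exact le_top
  | coe o =>
    have h' : 3 * n + 1 ≤ 3 * o := by exact_mod_cast h
    exact_mod_cast (by omega : n + 1 ≤ o)

theorem BSp_diff {k : Type u} [Field k] (φ ψ : En k) (hφ : X ^ 3 ∣ φ X) (hψ : X ^ 3 ∣ ψ X)
    {c : k⟦X⟧} (hc : X ^ 2 ∣ c) : (φ X - ψ X) * X ^ 3 ∣ φ c - ψ c := by
  have h0 : ∀ f : k⟦X⟧, X ^ 3 ∣ f → constantCoeff f ∈ maximalIdeal k := by
    rintro _ ⟨g, rfl⟩
    simp
  obtain ⟨d, rfl⟩ := hc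
  obtain ⟨r, hr⟩ := sub_dvd φ ψ (h0 _ hφ) (h0 _ hψ) d
  obtain ⟨p, hp⟩ := hφ
  obtain ⟨q, hq⟩ := hψ
  refine ⟨(p + q) * φ d + X ^ 3 * q ^ 2 * r, ?_⟩
  rw [map_mul, map_mul, map_pow, map_pow]
  linear_combination (φ X - ψ X) * φ d * (hp + hq) + ψ X ^ 2 * hr +
    (φ X - ψ X) * r * (ψ X + X ^ 3 * q) * hq

variable {k : Type u} [Field k] [CharP k 3]

/-- Let `S = X * τ X * τ^2 X`, `E₁, E₂` the other symmetric functions.  Apply `σ` to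
`X^3 - E₁ X^2 + E₂ X - S = 0` and compare with
`(σ X - X) (σ X - τ X) (σ X - τ^2 X) = (σ X)^3 - E₁ (σ X)^2 + E₂ σ X - S`: the product equals
`(σ E₁ - E₁) (σ X)^2 - (σ E₂ - E₂) σ X + (σ S - S)`.  Since `X^9 ∣ Eᵢ` (characteristic three) and `S` has order
three, `X^2 ∣ cᵢ` (`order_en`), say `cᵢ = X^2 dᵢ`; then with `φ = σ * sub S`, `ψ = sub S`,
`σ Eᵢ - Eᵢ = ((σ S)^2 - S^2) φ dᵢ + S^2 (φ dᵢ - ψ dᵢ)` is divisible by `(σ S - S) X^3` (`sub_dvd`).  So the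
product is `(σ S - S) (1 + X^4 e)`, and `σ S - S ≡ X^27 (u₀ + u₁ X^3)` modulo `X^31`.  As `S ≡ X^3` modulo
`X^11`, the series `h' = h - X^9 (u₀ + u₁ X)` has `X^31 ∣ sub S h'`, so `3 * order h' ≥ 31`. -/
theorem spec_fib (σ τ : En k) {a b y y' : k}
    (hσ : X ^ 13 ∣ σ X - X - X ^ 9 * (C a + C y * X ^ 3))
    (hτ1 : X ^ 13 ∣ τ X - X - X ^ 9 * (C b + C y' * X ^ 3))
    (hτ2 : X ^ 13 ∣ τ (τ X) - X + X ^ 9 * (C b + C y' * X ^ 3)) {h c₁ c₂ : k⟦X⟧}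
    (hh : sub (X * τ X * τ (τ X)) h = σ (X * τ X * τ (τ X)) - X * τ X * τ (τ X))
    (h1 : sub (X * τ X * τ (τ X)) c₁ = X + τ X + τ (τ X))
    (h2 : sub (X * τ X * τ (τ X)) c₂ = X * τ X + X * τ (τ X) + τ X * τ (τ X)) :
    X ^ 11 ∣ h - X ^ 9 * (C (a ^ 3 - b ^ 2 * a) + C (a * b * y' - b ^ 2 * y) * X) := by
  have h3 : (3 : k⟦X⟧) = 0 := by
    rw [← map_ofNat (C : k →+* k⟦X⟧) 3, show (3 : k) = 0 from CharP.cast_eq_zero k 3, map_zero]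
  have hP : (σ X - X) * (σ X - τ X) * (σ X - τ (τ X)) =
      (σ (X + τ X + τ (τ X)) - (X + τ X + τ (τ X))) * σ X ^ 2 -
        (σ (X * τ X + X * τ (τ X) + τ X * τ (τ X)) - (X * τ X + X * τ (τ X) + τ X * τ (τ X))) *
          σ X + (σ (X * τ X * τ (τ X)) - X * τ X * τ (τ X)) := by
    simp only [map_add, map_mul]
    ring
  obtain ⟨p₀, hp₀⟩ := hσ
  obtain ⟨p₁, hp₁⟩ := hτ1
  obtain ⟨p₂, hp₂⟩ := hτ2
  generalize τ (τ X) = t₂ at *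
  generalize τ X = t₁ at *
  obtain ⟨B, hB⟩ : ∃ B : k⟦X⟧, B = C b + C y' * X ^ 3 := ⟨_, rfl⟩
  obtain ⟨A, hA⟩ : ∃ A : k⟦X⟧, A = C a + C y * X ^ 3 := ⟨_, rfl⟩
  rw [← hB] at hp₁ hp₂
  rw [← hA] at hp₀
  have e0 : σ X = X * (1 + X ^ 8 * (A + X ^ 4 * p₀)) := by linear_combination hp₀
  have e1 : t₁ = X + X ^ 9 * (B + X ^ 4 * p₁) := by linear_combination hp₁
  have e2 : t₂ = X + X ^ 9 * (-B + X ^ 4 * p₂) := by linear_combination hp₂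
  obtain ⟨T, hT, hT1⟩ : ∃ T : k⟦X⟧, X * t₁ * t₂ = X ^ 3 * T ∧ (X : k⟦X⟧) ^ 4 ∣ T - 1 :=
    ⟨(1 + X ^ 8 * (B + X ^ 4 * p₁)) * (1 + X ^ 8 * (-B + X ^ 4 * p₂)), by rw [e1, e2]; ring,
      X ^ 4 * ((B + X ^ 4 * p₁) + (-B + X ^ 4 * p₂) +
        X ^ 8 * (B + X ^ 4 * p₁) * (-B + X ^ 4 * p₂)), by ring⟩
  have hE1 : X ^ (3 * 1 + 1) ∣ X + t₁ + t₂ :=
    ⟨X ^ 9 * (p₁ + p₂), by rw [e1, e2]; linear_combination X * h3⟩
  have hE2 : X ^ (3 * 1 + 1) ∣ X * t₁ + X * t₂ + t₁ * t₂ :=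
    ⟨2 * X ^ 10 * (p₁ + p₂) + X ^ 14 * (B + X ^ 4 * p₁) * (-B + X ^ 4 * p₂), by
      rw [e1, e2]; linear_combination X ^ 2 * h3⟩
  have hd : (σ X - X) * (σ X - t₁) * (σ X - t₂) =
      X ^ 27 * ((A + X ^ 4 * p₀) * (A - B + X ^ 4 * (p₀ - p₁)) * (A + B + X ^ 4 * (p₀ - p₂))) := by
    rw [e0, e1, e2]
    ring
  generalize X + t₁ + t₂ = E₁ at *
  generalize X * t₁ + X * t₂ + t₁ * t₂ = E₂ at *
  generalize X * t₁ * t₂ = S at *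
  have hT0 : constantCoeff T = 1 := by
    obtain ⟨r, hr⟩ := hT1
    rw [sub_eq_iff_eq_add.1 hr]
    simp
  have hm : constantCoeff S ∈ maximalIdeal k := by
    rw [hT]
    simp
  have ho : order (sub S X) = (3 : ℕ) := by
    rw [sub_X hm, hT, order_mul, order_X_pow, order_zero_of_unit (by
      rw [isUnit_iff_constantCoeff, hT0]; exact isUnit_one), add_zero]
  have hφ : (σ * sub S) X = σ S := by rw [AlgHom.mul_apply, sub_X hm]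
  have hdiff : ∀ c E, sub S c = E → X ^ (3 * 1 + 1) ∣ E → (σ S - S) * X ^ 3 ∣ σ E - E := by
    intro c E hc hE
    have := BSp_diff (σ * sub S) (sub S)
      ⟨(1 + X ^ 8 * (A + X ^ 4 * p₀)) ^ 3 * σ T, by rw [hφ, hT, map_mul, map_pow, e0]; ring⟩
      ⟨T, by rw [sub_X hm, hT]⟩ (BSp_ord (sub S) ho 1 (hc ▸ hE))
    rwa [hφ, sub_X hm, AlgHom.mul_apply, hc] at this
  obtain ⟨d₁, hd₁⟩ := hdiff _ _ h1 hE1
  obtain ⟨d₂, hd₂⟩ := hdiff _ _ h2 hE2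
  obtain ⟨e, he⟩ : ∃ e : k⟦X⟧, (σ X - X) * (σ X - t₁) * (σ X - t₂) = (σ S - S) * (1 + X ^ 4 * e) :=
    ⟨(d₁ * σ X - d₂) * (1 + X ^ 8 * (A + X ^ 4 * p₀)), by
      rw [hP, hd₁, hd₂]
      linear_combination (σ S - S) * X ^ 3 * (d₁ * σ X - d₂) * e0⟩
  obtain ⟨w, hw⟩ : X ^ 27 ∣ σ S - S := by
    have hu : IsUnit (1 + X ^ 4 * e) := by
      rw [isUnit_iff_constantCoeff]
      simp
    rw [← hu.dvd_mul_right, ← he, hd]
    exact Dvd.intro _ rfl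
  obtain ⟨v, hv⟩ : X ^ 4 ∣ (A + X ^ 4 * p₀) * (A - B + X ^ 4 * (p₀ - p₁)) *
      (A + B + X ^ 4 * (p₀ - p₂)) -
      (C (a ^ 3 - b ^ 2 * a) + C (a * b * y' - b ^ 2 * y) * X ^ 3) := by
    have e3 : (A + X ^ 4 * p₀) * (A - B + X ^ 4 * (p₀ - p₁)) * (A + B + X ^ 4 * (p₀ - p₂)) -
        (C (a ^ 3 - b ^ 2 * a) + C (a * b * y' - b ^ 2 * y) * X ^ 3) =
        X ^ 4 * (p₀ * (A - B + X ^ 4 * (p₀ - p₁)) * (A + B + X ^ 4 * (p₀ - p₂)) +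
          A * (p₀ - p₁) * (A + B + X ^ 4 * (p₀ - p₂)) + A * (A - B) * (p₀ - p₂)) +
        (A * (A - B) * (A + B) -
          (C (a ^ 3 - b ^ 2 * a) + C (a * b * y' - b ^ 2 * y) * X ^ 3)) := by ring
    rw [e3]
    refine dvd_add (Dvd.intro _ rfl) ⟨X ^ 2 * (C y ^ 3 * X ^ 3 - C a * C y' ^ 2 -
      2 * C y * C b * C y' - C y * C y' ^ 2 * X ^ 3), ?_⟩
    simp only [map_sub, map_mul, map_pow]
    rw [hA, hB]
    linear_combination (C a ^ 2 * C y * X ^ 3 + C a * C y ^ 2 * X ^ 6 -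
      C a * C b * C y' * X ^ 3) * h3
  obtain ⟨r₁, hr₁⟩ := hT1.trans (sub_one_dvd_pow_sub_one T 9)
  obtain ⟨r₂, hr₂⟩ := hT1.trans (sub_one_dvd_pow_sub_one T 10)
  refine BSp_ord (sub S) ho 10 ?_
  rw [map_sub, hh, map_mul, map_add, map_mul, map_pow, sub_X hm, Base_en_C, Base_en_C]
  generalize C (a ^ 3 - b ^ 2 * a) = u₀ at *
  generalize C (a * b * y' - b ^ 2 * y) = u₁ at *
  refine ⟨v - e * w - (u₀ * r₁ + u₁ * X ^ 3 * r₂), ?_⟩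
  rw [hd] at he
  have hS : S ^ 9 * (u₀ + u₁ * S) = X ^ 27 * (u₀ * T ^ 9 + u₁ * X ^ 3 * T ^ 10) := by
    rw [hT]
    ring
  rw [hS]
  linear_combination -he + X ^ 27 * hv - X ^ 4 * e * hw - X ^ 27 * u₀ * hr₁ -
    X ^ 30 * u₁ * hr₂

end Pool.Agent.MP_deef5c_ag.E
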