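import Pool.Agent.MP_deef5c_ag.E.DefsB
import Pool.Agent.MP_deef5c_ag.E.BSp

/-! The data on the quotient curves over an Artinian ring. -/

open PowerSeries IsLocalRing Function Pool.Agent.MP_deef5c_ag.O
open scoped Polynomial

namespace Pool.Agent.MP_deef5c_ag.E

universe u

section Aux

variable {D : Type u} [CommRing D]

theorem BS_coe (φ : En D) (P : D[X]) : φ (P : D⟦X⟧) = P.eval₂ C (φ X) := by
  have h : φ (P : D⟦X⟧) = Polynomial.aeval (φ X) P := by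
    rw [Polynomial.aeval_algHom_apply, Polynomial.aeval_def, ← Polynomial.eval₂_C_X_eq_coe]
    rfl
  rw [h, Polynomial.aeval_def]
  rfl

theorem BS_dmul (f g : D⟦X⟧) : d⁄dX D (f * g) = f * d⁄dX D g + g * d⁄dX D f := by
  rw [Derivation.leibniz, smul_eq_mul, smul_eq_mul]

variable [IsLocalRing D] [CL D]

theorem BS_ws (σ Φ : En D) (hσ : constantCoeff (σ X) ∈ maximalIdeal D) {S W U : D⟦X⟧}
    (hU : IsUnit U) (h : Φ (W * U) = σ S - S) : σ X - X ∣ Φ W := by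
  have h1 : σ X - X ∣ σ S - S := sub_dvd σ 1 hσ (by simp) S
  rw [← h, map_mul] at h1
  exact (hU.map Φ).dvd_mul_right.1 h1

theorem BS_der (σ Φ : En D) (hσ : constantCoeff (σ X) ∈ maximalIdeal D) {x₁ x₂ W U V c₁ c₂ : D⟦X⟧}
    (hΦ : Φ X = X * x₁ * x₂) (hU : IsUnit U) (h : Φ (W * U) = σ (Φ X) - Φ X) (hV : W ∣ V * U - 1)
    (h1 : Φ c₁ = X + x₁ + x₂) (h2 : Φ c₂ = X * x₁ + X * x₂ + x₁ * x₂) :
    σ X - X ∣ (X - x₁) * (X - x₂) * (Φ (d⁄dX D W) - Φ V * (d⁄dX D (σ X) - 1)) := by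
  have hm : constantCoeff (Φ X) ∈ maximalIdeal D := by rw [hΦ]; simp
  obtain ⟨e₁, he₁⟩ := BS_ws σ Φ hσ hU h
  obtain ⟨e₂, he₂⟩ : σ X - X ∣ σ (d⁄dX D (Φ X)) - d⁄dX D (Φ X) := sub_dvd σ 1 hσ (by simp) _
  obtain ⟨e₃, he₃⟩ := hV
  have he₄ : Φ V * Φ U - 1 = Φ W * Φ e₃ := by
    simpa only [map_sub, map_mul, map_one] using congrArg Φ he₃
  have hd := congrArg (d⁄dX D) h
  rw [der_en Φ hm, map_sub, der_en σ hσ, BS_dmul, map_add, map_mul, map_mul] at hd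
  have hc : X * X * X - Φ c₁ * (X * X) + Φ c₂ * X - Φ X = 0 := by
    rw [h1, h2, hΦ]; ring
  have hd2 := congrArg (d⁄dX D) hc
  simp only [map_sub, map_add, BS_dmul, derivative_X, map_zero] at hd2
  rw [der_en Φ hm c₁, der_en Φ hm c₂] at hd2
  have e : (X - x₁) * (X - x₂) =
      (Φ (d⁄dX D c₁) * X ^ 2 - Φ (d⁄dX D c₂) * X + 1) * d⁄dX D (Φ X) := by
    rw [h1, h2] at hd2
    linear_combination hd2
  rw [e, mul_assoc]
  refine Dvd.dvd.mul_left ⟨Φ V * e₂ * d⁄dX D (σ X) - e₁ * Φ V * Φ (d⁄dX D U) * d⁄dX D (Φ X) -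
    e₁ * Φ e₃ * Φ (d⁄dX D W) * d⁄dX D (Φ X), ?_⟩ _
  linear_combination Φ V * hd + Φ V * d⁄dX D (σ X) * he₂ -
    (Φ V * Φ (d⁄dX D U) * d⁄dX D (Φ X) + Φ e₃ * Φ (d⁄dX D W) * d⁄dX D (Φ X)) * he₁ -
    Φ (d⁄dX D W) * d⁄dX D (Φ X) * he₄

variable {k : Type u} [Field k]

theorem BS_prep (π : D →+* k) (hπ : Surjective π) {h : D⟦X⟧} {u₀ u₁ : k} (hu : u₀ ≠ 0)
    (hh : X ^ 11 ∣ PowerSeries.map π h - X ^ 9 * (C u₀ + C u₁ * X)) :
    ∃ (W : D[X]) (U : D⟦X⟧), W.Monic ∧ W.natDegree = 9 ∧ (∀ n < 9, W.coeff n ∈ maximalIdeal D) ∧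
      IsUnit U ∧ h = W * U ∧ (∀ f : D⟦X⟧, ∃ r : D[X], r.degree < 9 ∧ (W : D⟦X⟧) ∣ f - r) ∧
      ∀ V : D[X], (W : D⟦X⟧) ∣ V * U - 1 → π (V.coeff 0) * u₀ = 1 ∧
        π (V.coeff 0) * u₁ + π (V.coeff 1) * u₀ = 0 := by
  obtain ⟨w, hw⟩ := hh
  have e : PowerSeries.map π h = X ^ 9 * (C u₀ + C u₁ * X + X ^ 2 * w) := by
    linear_combination hw
  have ho : order (PowerSeries.map π h) = (9 : ℕ) := by
    rw [e, order_eq_nat]
    refine ⟨?_, fun i hi => ?_⟩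
    · simpa [coeff_X_pow_mul'] using hu
    · rw [coeff_X_pow_mul', if_neg (by omega)]
  obtain ⟨hg0, hg1⟩ := Qb_ord π hπ h 9 ho
  obtain ⟨W, U, hW⟩ := exists_isWeierstrassFactorization hg0
  have hdeg : W.natDegree = 9 := hW.natDegree_eq_toNat_order_map.trans hg1
  have hdist : ∀ n < 9, W.coeff n ∈ maximalIdeal D := fun n hn =>
    hW.isDistinguishedAt.mem (by omega)
  have hWr : PowerSeries.map π (W : D⟦X⟧) = X ^ 9 := by
    ext n
    rw [coeff_map, Polynomial.coeff_coe, coeff_X_pow]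
    rcases lt_trichotomy n 9 with hn | rfl | hn
    · rw [if_neg hn.ne, (pi_eq_zero_iff π hπ _).2 (hdist n hn)]
    · rw [if_pos rfl, ← hdeg, hW.isDistinguishedAt.monic.coeff_natDegree, map_one]
    · rw [if_neg hn.ne', Polynomial.coeff_eq_zero_of_natDegree_lt (by omega), map_zero]
  have hWo : order (PowerSeries.map π (W : D⟦X⟧)) = (9 : ℕ) := by rw [hWr, order_X_pow]
  obtain ⟨hW0, hW1⟩ := Qb_ord π hπ _ 9 hWo
  refine ⟨W, U, hW.isDistinguishedAt.monic, hdeg, hdist, hW.isUnit, hW.eq_mul, fun f => ?_, ?_⟩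
  · obtain ⟨q, r, hqr⟩ := exists_isWeierstrassDivision f hW0
    refine ⟨r, ?_, q, ?_⟩
    · have := hqr.degree_lt
      rwa [hW1] at this
    · rw [hqr.eq_mul_add]; ring
  · rintro V ⟨q, hq⟩
    have hU : PowerSeries.map π U = C u₀ + C u₁ * X + X ^ 2 * w := by
      have h1 := congrArg (PowerSeries.map π) hW.eq_mul
      rw [e, map_mul, hWr] at h1
      exact (mul_left_cancel₀ (pow_ne_zero 9 X_ne_zero) h1).symm
    have h2 := congrArg (PowerSeries.map π) hq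
    rw [map_sub, map_mul, map_mul, hWr, hU, map_one] at h2
    have h3 : PowerSeries.map π (V : D⟦X⟧) * C u₀ + PowerSeries.map π (V : D⟦X⟧) * C u₁ * X =
        1 + X ^ 2 * (X ^ 7 * PowerSeries.map π q - PowerSeries.map π (V : D⟦X⟧) * w) := by
      linear_combination h2
    have h4 := congrArg (coeff 0) h3
    have h5 := congrArg (coeff 1) h3
    rw [map_add, map_add, coeff_X_pow_mul', if_neg (by omega), coeff_mul_C, coeff_zero_mul_X,
      coeff_map, Polynomial.coeff_coe] at h4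
    rw [map_add, map_add, coeff_X_pow_mul', if_neg (by omega), coeff_mul_C,
      show (1 : ℕ) = 0 + 1 from rfl, coeff_succ_mul_X, coeff_mul_C, coeff_map, coeff_map,
      Polynomial.coeff_coe, Polynomial.coeff_coe] at h5
    refine ⟨by simpa using h4, ?_⟩
    have h6 : coeff (0 + 1) (1 : k⟦X⟧) = 0 := by simp [coeff_one]
    rw [h6] at h5
    linear_combination h5

theorem BS_lead {f g : k⟦X⟧} (h : X ^ 13 ∣ f - X - X ^ 9 * g) :
    order f = (1 : ℕ) ∧ coeff 9 f = constantCoeff g ∧ constantCoeff f = 0 := by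
  obtain ⟨w, hw⟩ := h
  have e : f = X + X ^ 9 * g + X ^ 13 * w := by linear_combination hw
  refine ⟨?_, ?_, ?_⟩
  · rw [e, order_eq_nat]
    refine ⟨by simp [coeff_X_pow_mul', coeff_X], fun i hi => ?_⟩
    obtain rfl : i = 0 := by omega
    simp
  · rw [e]; simp [coeff_X_pow_mul', coeff_X]
  · rw [e]; simp

theorem BS_lin2 [CharP k 3] (a b : k) (g : EE) : lin2 a b (g * g) = -lin2 a b g := by
  have h : ∀ x : ZMod 3, (((x + x).val : ℕ) : k) = -((x.val : ℕ) : k) := by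
    intro x
    have h3 : (3 : k) = 0 := CharP.cast_eq_zero k 3
    have e : ∀ y : ZMod 3, ((y.val : ℕ) : k) = ZMod.castHom (dvd_refl 3) k y := fun y => by
      rw [ZMod.castHom_apply, ZMod.natCast_val]
    rw [e, e, map_add]
    linear_combination (ZMod.castHom (dvd_refl 3) k x) * h3
  simp only [lin2, toAdd_mul, Prod.fst_add, Prod.snd_add, h]
  ring

theorem BS_rh (j : Fin 4) : rh j * (rh j * rh j) = 1 := by
  revert j
  decide

set_option synthInstance.maxSize 2048 in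
theorem BS_chi (j : Fin 4) (g₀ g : EE) (h₀ : chi j g₀ = 1) (h : chi j g = 1) :
    g = g₀ ∨ g = g₀ * rh j ∨ g = g₀ * (rh j * rh j) := by
  revert j g₀ g
  decide

end Aux

variable {A k : Type u} [CommRing A] [IsLocalRing A] [IsArtinianRing A] [Field k] [CharP k 3]

/-- Let `τ = ρ' (rh j)`, `S = c.S j`, `Σ = sub S`.  `inv3` gives `h, c₁, c₂` with `Σ h = ρ' g₀ S - S`,
`Σ cᵢ = Eᵢ` (the group is commutative; `lin2 l₁ l₂ (rh j * rh j) = - lin2 l₁ l₂ (rh j)`).  Reduce (`map_en`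
with `sub (map π S)`) and use `spec_fib`: the reduction of `h` is `X^9 (u₀ + u₁ X + ...)`.  Weierstrass
preparation `h = Ws * U`; `Vs`, `p₁`, `p₂` are the remainders of `U⁻¹`, `c₁`, `c₂` in the Weierstrass division
by `Ws`, and `Σ ↑p = eval₂ C S p`.  If `chi j g = 1` then `g = g₀ * rh j ^ i` (`decide`), so `ρ' g S = ρ' g₀ S`,
and `Σ Ws * Σ U = ρ' g S - S` is divisible by `ε = ρ' g X - X`.  For `der`: differentiate (`der_en`)
`Σ h = ρ' g S - S` to get `Σ h' * S' ≡ S' (z - 1)` modulo `ε`, use `h' = Ws' U + Ws U'`, `Vs U ≡ 1` modulo `Ws`;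
differentiate `X^3 - Σ c₁ X^2 + Σ c₂ X - S = 0` to see that
`(X - τ X) (X - τ^2 X) = 3 X^2 - 2 E₁ X + E₂` is a multiple of `S'`.  The reduction of `Ws` is `X^9`, so the
reduction of `U` is `u₀ + u₁ X` modulo `X^2`. -/
theorem cfs (π : A →+* k) (hπ : Surjective π) {ρ : EE →* (k⟦X⟧ ≃ₐ[k] k⟦X⟧)} {l₁ l₂ y₁ y₂ : k}
    (L : Ld ρ l₁ l₂ y₁ y₂) (ρ' : EE →* (A⟦X⟧ ≃ₐ[A] A⟦X⟧))
    (hρ' : ∀ g f, PowerSeries.map π (ρ' g f) = ρ g (PowerSeries.map π f))
    (c : CfT A A⟦X⟧ (maximalIdeal A)) (hi : c.i = C) (hx : c.x = X) (hT : ∀ g b, c.T g b = ρ' g b)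
    (hz : ∀ g, c.z g = d⁄dX A (ρ' g X)) (j : Fin 4) (g₀ : EE) (hg : chi j g₀ = 1) {a b y y' : k}
    (ha : a = lin2 l₁ l₂ g₀) (hb : b = lin2 l₁ l₂ (rh j)) (hy : y = lin2 y₁ y₂ g₀)
    (hy' : y' = lin2 y₁ y₂ (rh j)) (hb0 : b ≠ 0) (hu : a ^ 3 - b ^ 2 * a ≠ 0) :
    ∃ Ws Vs p₁ p₂, CfS c j Ws Vs p₁ p₂ ∧ π (Vs.coeff 0) * (a ^ 3 - b ^ 2 * a) = 1 ∧
      π (Vs.coeff 0) * (a * b * y' - b ^ 2 * y) + π (Vs.coeff 1) * (a ^ 3 - b ^ 2 * a) = 0 := by
  have hm : ∀ g, constantCoeff (ρ' g X) ∈ maximalIdeal A := fun g => by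
    rw [← pi_eq_zero_iff π hπ, ← (BS_lead (L.ld g)).2.2, ← map_X π, ← hρ',
      ← coeff_zero_eq_constantCoeff_apply, ← coeff_zero_eq_constantCoeff_apply, coeff_map]
  have hX : ∀ g, PowerSeries.map π (ρ' g X) = ρ g X := fun g => by rw [hρ', map_X]
  have hmul : ∀ g h f, ρ' (g * h) f = ρ' g (ρ' h f) := fun g h f => by rw [map_mul]; rfl
  have hmulk : ∀ g h f, ρ (g * h) f = ρ g (ρ h f) := fun g h f => by rw [map_mul]; rfl
  let τ : En A := (ρ' (rh j) : A⟦X⟧ →ₐ[A] A⟦X⟧)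
  have hτ : ∀ f, τ f = ρ' (rh j) f := fun _ => rfl
  have h3 : τ (τ (τ X)) = X := by
    rw [hτ, hτ, hτ, ← hmul (rh j) (rh j) X, ← hmul, BS_rh, map_one]; rfl
  have l1 := L.ld (rh j)
  have l2 := L.ld (rh j * rh j)
  rw [BS_lin2, BS_lin2] at l2
  rw [← hb, ← hy'] at l1 l2
  have l0 := L.ld g₀
  rw [← ha, ← hy] at l0
  have r1 : PowerSeries.map π (τ X) = ρ (rh j) X := hX _
  have r2 : PowerSeries.map π (τ (τ X)) = ρ (rh j * rh j) X := by rw [hτ, hτ, ← hmul, hX]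
  have c1 : coeff 9 (ρ (rh j) X) = b := by simpa using (BS_lead l1).2.1
  have c2 : coeff 9 (ρ (rh j * rh j) X) = -b := by simpa using (BS_lead l2).2.1
  have c0 : coeff 9 (X : k⟦X⟧) = 0 := by simp [coeff_X]
  have inv := inv3 π hπ τ h3
    (by rw [r1]; intro h; rw [h, c0] at c1; exact hb0 c1.symm)
    (by rw [r2]; intro h; rw [h, c0] at c2; exact hb0 (neg_eq_zero.1 c2.symm))
    (by
      rw [r1, r2]
      intro h
      rw [h, c2] at c1
      have h3 : (3 : k) = 0 := CharP.cast_eq_zero k 3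
      exact hb0 (by linear_combination c1 + b * h3))
    (by
      rw [map_mul, map_mul, map_X, r1, r2, order_mul, order_mul, order_X, (BS_lead l1).1,
        (BS_lead l2).1]
      rfl)
  set S := X * τ X * τ (τ X) with hS
  have hSm : constantCoeff S ∈ maximalIdeal A := by rw [hS]; simp
  have hSX : sub S X = S := sub_X hSm
  have hτS : ρ' (rh j) S = S := by
    rw [← hτ, hS, map_mul, map_mul, h3]; ring
  have hgS : ∀ g, chi j g = 1 → ρ' g S = ρ' g₀ S := fun g hg' => by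
    rcases BS_chi j g₀ g hg hg' with h | h | h
    · rw [h]
    · rw [h, hmul, hτS]
    · rw [h, hmul, hmul, hτS, hτS]
  obtain ⟨h, hh⟩ := inv (ρ' g₀ S - S) (by
    rw [hτ, map_sub, hτS, ← hmul, mul_comm, hmul, hτS])
  obtain ⟨c₁, hc₁⟩ := inv (X + τ X + τ (τ X)) (by rw [map_add, map_add, h3]; ring)
  obtain ⟨c₂, hc₂⟩ := inv (X * τ X + X * τ (τ X) + τ X * τ (τ X)) (by
    rw [map_add, map_add, map_mul, map_mul, map_mul, h3]; ring)
  let τk : En k := (ρ (rh j) : k⟦X⟧ →ₐ[k] k⟦X⟧)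
  let σk : En k := (ρ g₀ : k⟦X⟧ →ₐ[k] k⟦X⟧)
  have q1 : PowerSeries.map π (τ X) = τk X := r1
  have q2 : PowerSeries.map π (τ (τ X)) = τk (τk X) := r2.trans (hmulk _ _ _)
  have qS : PowerSeries.map π S = X * τk X * τk (τk X) := by
    rw [hS, map_mul, map_mul, map_X, q1, q2]
  have hSk : constantCoeff (X * τk X * τk (τk X)) ∈ maximalIdeal k := by simp
  have red : ∀ f, PowerSeries.map π (sub S f) =
      sub (X * τk X * τk (τk X)) (PowerSeries.map π f) :=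
    map_en π _ _ (by rw [hSX, sub_X hSk, qS]) (by rw [sub_X hSk]; exact hSk)
  have sf := spec_fib σk τk (a := a) (b := b) (y := y) (y' := y') l0 l1
    (by
      have e : τk (τk X) - X + X ^ 9 * (C b + C y' * X ^ 3) =
          ρ (rh j * rh j) X - X - X ^ 9 * (C (-b) + C (-y') * X ^ 3) := by
        rw [hmulk, map_neg, map_neg]
        change _ = τk (τk X) - X - _
        ring
      rw [e]
      exact l2)
    (h := PowerSeries.map π h) (c₁ := PowerSeries.map π c₁) (c₂ := PowerSeries.map π c₂)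
    (by rw [← red, hh, map_sub, hρ', qS]; rfl)
    (by rw [← red, hc₁, map_add, map_add, map_X, q1, q2])
    (by rw [← red, hc₂, map_add, map_add, map_mul, map_mul, map_mul, map_X, q1, q2])
  obtain ⟨W, U, hmon, hdeg, hdist, hU, hWU, hdiv, hco⟩ := BS_prep π hπ hu sf
  obtain ⟨U', hU'⟩ := hU.exists_left_inv
  obtain ⟨V, dV, hV⟩ := hdiv U'
  obtain ⟨p₁, d1, hp₁⟩ := hdiv c₁
  obtain ⟨p₂, d2, hp₂⟩ := hdiv c₂
  have hVU : (W : A⟦X⟧) ∣ V * U - 1 := by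
    have e : (V : A⟦X⟧) * U - 1 = (U' - V) * -U := by linear_combination hU'
    rw [e]
    exact hV.mul_right _
  have x1 : c.x1 j = τ X := by rw [CfT.x1, hT, hx, hτ]
  have x2 : c.x2 j = τ (τ X) := by rw [CfT.x2, hT, hx, hmul, hτ, hτ]
  have xS : c.S j = S := by rw [CfT.S, hx, x1, x2]
  have ev : ∀ P : A[X], P.eval₂ c.i (c.S j) = sub S (P : A⟦X⟧) := fun P => by
    rw [hi, xS, BS_coe, hSX]
  refine ⟨W, V, p₁, p₂, ⟨hmon, hdeg, hdist, dV, d1, d2, fun g hg' => ?_, fun g hg' => ?_, ?_, ?_⟩,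
    hco V hVU⟩
  · rw [ev, hT, hx]
    exact BS_ws (ρ' g : A⟦X⟧ →ₐ[A] A⟦X⟧) (sub S) (hm g) (S := S) hU
      (by rw [← hWU, hh, ← hgS g hg']; rfl)
  · rw [ev, ev, hT, hx, x1, x2, hz, ← derivative_coe]
    exact BS_der (ρ' g : A⟦X⟧ →ₐ[A] A⟦X⟧) (sub S) (hm g) hSX hU
      (by rw [← hWU, hh, ← hgS g hg', hSX]; rfl) hVU hc₁ hc₂
  · rw [ev, ev, hx, x1, x2, ← hc₁, ← map_sub]
    exact map_dvd _ hp₁
  · rw [ev, ev, hx, x1, x2, ← hc₂, ← map_sub]
    exact map_dvd _ hp₂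

end Pool.Agent.MP_deef5c_ag.E
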