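import Pool.Agent.MP_deef5c_ag.E.BT
import Pool.Agent.MP_deef5c_ag.E.BS

/-! All data over an Artinian ring, and products. -/

open PowerSeries IsLocalRing Function Pool.Agent.MP_deef5c_ag.O
open scoped Polynomial

namespace Pool.Agent.MP_deef5c_ag.E

universe u

theorem BCfg_unit {A k : Type u} [CommRing A] [IsLocalRing A] [Field k] (π : A →+* k)
    (hπ : Surjective π) {a : A} (h : π a ≠ 0) : IsUnit a := by
  rw [← notMem_maximalIdeal, ← ker_eq_maximalIdeal π hπ]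
  exact h

theorem BCfg_det {k : Type u} [Field k] {a0 a1 b0 b1 u0 u1 v0 v1 : k} (e1 : a0 * u0 = 1)
    (e2 : a0 * u1 + a1 * u0 = 0) (f1 : b0 * v0 = 1) (f2 : b0 * v1 + b1 * v0 = 0) :
    (a0 * b1 - b0 * a1) * (u0 * v0) ^ 2 = u1 * v0 - v1 * u0 := by
  linear_combination (b1 * u0 * v0 ^ 2 + u1 * v0) * e1 + u0 * v0 * f2 -
    (v1 * u0 + a1 * u0 ^ 2 * v0) * f1 - u0 * v0 * e2

theorem BCfg_lin {k : Type u} [Field k] (a b : k) (i j : ZMod 3) (m n : ℕ) (hi : i.val = m)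
    (hj : j.val = n) : lin2 a b (Multiplicative.ofAdd (i, j)) = m * a + n * b := by
  rw [← hi, ← hj]
  rfl

theorem BCfg_sg {k : Type u} [Field k] (a b : k) : a = lin2 a b sg := by
  rw [sg, BCfg_lin a b 1 0 1 0 rfl rfl]
  simp

theorem BCfg_ta {k : Type u} [Field k] (a b : k) : b = lin2 a b ta := by
  rw [ta, BCfg_lin a b 0 1 0 1 rfl rfl]
  simp

theorem BCfg_r2 {k : Type u} [Field k] (a b : k) : a + 2 * b = lin2 a b (rh 2) := by
  rw [show rh 2 = Multiplicative.ofAdd (1, -1) from rfl, BCfg_lin a b 1 (-1) 1 2 rfl rfl]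
  simp

theorem BCfg_r3 {k : Type u} [Field k] (a b : k) : a + b = lin2 a b (rh 3) := by
  rw [show rh 3 = Multiplicative.ofAdd (1, 1) from rfl, BCfg_lin a b 1 1 1 1 rfl rfl]
  simp

/-- `cft`, and `cfs` with `g₀ = sg, ta, sg, sg`.  With `u₀ = l₁^3 - l₂^2 l₁`, `u₀' = l₂^3 - l₁^2 l₂`, `u₁, u₁'`
accordingly, the residue of the determinant is `(u₁ u₀' - u₁' u₀) / (u₀ u₀')^2` and
`u₁ u₀' - u₁' u₀ = (l₁ y₂ - l₂ y₁) (l₂^2 - l₁^2) (l₂^2 - l₁^2)`. -/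
theorem cfg_art {A k : Type u} [CommRing A] [IsLocalRing A] [IsArtinianRing A] [Field k] [CharP k 3]
    (π : A →+* k) (hπ : Surjective π) {ρ : EE →* (k⟦X⟧ ≃ₐ[k] k⟦X⟧)} {l₁ l₂ y₁ y₂ : k}
    (L : Ld ρ l₁ l₂ y₁ y₂) (h : LocLifts ρ π) : Cfg A A⟦X⟧ (maximalIdeal A) := by
  obtain ⟨ρ', hρ'⟩ := h
  obtain ⟨c, hi, hx, hT, hz⟩ := cft π hπ L ρ' hρ'
  have h3 : (3 : k) = 0 := by exact_mod_cast CharP.cast_eq_zero k 3
  have n := mul_ne_zero L.n3 L.n4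
  obtain ⟨W0, V0, p0, q0, a0, b0, c0⟩ := cfs π hπ L ρ' hρ' c hi hx hT hz 0 sg (by decide)
    (BCfg_sg _ _) (BCfg_ta _ _) (BCfg_sg _ _) (BCfg_ta _ _) L.n2
    fun e => mul_ne_zero L.n1 n (by linear_combination e)
  obtain ⟨W1, V1, p1, q1, a1, b1, c1⟩ := cfs π hπ L ρ' hρ' c hi hx hT hz 1 ta (by decide)
    (BCfg_ta _ _) (BCfg_sg _ _) (BCfg_ta _ _) (BCfg_sg _ _) L.n1
    fun e => mul_ne_zero L.n2 n (by linear_combination -e)
  obtain ⟨W2, V2, p2, q2, a2, b2, -⟩ := cfs π hπ L ρ' hρ' c hi hx hT hz 2 sg (by decide)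
    (BCfg_sg _ _) (BCfg_r2 _ _) (BCfg_sg _ _) (BCfg_r2 _ _)
    (fun e => L.n4 (by linear_combination e - l₂ * h3))
    fun e => mul_ne_zero (mul_ne_zero L.n1 L.n2) L.n3
      (by linear_combination -e - l₁ * l₂ * (l₁ + l₂) * h3)
  obtain ⟨W3, V3, p3, q3, a3, b3, -⟩ := cfs π hπ L ρ' hρ' c hi hx hT hz 3 sg (by decide)
    (BCfg_sg _ _) (BCfg_r3 _ _) (BCfg_sg _ _) (BCfg_r3 _ _) L.n3
    fun e => mul_ne_zero (mul_ne_zero L.n1 L.n2) L.n4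
      (by linear_combination e + l₁ ^ 2 * l₂ * h3)
  refine ⟨c, ![W0, W1, W2, W3], ![V0, V1, V2, V3], ![p0, p1, p2, p3], ![q0, q1, q2, q3],
    fun j => ?_, fun j => ?_, BCfg_unit π hπ fun e => ?_⟩
  · fin_cases j
    exacts [a0, a1, a2, a3]
  · fin_cases j
    exacts [BCfg_unit π hπ (left_ne_zero_of_mul_eq_one b0),
      BCfg_unit π hπ (left_ne_zero_of_mul_eq_one b1),
      BCfg_unit π hπ (left_ne_zero_of_mul_eq_one b2),
      BCfg_unit π hπ (left_ne_zero_of_mul_eq_one b3)]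
  · have e' : π (V0.coeff 0 * V1.coeff 1 - V1.coeff 0 * V0.coeff 1) = 0 := e
    have d := BCfg_det b0 c0 b1 c1
    rw [map_sub, map_mul, map_mul] at e'
    rw [e', zero_mul] at d
    exact mul_ne_zero (sub_ne_zero.2 L.det) (pow_ne_zero 2 n) (by linear_combination -d)

end Pool.Agent.MP_deef5c_ag.E
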