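import Pool.Agent.MP_deef5c_ag.E.DefsB

/-! Classification of the limits in characteristic three. -/

open Polynomial IsLocalRing Function

namespace Pool.Agent.MP_deef5c_ag.E

universe u

variable {κ : Type u} [Field κ] [CharP κ 3]

theorem BK1_three : (3 : κ[X]) = 0 := by exact_mod_cast CharP.cast_eq_zero κ[X] 3

theorem BK1_cube (a : κ[X]) : derivative (a ^ 3) = 0 := by
  rw [derivative_pow, CharP.cast_eq_zero κ 3, map_zero, zero_mul, zero_mul]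

theorem BK1_red (a u : κ[X]) (Θ : κ) :
    derivative (derivative ((C Θ * a ^ 3 + u ^ 3 - a ^ 2 * u) ^ 2)) =
      (C Θ * a ^ 3 + u ^ 3) * derivative (derivative (a ^ 2 * u)) +
        a ^ 3 * derivative (derivative (a * u ^ 2)) := by
  have e : (C Θ * a ^ 3 + u ^ 3 - a ^ 2 * u) ^ 2 = (C Θ * a ^ 3 + u ^ 3) * (C Θ * a ^ 3 + u ^ 3) +
      (C Θ * a ^ 3 + u ^ 3) * (a ^ 2 * u) + a ^ 3 * (a * u ^ 2) := by
    linear_combination (-(C Θ * a ^ 3 + u ^ 3) * (a ^ 2 * u)) * BK1_three (κ := κ)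
  have h : derivative (C Θ * a ^ 3 + u ^ 3) = 0 := by simp [BK1_cube]
  rw [e]
  generalize C Θ * a ^ 3 + u ^ 3 = W at h
  generalize a ^ 2 * u = g
  generalize a * u ^ 2 = k
  simp [h, BK1_cube]

theorem BK1_g (v1 v2 v3 u1 u2 u3 : κ) :
    derivative (derivative ((X ^ 3 + C v1 * X ^ 2 + C v2 * X + C v3) ^ 2 *
      (C u1 * X ^ 2 + C u2 * X + C u3))) = C (-u1) * X ^ 6 +
      C (-v1 ^ 2 * u2 + v1 * v2 * u1 + v1 * u3 + v2 * u2 + v3 * u1) * X ^ 3 +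
      C (v1 * v3 * u3 - v2 ^ 2 * u3 + v2 * v3 * u2 - v3 ^ 2 * u1) := by
  simp only [pow_succ, pow_zero, one_mul, derivative_mul, derivative_X,
    derivative_C, derivative_one, derivative_zero, map_add, map_mul, map_sub, map_neg]
  grind

theorem BK1_h (v1 v2 v3 u1 u2 u3 : κ) :
    derivative (derivative ((X ^ 3 + C v1 * X ^ 2 + C v2 * X + C v3) *
      (C u1 * X ^ 2 + C u2 * X + C u3) ^ 2)) =
      C (v1 * u1 * u2 - v2 * u1 ^ 2 + u1 * u3 - u2 ^ 2) * X ^ 3 +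
      C (-v1 * u3 ^ 2 + v2 * u2 * u3 + v3 * u1 * u3 - v3 * u2 ^ 2) := by
  simp only [pow_succ, pow_zero, one_mul, derivative_mul, derivative_X,
    derivative_C, derivative_one, derivative_zero, map_add, map_mul, map_sub, map_neg]
  grind

theorem BK1_id (v1 v2 v3 u1 u2 u3 Θ g2 g1 g0 k1 k0 : κ) :
    (C Θ * (X ^ 3 + C v1 * X ^ 2 + C v2 * X + C v3) ^ 3 + (C u1 * X ^ 2 + C u2 * X + C u3) ^ 3) *
      (C g2 * X ^ 6 + C g1 * X ^ 3 + C g0) +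
      (X ^ 3 + C v1 * X ^ 2 + C v2 * X + C v3) ^ 3 * (C k1 * X ^ 3 + C k0) =
    C (Θ * g2) * X ^ 15 + C ((Θ * v1 ^ 3 + u1 ^ 3) * g2 + (Θ * g1 + k1)) * X ^ 12 +
      C ((Θ * v2 ^ 3 + u2 ^ 3) * g2 + v1 ^ 3 * (Θ * g1 + k1) + u1 ^ 3 * g1 + (Θ * g0 + k0)) * X ^ 9 +
      C ((Θ * v3 ^ 3 + u3 ^ 3) * g2 + v2 ^ 3 * (Θ * g1 + k1) + u2 ^ 3 * g1 +
        v1 ^ 3 * (Θ * g0 + k0) + u1 ^ 3 * g0) * X ^ 6 +
      C (v3 ^ 3 * (Θ * g1 + k1) + u3 ^ 3 * g1 + v2 ^ 3 * (Θ * g0 + k0) + u2 ^ 3 * g0) * X ^ 3 +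
      C (v3 ^ 3 * (Θ * g0 + k0) + u3 ^ 3 * g0) := by
  simp only [map_add, map_mul, map_pow]
  grind

omit [CharP κ 3] in
theorem BK1_coeff {c5 c4 c3 c2 c1 c0 d : κ} (h : C c5 * X ^ 15 + C c4 * X ^ 12 + C c3 * X ^ 9 +
    C c2 * X ^ 6 + C c1 * X ^ 3 + C c0 = C d) : c5 = 0 ∧ c4 = 0 ∧ c3 = 0 ∧ c2 = 0 ∧ d = c0 := by
  have h1 := fun n => congrArg (coeff · n) h
  simp only [coeff_add, coeff_C_mul, coeff_X_pow, coeff_C] at h1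
  exact ⟨by simpa using h1 15, by simpa using h1 12, by simpa using h1 9, by simpa using h1 6,
    by simpa using (h1 0).symm⟩

/-- Let `g = a^2 u`, `Ξ = Θ a^3 + u^3 - g`, so `Ξ' = -g'`, `Ξ'' = -g''`, and `(Ξ^2)'' = 2 Ξ'^2 + 2 Ξ Ξ''`.  Write
`a = X^3 + v₁ X^2 + v₂ X + v₃`, `u = u₁ X^2 + u₂ X + u₃`, and compare coefficients.  `X^15`: `u₁ = 0`.  Suppose
`u₂ ≠ 0`; after the translation `X ↦ X - u₃ / u₂` (`Polynomial.taylor` or `comp`) one may assume `u₃ = 0`.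
With `A = v₁^2 - v₂`: `X^12`: `u₂ = -Θ A`; `X^9`: `v₃ v₁^2 = 0`; `X^6`: `Θ^2 A^3 = 0`, a contradiction.  So `u₂ = 0`.
If `u₃ ≠ 0`: `X^12`: `v₁ = 0`; `X^9`: `v₂ = 0`.  In both remaining cases `g' = 0`. -/
theorem classify_aux {a u : κ[X]} (ha : a.Monic) (hd : a.natDegree = 3) (hu : u.degree < 3) {Θ d : κ}
    (hΘ : Θ ≠ 0) (h : derivative (derivative ((C Θ * a ^ 3 + u ^ 3 - a ^ 2 * u) ^ 2)) = C d) :
    d = 0 ∧ (u = 0 ∨ (derivative a = 0 ∧ derivative u = 0)) := by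
  obtain ⟨v1, v2, v3, rfl⟩ : ∃ v1 v2 v3, a = X ^ 3 + C v1 * X ^ 2 + C v2 * X + C v3 := by
    refine ⟨a.coeff 2, a.coeff 1, a.coeff 0, ?_⟩
    conv_lhs => rw [ha.as_sum, hd]
    simp only [Finset.sum_range_succ, Finset.sum_range_zero]
    ring
  obtain ⟨u1, u2, u3, rfl⟩ : ∃ u1 u2 u3, u = C u1 * X ^ 2 + C u2 * X + C u3 := by
    refine ⟨u.coeff 2, u.coeff 1, u.coeff 0, ?_⟩
    conv_lhs => rw [← sum_monomial_eq u, sum_over_range' u (by simp) 3 (by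
      by_cases h0 : u = 0
      · simp [h0]
      · exact (natDegree_lt_iff_degree_lt h0).2 hu)]
    simp only [Finset.sum_range_succ, Finset.sum_range_zero, ← C_mul_X_pow_eq_monomial]
    ring
  rw [BK1_red, BK1_g, BK1_h, BK1_id] at h
  obtain ⟨h5, h4, h3, h2, h0⟩ := BK1_coeff h
  obtain rfl : u1 = 0 := neg_eq_zero.1 ((mul_eq_zero.1 h5).resolve_left hΘ)
  obtain rfl : u2 = 0 := pow_eq_zero_iff (n := 5) (by norm_num) |>.1 (by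
    linear_combination Θ * h2 - Θ * v1 ^ 3 * h3 - (Θ * v2 ^ 3 - Θ * v1 ^ 6 + u2 ^ 3) * h4)
  by_cases hu3 : u3 = 0
  · subst hu3
    exact ⟨by simpa using h0, Or.inl (by simp)⟩
  obtain rfl : v1 = 0 := by
    have : Θ * u3 * v1 = 0 := by linear_combination h4
    exact (mul_eq_zero.1 this).resolve_left (mul_ne_zero hΘ hu3)
  obtain rfl : v2 = 0 := by
    have : Θ * u3 * v2 ^ 2 = 0 := by linear_combination -h3
    exact pow_eq_zero_iff two_ne_zero |>.1 ((mul_eq_zero.1 this).resolve_left (mul_ne_zero hΘ hu3))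
  exact ⟨by simpa using h0, Or.inr ⟨by simp [BK1_cube], by simp⟩⟩

/-- `a = q₀`, `γ = L₁ / L₀`, `b = γ q₁ = γ a + u` with `u = γ (q₁ - q₀)`, `Θ = γ^3 - γ ≠ 0`;
`b^3 - a^2 b = Θ a^3 + u^3 - a^2 u` is a non-zero constant multiple of `q₁ q₂ q₃`. -/
theorem classify {q₀ q₁ q₂ q₃ : κ[X]} (m₀ : q₀.Monic) (m₁ : q₁.Monic) (d₀ : q₀.natDegree = 3)
    (d₁ : q₁.natDegree = 3) {L₀ L₁ d : κ} (h₀ : L₀ ≠ 0) (h₁ : L₁ ≠ 0) (h₂ : L₀ + L₁ ≠ 0)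
    (h₃ : L₀ - L₁ ≠ 0) (r₂ : C (L₀ + L₁) * q₂ = C L₀ * q₀ + C L₁ * q₁)
    (r₃ : C (L₀ - L₁) * q₃ = C L₀ * q₀ - C L₁ * q₁)
    (h : derivative (derivative ((q₁ * q₂ * q₃) ^ 2)) = C d) :
    d = 0 ∧ (q₀ = q₁ ∨ (derivative q₀ = 0 ∧ derivative q₁ = 0)) := by
  obtain ⟨γ, rfl⟩ : ∃ γ, L₁ = γ * L₀ := ⟨L₁ / L₀, by field_simp⟩
  have g0 : γ ≠ 0 := left_ne_zero_of_mul h₁
  have g1 : 1 + γ ≠ 0 := fun e => h₂ (by linear_combination L₀ * e)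
  have g2 : 1 - γ ≠ 0 := fun e => h₃ (by linear_combination L₀ * e)
  have c0 : (C L₀ : κ[X]) ≠ 0 := C_ne_zero.2 h₀
  have s₂ : (1 + C γ) * q₂ = q₀ + C γ * q₁ := mul_left_cancel₀ c0 (by
    simp only [map_add, map_mul] at r₂; linear_combination r₂)
  have s₃ : (1 - C γ) * q₃ = q₀ - C γ * q₁ := mul_left_cancel₀ c0 (by
    simp only [map_sub, map_mul] at r₃; linear_combination r₃)
  have hΘ : γ ^ 3 - γ ≠ 0 := fun e =>
    mul_ne_zero g0 (mul_ne_zero g1 g2) (by linear_combination -e)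
  have e1 : C (γ ^ 3 - γ) * q₀ ^ 3 + (C γ * (q₁ - q₀)) ^ 3 - q₀ ^ 2 * (C γ * (q₁ - q₀)) =
      C (γ ^ 3 - γ) * (q₁ * q₂ * q₃) := by
    simp only [map_sub, map_pow]
    linear_combination (C γ * q₁ * (1 - C γ) * q₃) * s₂ + (C γ * q₁ * (q₀ + C γ * q₁)) * s₃ +
      (C γ ^ 3 * (q₁ * q₀ ^ 2 - q₁ ^ 2 * q₀)) * BK1_three (κ := κ)
  have hu : (C γ * (q₁ - q₀)).degree < 3 := by
    rw [degree_C_mul g0]
    have e₀ : q₀.degree = 3 := by rw [degree_eq_natDegree m₀.ne_zero, d₀]; rfl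
    have e₁ : q₁.degree = 3 := by rw [degree_eq_natDegree m₁.ne_zero, d₁]; rfl
    exact e₁ ▸ degree_sub_lt_left (e₁.trans e₀.symm) m₁.ne_zero (m₁.leadingCoeff.trans m₀.leadingCoeff.symm)
  obtain ⟨k1, k2⟩ := classify_aux m₀ d₀ hu hΘ (d := (γ ^ 3 - γ) ^ 2 * d) (by
    rw [e1, mul_pow, ← C_pow, derivative_C_mul, derivative_C_mul, h, ← C_mul])
  have cg : (C γ : κ[X]) ≠ 0 := C_ne_zero.2 g0
  refine ⟨(mul_eq_zero.1 k1).resolve_left (pow_ne_zero 2 hΘ), k2.imp (fun e => ?_) fun e => ⟨e.1, ?_⟩⟩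
  · exact (sub_eq_zero.1 ((mul_eq_zero.1 e).resolve_left cg)).symm
  · have := e.2
    rw [derivative_C_mul, derivative_sub, e.1, sub_zero] at this
    exact (mul_eq_zero.1 this).resolve_left cg

end Pool.Agent.MP_deef5c_ag.E
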