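import Pool.Agent.MP_deef5c_ag.E.DefsB

/-! The two degenerate limits: signs. -/

open Polynomial IsLocalRing Function

namespace Pool.Agent.MP_deef5c_ag.E

universe u

variable {κ : Type u} [Field κ] [CharP κ 3]

omit [CharP κ 3] in
lemma BK2_sum {a b c : ℤ} (ha : a = 1 ∨ a = -1) (hb : b = 1 ∨ b = -1) (hc : c = 1 ∨ c = -1)
    (h : (a : κ) + b + c = 0) : b = a ∧ c = a := by
  rcases ha with rfl | rfl <;> rcases hb with rfl | rfl <;> rcases hc with rfl | rfl <;>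
    simp at h ⊢

omit [CharP κ 3] in
lemma BK2_der (z : Fin 3 → κ) (a : κ) : eval a (derivative (Qp z)) =
    (a - z 1) * (a - z 2) + (a - z 0) * (a - z 2) + (a - z 0) * (a - z 1) := by
  simp only [Qp, derivative_mul, derivative_sub, derivative_X, derivative_C, eval_add, eval_mul,
    eval_sub, eval_X, eval_C, eval_one, eval_zero]
  ring

omit [CharP κ 3] in
lemma BK2_ev (z : Fin 3 → κ) (a : κ) : eval a (Qp z) = (a - z 0) * (a - z 1) * (a - z 2) := by
  simp only [Qp, eval_mul, eval_sub, eval_X, eval_C]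

omit [CharP κ 3] in
lemma BK2_root (z : Fin 3 → κ) (i : Fin 3) : eval (z i) (Qp z) = 0 := by
  rw [BK2_ev]
  fin_cases i <;> simp

omit [CharP κ 3] in
lemma BK2_np {e : Fin 3 → ℤ} (he : ∀ i, e i = 1 ∨ e i = -1) {z : Fin 3 → κ} {a : κ}
    (h : eval a (Qp z) = 0) :
    ∃ s : ℤ, (s = 1 ∨ s = -1) ∧ eval a (np e z) = s * eval a (derivative (Qp z)) := by
  rw [BK2_ev, mul_eq_zero, mul_eq_zero] at h
  rw [BK2_der]
  simp only [np, eval_add, eval_mul, eval_sub, eval_X, eval_C]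
  rcases h with (h | h) | h
  · exact ⟨e 0, he 0, by rw [h]; ring⟩
  · exact ⟨e 1, he 1, by rw [h]; ring⟩
  · exact ⟨e 2, he 2, by rw [h]; ring⟩

omit [CharP κ 3] in
lemma BK2_simple {z : Fin 4 → Fin 3 → κ} (hq : ∀ c, Qp (z c) = Qp (z 0))
    (hz : ∃ c i c' i', z c i ≠ z c' i') :
    ∃ a, eval a (Qp (z 0)) = 0 ∧ eval a (derivative (Qp (z 0))) ≠ 0 := by
  by_contra H
  have H' : ∀ i, eval (z 0 i) (derivative (Qp (z 0))) = 0 := fun i =>
    by_contra fun h => H ⟨_, BK2_root _ i, h⟩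
  have e0 := H' 0
  have e1 := H' 1
  have e2 := H' 2
  rw [BK2_der] at e0 e1 e2
  have : z 0 1 = z 0 0 ∧ z 0 2 = z 0 0 := by
    rcases mul_eq_zero.1 (show (z 0 0 - z 0 1) * (z 0 0 - z 0 2) = 0 by linear_combination e0)
      with h1 | h1
    · have h2 := (sub_eq_zero.1 h1).symm
      rw [h2] at e2
      exact ⟨h2, sub_eq_zero.1 (pow_eq_zero_iff two_ne_zero |>.1 (by linear_combination e2))⟩
    · have h2 := (sub_eq_zero.1 h1).symm
      rw [h2] at e1
      exact ⟨sub_eq_zero.1 (pow_eq_zero_iff two_ne_zero |>.1 (by linear_combination e1)), h2⟩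
  have h3 : ∀ c i, z c i = z 0 0 := fun c i => by
    have h4 := BK2_root (z c) i
    rw [hq c, BK2_ev, this.1, this.2] at h4
    exact sub_eq_zero.1 (pow_eq_zero_iff three_ne_zero |>.1 (by linear_combination h4))
  obtain ⟨c, i, c', i', h⟩ := hz
  exact h ((h3 c i).trans (h3 c' i').symm)

omit [CharP κ 3] in
lemma BK2_three {a₁ a₂ a₃ s₁ s₂ s₃ : κ} (h12 : a₁ ≠ a₂) (h13 : a₁ ≠ a₃) (h23 : a₂ ≠ a₃)
    (h : C s₁ * (X - C a₁) ^ 2 * (X - C a₂) ^ 3 * (X - C a₃) ^ 3 +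
      C s₂ * (X - C a₂) ^ 2 * (X - C a₁) ^ 3 * (X - C a₃) ^ 3 +
      C s₃ * (X - C a₃) ^ 2 * (X - C a₁) ^ 3 * (X - C a₂) ^ 3 = 0) : s₁ = 0 ∧ s₂ = 0 ∧ s₃ = 0 := by
  have h1 : ((X - C a₁) * (X - C a₂) * (X - C a₃)) ^ 2 * (C s₁ * (X - C a₂) * (X - C a₃) +
      C s₂ * (X - C a₁) * (X - C a₃) + C s₃ * (X - C a₁) * (X - C a₂)) = 0 := by
    linear_combination h
  have h2 := (mul_eq_zero.1 h1).resolve_left (pow_ne_zero 2 (mul_ne_zero
    (mul_ne_zero (X_sub_C_ne_zero _) (X_sub_C_ne_zero _)) (X_sub_C_ne_zero _)))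
  have e1 := congrArg (Polynomial.eval a₁) h2
  have e2 := congrArg (Polynomial.eval a₂) h2
  have e3 := congrArg (Polynomial.eval a₃) h2
  simp only [eval_add, eval_mul, eval_sub, eval_X, eval_C, eval_zero, sub_self, mul_zero, zero_mul,
    add_zero, zero_add, mul_eq_zero, sub_eq_zero, h12, h13, h23, h12.symm, h13.symm, h23.symm,
    or_false] at e1 e2 e3
  exact ⟨e1, e2, e3⟩

/-- All `Qp (z c)` equal `q`, which has two distinct roots, hence a simple root `a`.  For each `c` exactly one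
`z c i` equals `a`, and `(np (e c) (z c)).eval a = e c i * q'(a)`.  `NN e z 0 = q^2 (n 1 + n 2 + n 3)` and
`NN e z 1 = q^2 (n 0 - n 2 + n 3)` vanish, so the signs satisfy `s₁ + s₂ + s₃ = 0`, `s₀ - s₂ + s₃ = 0` in `κ`: the
first forces `s₂ = s₃`, then `s₀ = 0`. -/
theorem caseA {z : Fin 4 → Fin 3 → κ} {e : Fin 4 → Fin 3 → ℤ} (he : ∀ c i, e c i = 1 ∨ e c i = -1)
    (hq : ∀ c, Qp (z c) = Qp (z 0)) (hz : ∃ c i c' i', z c i ≠ z c' i') (h0 : NN e z 0 = 0)
    (h1 : NN e z 1 = 0) : False := by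
  obtain ⟨a, ha, ha'⟩ := BK2_simple hq hz
  choose s hs hn using fun c => BK2_np (he c) (z := z c) (a := a) (by rw [hq c]; exact ha)
  have q0 : Qp (z 0) ≠ 0 := fun h => ha' (by rw [h]; simp)
  simp only [hq] at hn
  have e0 : NN e z 0 = Qp (z 0) ^ 2 * (np (e 1) (z 1) + np (e 2) (z 2) + np (e 3) (z 3)) := by
    change np (e 1) (z 1) * Qp (z 2) * Qp (z 3) + np (e 2) (z 2) * Qp (z 1) * Qp (z 3) +
      np (e 3) (z 3) * Qp (z 1) * Qp (z 2) = _
    rw [hq 1, hq 2, hq 3]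
    ring
  have e1 : NN e z 1 = Qp (z 0) ^ 2 * (np (e 0) (z 0) - np (e 2) (z 2) + np (e 3) (z 3)) := by
    change np (e 0) (z 0) * Qp (z 2) * Qp (z 3) - np (e 2) (z 2) * Qp (z 0) * Qp (z 3) +
      np (e 3) (z 3) * Qp (z 0) * Qp (z 2) = _
    rw [hq 2, hq 3]
    ring
  have f0 := congrArg (Polynomial.eval a) ((mul_eq_zero.1 (e0.symm.trans h0)).resolve_left (pow_ne_zero 2 q0))
  have f1 := congrArg (Polynomial.eval a) ((mul_eq_zero.1 (e1.symm.trans h1)).resolve_left (pow_ne_zero 2 q0))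
  rw [eval_add, eval_add, hn, hn, hn, eval_zero, ← add_mul, ← add_mul] at f0
  rw [eval_add, eval_sub, hn, hn, hn, eval_zero, ← sub_mul, ← add_mul] at f1
  have g0 := (BK2_sum (hs 1) (hs 2) (hs 3) ((mul_eq_zero.1 f0).resolve_right ha'))
  have g1 := (mul_eq_zero.1 f1).resolve_right ha'
  rw [g0.1, g0.2, sub_add_cancel] at g1
  rcases hs 0 with h | h <;> simp [h] at g1

/-- a cubic with zero derivative is `(X - a)^3` -/
theorem Qp_der_zero {z : Fin 3 → κ} (h : derivative (Qp z) = 0) : ∀ i, z i = z 0 := by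
  have e0 := congrArg (Polynomial.eval (z 0)) h
  have e1 := congrArg (Polynomial.eval (z 1)) h
  have e2 := congrArg (Polynomial.eval (z 2)) h
  rw [BK2_der, eval_zero] at e0 e1 e2
  have : z 1 = z 0 ∧ z 2 = z 0 := by
    rcases mul_eq_zero.1 (show (z 0 - z 1) * (z 0 - z 2) = 0 by linear_combination e0) with h1 | h1
    · have h2 := (sub_eq_zero.1 h1).symm
      rw [h2] at e2
      exact ⟨h2, sub_eq_zero.1 (pow_eq_zero_iff two_ne_zero |>.1 (by linear_combination e2))⟩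
    · have h2 := (sub_eq_zero.1 h1).symm
      rw [h2] at e1
      exact ⟨sub_eq_zero.1 (pow_eq_zero_iff two_ne_zero |>.1 (by linear_combination e1)), h2⟩
  intro i
  fin_cases i
  · rfl
  · exact this.1
  · exact this.2

/-- `np (e c) (z c) = (∑ e c i) (X - a c)^2`, `Qp (z c) = (X - a c)^3`.  Take the second derivative of
`NN e z 0 = 0`, `NN e z 1 = 0` and evaluate at `a c` (or divide by `(X - a c)^2` and evaluate): `∑ e c i = 0` in
`κ`, so the three signs agree. -/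
theorem signs {a : Fin 4 → κ} (ha : Injective a) {e : Fin 4 → Fin 3 → ℤ}
    (he : ∀ c i, e c i = 1 ∨ e c i = -1) (h0 : NN e (fun c _ => a c) 0 = 0)
    (h1 : NN e (fun c _ => a c) 1 = 0) (c : Fin 4) (i : Fin 3) : e c i = e c 0 := by
  have d : ∀ {c c' : Fin 4}, c ≠ c' → a c ≠ a c' := fun h e => h (ha e)
  have hn : ∀ c, np (e c) (fun _ => a c) =
      C ((e c 0 : κ) + e c 1 + e c 2) * (X - C (a c)) ^ 2 := fun c => by
    simp only [np, map_add]
    ring
  have hq : ∀ c, Qp (fun _ : Fin 3 => a c) = (X - C (a c)) ^ 3 := fun c => by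
    simp only [Qp]
    ring
  have f0 := BK2_three (d (c := 1) (c' := 2) (by decide)) (d (c := 1) (c' := 3) (by decide))
    (d (c := 2) (c' := 3) (by decide)) (s₁ := (e 1 0 : κ) + e 1 1 + e 1 2)
    (s₂ := (e 2 0 : κ) + e 2 1 + e 2 2) (s₃ := (e 3 0 : κ) + e 3 1 + e 3 2) (by
      rw [← hn, ← hn, ← hn, ← hq, ← hq, ← hq]
      exact h0)
  have f1 := BK2_three (d (c := 0) (c' := 2) (by decide)) (d (c := 0) (c' := 3) (by decide))
    (d (c := 2) (c' := 3) (by decide)) (s₁ := (e 0 0 : κ) + e 0 1 + e 0 2)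
    (s₂ := -((e 2 0 : κ) + e 2 1 + e 2 2)) (s₃ := (e 3 0 : κ) + e 3 1 + e 3 2) (by
      rw [map_neg, neg_mul, neg_mul, neg_mul, ← sub_eq_add_neg, ← hn, ← hn, ← hn, ← hq, ← hq, ← hq]
      exact h1)
  have hs : (e c 0 : κ) + e c 1 + e c 2 = 0 := by
    fin_cases c
    · exact f1.1
    · exact f0.1
    · exact f0.2.1
    · exact f0.2.2
  have := BK2_sum (he c 0) (he c 1) (he c 2) hs
  fin_cases i
  · rfl
  · exact this.1
  · exact this.2

end Pool.Agent.MP_deef5c_ag.E
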