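import Pool.Agent.MP_deef5c_ag.E.DefsB

/-! The second degenerate limit: linear algebra in the residue field. -/

open Polynomial IsLocalRing Function

namespace Pool.Agent.MP_deef5c_ag.E

universe u

variable {κ : Type u} [Field κ] [CharP κ 3]

theorem BK3_three : (3 : κ) = 0 := by
  exact_mod_cast CharP.cast_eq_zero κ 3

theorem BK3_gam {L γ : Fin 4 → κ} (hL : ∀ j, L j ≠ 0) (l2 : L 2 = L 0 + L 1)
    (l3 : L 3 = L 0 - L 1) (g2 : L 2 * γ 2 = L 0 * γ 0 + L 1 * γ 1)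
    (g3 : L 3 * γ 3 = L 0 * γ 0 - L 1 * γ 1) (h : γ 0 ≠ γ 1) :
    ∃ u : κ, u ≠ 0 ∧ γ 0 - γ 1 = L 2 * L 3 * u ∧ γ 0 - γ 2 = L 1 * L 3 * u ∧
      γ 2 - γ 1 = L 0 * L 3 * u ∧ γ 3 - γ 0 = L 1 * L 2 * u ∧ γ 3 - γ 1 = L 0 * L 2 * u ∧
      γ 2 - γ 3 = L 0 * L 1 * u := by
  have h2 := hL 2
  have h3 := hL 3
  obtain ⟨u, hu⟩ : ∃ u, γ 0 - γ 1 = L 2 * L 3 * u :=
    ⟨(γ 0 - γ 1) / (L 2 * L 3), by field_simp⟩
  have e1 : γ 2 - γ 1 = L 0 * L 3 * u := by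
    apply mul_left_cancel₀ h2
    linear_combination g2 + L 0 * hu - γ 1 * l2
  have e2 : γ 3 - γ 1 = L 0 * L 2 * u := by
    apply mul_left_cancel₀ h3
    linear_combination g3 + L 0 * hu - γ 1 * l3
  refine ⟨u, fun h0 => h (sub_eq_zero.1 (by rw [hu, h0, mul_zero])), hu, ?_, e1, ?_, e2, ?_⟩
  · linear_combination hu - e1 + L 3 * u * l2
  · linear_combination e2 - hu - L 2 * u * l3
  · linear_combination e1 - e2 + L 0 * u * l3 - L 0 * u * l2 - L 0 * L 1 * u * BK3_three (κ := κ)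

omit [CharP κ 3] in
theorem BK3_NQ0 (n q : Fin 4 → κ) :
    NQ n q 0 = n 1 * q 2 * q 3 + n 2 * q 1 * q 3 + n 3 * q 1 * q 2 := rfl

omit [CharP κ 3] in
theorem BK3_NQ1 (n q : Fin 4 → κ) :
    NQ n q 1 = n 0 * q 2 * q 3 - n 2 * q 0 * q 3 + n 3 * q 0 * q 2 := rfl

omit [CharP κ 3] in
theorem BK3_der (n q : Fin 4 → κ[X]) (hq : ∀ c, derivative (q c) = 0) (j : Fin 4) :
    derivative (NQ n q j) = NQ (fun c => derivative (n c)) q j := by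
  fin_cases j <;> simp [NQ, hq]

omit [CharP κ 3] in
theorem BK3_eval (n q : Fin 4 → κ[X]) (x : κ) (j : Fin 4) :
    (NQ n q j).eval x = NQ (fun c => (n c).eval x) (fun c => (q c).eval x) j := by
  fin_cases j <;> simp [NQ]

theorem BK3_form {A B s0 s1 s2 s3 : κ} (hA : A ≠ 0) (hB : B ≠ 0) (hp : A + B ≠ 0) (hm : A - B ≠ 0)
    (h0 : s0 = 1 ∨ s0 = -1) (h1 : s1 = 1 ∨ s1 = -1) (h2 : s2 = 1 ∨ s2 = -1)
    (h3 : s3 = 1 ∨ s3 = -1) : s0 * A - s1 * B - s2 * (A + B) + s3 * (A - B) ≠ 0 := by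
  intro h
  have h4 : (3 : κ) = 0 := BK3_three
  rcases h0 with rfl | rfl <;> rcases h1 with rfl | rfl <;> rcases h2 with rfl | rfl <;>
    rcases h3 with rfl | rfl <;> grind

/-- With `Δ = γ 0 - γ 1`: `γ 2 - γ 0 = -L 1 Δ / L 2`, `γ 2 - γ 1 = L 0 Δ / L 2`, `γ 3 - γ 0 = L 1 Δ / L 3`,
`γ 3 - γ 1 = L 0 Δ / L 3`, `γ 2 - γ 3 = L 0 L 1 Δ / (L 2 L 3)`. -/
theorem gam_inj {L γ : Fin 4 → κ} (hL : ∀ j, L j ≠ 0) (l2 : L 2 = L 0 + L 1) (l3 : L 3 = L 0 - L 1)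
    (g2 : L 2 * γ 2 = L 0 * γ 0 + L 1 * γ 1) (g3 : L 3 * γ 3 = L 0 * γ 0 - L 1 * γ 1)
    (h : γ 0 ≠ γ 1) : Injective γ := by
  obtain ⟨u, hu, e1, e2, e3, e4, e5, e6⟩ := BK3_gam hL l2 l3 g2 g3 h
  have k : ∀ {x y : κ} {i j : Fin 4}, x - y = L i * L j * u → x ≠ y := fun {x y i j} e =>
    sub_ne_zero.1 (e ▸ mul_ne_zero (mul_ne_zero (hL i) (hL j)) hu)
  have k2 := k e2
  have k3 := k e3
  have k4 := k e4
  have k5 := k e5
  have k6 := k e6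
  intro i j hij
  fin_cases i <;> fin_cases j <;>
    first
    | rfl
    | exact absurd hij h
    | exact absurd hij h.symm
    | exact absurd hij k2
    | exact absurd hij k2.symm
    | exact absurd hij k3
    | exact absurd hij k3.symm
    | exact absurd hij k4
    | exact absurd hij k4.symm
    | exact absurd hij k5
    | exact absurd hij k5.symm
    | exact absurd hij k6
    | exact absurd hij k6.symm

/-- `γ c = -(t c)^3`.  Differentiate `h0`, `h1` (cubes have derivative zero) and evaluate at `t c`: `a c = 0`.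
Evaluate `h0`, `h1` at `t c`; with `K = d L 2 L 3 / (L 0 L 1 Δ^2)`: `L 0 b 0 = - s 0 K (L 0)^2`,
`L 1 b 1 = s 1 K (L 1)^2`, `L 2 b 2 = s 2 K (L 2)^2`, `L 3 b 3 = - s 3 K (L 3)^2`.  The terms with `r` are
`η / L 2` and `- η / L 3`, `η = r Δ (Y 0 L 1 - Y 1 L 0)`.  So `L 2 * r2 + L 3 * r3` reads
`K (s 0 L 0 - s 1 L 1 - s 2 L 2 + s 3 L 3)^3 = 0`; the linear form is `m L 0 + n L 1` with `m, n ∈ F_3` not both
zero, so it is `± L j ≠ 0`.  Hence `d = 0`, `b = 0`, `η = 0`. -/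
theorem caseB {L Y t a b : Fin 4 → κ} {s : Fin 4 → ℤ} {d r : κ} (hs : ∀ c, s c = 1 ∨ s c = -1)
    (hL : ∀ j, L j ≠ 0) (l2 : L 2 = L 0 + L 1) (l3 : L 3 = L 0 - L 1) (y2 : Y 2 = Y 0 + Y 1)
    (y3 : Y 3 = Y 0 - Y 1) (hd : L 0 * Y 1 - L 1 * Y 0 ≠ 0)
    (g2 : L 2 * t 2 ^ 3 = L 0 * t 0 ^ 3 + L 1 * t 1 ^ 3)
    (g3 : L 3 * t 3 ^ 3 = L 0 * t 0 ^ 3 - L 1 * t 1 ^ 3) (ht : t 0 ≠ t 1)
    (h0 : NQ (fun c => C (s c : κ) * (C (2 * a c) * X + C (b c))) (fun c => X ^ 3 - C (t c ^ 3)) 0 =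
      C (d * L 0))
    (h1 : NQ (fun c => C (s c : κ) * (C (2 * a c) * X + C (b c))) (fun c => X ^ 3 - C (t c ^ 3)) 1 =
      C (d * L 1))
    (r2 : L 0 * b 0 + L 1 * b 1 - L 2 * b 2 -
      r * (Y 0 * t 0 ^ 3 + Y 1 * t 1 ^ 3 - Y 2 * t 2 ^ 3) = 0)
    (r3 : L 0 * b 0 - L 1 * b 1 - L 3 * b 3 -
      r * (Y 0 * t 0 ^ 3 - Y 1 * t 1 ^ 3 - Y 3 * t 3 ^ 3) = 0) :
    d = 0 ∧ r = 0 ∧ (∀ c, a c = 0) ∧ ∀ c, b c = 0 := by
  have h3 : (3 : κ) = 0 := BK3_three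
  have ht' : t 0 ^ 3 ≠ t 1 ^ 3 := fun h => ht (by
    have h4 : (t 0 - t 1) ^ 3 = 0 := by
      linear_combination h + (t 0 * t 1 ^ 2 - t 0 ^ 2 * t 1) * h3
    exact sub_eq_zero.1 (pow_eq_zero_iff (by norm_num) |>.1 h4))
  obtain ⟨u, hu, -, e2, e3, e4, e5, e6⟩ := BK3_gam (γ := fun c => t c ^ 3) hL l2 l3 g2 g3 ht'
  have hs' : ∀ c, (s c : κ) = 1 ∨ (s c : κ) = -1 := fun c => by
    rcases hs c with h | h <;> simp [h]
  have hs2 : ∀ c, (s c : κ) * s c = 1 := fun c => by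
    rcases hs' c with h | h <;> simp [h]
  have hs0 : ∀ c, (s c : κ) ≠ 0 := fun c => left_ne_zero_of_mul_eq_one (hs2 c)
  have h2 : (2 : κ) ≠ 0 := fun h => one_ne_zero (by linear_combination h3 - h : (1 : κ) = 0)
  have hq : ∀ c, derivative (X ^ 3 - C (t c ^ 3) : κ[X]) = 0 := fun c => by
    rw [derivative_sub, derivative_C, derivative_X_pow, Nat.cast_ofNat, h3, C_0, zero_mul, sub_zero]
  have E0 := fun x => congrArg (Polynomial.eval x) h0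
  have E1 := fun x => congrArg (Polynomial.eval x) h1
  have D0 := fun x => congrArg (Polynomial.eval x) (congrArg derivative h0)
  have D1 := fun x => congrArg (Polynomial.eval x) (congrArg derivative h1)
  simp only [BK3_der _ _ hq] at D0 D1
  simp only [BK3_eval, derivative_mul, derivative_C, derivative_add, derivative_X, eval_mul, eval_add,
    eval_sub, eval_C, eval_X, eval_pow, eval_zero, zero_mul, zero_add, add_zero, mul_one]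
    at E0 E1 D0 D1
  simp only [BK3_NQ0, BK3_NQ1] at E0 E1 D0 D1
  have k : ∀ {x : κ} (c i j i' j' : Fin 4), s c * 2 * (L i * L j * u) * (L i' * L j' * u) * x = 0 →
      x = 0 := fun c i j i' j' h => (mul_eq_zero.1 h).resolve_left (mul_ne_zero (mul_ne_zero
        (mul_ne_zero (hs0 c) h2) (mul_ne_zero (mul_ne_zero (hL i) (hL j)) hu))
        (mul_ne_zero (mul_ne_zero (hL i') (hL j')) hu))
  have a0 : a 0 = 0 := k 0 1 3 1 2 (by rw [← e2, ← e4]; linear_combination -D1 (t 0))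
  have a1 : a 1 = 0 := k 1 0 3 0 2 (by rw [← e3, ← e5]; linear_combination D0 (t 1))
  have a2 : a 2 = 0 := k 2 0 3 0 1 (by rw [← e3, ← e6]; linear_combination D0 (t 2))
  have a3 : a 3 = 0 := k 3 0 2 0 1 (by rw [← e5, ← e6]; linear_combination -D0 (t 3))
  have f0 : -(s 0 * b 0 * (L 1 * L 3 * u) * (L 1 * L 2 * u)) = d * L 1 := by
    rw [← e2, ← e4]
    linear_combination E1 (t 0) - s 0 * 2 * t 0 * (t 0 ^ 3 - t 2 ^ 3) * (t 0 ^ 3 - t 3 ^ 3) * a0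
  have f1 : s 1 * b 1 * (L 0 * L 3 * u) * (L 0 * L 2 * u) = d * L 0 := by
    rw [← e3, ← e5]
    linear_combination E0 (t 1) - s 1 * 2 * t 1 * (t 1 ^ 3 - t 2 ^ 3) * (t 1 ^ 3 - t 3 ^ 3) * a1
  have f2 : s 2 * b 2 * (L 0 * L 3 * u) * (L 0 * L 1 * u) = d * L 0 := by
    rw [← e3, ← e6]
    linear_combination E0 (t 2) - s 2 * 2 * t 2 * (t 2 ^ 3 - t 1 ^ 3) * (t 2 ^ 3 - t 3 ^ 3) * a2
  have f3 : -(s 3 * b 3 * (L 0 * L 2 * u) * (L 0 * L 1 * u)) = d * L 0 := by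
    rw [← e5, ← e6]
    linear_combination E0 (t 3) - s 3 * 2 * t 3 * (t 3 ^ 3 - t 1 ^ 3) * (t 3 ^ 3 - t 2 ^ 3) * a3
  have hN : L 0 * L 1 * L 2 * L 3 * u ^ 2 ≠ 0 := mul_ne_zero (mul_ne_zero (mul_ne_zero
    (mul_ne_zero (hL 0) (hL 1)) (hL 2)) (hL 3)) (pow_ne_zero 2 hu)
  obtain ⟨K, hK⟩ : ∃ K, d = K * (L 0 * L 1 * L 2 * L 3 * u ^ 2) :=
    ⟨d / _, (div_mul_cancel₀ d hN).symm⟩
  have b0 : b 0 = -(s 0 * K * L 0) := by
    apply mul_left_cancel₀ (mul_ne_zero (hL 1) hN)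
    linear_combination -(s 0 * L 0) * f0 - s 0 * L 0 * L 1 * hK -
      L 0 * L 1 ^ 2 * L 2 * L 3 * u ^ 2 * b 0 * hs2 0
  have b1 : b 1 = s 1 * K * L 1 := by
    apply mul_left_cancel₀ (mul_ne_zero (hL 0) hN)
    linear_combination s 1 * L 1 * f1 + s 1 * L 0 * L 1 * hK -
      L 0 ^ 2 * L 1 * L 2 * L 3 * u ^ 2 * b 1 * hs2 1
  have b2 : b 2 = s 2 * K * L 2 := by
    apply mul_left_cancel₀ (mul_ne_zero (hL 0) hN)
    linear_combination s 2 * L 2 * f2 + s 2 * L 0 * L 2 * hK -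
      L 0 ^ 2 * L 1 * L 2 * L 3 * u ^ 2 * b 2 * hs2 2
  have b3 : b 3 = -(s 3 * K * L 3) := by
    apply mul_left_cancel₀ (mul_ne_zero (hL 0) hN)
    linear_combination -(s 3 * L 3) * f3 - s 3 * L 0 * L 3 * hK -
      L 0 ^ 2 * L 1 * L 2 * L 3 * u ^ 2 * b 3 * hs2 3
  have r2' : L 0 * b 0 + L 1 * b 1 - L 2 * b 2 + r * u * L 3 * (L 0 * Y 1 - L 1 * Y 0) = 0 := by
    linear_combination r2 - r * t 2 ^ 3 * y2 + r * Y 0 * e2 - r * Y 1 * e3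
  have r3' : L 0 * b 0 - L 1 * b 1 - L 3 * b 3 - r * u * L 2 * (L 0 * Y 1 - L 1 * Y 0) = 0 := by
    linear_combination r3 - r * t 3 ^ 3 * y3 - r * Y 0 * e4 + r * Y 1 * e5
  have c2 : L 2 ^ 3 = L 0 ^ 3 + L 1 ^ 3 := by
    rw [l2]
    linear_combination (L 0 ^ 2 * L 1 + L 0 * L 1 ^ 2) * h3
  have c3 : L 3 ^ 3 = L 0 ^ 3 - L 1 ^ 3 := by
    rw [l3]
    linear_combination (L 0 * L 1 ^ 2 - L 0 ^ 2 * L 1) * h3
  have hF := BK3_form (pow_ne_zero 3 (hL 0)) (pow_ne_zero 3 (hL 1)) (c2 ▸ pow_ne_zero 3 (hL 2))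
    (c3 ▸ pow_ne_zero 3 (hL 3)) (hs' 0) (hs' 1) (hs' 2) (hs' 3)
  rw [← c2, ← c3] at hF
  have hK0 : K = 0 := by
    refine (mul_eq_zero.1 ?_).resolve_left hF
    rw [b0, b1, b2] at r2'
    rw [b0, b1, b3] at r3'
    linear_combination L 2 * r2' + L 3 * r3' +
      K * (s 0 * L 0 ^ 2 - s 1 * L 1 ^ 2) * l2 + K * (s 0 * L 0 ^ 2 + s 1 * L 1 ^ 2) * l3 +
      K * (s 0 * L 0 ^ 3 - s 1 * L 1 ^ 3) * h3
  rw [hK0, mul_zero, zero_mul] at b0 b1 b2 b3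
  rw [neg_zero] at b0 b3
  refine ⟨by rw [hK, hK0, zero_mul], ?_, fun c => ?_, fun c => ?_⟩
  · refine (mul_eq_zero.1 ?_).resolve_left (mul_ne_zero (mul_ne_zero hu (hL 3)) hd)
    rw [b0, b1, b2] at r2'
    linear_combination r2'
  · fin_cases c
    exacts [a0, a1, a2, a3]
  · fin_cases c
    exacts [b0, b1, b2, b3]

end Pool.Agent.MP_deef5c_ag.E
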