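import Pool.Agent.MP_deef5c_ag.E.BCar
import Pool.Agent.MP_deef5c_ag.E.BK1
import Pool.Agent.MP_deef5c_ag.E.BK2
import Pool.Agent.MP_deef5c_ag.E.BK3

/-! No configuration over a valuation ring. -/

open Polynomial IsLocalRing Function

namespace Pool.Agent.MP_deef5c_ag.E

universe u

variable {V : Type u} [CommRing V] [IsDomain V] [ValuationRing V] {ρ δ : V} {z : Fin 4 → Fin 3 → V}
  {e : Fin 4 → Fin 3 → ℤ} {G : Fin 4 → V[X]} {y : Fin 4 → V}

theorem BFin_Qp {R : Type u} [CommRing R] (T : Fin 3 → R) :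
    Qp T = X ^ 3 + C (-(T 0 + T 1 + T 2)) * X ^ 2 + C (T 0 * T 1 + T 0 * T 2 + T 1 * T 2) * X +
      C (-(T 0 * T 1 * T 2)) := by
  simp only [Qp, map_neg, map_add, map_mul]
  ring

theorem BFin_monic {R : Type u} [CommRing R] [Nontrivial R] (T : Fin 3 → R) :
    (Qp T).Monic ∧ (Qp T).natDegree = 3 := by
  have h01 := (monic_X_sub_C (T 0)).mul (monic_X_sub_C (T 1))
  refine ⟨h01.mul (monic_X_sub_C _), ?_⟩
  rw [Qp, h01.natDegree_mul (monic_X_sub_C _), (monic_X_sub_C _).natDegree_mul (monic_X_sub_C _)]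
  simp

theorem BFin_cube {κ : Type u} [Field κ] [CharP κ 3] (a : κ) :
    (Qp fun _ => a) = X ^ 3 - C (a ^ 3) := by
  have h3 : (3 : κ[X]) = 0 := by
    have h := CharP.cast_eq_zero κ 3
    rw [← map_ofNat C 3, show (OfNat.ofNat 3 : κ) = ((3 : ℕ) : κ) by simp, h, map_zero]
  simp only [Qp, map_pow]
  linear_combination (X * C a ^ 2 - X ^ 2 * C a) * h3

theorem BFin_np {R : Type u} [CommRing R] {s : Fin 3 → ℤ} (hs : ∀ i, s i = s 0) {T : Fin 3 → R}
    {μ m a b : R} (hm : 3 = μ * m) (ha : -(T 0 + T 1 + T 2) = μ * a)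
    (hb : T 0 * T 1 + T 0 * T 2 + T 1 * T 2 = μ * b) :
    np s T = C μ * (C (s 0 : R) * (C m * X ^ 2 + C (2 * a) * X + C b)) := by
  have h1 := congrArg C hm
  have h2 := congrArg C ha
  have h3 := congrArg C hb
  simp only [map_neg, map_add, map_mul, map_ofNat] at h1 h2 h3
  rw [np, hs 1, hs 2, map_mul, map_ofNat]
  linear_combination C (s 0 : R) * (X ^ 2 * h1 + 2 * X * h2 + h3)

theorem BFin_NQ_mul {P : Type u} [CommRing P] (c : P) (n q : Fin 4 → P) (j : Fin 4) :
    NQ (fun i => c * n i) q j = c * NQ n q j := by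
  fin_cases j <;> simp [NQ] <;> ring

theorem BFin_NQ_map {P P' : Type u} [CommRing P] [CommRing P'] (φ : P →+* P') (n q : Fin 4 → P)
    (j : Fin 4) : φ (NQ n q j) = NQ (fun i => φ (n i)) (fun i => φ (q i)) j := by
  fin_cases j <;> simp [NQ]

theorem BFin_coeff {R : Type u} [CommRing R] (g : R[X]) (T : Fin 3 → R) :
    (g * Qp T).coeff 1 = g.coeff 0 * (T 0 * T 1 + T 0 * T 2 + T 1 * T 2) +
      g.coeff 1 * -(T 0 * T 1 * T 2) := by
  rw [coeff_mul, Finset.Nat.antidiagonal_succ, Finset.sum_cons, Finset.Nat.antidiagonal_zero,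
    Finset.map_singleton, Finset.sum_singleton, BFin_Qp]
  simp only [coeff_add, coeff_X_pow, coeff_C_mul, coeff_X, coeff_C]
  simp

theorem BFin_L (h : SD ρ δ z e G y) {L : Fin 4 → ResidueField V}
    (hL : ∀ j, L j = residue V ((G j).coeff 0)) :
    (∀ j, L j ≠ 0) ∧ L 2 = L 0 + L 1 ∧ L 3 = L 0 - L 1 := by
  have h2 := (residue_eq_zero_iff _).2 h.l2
  have h3 := (residue_eq_zero_iff _).2 h.l3
  simp only [map_add, map_sub, ← hL] at h2 h3
  refine ⟨fun j => ?_, by linear_combination h2, by linear_combination h3⟩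
  rw [hL]
  exact ((h.hu j).map (residue V)).ne_zero

theorem BFin_g (h : SD ρ δ z e G y) {t L : Fin 4 → ResidueField V}
    (ht : ∀ c i, residue V (z c i) = t c) (hL : ∀ j, L j = residue V ((G j).coeff 0)) :
    L 2 * t 2 ^ 3 = L 0 * t 0 ^ 3 + L 1 * t 1 ^ 3 ∧
      L 3 * t 3 ^ 3 = L 0 * t 0 ^ 3 - L 1 * t 1 ^ 3 := by
  have := h.charP
  obtain ⟨h2, h3, -⟩ := h.red (q := fun c => X ^ 3 - C (t c ^ 3)) (fun c => by
    rw [← BFin_cube]
    exact congrArg Qp (funext fun i => (ht c i).symm)) hL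
  have h4 := congrArg (Polynomial.eval 0) h2
  have h5 := congrArg (Polynomial.eval 0) h3
  simp only [eval_mul, eval_add, eval_sub, eval_pow, eval_C, eval_X] at h4 h5
  exact ⟨by linear_combination -h4, by linear_combination -h5⟩

/-- The second rescaling.  `Qp (z c) = X^3 + α c X^2 + β c X + γ c` and `np (e c) (z c) = e c 0 * (Qp (z c))'`.
Let `μ` be the member of the family `δ, ρ, α c, β c` which divides all (`exists_dvd_all`, index type
`Bool ⊕ Fin 4 ⊕ Fin 4`); `μ ≠ 0`; write `δ = μ d`, `ρ = μ r`, `α = μ a`, `β = μ b`, so one of `d, r, a c, b c` is `1`,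
and `3 = μ m` with `m = - d δ ρ^16` in the maximal ideal.  Cancel `C μ` in `hN` and in the coefficient of `X^1` of
`SD.rel` (`G.coeff 0 * β + ρ y γ`), reduce, and apply `caseB` (`residue (γ c) = - t c ^ 3`). -/
theorem SD.false_b (h : SD ρ δ z e G y) {t : Fin 4 → ResidueField V}
    (ht : ∀ c i, residue V (z c i) = t c) (h01 : t 0 ≠ t 1) (he : ∀ c i, e c i = e c 0) : False := by
  have := h.charP
  let f : Bool ⊕ Fin 4 ⊕ Fin 4 → V := Sum.elim (fun b => if b then δ else ρ)
    (Sum.elim (fun c => -(z c 0 + z c 1 + z c 2))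
      fun c => z c 0 * z c 1 + z c 0 * z c 2 + z c 1 * z c 2)
  obtain ⟨i₀, hi₀⟩ := exists_dvd_all f
  choose g hg using hi₀
  obtain ⟨μ, hμ⟩ : ∃ μ, μ = f i₀ := ⟨_, rfl⟩
  rw [← hμ] at hg
  obtain ⟨d, hd⟩ : ∃ d, d = g (.inl true) := ⟨_, rfl⟩
  obtain ⟨r, hr⟩ : ∃ r, r = g (.inl false) := ⟨_, rfl⟩
  obtain ⟨a, ha⟩ : ∃ a : Fin 4 → V, ∀ c, a c = g (.inr (.inl c)) := ⟨_, fun _ => rfl⟩
  obtain ⟨b, hb⟩ : ∃ b : Fin 4 → V, ∀ c, b c = g (.inr (.inr c)) := ⟨_, fun _ => rfl⟩
  have hδ : δ = μ * d := by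
    rw [hd]
    exact hg (.inl true)
  have hρ : ρ = μ * r := by
    rw [hr]
    exact hg (.inl false)
  have hα : ∀ c, -(z c 0 + z c 1 + z c 2) = μ * a c := fun c => by
    rw [ha]
    exact hg (.inr (.inl c))
  have hβ : ∀ c, z c 0 * z c 1 + z c 0 * z c 2 + z c 1 * z c 2 = μ * b c := fun c => by
    rw [hb]
    exact hg (.inr (.inr c))
  have hμ0 : μ ≠ 0 := by
    rintro rfl
    exact h.δ0 (by rw [hδ, zero_mul])
  have hg1 : g i₀ = 1 := by
    apply mul_left_cancel₀ hμ0
    rw [← hg, mul_one, hμ]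
  have hρ0 : residue V ρ = 0 := (residue_eq_zero_iff _).2 h.hρ
  have hm : 3 = μ * -(d * δ * ρ ^ 16) := by
    have h1 := h.h3
    linear_combination h1 - δ * ρ ^ 16 * hδ
  obtain ⟨L, hL⟩ : ∃ L : Fin 4 → ResidueField V, ∀ j, L j = residue V ((G j).coeff 0) :=
    ⟨_, fun _ => rfl⟩
  obtain ⟨hL0, l2, l3⟩ := BFin_L h hL
  obtain ⟨g2, g3⟩ := BFin_g h ht hL
  have hN : ∀ j, NQ (fun c => C (e c 0 : ResidueField V) *
      (C (2 * residue V (a c)) * X + C (residue V (b c)))) (fun c => X ^ 3 - C (t c ^ 3)) j =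
        C (residue V d * L j) := by
    intro j
    have h1 := h.hN j
    rw [NN, funext fun c => BFin_np (he c) hm (hα c) (hβ c), BFin_NQ_mul] at h1
    have h2 : C δ * G j = C μ * (C d * G j) := by rw [hδ, map_mul, mul_assoc]
    have h3 := congrArg (mapRingHom (residue V))
      (mul_left_cancel₀ (C_ne_zero.2 hμ0) (h1.trans h2))
    rw [BFin_NQ_map, map_mul, coe_mapRingHom, h.mapG, map_C, ← map_mul, ← hL] at h3
    rw [← h3]
    congr 1
    · funext c
      simp only [Polynomial.map_mul, Polynomial.map_add, Polynomial.map_pow, map_C, map_X]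
      simp [hρ0, map_ofNat]
    · funext c
      rw [map_Qp, ← BFin_cube]
      exact congrArg Qp (funext fun i => (ht c i).symm)
  have hc : ∀ c, (G c * Qp (z c)).coeff 1 =
      μ * ((G c).coeff 0 * b c + r * y c * -(z c 0 * z c 1 * z c 2)) := fun c => by
    rw [BFin_coeff, hβ, h.hy]
    linear_combination y c * -(z c 0 * z c 1 * z c 2) * hρ
  have hc' : ∀ c, residue V ((G c).coeff 0 * b c + r * y c * -(z c 0 * z c 1 * z c 2)) =
      L c * residue V (b c) - residue V r * (residue V (y c) * t c ^ 3) := fun c => by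
    simp only [map_add, map_mul, map_neg, ht, ← hL]
    ring
  have key : ∀ (u : V) (p : V[X]), μ * u = (-(C (δ * ρ ^ 16) * p)).coeff 1 → residue V u = 0 := by
    intro u p hu
    rw [coeff_neg, coeff_C_mul] at hu
    have h1 : u = -(d * ρ ^ 16 * p.coeff 1) := by
      apply mul_left_cancel₀ hμ0
      linear_combination hu - ρ ^ 16 * p.coeff 1 * hδ
    simp [h1, hρ0]
  have h2 := congrArg (coeff · 1) h.rel.1
  have h3 := congrArg (coeff · 1) h.rel.2
  simp only [coeff_add, coeff_sub, hc, ← mul_add, ← mul_sub] at h2 h3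
  have h4 := key _ _ h2
  have h5 := key _ _ h3
  rw [map_sub, map_add, hc', hc', hc'] at h4
  rw [map_sub, map_sub, hc', hc', hc'] at h5
  have y2 := (residue_eq_zero_iff _).2 h.y2
  have y3 := (residue_eq_zero_iff _).2 h.y3
  have hdet := (h.hd.map (residue V)).ne_zero
  simp only [map_add, map_sub, map_mul, ← hL] at y2 y3 hdet
  obtain ⟨k1, k2, k3, k4⟩ := caseB (L := L) (Y := fun c => residue V (y c)) (t := t)
    (a := fun c => residue V (a c)) (b := fun c => residue V (b c)) (s := fun c => e c 0)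
    (d := residue V d) (r := residue V r) (fun c => h.he c 0) hL0 l2 l3
    (by linear_combination y2) (by linear_combination y3) hdet g2 g3 h01 (hN 0) (hN 1)
    (by linear_combination h4) (by linear_combination h5)
  have hall : ∀ i, residue V (g i) = 0 := by
    rintro ((_ | _) | c | c)
    · rw [← hr, k2]
    · rw [← hd, k1]
    · rw [← ha, k3]
    · rw [← hb, k4]
  have h6 := hall i₀
  rw [hg1, map_one] at h6
  exact one_ne_zero h6

/-- `SD.red`, `classify`: the residue of `δ` is zero.  If `q 0 = q 1` all `q c` agree, use `caseA`.  Otherwise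
all derivatives vanish, `Qp_der_zero`, `gam_inj` (for `γ c = t c ^ 3`, constant coefficients of the
relations), `signs`, `SD.false_b`. -/
theorem SD.false (h : SD ρ δ z e G y) : False := by
  have := h.charP
  obtain ⟨L, hL⟩ : ∃ L : Fin 4 → ResidueField V, ∀ j, L j = residue V ((G j).coeff 0) :=
    ⟨_, fun _ => rfl⟩
  obtain ⟨q, hq⟩ : ∃ q : Fin 4 → (ResidueField V)[X], ∀ c, q c = Qp fun i => residue V (z c i) :=
    ⟨_, fun _ => rfl⟩
  obtain ⟨hL0, l2, l3⟩ := BFin_L h hL
  obtain ⟨r2, r3, hder, hN⟩ := h.red hq hL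
  have hm : ∀ c, (q c).Monic ∧ (q c).natDegree = 3 := fun c => by
    rw [hq]
    exact BFin_monic _
  obtain ⟨hd, hcase⟩ := classify (q₂ := q 2) (q₃ := q 3) (hm 0).1 (hm 1).1 (hm 0).2 (hm 1).2
    (hL0 0) (hL0 1) (by rw [← l2]; exact hL0 2) (by rw [← l3]; exact hL0 3)
    (by rw [← l2]; exact r2) (by rw [← l3]; exact r3) hder
  have hδ : residue V δ = 0 := by simpa [hL0 0] using hd
  have hN0 : ∀ j, NN e (fun c i => residue V (z c i)) j = 0 := fun j => by
    rw [hN, hδ, zero_mul, map_zero]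
  by_cases h01 : q 0 = q 1
  · refine caseA h.he (fun c => ?_) ?_ (hN0 0) (hN0 1)
    · rw [← hq, ← hq]
      fin_cases c
      · rfl
      · exact h01.symm
      · apply mul_left_cancel₀ (C_ne_zero.2 (hL0 2))
        change C (L 2) * q 2 = C (L 2) * q 0
        rw [r2, ← h01, l2, map_add, add_mul]
      · apply mul_left_cancel₀ (C_ne_zero.2 (hL0 3))
        change C (L 3) * q 3 = C (L 3) * q 0
        rw [r3, ← h01, l3, map_sub, sub_mul]
    · obtain ⟨c, i, c', i', hz⟩ := h.hz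
      refine ⟨c, i, c', i', ?_⟩
      have h1 := (hz.map (residue V)).ne_zero
      rwa [map_sub, sub_ne_zero] at h1
  · obtain ⟨d0, d1⟩ := hcase.resolve_left h01
    have hdq : ∀ c, derivative (q c) = 0 := by
      intro c
      fin_cases c
      · exact d0
      · exact d1
      · have h1 := congrArg derivative r2
        rw [map_add, derivative_C_mul, derivative_C_mul, derivative_C_mul, d0, d1, mul_zero,
          mul_zero, add_zero] at h1
        exact (mul_eq_zero.1 h1).resolve_left (C_ne_zero.2 (hL0 2))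
      · have h1 := congrArg derivative r3
        rw [map_sub, derivative_C_mul, derivative_C_mul, derivative_C_mul, d0, d1, mul_zero,
          mul_zero, sub_zero] at h1
        exact (mul_eq_zero.1 h1).resolve_left (C_ne_zero.2 (hL0 3))
    obtain ⟨t, ht⟩ : ∃ t : Fin 4 → ResidueField V, ∀ c i, residue V (z c i) = t c :=
      ⟨fun c => residue V (z c 0), fun c =>
        Qp_der_zero (z := fun i => residue V (z c i)) (by rw [← hq]; exact hdq c)⟩
    have hz : (fun c i => residue V (z c i)) = fun c _ => t c := by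
      funext c i
      exact ht c i
    have ht01 : t 0 ≠ t 1 := fun h1 => h01 (by
      rw [hq, hq, congrFun hz 0, congrFun hz 1, h1])
    obtain ⟨g2, g3⟩ := BFin_g h ht hL
    have hne : t 0 ^ 3 ≠ t 1 ^ 3 := fun h1 => ht01 (by
      have h3 : (3 : ResidueField V) = 0 := by exact_mod_cast CharP.cast_eq_zero (ResidueField V) 3
      have h2 : (t 0 - t 1) ^ 3 = 0 := by
        linear_combination h1 + (t 0 * t 1 ^ 2 - t 0 ^ 2 * t 1) * h3
      exact sub_eq_zero.1 (pow_eq_zero_iff (by norm_num) |>.1 h2))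
    have hinj := gam_inj (γ := fun c => t c ^ 3) hL0 l2 l3 g2 g3 hne
    rw [hz] at hN0
    have hti : Injective t := fun c c' h1 => hinj (congrArg (· ^ 3) h1)
    exact h.false_b ht ht01 (signs hti h.he (hN0 0) (hN0 1))

end Pool.Agent.MP_deef5c_ag.E
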