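import Pool.Agent.MP_deef5c_ag.E.DefsB
import Pool.Agent.MP_deef5c_ag.E.AFin

/-! Leading terms of the action. -/

open PowerSeries IsLocalRing Function Pool.Agent.MP_deef5c_ag.O
open scoped Polynomial

namespace Pool.Agent.MP_deef5c_ag.E

universe u

variable {k : Type u} [Field k] [CharP k 3]

theorem BLd_comp (φ ψ : k⟦X⟧ ≃ₐ[k] k⟦X⟧) {l y l' y' : k}
    (h1 : X ^ 13 ∣ φ X - X - X ^ 9 * (C l + C y * X ^ 3))
    (h2 : X ^ 13 ∣ ψ X - X - X ^ 9 * (C l' + C y' * X ^ 3)) :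
    X ^ 13 ∣ (φ * ψ) X - X - X ^ 9 * (C (l + l') + C (y + y') * X ^ 3) := by
  obtain ⟨e, he⟩ := h1
  obtain ⟨f, hf⟩ := h2
  have hC : ∀ a : k, φ (C a) = C a := fun a => φ.commutes a
  have hu : φ X = X * (1 + X ^ 8 * (C l + C y * X ^ 3 + X ^ 4 * e)) := by linear_combination he
  have hψ : ψ X = X + X ^ 9 * (C l' + C y' * X ^ 3) + X ^ 13 * f := by linear_combination hf
  generalize hE : C l + C y * X ^ 3 + X ^ 4 * e = E at hu
  have hp : ∀ n : ℕ, ∃ F : k⟦X⟧, (1 + X ^ 8 * E) ^ n = 1 + X ^ 8 * F := fun n => by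
    obtain ⟨F, hF⟩ := sub_dvd_pow_sub_pow (1 + X ^ 8 * E : k⟦X⟧) 1 n
    exact ⟨E * F, by linear_combination hF⟩
  obtain ⟨F, hF⟩ := hp 9
  obtain ⟨G, hG⟩ := hp 12
  rw [AlgEquiv.mul_apply, hψ]
  simp only [map_add, map_mul, map_pow, hC, hu]
  generalize 1 + X ^ 8 * E = u at hF hG hu
  refine ⟨e + X ^ 4 * F * C l' + X ^ 7 * G * C y' + u ^ 13 * φ f, ?_⟩
  linear_combination he - hu + X ^ 9 * C l' * hF + X ^ 12 * C y' * hG

theorem BLd_pow (φ : k⟦X⟧ ≃ₐ[k] k⟦X⟧) {l y : k}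
    (h1 : X ^ 13 ∣ φ X - X - X ^ 9 * (C l + C y * X ^ 3)) (n : ℕ) :
    X ^ 13 ∣ (φ ^ n) X - X - X ^ 9 * (C ((n : k) * l) + C ((n : k) * y) * X ^ 3) := by
  induction n with
  | zero => simp
  | succ n ih =>
    have h := BLd_comp _ _ ih h1
    rw [pow_succ, Nat.cast_succ, add_mul, add_mul, one_mul, one_mul]
    exact h

theorem BLd_gen : ∀ g : EE, g = sg ^ g.toAdd.1.val * ta ^ g.toAdd.2.val := by
  decide

/-- If `g X ≡ X + X^9 (l + y X^3)` modulo `X^13`, then `g X = X (1 + X^8 e)`, so `g f ≡ f` modulo `X^13` for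
`f = X^9 (l' + y' X^3) + X^13 f₁`: the congruences add under composition.  Every element of `EE` is
`sg^i * ta^j` with `i, j < 3`. -/
theorem ld_all (ρ : EE →* (k⟦X⟧ ≃ₐ[k] k⟦X⟧)) {l₁ l₂ y₁ y₂ : k}
    (h1 : X ^ 13 ∣ ρ sg X - X - X ^ 9 * (C l₁ + C y₁ * X ^ 3))
    (h2 : X ^ 13 ∣ ρ ta X - X - X ^ 9 * (C l₂ + C y₂ * X ^ 3)) (g : EE) :
    X ^ 13 ∣ ρ g X - X - X ^ 9 * (C (lin2 l₁ l₂ g) + C (lin2 y₁ y₂ g) * X ^ 3) := by
  have h := BLd_comp _ _ (BLd_pow _ h1 g.toAdd.1.val) (BLd_pow _ h2 g.toAdd.2.val)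
  rw [← map_pow, ← map_pow, ← map_mul, ← BLd_gen g] at h
  exact h

/-- `s = X^3 + X^6 e`, so `s^3 = X^9 + X^18 e^3` in characteristic three, and `X^9 ∣ x` (`Mod.ord`) -/
theorem Mod.ld {c : k} (hc : c - c ^ 3 = 1) {ρ : EE →* (k⟦X⟧ ≃ₐ[k] k⟦X⟧)} {x s : k⟦X⟧}
    (M : Mod c ρ x s) : Ld ρ (-c) 1 1 0 := by
  obtain ⟨⟨e, he⟩, ⟨f, hf⟩⟩ := M.ord
  have h3 : (3 : k⟦X⟧) = 0 := by
    have h : ((3 : ℕ) : k) = 0 := CharP.cast_eq_zero k 3
    have h' := congrArg (C : k →+* k⟦X⟧) h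
    rw [map_natCast, map_zero] at h'
    exact_mod_cast h'
  have hs : s = X ^ 3 + X ^ 6 * e := by linear_combination he
  have hs3 : s ^ 3 = X ^ 9 + X ^ 18 * e ^ 3 := by
    rw [hs]
    linear_combination (X ^ 12 * e + X ^ 15 * e ^ 2) * h3
  refine ⟨ld_all ρ ?_ ?_, ?_, one_ne_zero, ?_, ?_, ?_⟩
  · rw [M.st, ST, hs3, map_neg, map_one]
    generalize (s ^ 2 - x ^ 6) ^ 3 = v
    refine ⟨X ^ 42 * f ^ 6 * v + (X ^ 5 * e ^ 3 + X ^ 68 * f ^ 9) * (s - C c - x ^ 3) +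
      X ^ 2 * e - X ^ 23 * f ^ 3, ?_⟩
    rw [hf, hs]
    ring
  · rw [M.tt, hs3, map_one, map_zero]
    exact ⟨X ^ 5 * e ^ 3, by ring⟩
  · intro h
    have h' : c = 0 := by linear_combination -h
    rw [h'] at hc
    norm_num at hc
  · intro h
    have h' : c = 1 := by linear_combination -h
    rw [h'] at hc
    norm_num at hc
  · intro h
    have h' : c = -1 := by linear_combination -h
    rw [h'] at hc
    norm_num at hc
  · simp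

end Pool.Agent.MP_deef5c_ag.E
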