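import Pool.Agent.MP_deef5c_ag.E.DefsB

/-! The data are stable under products. -/

open Polynomial IsLocalRing Function

namespace Pool.Agent.MP_deef5c_ag.E

universe u

variable {R B : ℕ → Type u} [∀ n, CommRing (R n)] [∀ n, CommRing (B n)]

theorem poly_pi_ext {p q : (∀ n, R n)[X]}
    (h : ∀ n, p.map (Pi.evalRingHom R n) = q.map (Pi.evalRingHom R n)) : p = q := by
  ext k n
  have := congrArg (fun f => coeff f k) (h n)
  simpa using this

theorem exists_poly_pi (d : ℕ) (p : ∀ n, (R n)[X]) (h : ∀ n, (p n).degree < d) :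
    ∃ q : (∀ n, R n)[X], q.degree < d ∧ ∀ n, q.map (Pi.evalRingHom R n) = p n := by
  have hc : ∀ k, (∑ j ∈ Finset.range d, monomial j (fun n => (p n).coeff j) :
      (∀ n, R n)[X]).coeff k = if k < d then (fun n => (p n).coeff k) else 0 := fun k => by
    simp [finsetSum_coeff, coeff_monomial]
  refine ⟨∑ j ∈ Finset.range d, monomial j (fun n => (p n).coeff j), ?_, fun n => ?_⟩
  · rw [degree_lt_iff_coeff_zero]
    intro m hm
    rw [hc, if_neg (by omega)]
  · ext k
    rw [coeff_map, hc]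
    split_ifs with hk
    · rfl
    · rw [map_zero, (degree_lt_iff_coeff_zero _ _).1 (h n) k (by omega)]

theorem exists_monic_pi (d : ℕ) (p : ∀ n, (R n)[X]) (h : ∀ n, (p n).Monic)
    (hd : ∀ n, (p n).natDegree = d) [Nontrivial (∀ n, R n)] :
    ∃ q : (∀ n, R n)[X], q.Monic ∧ q.natDegree = d ∧ ∀ n, q.map (Pi.evalRingHom R n) = p n := by
  obtain ⟨q, h1, h2⟩ := exists_poly_pi d (fun n => p n - X ^ d) fun n => by
    rw [degree_lt_iff_coeff_zero]
    intro m hm
    rw [coeff_sub, coeff_X_pow]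
    split_ifs with hk
    · rw [hk, ← hd n, (h n).coeff_natDegree, sub_self]
    · rw [coeff_eq_zero_of_natDegree_lt (by rw [hd n]; omega), sub_self]
  refine ⟨X ^ d + q, monic_X_pow_add h1, ?_, fun n => ?_⟩
  · rw [natDegree_add_eq_left_of_degree_lt (by rwa [degree_X_pow]), natDegree_X_pow]
  · rw [Polynomial.map_add, h2, Polynomial.map_pow, map_X, add_sub_cancel]

/-- the componentwise homomorphism -/
def BProd_h (f : ∀ n, R n →+* B n) : (∀ n, R n) →+* ∀ n, B n :=
  RingHom.pi fun n => (f n).comp (Pi.evalRingHom R n)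

theorem BProd_app (f : ∀ n, R n →+* B n) (a : ∀ n, R n) (n : ℕ) : BProd_h f a n = f n (a n) := rfl

theorem BProd_ev (f : ∀ n, R n →+* B n) (p : (∀ n, R n)[X]) (x : ∀ n, B n) (n : ℕ) :
    p.eval₂ (BProd_h f) x n = (p.map (Pi.evalRingHom R n)).eval₂ (f n) (x n) := by
  rw [eval₂_map]
  exact hom_eval₂ p (BProd_h f) (Pi.evalRingHom B n) x

theorem BProd_co {p : (∀ n, R n)[X]} {q : ∀ n, (R n)[X]}
    (h : ∀ n, p.map (Pi.evalRingHom R n) = q n) (k n : ℕ) : p.coeff k n = (q n).coeff k := by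
  rw [← h, coeff_map]
  rfl

/-- the product of the data on the top curve -/
noncomputable def BProd_c {J : ∀ n, Ideal (R n)} (c : ∀ n, CfT (R n) (B n) (J n))
    (W : Fin 4 → (∀ n, R n)[X]) (h1 : ∀ j, (W j).Monic) (h2 : ∀ j, (W j).natDegree = 9)
    (h3 : ∀ j n, (W j).map (Pi.evalRingHom R n) = (c n).W j) :
    CfT (∀ n, R n) (∀ n, B n) (Ideal.pi J) where
  i := BProd_h fun n => (c n).i
  x := fun n => (c n).x
  T := fun g => BProd_h fun n => (c n).T g
  W := W
  z := fun g n => (c n).z g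
  one := fun b => funext fun n => (c n).one (b n)
  mul := fun g h b => funext fun n => (c n).mul g h (b n)
  fix := fun g a => funext fun n => (c n).fix g (a n)
  dv := fun g b => pi_dvd_iff.2 fun n => (c n).dv g (b n)
  mon := h1
  deg := h2
  dist := fun j k hk n => by
    rw [BProd_co (h3 j)]
    exact (c n).dist j k hk
  as1 := fun j => pi_dvd_iff.2 fun n => by
    rw [BProd_ev, h3]
    exact (c n).as1 j
  as2 := fun j => pi_dvd_iff.2 fun n => by
    rw [BProd_ev, h3]
    exact (c n).as2 j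
  surj := fun b => by
    choose r hr hr' using fun n => (c n).surj (b n)
    obtain ⟨q, hq, hq'⟩ := exists_poly_pi 36 r hr
    refine ⟨q, hq, pi_dvd_iff.2 fun n => ?_⟩
    rw [Pi.sub_apply, BProd_ev, BProd_ev, hq', Polynomial.map_prod]
    simp only [h3]
    exact hr' n
  inj := fun r hr hd => poly_pi_ext fun n => by
    have := pi_dvd_iff.1 hd n
    rw [BProd_ev, BProd_ev, Polynomial.map_prod] at this
    simp only [h3] at this
    rw [Polynomial.map_zero]
    exact (c n).inj _ (degree_map_le.trans_lt hr) this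
  zmul := fun g h => funext fun n => (c n).zmul g h
  z3 := fun j => pi_dvd_iff.2 fun n => (c n).z3 j
  sim := fun j => by
    choose U hU using fun n => (c n).sim j
    refine ⟨U, pi_dvd_iff.2 fun n => ?_⟩
    rw [Pi.sub_apply _ (_ * _), Pi.mul_apply, BProd_ev, ← derivative_map, h3]
    exact hU n

/-- Everything is defined componentwise (`Pi.ringHom`, `RingHom.pi`); divisibility and units in a product are
checked componentwise; `(p.eval₂ i x) n = (p.map (eval n)).eval₂ (i n) (x n)` (`Polynomial.hom_eval₂`,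
`eval₂_map`).  `R 0` is nontrivial because it has a monic polynomial of degree `9`. -/
theorem cfg_pi (J : ∀ n, Ideal (R n)) (h : ∀ n, Cfg (R n) (B n) (J n)) :
    Cfg (∀ n, R n) (∀ n, B n) (Ideal.pi J) := by
  choose c Ws Vs p₁ p₂ hS hU hD using h
  have : Nontrivial (R 0) := by
    by_contra hn
    rw [not_nontrivial_iff_subsingleton] at hn
    have := (c 0).deg 0
    rw [natDegree_of_subsingleton] at this
    omega
  have : Nontrivial (∀ n, R n) := Pi.nontrivial_at 0
  choose W h1 h2 h3 using fun j => exists_monic_pi 9 (fun n => (c n).W j) (fun n => (c n).mon j)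
    fun n => (c n).deg j
  choose W' a1 a2 a3 using fun j => exists_monic_pi 9 (fun n => Ws n j) (fun n => (hS n j).mon)
    fun n => (hS n j).deg
  choose V' b1 b2 using fun j => exists_poly_pi 9 (fun n => Vs n j) fun n => (hS n j).dV
  choose q₁ c1 c2 using fun j => exists_poly_pi 9 (fun n => p₁ n j) fun n => (hS n j).d1
  choose q₂ d1 d2 using fun j => exists_poly_pi 9 (fun n => p₂ n j) fun n => (hS n j).d2
  have e : ∀ (p : (∀ n, R n)[X]) (j : Fin 4) (n : ℕ),
      p.eval₂ (BProd_c c W h1 h2 h3).i ((BProd_c c W h1 h2 h3).S j) n =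
        (p.map (Pi.evalRingHom R n)).eval₂ (c n).i ((c n).S j) := fun p j n => BProd_ev _ p _ n
  refine ⟨BProd_c c W h1 h2 h3, W', V', q₁, q₂, fun j => ⟨a1 j, a2 j, fun k hk n => ?_, b1 j, c1 j,
    d1 j, fun g hg => pi_dvd_iff.2 fun n => ?_, fun g hg => pi_dvd_iff.2 fun n => ?_,
    pi_dvd_iff.2 fun n => ?_, pi_dvd_iff.2 fun n => ?_⟩, fun j => Pi.isUnit_iff.2 fun n => ?_,
    Pi.isUnit_iff.2 fun n => ?_⟩
  · rw [BProd_co (a3 j)]
    exact (hS n j).dist k hk
  · rw [e, a3]
    exact (hS n j).ws g hg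
  · rw [Pi.mul_apply _ (_ - _ * _), Pi.sub_apply _ (_ * _), Pi.mul_apply _ (_ - 1), e, e,
      ← derivative_map, a3, b2]
    exact (hS n j).der g hg
  · rw [Pi.sub_apply, e, e, a3, c2]
    exact (hS n j).s1
  · rw [Pi.sub_apply, e, e, a3, d2]
    exact (hS n j).s2
  · rw [BProd_co (b2 j)]
    exact hU n j
  · simp only [Pi.sub_apply, Pi.mul_apply, BProd_co (b2 _)]
    exact hD n

end Pool.Agent.MP_deef5c_ag.E
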