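import Pool.Agent.MP_deef5c_ag.E.BTw

/-! Lagrange interpolation. -/

open Polynomial IsLocalRing Function

namespace Pool.Agent.MP_deef5c_ag.E

universe u

theorem BVD_zero {V : Type u} [CommRing V] [IsDomain V] {T : Fin 4 → Fin 3 → V}
    (hT : ∀ t i t' i', T t i = T t' i' → t = t' ∧ i = i') (j : Fin 4) {P : V[X]}
    (hP : P.degree < 9) (hr : ∀ t i, j ≠ t → P.eval (T t i) = 0) : P = 0 := by
  by_cases h0 : P = 0
  · exact h0
  refine eq_zero_of_natDegree_lt_card_of_eval_eq_zero P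
    (f := fun p : {t : Fin 4 // j ≠ t} × Fin 3 => T p.1.1 p.2) ?_ (fun p => hr _ _ p.1.2) ?_
  · rintro ⟨⟨t, ht⟩, i⟩ ⟨⟨t', ht'⟩, i'⟩ h
    obtain ⟨rfl, rfl⟩ := hT _ _ _ _ h
    rfl
  · have h1 : Fintype.card ({t : Fin 4 // j ≠ t} × Fin 3) = 9 := by
      rw [Fintype.card_prod, Fintype.card_fin]
      clear hr
      revert j
      decide
    rw [h1]
    exact (natDegree_lt_iff_degree_lt h0).2 hP

theorem BVD_Qp_monic {V : Type u} [CommRing V] (T : Fin 3 → V) : (Qp T).Monic :=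
  ((monic_X_sub_C _).mul (monic_X_sub_C _)).mul (monic_X_sub_C _)

theorem BVD_Qp_deg {V : Type u} [CommRing V] [Nontrivial V] (T : Fin 3 → V) :
    (Qp T).natDegree = 3 := by
  rw [Qp, ((monic_X_sub_C _).mul (monic_X_sub_C _)).natDegree_mul (monic_X_sub_C _),
    (monic_X_sub_C _).natDegree_mul (monic_X_sub_C _)]
  simp

theorem BVD_np_deg {V : Type u} [CommRing V] (e : Fin 3 → ℤ) (T : Fin 3 → V) :
    (np e T).natDegree ≤ 2 := by
  unfold np
  compute_degree

theorem BVD_Qp_eval {V : Type u} [CommRing V] (T : Fin 3 → V) (i : Fin 3) :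
    (Qp T).eval (T i) = 0 := by
  fin_cases i <;> simp [Qp]

theorem BVD_np_eval {V : Type u} [CommRing V] (e : Fin 3 → ℤ) (T : Fin 3 → V) (i : Fin 3) :
    (np e T).eval (T i) = (e i : V) * (derivative (Qp T)).eval (T i) := by
  fin_cases i <;> simp [Qp, np]

theorem BVD_WQ_monic {V : Type u} [CommRing V] [Nontrivial V] {q : Fin 4 → V[X]}
    (hq : ∀ c, (q c).Monic) (hd : ∀ c, (q c).natDegree = 3) (j : Fin 4) :
    (WQ q j).Monic ∧ (WQ q j).natDegree = 9 := by
  have key : ∀ a b c, (q a * q b * q c).Monic ∧ (q a * q b * q c).natDegree = 9 := fun a b c =>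
    ⟨((hq a).mul (hq b)).mul (hq c), by
      rw [((hq a).mul (hq b)).natDegree_mul (hq c), (hq a).natDegree_mul (hq b), hd, hd, hd]⟩
  fin_cases j <;> exact key _ _ _

theorem BVD_WQ_eval {V : Type u} [CommRing V] {q : Fin 4 → V[X]} {θ : V} {j t : Fin 4}
    (hj : j ≠ t) (h : (q t).eval θ = 0) : (WQ q j).eval θ = 0 := by
  fin_cases j <;> fin_cases t <;> simp_all [WQ]

theorem BVD_NQ_deg {V : Type u} [CommRing V] {n q : Fin 4 → V[X]}
    (hn : ∀ c, (n c).natDegree ≤ 2) (hd : ∀ c, (q c).natDegree ≤ 3) (j : Fin 4) :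
    (NQ n q j).natDegree ≤ 8 := by
  have key : ∀ a b c, (n a * q b * q c).natDegree ≤ 8 := fun a b c =>
    natDegree_mul_le_of_le (natDegree_mul_le_of_le (hn a) (hd b)) (hd c)
  have ha : ∀ {x y : V[X]}, x.natDegree ≤ 8 → y.natDegree ≤ 8 → (x + y).natDegree ≤ 8 :=
    fun hx hy => (natDegree_add_le _ _).trans (max_le hx hy)
  have hs : ∀ {x y : V[X]}, x.natDegree ≤ 8 → y.natDegree ≤ 8 → (x - y).natDegree ≤ 8 :=
    fun hx hy => (natDegree_sub_le _ _).trans (max_le hx hy)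
  fin_cases j
  · exact ha (ha (key _ _ _) (key _ _ _)) (key _ _ _)
  · exact ha (hs (key _ _ _) (key _ _ _)) (key _ _ _)
  · exact hs (ha (key _ _ _) (key _ _ _)) (key _ _ _)
  · exact hs (ha ((natDegree_neg _).trans_le (key _ _ _)) (key _ _ _)) (key _ _ _)

theorem BVD_NQ_eval {V : Type u} [CommRing V] {n q : Fin 4 → V[X]} {θ ε : V} {j t : Fin 4}
    (hj : j ≠ t) (h : (q t).eval θ = 0) (hn : (n t).eval θ = ε * (derivative (q t)).eval θ) :
    (NQ n q j).eval θ = (chZ j t : V) * ε * (derivative (WQ q j)).eval θ := by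
  fin_cases j <;> fin_cases t <;> simp_all [WQ, NQ, chZ] <;> ring

theorem BVD_chZ_sq (V : Type u) [CommRing V] {j t : Fin 4} (hj : j ≠ t) :
    (chZ j t : V) ^ 2 = 1 := by
  have : chZ j t ^ 2 = 1 := by
    revert j t
    decide
  exact_mod_cast congrArg (Int.cast : ℤ → V) this

theorem BVD_unit_add {V : Type u} [CommRing V] [IsLocalRing V] {a b : V} (ha : IsUnit a)
    (hb : b ∈ maximalIdeal V) : IsUnit (a + b) := by
  by_contra h
  have h1 : a + b ∈ maximalIdeal V := h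
  have h2 : a ∈ maximalIdeal V := by simpa using sub_mem h1 hb
  exact h2 ha

/-- `W = WQ q j` because both are monic of degree nine with the same nine roots.  At a root `T = T t i`,
`t ≠ j`, the value of `NN e T j` is `χ e W'(T)` with `χ = chZ j t`; from `2 W' = V (χ e ν - 3) = ν V (χ e + ν)` one
gets `2 χ e W' = ν V (1 + χ e ν) = 2 ν (2 V + W')`.  Two polynomials of degree `< 9` with the same values at nine
points. -/
theorem lagr {V : Type u} [CommRing V] [IsDomain V] (h2 : (2 : V) ≠ 0) {ν : V} (hν : ν ^ 2 = -3)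
    {T : Fin 4 → Fin 3 → V} (hT : ∀ t i t' i', T t i = T t' i' → t = t' ∧ i = i')
    {e : Fin 4 → Fin 3 → ℤ} (he : ∀ t i, e t i = 1 ∨ e t i = -1) (j : Fin 4) {W Vs : V[X]}
    (hW : W.Monic) (hd : W.natDegree = 9) (hV : Vs.degree < 9)
    (hr : ∀ t i, j ≠ t → W.IsRoot (T t i))
    (hder : ∀ t i, j ≠ t → 2 * (derivative W).eval (T t i) =
      Vs.eval (T t i) * ((chZ j t : V) * ((e t i : V) * ν) - 3)) :
    NN e T j = C ν * (2 * Vs + derivative W) := by
  obtain ⟨hm, hn⟩ := BVD_WQ_monic (q := fun c => Qp (T c)) (fun c => BVD_Qp_monic _)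
    (fun c => BVD_Qp_deg _) j
  have hdW : W.degree = 9 := by rw [degree_eq_natDegree hW.ne_zero, hd]; rfl
  have hWQ : W = WQ (fun c => Qp (T c)) j := by
    refine sub_eq_zero.1 (BVD_zero hT j ?_ fun t i ht => ?_)
    · rw [← hdW]
      refine degree_sub_lt_left ?_ hW.ne_zero (by rw [hW.leadingCoeff, hm.leadingCoeff])
      rw [hdW, degree_eq_natDegree hm.ne_zero, hn]
      rfl
    · rw [eval_sub, BVD_WQ_eval ht (BVD_Qp_eval _ _), hr t i ht, sub_zero]
  refine sub_eq_zero.1 (BVD_zero hT j ?_ fun t i ht => ?_)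
  · refine (degree_sub_le _ _).trans_lt (max_lt ?_ ?_)
    · refine degree_le_natDegree.trans_lt ?_
      have := BVD_NQ_deg (n := fun c => np (e c) (T c)) (q := fun c => Qp (T c))
        (fun c => BVD_np_deg _ _) (fun c => (BVD_Qp_deg _).le) j
      exact_mod_cast Nat.lt_succ_of_le this
    · rw [← smul_eq_C_mul]
      refine (degree_smul_le _ _).trans_lt ((degree_add_le _ _).trans_lt (max_lt ?_ ?_))
      · rw [two_mul]
        exact (degree_add_le _ _).trans_lt (max_lt hV hV)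
      · rw [← hdW]
        exact degree_derivative_lt hW.ne_zero
  · have h1 := BVD_NQ_eval (n := fun c => np (e c) (T c)) (q := fun c => Qp (T c)) ht
      (BVD_Qp_eval (T t) i) (BVD_np_eval (e t) (T t) i)
    rw [← hWQ] at h1
    have h3 := hder t i ht
    have h4 := BVD_chZ_sq V ht
    have h5 : (e t i : V) ^ 2 = 1 := by rcases he t i with h | h <;> simp [h]
    rw [eval_sub, NN, h1, eval_mul, eval_C, eval_add, eval_mul, eval_ofNat]
    refine mul_left_cancel₀ h2 ?_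
    have h6 : ((chZ j t : V) * (e t i : V)) ^ 2 = 1 := by rw [mul_pow, h4, h5, one_mul]
    linear_combination ((chZ j t : V) * (e t i : V) - ν) * h3 + Vs.eval (T t i) * ν * h6 -
      Vs.eval (T t i) * ((chZ j t : V) * (e t i : V)) * hν

/-- `ν` is a root of `X^2 + 3`; `(2 z + 1)^2 = -3` gives `2 z + 1 = e ν`, `e = ± 1`.  `M j = 2 Vs + Ws'`, whose
coefficients of index `0, 1` are congruent to twice those of `Vs` (`dist`); `2` is a unit.  `T t i` is a product
containing `φ x` (`TP.mem`). -/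
theorem vd_of_cfg {R B V : Type u} [CommRing R] [CommRing B] [CommRing V] [IsDomain V]
    [IsLocalRing V] {J : Ideal R} (h : Cfg R B J) (ψ : R →+* V)
    (hJ : ∀ a ∈ J, ψ a ∈ maximalIdeal V) (h3 : (3 : V) ≠ 0) (h3' : (3 : V) ∈ maximalIdeal V)
    (hs : ∀ p : V[X], p.Monic → p.roots.card = p.natDegree) : ∃ (ν : V) (T : Fin 4 → Fin 3 → V)
      (e : Fin 4 → Fin 3 → ℤ) (M : Fin 4 → V[X]), VD ν T e M := by
  classical
  obtain ⟨c, Ws, Vs, p₁, p₂, s, hu, hd⟩ := h
  have h2 : IsUnit (2 : V) := by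
    have := BVD_unit_add (isUnit_one.neg) h3'
    rwa [show (-1 + 3 : V) = 2 by norm_num] at this
  obtain ⟨ν, hν⟩ : ∃ ν : V, ν ^ 2 = -3 := by
    have hm : (X ^ 2 + C 3 : V[X]).Monic := monic_X_pow_add_C _ two_ne_zero
    have hc := hs _ hm
    rw [natDegree_X_pow_add_C] at hc
    obtain ⟨ν, hν⟩ := Multiset.card_pos_iff_exists_mem.1 (hc ▸ two_pos)
    have := (mem_roots hm.ne_zero).1 hν
    simp only [IsRoot.def, eval_add, eval_pow, eval_X, eval_C] at this
    exact ⟨ν, eq_neg_of_add_eq_zero_left this⟩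
  obtain ⟨φ, T, hφ, hS, hT⟩ := exists_twelve (c := c) (ψ := ψ) h3 hs s
  let e : Fin 4 → Fin 3 → ℤ := fun t i => if 2 * φ t i (c.z (rh t)) + 1 = ν then 1 else -1
  have he : ∀ t i, e t i = 1 ∨ e t i = -1 := fun t i => by
    simp only [e]
    split_ifs <;> simp
  have hz : ∀ t i, 2 * φ t i (c.z (rh t)) + 1 = (e t i : V) * ν := fun t i => by
    have h1 : (2 * φ t i (c.z (rh t)) + 1) ^ 2 = ν ^ 2 := by
      linear_combination 4 * (hφ t i).z3 - hν
    simp only [e]
    split_ifs with h4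
    · simpa using h4
    · simpa using (sq_eq_sq_iff_eq_or_eq_neg.1 h1).resolve_left h4
  let M : Fin 4 → V[X] := fun j => 2 * (Vs j).map ψ + derivative ((Ws j).map ψ)
  have hM : ∀ j, ∀ n < 2, ∃ b ∈ maximalIdeal V, (M j).coeff n = 2 * ψ ((Vs j).coeff n) + b :=
    fun j n hn => ⟨ψ ((Ws j).coeff (n + 1)) * (n + 1),
      Ideal.mul_mem_right _ _ (hJ _ ((s j).dist _ (by omega))), by
        simp only [M, coeff_add, coeff_derivative, coeff_map, two_mul]⟩
  refine ⟨ν, T, e, M, hν, fun t i => ?_, fun h => ?_, he, fun j => ?_, fun j => ?_, ?_⟩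
  · obtain ⟨j, hj⟩ := exists_ne t
    rw [← hS t i j hj, CfT.S, map_mul, map_mul]
    exact Ideal.mul_mem_right _ _ (Ideal.mul_mem_right _ _ ((hφ t i).mem hJ))
  · exact absurd (hT _ _ _ _ h).2 (by decide)
  · refine lagr h2.ne_zero hν hT he j ((s j).mon.map ψ)
      (((s j).mon.natDegree_map ψ).trans (s j).deg) (degree_map_le.trans_lt (s j).dV)
      (fun t i ht => ?_) fun t i ht => ?_
    · rw [← hS t i j ht]
      exact (hφ t i).root_S ht (s j)
    · rw [← hS t i j ht, ← hz]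
      exact (hφ t i).der_S h3 ht (s j)
  · obtain ⟨b, hb, e0⟩ := hM j 0 two_pos
    rw [e0]
    exact BVD_unit_add (h2.mul ((hu j).map ψ)) hb
  · obtain ⟨b00, h00, e00⟩ := hM 0 0 two_pos
    obtain ⟨b01, h01, e01⟩ := hM 0 1 one_lt_two
    obtain ⟨b10, h10, e10⟩ := hM 1 0 two_pos
    obtain ⟨b11, h11, e11⟩ := hM 1 1 one_lt_two
    have h4 := BVD_unit_add ((h2.mul h2).mul (hd.map ψ))
      (sub_mem (add_mem (Ideal.mul_mem_left _ (2 * ψ ((Vs 0).coeff 0)) h11)
          (Ideal.mul_mem_right (2 * ψ ((Vs 1).coeff 1) + b11) _ h00))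
        (add_mem (Ideal.mul_mem_left _ (2 * ψ ((Vs 1).coeff 0)) h01)
          (Ideal.mul_mem_right (2 * ψ ((Vs 0).coeff 1) + b01) _ h10)))
    rw [e00, e01, e10, e11]
    convert h4 using 1
    rw [map_sub, map_mul, map_mul]
    ring

end Pool.Agent.MP_deef5c_ag.E
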