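import Pool.Agent.MP_deef5c_ag.E.DefsB

/-! Passage to a valuation ring of characteristic zero. -/

open Polynomial IsLocalRing Function

namespace Pool.Agent.MP_deef5c_ag.E

universe u

theorem BVal_split {Ω : Type u} [Field Ω] [IsAlgClosed Ω] (V : ValuationSubring Ω) (p : V[X])
    (hp : p.Monic) : p.roots.card = p.natDegree := by
  refine splits_iff_card_roots.1 (Splits.of_splits_map_of_injective (i := algebraMap V Ω)
    Subtype.val_injective (IsAlgClosed.splits _) fun a ha => ?_)
  have h1 : IsIntegral V a := ⟨p, hp, by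
    rw [eval₂_eq_eval_map]
    exact (mem_roots'.1 ha).2⟩
  exact IsIntegrallyClosed.isIntegral_iff.1 h1

theorem BVal_val {R Ω : Type u} [CommRing R] [Field Ω] (φ : R →+* Ω) (I : Ideal R)
    (hI : ∀ a ∈ I, IsUnit (1 - a)) : ∃ (V : ValuationSubring Ω) (ψ : R →+* V),
      (∀ a, (ψ a : Ω) = φ a) ∧ ∀ a ∈ I, ψ a ∈ maximalIdeal V := by
  have h1 : I.map φ.rangeRestrict ≠ ⊤ := by
    rw [Ideal.ne_top_iff_one, Ideal.mem_map_iff_of_surjective _ φ.rangeRestrict_surjective]
    rintro ⟨a, ha, e⟩
    have e1 : φ a = 1 := congrArg Subtype.val e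
    have h2 := ((hI a ha).map φ).ne_zero
    rw [map_sub, map_one, e1, sub_self] at h2
    exact h2 rfl
  obtain ⟨V, hV, hn⟩ := Ideal.image_subset_nonunits_valuationSubring _ h1
  refine ⟨V, φ.codRestrict V fun a => hV ⟨a, rfl⟩, fun _ => rfl, fun a ha => ?_⟩
  exact V.coe_mem_nonunits_iff.1 (hn ⟨_, Ideal.mem_map_of_mem φ.rangeRestrict ha, rfl⟩)

/-- Let `R = ∀ n, A n`.  The ideal generated by `Ideal.pi (maximalIdeal ·)` and the finitely supported
elements is proper; let `M` be a maximal ideal containing it.  If `s ∉ M` then `s n` is a unit for infinitely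
many `n`, so `3^N * s ≠ 0` for all `N`; hence some prime `P` is disjoint from the multiplicative set
`{3^N * s}` (`Ideal.exists_le_prime_disjoint`), so `P ≤ M`, `3 ∉ P`.  Let `Ω` be an algebraic closure of the
fraction field of `R ⧸ P`; the image of `M` is a proper ideal of the image of `R` in `Ω`, and
`Ideal.image_subset_nonunits_valuationSubring` (or `LocalSubring.exists_le_valuationSubring`) gives a
valuation subring `V`.  Monic polynomials over `V` split: roots in `Ω` are integral over `V`. -/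
theorem exists_val (A : ℕ → Type u) [∀ n, CommRing (A n)] [∀ n, IsLocalRing (A n)]
    (h : ∀ n, (3 : A n) ^ n ≠ 0) :
    ∃ (V : Type u) (_ : CommRing V) (_ : IsDomain V) (_ : ValuationRing V) (ψ : (∀ n, A n) →+* V),
      (∀ a ∈ Ideal.pi fun n => maximalIdeal (A n), ψ a ∈ maximalIdeal V) ∧ (3 : V) ≠ 0 ∧
      ∀ p : V[X], p.Monic → p.roots.card = p.natDegree := by
  have h3 : ¬ IsNilpotent (3 : ∀ n, A n) := by
    rintro ⟨N, hN⟩
    exact h N (congrFun hN N)
  rw [nilpotent_iff_mem_prime] at h3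
  push Not at h3
  obtain ⟨P, hP, h3⟩ := h3
  let φ : (∀ n, A n) →+* AlgebraicClosure P.ResidueField :=
    (algebraMap P.ResidueField _).comp (algebraMap _ P.ResidueField)
  have hφ : φ 3 ≠ 0 := fun e => h3 (Ideal.algebraMap_residueField_eq_zero.1
    ((map_eq_zero (algebraMap P.ResidueField (AlgebraicClosure P.ResidueField))).1 e))
  obtain ⟨V, ψ, h1, h2⟩ := BVal_val φ (Ideal.pi fun n => maximalIdeal (A n)) fun a ha =>
    Pi.isUnit_iff.2 fun n => isUnit_one_sub_self_of_mem_nonunits _ ((Ideal.mem_pi _ _).1 ha n)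
  refine ⟨V, inferInstance, inferInstance, inferInstance, ψ, h2, fun e => hφ ?_, BVal_split V⟩
  rw [← h1, map_ofNat, e]
  rfl

end Pool.Agent.MP_deef5c_ag.E
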