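import Pool.Agent.MP_deef5c_ag.E.BLd
import Pool.Agent.MP_deef5c_ag.E.BCfg
import Pool.Agent.MP_deef5c_ag.E.BProd
import Pool.Agent.MP_deef5c_ag.E.BVal
import Pool.Agent.MP_deef5c_ag.E.BVD
import Pool.Agent.MP_deef5c_ag.E.BFin

/-! The characteristic of the local lifts is bounded. -/

open PowerSeries IsLocalRing Function Pool.Agent.MP_deef5c_ag.O
open scoped Polynomial

namespace Pool.Agent.MP_deef5c_ag.E

universe u

theorem bound_ld {k : Type u} [Field k] [CharP k 3] {ρ : EE →* (k⟦X⟧ ≃ₐ[k] k⟦X⟧)} {l₁ l₂ y₁ y₂ : k}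
    (L : Ld ρ l₁ l₂ y₁ y₂) : ∃ N : ℕ, ∀ (A : Type u) [CommRing A] [IsLocalRing A] [IsArtinianRing A]
      (π : A →+* k), Surjective π → LocLifts ρ π → (3 : A) ^ N = 0 := by
  by_contra h
  push Not at h
  choose A i1 i2 i3 π hπ hl h3 using h
  obtain ⟨V, _, _, _, ψ, hψ, hV, hs⟩ := exists_val A h3
  have h3' : (3 : V) ∈ maximalIdeal V := by
    rw [← map_ofNat ψ 3]
    refine hψ _ fun n => (pi_eq_zero_iff (π n) (hπ n) _).1 ?_
    change π n 3 = 0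
    rw [map_ofNat]
    exact CharP.cast_eq_zero k 3
  obtain ⟨ν, T, e, M, hd⟩ := vd_of_cfg (cfg_pi _ fun n => cfg_art (π n) (hπ n) L (hl n)) ψ hψ hV h3' hs
  obtain ⟨r, δ, z, G, y, h⟩ := sd_of_vd hV h3' hd
  exact h.false

end Pool.Agent.MP_deef5c_ag.E
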