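import Pool.Agent.MP_deef5c_ag.E.DefsB

/-! Fixed points with values in a valuation ring. -/

open Polynomial IsLocalRing Function

namespace Pool.Agent.MP_deef5c_ag.E

universe u

variable {R B V : Type u} [CommRing R] [CommRing B] [CommRing V] {J : Ideal R} (c : CfT R B J)
  (ψ : R →+* V)

/-- points fixed by `rh t` -/
structure TP (φ : B →+* V) (t : Fin 4) : Prop where
  alg : ∀ a, φ (c.i a) = ψ a
  fix : φ (c.T (rh t) c.x) = φ c.x

variable {c ψ}

theorem BPt_kill {φ : B →+* V} {t : Fin 4} (h : TP c ψ φ t) {y : B}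
    (hy : c.T (rh t) c.x - c.x ∣ y) : φ y = 0 := by
  obtain ⟨d, rfl⟩ := hy
  rw [map_mul, map_sub, h.fix, sub_self, zero_mul]

theorem BPt_ev {φ : B →+* V} (h : ∀ a, φ (c.i a) = ψ a) (p : R[X]) :
    φ (p.eval₂ c.i c.x) = p.eval₂ ψ (φ c.x) := by
  rw [hom_eval₂]
  congr 1
  exact RingHom.ext h

theorem BPt_prod (t : Fin 4) {θ : V} (h : ((c.W t).map ψ).IsRoot θ) :
    (∏ s, c.W s).eval₂ ψ θ = 0 := by
  rw [eval₂_finsetProd]
  refine Finset.prod_eq_zero (Finset.mem_univ t) ?_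
  rw [IsRoot.def, eval_map] at h
  exact h

theorem BPt_gen : ∀ t t' : Fin 4, t ≠ t' → ∀ g : EE, ∃ m n : Fin 3, g = rh t ^ m.val * rh t' ^ n.val := by
  decide

theorem TP.fix_all {φ : B →+* V} {t : Fin 4} (h : TP c ψ φ t) (b : B) : φ (c.T (rh t) b) = φ b := by
  have := BPt_kill h (c.dv (rh t) b)
  rwa [map_sub, sub_eq_zero] at this

/-- the group is commutative -/
theorem TP.comp {φ : B →+* V} {t : Fin 4} (h : TP c ψ φ t) (g : EE) : TP c ψ (φ.comp (c.T g)) t := by
  refine ⟨fun a => ?_, ?_⟩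
  · rw [RingHom.comp_apply, c.fix, h.alg]
  · rw [RingHom.comp_apply, RingHom.comp_apply, ← c.mul, mul_comm, c.mul, h.fix_all]

theorem TP.root {φ : B →+* V} {t : Fin 4} (h : TP c ψ φ t) : ((c.W t).map ψ).IsRoot (φ c.x) := by
  rw [IsRoot.def, eval_map, ← BPt_ev h.alg]
  exact BPt_kill h (c.as1 t)

theorem TP.z3 {φ : B →+* V} {t : Fin 4} (h : TP c ψ φ t) :
    1 + φ (c.z (rh t)) + φ (c.z (rh t)) ^ 2 = 0 := by
  have := BPt_kill h (c.z3 t)
  simpa using this

/-- both points kill `(∏ W).eval₂ i x`; use `surj` -/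
theorem TP.ext {φ φ' : B →+* V} {t t' : Fin 4} (h : TP c ψ φ t) (h' : TP c ψ φ' t')
    (e : φ c.x = φ' c.x) : φ = φ' := by
  refine RingHom.ext fun b => ?_
  obtain ⟨r, -, d, hd⟩ := c.surj b
  have hb : b = r.eval₂ c.i c.x + (∏ s, c.W s).eval₂ c.i c.x * d := by rw [← hd]; ring
  rw [hb, map_add, map_add, map_mul, map_mul, BPt_ev h.alg, BPt_ev h.alg, BPt_ev h'.alg,
    BPt_ev h'.alg, BPt_prod t h.root, BPt_prod t' h'.root, e, zero_mul, zero_mul]

/-- `R[X] → B ⧸ (w(x))`, `w = ∏ W`, is surjective (`surj`) with kernel contained in `(w)` (`inj` applied to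
`r %ₘ w`), and `eval₂ ψ θ` kills `w`: `RingHom.liftOfSurjective` -/
theorem exists_tp (t : Fin 4) {θ : V} (h : ((c.W t).map ψ).IsRoot θ) :
    ∃ φ : B →+* V, TP c ψ φ t ∧ φ c.x = θ := by
  have hR : Nontrivial R := by
    by_contra hn
    rw [not_nontrivial_iff_subsingleton] at hn
    have h9 := c.deg 0
    rw [Subsingleton.elim (c.W 0) 0, natDegree_zero] at h9
    exact absurd h9 (by norm_num)
  have hw : (∏ s, c.W s).Monic := monic_prod_of_monic _ _ fun s _ => c.mon s
  have hd : (∏ s, c.W s).degree = 36 := by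
    rw [degree_eq_natDegree hw.ne_zero, natDegree_prod_of_monic _ _ fun s _ => c.mon s]
    simp [c.deg]
  let I : Ideal B := Ideal.span {(∏ s, c.W s).eval₂ c.i c.x}
  let f : R[X] →+* B ⧸ I := (Ideal.Quotient.mk I).comp (eval₂RingHom c.i c.x)
  have hf : Surjective f := by
    intro y
    obtain ⟨b, rfl⟩ := Ideal.Quotient.mk_surjective y
    obtain ⟨r, -, hr⟩ := c.surj b
    refine ⟨r, ?_⟩
    show Ideal.Quotient.mk I (r.eval₂ c.i c.x) = Ideal.Quotient.mk I b
    rw [eq_comm, Ideal.Quotient.eq]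
    exact Ideal.mem_span_singleton.2 hr
  have hk : RingHom.ker f ≤ RingHom.ker (eval₂RingHom ψ θ) := by
    intro r hr
    have h1 : (∏ s, c.W s).eval₂ c.i c.x ∣ r.eval₂ c.i c.x := by
      rw [RingHom.mem_ker] at hr
      exact Ideal.mem_span_singleton.1 (Ideal.Quotient.eq_zero_iff_mem.1 hr)
    have h2 := modByMonic_add_div r (∏ s, c.W s)
    have h3 : (∏ s, c.W s).eval₂ c.i c.x ∣ (r %ₘ ∏ s, c.W s).eval₂ c.i c.x := by
      rw [← h2, eval₂_add, eval₂_mul] at h1
      exact (dvd_add_left (dvd_mul_right _ _)).1 h1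
    have h4 := c.inj _ (hd ▸ degree_modByMonic_lt r hw) h3
    rw [h4, zero_add] at h2
    rw [RingHom.mem_ker, ← h2, map_mul]
    have h5 : eval₂RingHom ψ θ (∏ s, c.W s) = 0 := BPt_prod t h
    rw [h5, zero_mul]
  let φ : B →+* V := (f.liftOfSurjective hf ⟨eval₂RingHom ψ θ, hk⟩).comp (Ideal.Quotient.mk I)
  have hφ : ∀ r : R[X], φ (r.eval₂ c.i c.x) = r.eval₂ ψ θ := fun r =>
    RingHom.liftOfRightInverse_comp_apply f _ (rightInverse_surjInv hf) ⟨eval₂RingHom ψ θ, hk⟩ r
  refine ⟨φ, ⟨fun a => ?_, ?_⟩, ?_⟩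
  · simpa using hφ (C a)
  · obtain ⟨d, hd⟩ := c.as2 t
    rw [← sub_eq_zero, ← map_sub, hd, map_mul, hφ, ← eval_map, h.eq_zero, zero_mul]
  · simpa using hφ X

variable [IsDomain V]

/-- If `t ≠ t'` then `φ ∘ T g = φ` for all `g` (two of the `rh t` generate `EE`), so `g ↦ φ (z g)` is
multiplicative.  `a = φ (z (rh 0))`, `b = φ (z (rh 1))`, `a b = φ (z (rh 3))` and `a^2 b = φ (z (rh 2))` would all
be roots of `1 + Z + Z^2`; then `(a - b) (1 + a + b) = 0`, and in both cases one of the products is `1`, so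
`3 = 0`. -/
theorem TP.uniq (h3 : (3 : V) ≠ 0) {φ : B →+* V} {t t' : Fin 4} (h : TP c ψ φ t)
    (h' : TP c ψ φ t') : t = t' := by
  by_contra hne
  have hp : ∀ {s : Fin 4}, TP c ψ φ s → ∀ (m : ℕ) (b : B), φ (c.T (rh s ^ m) b) = φ b := by
    intro s hs m
    induction m with
    | zero => intro b; rw [pow_zero, c.one]
    | succ m ih => intro b; rw [pow_succ, c.mul, ih, hs.fix_all]
  have hall : ∀ (g : EE) (b : B), φ (c.T g b) = φ b := by
    intro g b
    obtain ⟨m, n, rfl⟩ := BPt_gen t t' hne g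
    rw [c.mul, hp h, hp h']
  have hz : ∀ s, 1 + φ (c.z (rh s)) + φ (c.z (rh s)) ^ 2 = 0 := fun s =>
    TP.z3 ⟨h.alg, hall _ _⟩
  have hm : ∀ g g' : EE, φ (c.z (g * g')) = φ (c.z g') * φ (c.z g) := by
    intro g g'
    rw [c.zmul, map_mul, hall]
  have e3 : rh 3 = rh 0 * rh 1 := by decide
  have e2 : rh 2 = rh 0 * (rh 0 * rh 1) := by decide
  have h0 := hz 0
  have h1 := hz 1
  have h2 := hz 2
  have h4 := hz 3
  rw [e2, hm, hm] at h2
  rw [e3, hm] at h4
  generalize φ (c.z (rh 0)) = a at h0 h2 h4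
  generalize φ (c.z (rh 1)) = b at h1 h2 h4
  have hab : (a - b) * (1 + a + b) = 0 := by linear_combination h0 - h1
  have ha : a ^ 3 = 1 := by linear_combination (a - 1) * h0
  apply h3
  rcases mul_eq_zero.1 hab with e | e
  · have e' : b = a := by linear_combination -e
    have e1 : b * a * a = 1 := by rw [e']; linear_combination ha
    rw [e1] at h2
    linear_combination h2
  · have e' : b = a ^ 2 := by linear_combination e - h0
    have e1 : b * a = 1 := by rw [e']; linear_combination ha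
    rw [e1] at h4
    linear_combination h4

/-- the roots of `W t` are simple by `sim`, `z3`, `exists_tp`; a monic polynomial of degree nine -/
theorem exists_nine (h3 : (3 : V) ≠ 0) (hs : ∀ p : V[X], p.Monic → p.roots.card = p.natDegree)
    (t : Fin 4) : ∃ φ : Fin 9 → B →+* V, (∀ n, TP c ψ (φ n) t) ∧ Injective fun n => φ n c.x := by
  classical
  have hm : ((c.W t).map ψ).Monic := (c.mon t).map ψ
  have hc : ((c.W t).map ψ).roots.card = 9 := by
    rw [hs _ hm, (c.mon t).natDegree_map, c.deg]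
  have hn : ((c.W t).map ψ).roots.Nodup := by
    rw [Multiset.nodup_iff_count_le_one]
    intro θ
    rw [count_roots]
    by_contra hlt
    rw [not_le, one_lt_rootMultiplicity_iff_isRoot hm.ne_zero] at hlt
    obtain ⟨φ, hφ, hx⟩ := exists_tp t hlt.1
    obtain ⟨U, hU⟩ := c.sim t
    have h1 := BPt_kill hφ hU
    have h2 := hlt.2
    rw [IsRoot.def, derivative_map, eval_map] at h2
    rw [map_sub, map_sub, map_mul, BPt_ev hφ.alg, hx, h2, map_one, mul_zero, sub_zero,
      sub_eq_zero] at h1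
    have h4 := hφ.z3
    rw [h1] at h4
    exact h3 (by linear_combination h4)
  have hf : ((c.W t).map ψ).roots.toFinset.card = 9 := by
    rw [Multiset.toFinset_card_of_nodup hn, hc]
  let e := (Finset.equivFinOfCardEq hf).symm
  have hr : ∀ n : Fin 9, ((c.W t).map ψ).IsRoot (e n) := fun n =>
    (mem_roots hm.ne_zero).1 (Multiset.mem_toFinset.1 (e n).2)
  choose φ hφ hx using fun n => exists_tp t (hr n)
  refine ⟨φ, hφ, fun n n' hnn => ?_⟩
  have : (e n : V) = e n' := by rw [← hx, ← hx]; exact hnn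
  exact e.injective (Subtype.ext this)

omit [IsDomain V] in
/-- `θ^9` lies in the maximal ideal -/
theorem TP.mem [IsLocalRing V] (hJ : ∀ a ∈ J, ψ a ∈ maximalIdeal V) {φ : B →+* V} {t : Fin 4}
    (h : TP c ψ φ t) : φ c.x ∈ maximalIdeal V := by
  have h1 := h.root
  rw [IsRoot.def, eval_map, eval₂_eq_sum_range, c.deg, Finset.sum_range_succ] at h1
  have h9 : (c.W t).coeff 9 = 1 := by
    have := (c.mon t).coeff_natDegree
    rwa [c.deg] at this
  rw [h9, map_one, one_mul] at h1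
  have h2 : φ c.x ^ 9 ∈ maximalIdeal V := by
    rw [eq_neg_of_add_eq_zero_right h1]
    refine neg_mem (Ideal.sum_mem _ fun n hn => Ideal.mul_mem_right _ _ (hJ _ ?_))
    exact c.dist t n (Finset.mem_range.1 hn)
  exact (maximalIdeal.isMaximal V).isPrime.mem_of_pow_mem 9 h2

end Pool.Agent.MP_deef5c_ag.E
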