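import Pool.Agent.MP_deef5c_ag.E.DefsB

/-! Rescaling. -/

open Polynomial IsLocalRing Function

namespace Pool.Agent.MP_deef5c_ag.E

universe u

theorem NQ_rel {P : Type u} [CommRing P] (n q : Fin 4 → P) :
    NQ n q 0 * q 0 + NQ n q 1 * q 1 - NQ n q 2 * q 2 = 3 * (n 3 * (q 0 * q 1 * q 2)) ∧
      NQ n q 0 * q 0 - NQ n q 1 * q 1 - NQ n q 3 * q 3 = 3 * (n 2 * (q 0 * q 1 * q 3)) := by
  constructor <;> simp only [NQ, Matrix.cons_val] <;> ring

theorem map_NN {V V' : Type u} [CommRing V] [CommRing V'] (φ : V →+* V') (e : Fin 4 → Fin 3 → ℤ)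
    (T : Fin 4 → Fin 3 → V) (j : Fin 4) : (NN e T j).map φ = NN e (fun c i => φ (T c i)) j := by
  fin_cases j <;> simp [NN, NQ, np, Qp, Polynomial.map_mul, Polynomial.map_sub, Polynomial.map_add,
    Polynomial.map_neg]

theorem map_Qp {V V' : Type u} [CommRing V] [CommRing V'] (φ : V →+* V') (T : Fin 3 → V) :
    (Qp T).map φ = Qp fun i => φ (T i) := by
  simp [Qp, Polynomial.map_mul, Polynomial.map_sub]

theorem BSD_hom {P P' : Type u} [CommRing P] [CommRing P'] (ψ : P →+* P') (n q : Fin 4 → P)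
    (j : Fin 4) : ψ (NQ n q j) = NQ (fun c => ψ (n c)) (fun c => ψ (q c)) j := by
  fin_cases j <;> simp [NQ]

theorem BSD_scale {P : Type u} [CommRing P] (a : P) (n q : Fin 4 → P) (j : Fin 4) :
    NQ (fun c => a ^ 2 * n c) (fun c => a ^ 3 * q c) j = a ^ 8 * NQ n q j := by
  fin_cases j <;> simp [NQ] <;> ring

theorem BSD_comp {V : Type u} [CommRing V] (ρ t : V) (e : Fin 4 → Fin 3 → ℤ)
    (z : Fin 4 → Fin 3 → V) (j : Fin 4) :
    (NN e (fun c i => ρ * z c i + t) j).comp (C ρ * X + C t) = C (ρ ^ 8) * NN e z j := by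
  have h := BSD_hom (compRingHom (C ρ * X + C t)) (fun c => np (e c) fun i => ρ * z c i + t)
    (fun c => Qp fun i => ρ * z c i + t) j
  have h1 : ∀ c, compRingHom (C ρ * X + C t) (np (e c) fun i => ρ * z c i + t) =
      C ρ ^ 2 * np (e c) (z c) := by
    intro c
    simp only [coe_compRingHom_apply, np, add_comp, mul_comp, sub_comp, C_comp, X_comp, C_add,
      C_mul]
    ring
  have h2 : ∀ c, compRingHom (C ρ * X + C t) (Qp fun i => ρ * z c i + t) = C ρ ^ 3 * Qp (z c) := by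
    intro c
    simp only [coe_compRingHom_apply, Qp, add_comp, mul_comp, sub_comp, C_comp, X_comp, C_add,
      C_mul]
    ring
  simp only [h1, h2, BSD_scale] at h
  rw [C_pow]
  exact h

theorem BSD_coeff {V : Type u} [CommRing V] (ρ t : V) (p : V[X]) (n : ℕ) :
    (p.comp (C ρ * X + C t)).coeff n = (taylor t p).coeff n * ρ ^ n := by
  rw [← comp_C_mul_X_coeff, taylor_apply, Polynomial.comp_assoc]
  simp

theorem BSD_ev {V : Type u} [CommRing V] [IsLocalRing V] {t : V} (ht : t ∈ maximalIdeal V)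
    (p : V[X]) : residue V (p.eval t) = residue V (p.coeff 0) := by
  rw [← sub_eq_zero, ← map_sub, residue_eq_zero_iff, coeff_zero_eq_eval_zero]
  exact Ideal.mem_of_dvd _ (sub_dvd_eval_sub t 0 p) (by simpa using ht)

theorem BSD_der {V : Type u} [CommRing V] [IsLocalRing V] {t : V} (ht : t ∈ maximalIdeal V)
    (p : V[X]) : residue V ((derivative p).eval t) = residue V (p.coeff 1) := by
  rw [BSD_ev ht, coeff_derivative]
  simp

variable {V : Type u} [CommRing V] [IsDomain V] [ValuationRing V]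

/-- in a valuation ring one member of a finite family divides all the others -/
theorem exists_dvd_all {ι : Type*} [Finite ι] [Nonempty ι] (f : ι → V) : ∃ i, ∀ j, f i ∣ f j := by
  classical
  have := Fintype.ofFinite ι
  have key : ∀ s : Finset ι, s.Nonempty → ∃ i, ∀ j ∈ s, f i ∣ f j := by
    intro s hs
    induction hs using Finset.Nonempty.cons_induction with
    | singleton a => exact ⟨a, fun j hj => by rw [Finset.mem_singleton.1 hj]⟩
    | cons a s ha hs ih =>
      obtain ⟨i, hi⟩ := ih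
      rcases ValuationRing.dvd_total (f a) (f i) with h | h
      · refine ⟨a, fun j hj => ?_⟩
        rcases Finset.mem_cons.1 hj with rfl | hj
        · exact dvd_rfl
        · exact h.trans (hi j hj)
      · refine ⟨i, fun j hj => ?_⟩
        rcases Finset.mem_cons.1 hj with rfl | hj
        · exact h
        · exact hi j hj
  obtain ⟨i, hi⟩ := key Finset.univ Finset.univ_nonempty
  exact ⟨i, fun j => hi j (Finset.mem_univ j)⟩

theorem BSD_add (h3 : (3 : V) ≠ 0) (h3' : (3 : V) ∈ maximalIdeal V) {ν : V}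
    {T : Fin 4 → Fin 3 → V} {e : Fin 4 → Fin 3 → ℤ} {M : Fin 4 → V[X]} (h : VD ν T e M) (n : ℕ) :
    residue V ((M 2).coeff n) = residue V ((M 0).coeff n) + residue V ((M 1).coeff n) ∧
      residue V ((M 3).coeff n) = residue V ((M 0).coeff n) - residue V ((M 1).coeff n) := by
  have hν0 : ν ≠ 0 := by
    rintro rfl
    exact h3 (by simpa using h.hν)
  have hνr : residue V ν = 0 := by
    have h1 := congrArg (residue V) h.hν
    rw [map_pow, map_neg, (residue_eq_zero_iff _).2 h3', neg_zero] at h1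
    exact pow_eq_zero_iff two_ne_zero |>.1 h1
  have hC : (C ν : V[X]) ≠ 0 := C_ne_zero.2 hν0
  have h33 : (3 : V[X]) = -(C ν * C ν) := by
    rw [← C_mul, ← sq, h.hν, C_neg, neg_neg]
    rfl
  have hQ : ∀ c, (Qp (T c)).map (residue V) = X ^ 3 := by
    intro c
    rw [map_Qp, Qp]
    simp only [(residue_eq_zero_iff _).2 (h.hT c _), map_zero, sub_zero]
    ring
  obtain ⟨r1, r2⟩ := NQ_rel (fun c => np (e c) (T c)) fun c => Qp (T c)
  have hN : ∀ j, NQ (fun c => np (e c) (T c)) (fun c => Qp (T c)) j = C ν * M j := h.hN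
  simp only [hN, h33] at r1 r2
  have hX : (X : (ResidueField V)[X]) ^ 3 ≠ 0 := pow_ne_zero _ X_ne_zero
  constructor
  · have e1 : M 0 * Qp (T 0) + M 1 * Qp (T 1) - M 2 * Qp (T 2) =
        -(C ν * (np (e 3) (T 3) * (Qp (T 0) * Qp (T 1) * Qp (T 2)))) :=
      mul_left_cancel₀ hC (by linear_combination r1)
    have e2 := congrArg (Polynomial.map (residue V)) e1
    simp only [Polynomial.map_sub, Polynomial.map_add, Polynomial.map_mul, Polynomial.map_neg, hQ,
      map_C, hνr, map_zero, zero_mul, neg_zero] at e2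
    have e3 : (M 2).map (residue V) = (M 0).map (residue V) + (M 1).map (residue V) :=
      mul_right_cancel₀ hX (by linear_combination -e2)
    simpa only [coeff_add, coeff_map] using congrArg (fun p => p.coeff n) e3
  · have e1 : M 0 * Qp (T 0) - M 1 * Qp (T 1) - M 3 * Qp (T 3) =
        -(C ν * (np (e 2) (T 2) * (Qp (T 0) * Qp (T 1) * Qp (T 3)))) :=
      mul_left_cancel₀ hC (by linear_combination r2)
    have e2 := congrArg (Polynomial.map (residue V)) e1
    simp only [Polynomial.map_sub, Polynomial.map_mul, Polynomial.map_neg, hQ,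
      map_C, hνr, map_zero, zero_mul, neg_zero] at e2
    have e3 : (M 3).map (residue V) = (M 0).map (residue V) - (M 1).map (residue V) :=
      mul_right_cancel₀ hX (by linear_combination -e2)
    simpa only [coeff_sub, coeff_map] using congrArg (fun p => p.coeff n) e3

/-- Let `T₀ = T 0 0`, `ρ` the member of the family `T c i - T₀` dividing all (`ρ ≠ 0` by `ne`),
`T c i = T₀ + ρ z c i` (so `z 0 0 = 0` and some `z c i = 1`), `G j = (M j).comp (C T₀ + C ρ * X)`,
`y j = (derivative (M j)).eval T₀`.  Composition gives `C (ρ^8) * NN e z j = C ν * G j`; the constant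
coefficient of `G 0` is a unit, so `ν = ρ^8 δ`.  Additivity: by `NQ_rel` and `3 = -ν^2`,
`M 0 Q 0 + M 1 Q 1 - M 2 Q 2 = - C ν * (...)`; reduce modulo the maximal ideal, where `Q c ↦ X^3`. -/
theorem sd_of_vd (h3 : (3 : V) ≠ 0) (h3' : (3 : V) ∈ maximalIdeal V) {ν : V}
    {T : Fin 4 → Fin 3 → V} {e : Fin 4 → Fin 3 → ℤ} {M : Fin 4 → V[X]} (h : VD ν T e M) :
    ∃ (ρ δ : V) (z : Fin 4 → Fin 3 → V) (G : Fin 4 → V[X]) (y : Fin 4 → V), SD ρ δ z e G y := by
  obtain ⟨⟨c0, i0⟩, hdiv⟩ := exists_dvd_all fun p : Fin 4 × Fin 3 => T p.1 p.2 - T 0 0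
  choose z hz using fun c i => hdiv (c, i)
  simp only at hz
  obtain ⟨ρ, hρ⟩ : ∃ ρ, ρ = T c0 i0 - T 0 0 := ⟨_, rfl⟩
  obtain ⟨t, ht⟩ : ∃ t, t = T 0 0 := ⟨_, rfl⟩
  rw [← hρ] at hz
  have htm : t ∈ maximalIdeal V := ht ▸ h.hT 0 0
  have hρm : ρ ∈ maximalIdeal V := hρ ▸ sub_mem (h.hT _ _) (h.hT _ _)
  have hρ0 : ρ ≠ 0 := by
    intro h0
    have h1 := hz 0 1
    rw [h0, zero_mul, sub_eq_zero] at h1
    exact h.ne h1.symm
  have hz0 : z 0 0 = 0 := mul_left_cancel₀ hρ0 (by rw [← hz, sub_self, mul_zero])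
  have hz1 : z c0 i0 = 1 := mul_left_cancel₀ hρ0 (by rw [← hz, mul_one, hρ])
  have hT : T = fun c i => ρ * z c i + t := by
    funext c i
    rw [← hz, ht, sub_add_cancel]
  have hc : ∀ j, C (ρ ^ 8) * NN e z j = C ν * (M j).comp (C ρ * X + C t) := by
    intro j
    rw [← BSD_comp ρ t, ← hT, h.hN, mul_comp, C_comp]
  have g0 : ∀ j, residue V (((M j).comp (C ρ * X + C t)).coeff 0) = residue V ((M j).coeff 0) := by
    intro j
    rw [BSD_coeff, taylor_coeff_zero, pow_zero, mul_one, BSD_ev htm]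
  have gu : ∀ j, IsUnit (((M j).comp (C ρ * X + C t)).coeff 0) := fun j =>
    (residue_ne_zero_iff_isUnit _).1 (by
      rw [g0]; exact (residue_ne_zero_iff_isUnit _).2 (h.hu j))
  obtain ⟨δ, hδ⟩ : ρ ^ 8 ∣ ν := by
    have h1 := congrArg (fun p => p.coeff 0) (hc 0)
    simp only [coeff_C_mul] at h1
    exact (gu 0).dvd_mul_right.1 ⟨_, h1.symm⟩
  have hν := h.hν
  obtain ⟨a0, b0⟩ := BSD_add h3 h3' h 0
  obtain ⟨a1, b1⟩ := BSD_add h3 h3' h 1
  refine ⟨ρ, δ, z, fun j => (M j).comp (C ρ * X + C t), fun j => (derivative (M j)).eval t,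
    hρm, hρ0, ?_, ?_, h.he, ⟨c0, i0, 0, 0, by rw [hz0, hz1, sub_zero]; exact isUnit_one⟩,
    fun j => ?_, fun j n hn => ?_, fun j => ?_, gu, ?_, ?_, ?_, ?_, ?_⟩
  · rintro rfl
    rw [hδ] at hν
    exact h3 (by simpa using hν)
  · rw [← hν, hδ]
    ring
  · refine mul_left_cancel₀ (C_ne_zero.2 (pow_ne_zero 8 hρ0)) ?_
    rw [hc, hδ, C_mul, mul_assoc]
  · rw [BSD_coeff]
    exact Ideal.mul_mem_left _ _ (Ideal.pow_mem_of_mem _ hρm n (Nat.pos_of_ne_zero hn))
  · rw [BSD_coeff, taylor_coeff_one, pow_one, mul_comm]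
  · refine (residue_ne_zero_iff_isUnit _).1 ?_
    have h1 := (residue_ne_zero_iff_isUnit _).2 h.hd
    simp only [map_sub, map_mul, g0, BSD_der htm] at h1 ⊢
    exact h1
  · rw [← residue_eq_zero_iff]
    simp only [map_sub, g0, a0]
    ring
  · rw [← residue_eq_zero_iff]
    simp only [map_sub, map_add, g0, b0]
    ring
  · rw [← residue_eq_zero_iff]
    simp only [map_sub, BSD_der htm, a1]
    ring
  · rw [← residue_eq_zero_iff]
    simp only [map_sub, map_add, BSD_der htm, b1]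
    ring

end Pool.Agent.MP_deef5c_ag.E
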