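import Pool.Agent.MP_deef5c_ag.E.DefsB
import Pool.Agent.MP_deef5c_ag.E.ABas

/-! The data on the top curve over an Artinian ring. -/

open PowerSeries IsLocalRing Function Pool.Agent.MP_deef5c_ag.O
open scoped Polynomial

namespace Pool.Agent.MP_deef5c_ag.E

universe u

/-- Second order Taylor formula.  With `ε = σ X - X`, `f ↦ f + f' ε` is a ring homomorphism to the quotient
by `ε^2`; use `ringHom_ext_of_mem` as in `sub_dvd` (`O/Base.lean`). -/
theorem tay2 {D : Type u} [CommRing D] [IsLocalRing D] [CL D] (σ : En D)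
    (hσ : constantCoeff (σ X) ∈ maximalIdeal D) (f : D⟦X⟧) :
    (σ X - X) ^ 2 ∣ σ f - f - d⁄dX D f * (σ X - X) := by
  set ε : D⟦X⟧ := σ X - X with hε
  set J : Ideal D⟦X⟧ := Ideal.span {ε ^ 2} with hJ
  have hH : IsHausdorff ((maximalIdeal D⟦X⟧).map (algebraMap D⟦X⟧ (D⟦X⟧ ⧸ J))) (D⟦X⟧ ⧸ J) :=
    IsHausdorff.map_algebraMap_iff.2 inferInstance
  let ψ : D⟦X⟧ →+* D⟦X⟧ ⧸ J :=
    { toFun := fun f => Ideal.Quotient.mk J (f + d⁄dX D f * ε)
      map_one' := by simp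
      map_mul' := fun f g => by
        rw [← map_mul]
        refine Ideal.Quotient.eq.2 (Ideal.mem_span_singleton.2 ⟨-(d⁄dX D f * d⁄dX D g), ?_⟩)
        rw [Derivation.leibniz, smul_eq_mul, smul_eq_mul]
        ring
      map_zero' := by simp
      map_add' := fun f g => by
        rw [← map_add, map_add (d⁄dX D)]
        congr 1
        ring }
  have h1 : (Ideal.Quotient.mk J).comp (σ : D⟦X⟧ →+* D⟦X⟧) = ψ := by
    refine ringHom_ext_of_mem ((maximalIdeal D⟦X⟧).map (algebraMap D⟦X⟧ (D⟦X⟧ ⧸ J))) _ _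
      (fun a => ?_) ?_ ?_
    · show Ideal.Quotient.mk J (σ (C a)) = Ideal.Quotient.mk J (C a + d⁄dX D (C a) * ε)
      rw [Base_en_C, derivative_C, zero_mul, add_zero]
    · show Ideal.Quotient.mk J (σ X) = Ideal.Quotient.mk J (X + d⁄dX D X * ε)
      rw [derivative_X, one_mul, hε, add_sub_cancel]
    · exact Ideal.mem_map_of_mem _ ((mem_max_iff _).2 hσ)
  have h2 : Ideal.Quotient.mk J (σ f) = Ideal.Quotient.mk J (f + d⁄dX D f * ε) :=
    RingHom.congr_fun h1 f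
  have h3 := Ideal.mem_span_singleton.1 (Ideal.Quotient.eq.1 h2)
  rwa [← sub_sub] at h3

variable {A k : Type u} [CommRing A] [IsLocalRing A] [IsArtinianRing A] [Field k] [CharP k 3]

theorem BT_lin {ρ : EE →* (k⟦X⟧ ≃ₐ[k] k⟦X⟧)} {l₁ l₂ y₁ y₂ : k} (L : Ld ρ l₁ l₂ y₁ y₂)
    (c : Fin 4) : lin2 l₁ l₂ (rh c) ≠ 0 := by
  have h3 : (3 : k) = 0 := CharP.cast_eq_zero k 3
  have v0 : (0 : ZMod 3).val = 0 := rfl
  have v1 : (1 : ZMod 3).val = 1 := rfl
  have v2 : (-1 : ZMod 3).val = 2 := rfl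
  fin_cases c
  · show ((0 : ZMod 3).val : k) * l₁ + ((1 : ZMod 3).val : k) * l₂ ≠ 0
    rw [v0, v1]
    intro h
    exact L.n2 (by push_cast at h; linear_combination h)
  · show ((1 : ZMod 3).val : k) * l₁ + ((0 : ZMod 3).val : k) * l₂ ≠ 0
    rw [v0, v1]
    intro h
    exact L.n1 (by push_cast at h; linear_combination h)
  · show ((1 : ZMod 3).val : k) * l₁ + ((-1 : ZMod 3).val : k) * l₂ ≠ 0
    rw [v1, v2]
    intro h
    exact L.n4 (by push_cast at h; linear_combination h - l₂ * h3)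
  · show ((1 : ZMod 3).val : k) * l₁ + ((1 : ZMod 3).val : k) * l₂ ≠ 0
    rw [v1]
    intro h
    exact L.n3 (by push_cast at h; linear_combination h)

theorem BT_cube (c : Fin 4) : rh c * (rh c * rh c) = 1 := by
  fin_cases c <;> decide

omit [CharP k 3] in
theorem BT_c0 {ρ : EE →* (k⟦X⟧ ≃ₐ[k] k⟦X⟧)} {l₁ l₂ y₁ y₂ : k} (L : Ld ρ l₁ l₂ y₁ y₂)
    (g : EE) : constantCoeff (ρ g X) = 0 := by
  obtain ⟨q, hq⟩ := L.ld g
  have h := congrArg (constantCoeff (R := k)) hq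
  simpa using h

theorem BT_ord {ρ : EE →* (k⟦X⟧ ≃ₐ[k] k⟦X⟧)} {l₁ l₂ y₁ y₂ : k} (L : Ld ρ l₁ l₂ y₁ y₂)
    (c : Fin 4) : order (ρ (rh c) X - X) = (9 : ℕ) := by
  obtain ⟨q, hq⟩ := L.ld (rh c)
  have h : ρ (rh c) X - X =
      X ^ 9 * (C (lin2 l₁ l₂ (rh c)) + C (lin2 y₁ y₂ (rh c)) * X ^ 3 + X ^ 4 * q) := by
    linear_combination hq
  have h0 : order (C (lin2 l₁ l₂ (rh c)) + C (lin2 y₁ y₂ (rh c)) * X ^ 3 + X ^ 4 * q) = 0 := by
    by_contra hne
    have := coeff_of_lt_order (φ := C (lin2 l₁ l₂ (rh c)) + C (lin2 y₁ y₂ (rh c)) * X ^ 3 +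
      X ^ 4 * q) 0 (by simpa [pos_iff_ne_zero] using hne)
    exact BT_lin L c (by simpa using this)
  rw [h, order_mul, h0, order_X_pow, add_zero]

omit [CharP k 3] in
/-- the relation `1 + z + z^2 = 0` on the fixed locus of an automorphism of order three -/
theorem BT_z3 (π : A →+* k) (hπ : Surjective π) (σ : En A)
    (hσ : constantCoeff (σ X) ∈ maximalIdeal A) (h3 : σ (σ (σ X)) = X)
    (h0 : PowerSeries.map π (σ X - X) ≠ 0) :
    σ X - X ∣ 1 + d⁄dX A (σ X) + d⁄dX A (σ X) ^ 2 := by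
  obtain ⟨t, ht⟩ := tay2 σ hσ (σ X - X)
  rw [map_sub (d⁄dX A), derivative_X] at ht
  set ε : A⟦X⟧ := σ X - X with hε
  set z : A⟦X⟧ := d⁄dX A (σ X) with hz
  have hc : σ ε = ε * (z + ε * t) := by linear_combination ht
  obtain ⟨s, hs⟩ := sub_dvd σ 1 hσ (by simp) (z + ε * t)
  have hs' : σ (z + ε * t) = z + ε * t + ε * s := by
    rw [AlgHom.one_apply, AlgHom.one_apply] at hs
    linear_combination hs
  have h1 : ε + σ ε + σ (σ ε) = 0 := by
    rw [hε, map_sub, map_sub, h3]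
    ring
  have h2 : 1 + (z + ε * t) + (z + ε * t) * (z + ε * t + ε * s) = 0 := by
    refine nzd π hπ h0 ?_
    rw [hc, map_mul, hc, hs'] at h1
    linear_combination h1
  exact ⟨-(t + 2 * z * t + ε * t ^ 2 + z * s + ε * t * s), by linear_combination h2⟩

/-- `ε = ρ' (rh c) X - X` has reduction of order `9` (`lin2 l₁ l₂ (rh c) ≠ 0`); Weierstrass preparation
(`PowerSeries.exists_isWeierstrassFactorization`, `order_map_residue`) gives `ε = W * U`.  The product of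
the four `W c` is distinguished of degree `36`; `surj`, `inj` are existence and uniqueness of Weierstrass
division (`eval₂ C X p = ↑p`).  `dv` is `sub_dvd` with `ψ = 1`, `zmul` is `der_en`.  For `z3`: by `tay2`,
`T ε = ε * c` with `c ≡ 1 + ε' = z` modulo `ε`; `T^3 = 1` gives `ε (1 + c + c * T c) = 0`, cancel `ε` (`nzd`),
and `T c ≡ c`.  For `sim` differentiate `ε = W U`. -/
theorem cft (π : A →+* k) (hπ : Surjective π) {ρ : EE →* (k⟦X⟧ ≃ₐ[k] k⟦X⟧)} {l₁ l₂ y₁ y₂ : k}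
    (L : Ld ρ l₁ l₂ y₁ y₂) (ρ' : EE →* (A⟦X⟧ ≃ₐ[A] A⟦X⟧))
    (hρ' : ∀ g f, PowerSeries.map π (ρ' g f) = ρ g (PowerSeries.map π f)) :
    ∃ c : CfT A A⟦X⟧ (maximalIdeal A), c.i = C ∧ c.x = X ∧ (∀ g b, c.T g b = ρ' g b) ∧
      ∀ g, c.z g = d⁄dX A (ρ' g X) := by
  have hm : ∀ g, constantCoeff (ρ' g X) ∈ maximalIdeal A := fun g => by
    rw [← pi_eq_zero_iff π hπ, ← coeff_zero_eq_constantCoeff_apply, ← coeff_map, hρ', map_X,
      coeff_zero_eq_constantCoeff_apply, BT_c0 L]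
  have ho : ∀ c, order (PowerSeries.map π (ρ' (rh c) X - X)) = (9 : ℕ) := fun c => by
    rw [map_sub, hρ', map_X, BT_ord L]
  have hne : ∀ c, PowerSeries.map π (ρ' (rh c) X - X) ≠ 0 := fun c h => by
    have := ho c
    rw [h, order_zero] at this
    exact ENat.top_ne_natCast 9 this
  choose W U hW using fun c => exists_isWeierstrassFactorization (Qb_ord π hπ _ 9 (ho c)).1
  have hdeg : ∀ c, (W c).natDegree = 9 := fun c =>
    (hW c).natDegree_eq_toNat_order_map.trans (Qb_ord π hπ _ 9 (ho c)).2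
  have hP : (∏ c, W c).IsDistinguishedAt (maximalIdeal A) := by
    rw [Fin.prod_univ_four]
    exact (((hW 0).1.mul (hW 1).1).mul (hW 2).1).mul (hW 3).1
  have hF : IsWeierstrassFactorization ((∏ c, W c : A[X]) : A⟦X⟧) (∏ c, W c) 1 :=
    ⟨hP, isUnit_one, (mul_one _).symm⟩
  have h36 : (PowerSeries.map (Ideal.Quotient.mk (maximalIdeal A))
      ((∏ c, W c : A[X]) : A⟦X⟧)).order.toNat = 36 := by
    refine hF.natDegree_eq_toNat_order_map.symm.trans ?_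
    rw [Polynomial.natDegree_prod_of_monic _ _ fun c _ => (hW c).1.monic]
    simp [hdeg]
  have hWd : ∀ c, ρ' (rh c) X - X ∣ (W c : A⟦X⟧) := fun c => by
    obtain ⟨u, hu⟩ := (hW c).2
    exact ⟨↑u⁻¹, by rw [(hW c).3, ← hu, mul_assoc, Units.mul_inv, mul_one]⟩
  refine ⟨{
    i := C
    x := X
    T := fun g => ((ρ' g : A⟦X⟧ →ₐ[A] A⟦X⟧) : A⟦X⟧ →+* A⟦X⟧)
    W := W
    z := fun g => d⁄dX A (ρ' g X)
    one := fun b => ?_
    mul := fun g h b => ?_
    fix := fun g a => Base_en_C (ρ' g : A⟦X⟧ →ₐ[A] A⟦X⟧) a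
    dv := fun g b => sub_dvd (ρ' g : A⟦X⟧ →ₐ[A] A⟦X⟧) 1 (hm g) (by simp) b
    mon := fun c => (hW c).1.monic
    deg := hdeg
    dist := fun c n hn => (hW c).1.mem (by rw [hdeg]; exact hn)
    as1 := fun c => ?_
    as2 := fun c => ?_
    surj := fun b => ?_
    inj := fun r hr hd => ?_
    zmul := fun g h => ?_
    z3 := fun c => ?_
    sim := fun c => ⟨U c, ?_⟩ }, rfl, rfl, fun _ _ => rfl, fun _ => rfl⟩
  · show ρ' 1 b = b
    rw [map_one, AlgEquiv.one_apply]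
  · show ρ' (g * h) b = ρ' g (ρ' h b)
    rw [map_mul, AlgEquiv.mul_apply]
  · rw [Polynomial.eval₂_C_X_eq_coe]
    exact hWd c
  · rw [Polynomial.eval₂_C_X_eq_coe]
    exact ⟨U c, (hW c).3⟩
  · obtain ⟨q, r, h1, h2⟩ := exists_isWeierstrassDivision b hF.map_ne_zero
    rw [h36] at h1
    refine ⟨r, h1, q, ?_⟩
    rw [Polynomial.eval₂_C_X_eq_coe, Polynomial.eval₂_C_X_eq_coe]
    linear_combination h2
  · rw [Polynomial.eval₂_C_X_eq_coe, Polynomial.eval₂_C_X_eq_coe] at hd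
    obtain ⟨q, hq⟩ := hd
    exact ((IsWeierstrassDivisor.of_map_ne_zero hF.map_ne_zero).eq_zero_of_mul_eq
      (by rw [h36]; exact hr) hq.symm).2
  · show d⁄dX A (ρ' (g * h) X) = ρ' g (d⁄dX A (ρ' h X)) * d⁄dX A (ρ' g X)
    rw [map_mul, AlgEquiv.mul_apply]
    exact der_en (ρ' g : A⟦X⟧ →ₐ[A] A⟦X⟧) (hm g) (ρ' h X)
  · refine BT_z3 π hπ (ρ' (rh c) : A⟦X⟧ →ₐ[A] A⟦X⟧) (hm _) ?_ (hne c)
    show ρ' (rh c) (ρ' (rh c) (ρ' (rh c) X)) = X
    rw [← AlgEquiv.mul_apply, ← AlgEquiv.mul_apply, ← map_mul, ← map_mul, mul_assoc, BT_cube,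
      map_one, AlgEquiv.one_apply]
  · show ρ' (rh c) X - X ∣ d⁄dX A (ρ' (rh c) X) - 1 -
      U c * (Polynomial.derivative (W c)).eval₂ C X
    have h := congrArg (d⁄dX A) (hW c).3
    rw [map_sub, derivative_X, Derivation.leibniz, smul_eq_mul, smul_eq_mul, derivative_coe] at h
    rw [Polynomial.eval₂_C_X_eq_coe, h, add_sub_cancel_right]
    exact (hWd c).mul_right _

end Pool.Agent.MP_deef5c_ag.E
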