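import Pool.Agent.MP_deef5c_ag.E.BPt

/-! The twelve branch points. -/

open Polynomial IsLocalRing Function

namespace Pool.Agent.MP_deef5c_ag.E

universe u

variable {R B V : Type u} [CommRing R] [CommRing B] [CommRing V] [IsDomain V] {J : Ideal R}
  {c : CfT R B J} {ψ : R →+* V}

theorem BTw_chi : ∀ (t : Fin 4) (g g' : EE), chi t g = chi t g' →
    g' = g ∨ g' = rh t * g ∨ g' = rh t * (rh t * g) := by decide

theorem BTw_pair : ∀ t j j' : Fin 4, j ≠ t → j' ≠ t →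
    (chi t (rh j) = chi t (rh j') ∧ chi t (rh j * rh j) = chi t (rh j' * rh j')) ∨
    (chi t (rh j) = chi t (rh j' * rh j') ∧ chi t (rh j * rh j) = chi t (rh j')) := by decide

theorem BTw_sign : ∀ j t : Fin 4, j ≠ t → (chZ j t = 1 ∧ chi j (rh t) = 1) ∨
    (chZ j t = -1 ∧ chi j (rh t * rh t) = 1) := by decide

theorem BTw_four : ∀ j : Fin 4, rh j = rh j * rh j * (rh j * rh j) := by decide

theorem BTw_third : ∀ t t' : Fin 4, ∃ j, j ≠ t ∧ j ≠ t' := by decide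

omit [IsDomain V] in
theorem BTw_cls {φ : B →+* V} {t : Fin 4} (h : TP c ψ φ t) {g g' : EE} (e : chi t g = chi t g')
    (b : B) : φ (c.T g b) = φ (c.T g' b) := by
  rcases BTw_chi t g g' e with rfl | rfl | rfl
  · rfl
  · rw [c.mul, h.fix_all]
  · rw [c.mul, h.fix_all, c.mul, h.fix_all]

omit [IsDomain V] in
theorem BTw_ev {φ : B →+* V} {t : Fin 4} (h : TP c ψ φ t) (p : R[X]) (b : B) :
    φ (p.eval₂ c.i b) = (p.map ψ).eval (φ b) := by
  rw [hom_eval₂, eval_map]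
  congr 1
  exact RingHom.ext h.alg

omit [IsDomain V] in
theorem BTw_zero (φ : B →+* V) {a b : B} (h : a ∣ b) (e : φ a = 0) : φ b = 0 := by
  obtain ⟨u, rfl⟩ := h
  rw [map_mul, e, zero_mul]

omit [IsDomain V] in
theorem BTw_sq {φ : B →+* V} {t : Fin 4} (h : TP c ψ φ t) (b : B) :
    φ (c.T (rh t * rh t) b - b) = 0 := by
  rw [map_sub, c.mul, h.fix_all, h.fix_all, sub_self]

/-- `rh j' = rh t ^ i * rh j` or `rh t ^ i * (rh j * rh j)` (`decide`), and `φ ∘ T (rh t) = φ` -/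
theorem TP.S_eq {φ : B →+* V} {t j j' : Fin 4} (h : TP c ψ φ t) (hj : j ≠ t) (hj' : j' ≠ t) :
    φ (c.S j) = φ (c.S j') := by
  simp only [CfT.S, CfT.x1, CfT.x2, map_mul]
  rcases BTw_pair t j j' hj hj' with ⟨e1, e2⟩ | ⟨e1, e2⟩
  · rw [BTw_cls h e1, BTw_cls h e2]
  · rw [BTw_cls h e1, BTw_cls h e2, mul_right_comm]

/-- one of `g = rh t`, `g = rh t * rh t` has `chi j g = 1` (`decide`), and `φ (T g x) = φ x` -/
theorem TP.root_S {φ : B →+* V} {t j : Fin 4} (h : TP c ψ φ t) (hj : j ≠ t) {Ws Vs p₁ p₂ : R[X]}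
    (s : CfS c j Ws Vs p₁ p₂) : (Ws.map ψ).IsRoot (φ (c.S j)) := by
  rw [IsRoot.def, ← BTw_ev h]
  rcases BTw_sign j t hj with ⟨-, e⟩ | ⟨-, e⟩
  · exact BTw_zero φ (s.ws _ e) (by rw [map_sub, h.fix, sub_self])
  · exact BTw_zero φ (s.ws _ e) (BTw_sq h _)

/-- by `s1`, `s2` the symmetric functions of `x, x1, x2` have the same values at `φ` and `φ'`, so `φ' x` is a
root of `(Z - φ x) (Z - φ x1) (Z - φ x2)` -/
theorem TP.fibre {φ φ' : B →+* V} {t t' j : Fin 4} (h : TP c ψ φ t) (h' : TP c ψ φ' t') (hj : j ≠ t)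
    (hj' : j ≠ t') {Ws Vs p₁ p₂ : R[X]} (s : CfS c j Ws Vs p₁ p₂) (e : φ (c.S j) = φ' (c.S j)) :
    φ' c.x = φ c.x ∨ φ' c.x = φ (c.x1 j) ∨ φ' c.x = φ (c.x2 j) := by
  have r : φ (Ws.eval₂ c.i (c.S j)) = 0 := (BTw_ev h _ _).trans (h.root_S hj s)
  have r' : φ' (Ws.eval₂ c.i (c.S j)) = 0 := (BTw_ev h' _ _).trans (h'.root_S hj' s)
  have a1 := BTw_zero φ s.s1 r
  have a2 := BTw_zero φ s.s2 r
  have b1 := BTw_zero φ' s.s1 r'
  have b2 := BTw_zero φ' s.s2 r'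
  simp only [map_sub, map_add, map_mul, BTw_ev h] at a1 a2
  simp only [map_sub, map_add, map_mul, BTw_ev h', ← e] at b1 b2
  have e' : φ c.x * φ (c.x1 j) * φ (c.x2 j) = φ' c.x * φ' (c.x1 j) * φ' (c.x2 j) := by
    simpa only [CfT.S, map_mul] using e
  have key : (φ' c.x - φ c.x) * ((φ' c.x - φ (c.x1 j)) * (φ' c.x - φ (c.x2 j))) = 0 := by
    linear_combination -(φ' c.x) ^ 2 * (a1 - b1) + φ' c.x * (a2 - b2) - e'
  simpa only [mul_eq_zero, sub_eq_zero] using key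

/-- For each `t` fix `j ≠ t`; the map `n ↦ φ n (S j)` on the nine points of `exists_nine` has fibres with at
most three elements (`TP.fibre`), so it takes at least three values.  Values for different types `t ≠ t'`
differ: take `j ∉ {t, t'}`, `TP.S_eq`, `TP.fibre`, `TP.comp`, `TP.ext`, `TP.uniq`. -/
theorem exists_twelve (h3 : (3 : V) ≠ 0) (hs : ∀ p : V[X], p.Monic → p.roots.card = p.natDegree)
    {Ws Vs p₁ p₂ : Fin 4 → R[X]} (s : ∀ j, CfS c j (Ws j) (Vs j) (p₁ j) (p₂ j)) :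
    ∃ (φ : Fin 4 → Fin 3 → B →+* V) (T : Fin 4 → Fin 3 → V), (∀ t i, TP c ψ (φ t i) t) ∧
      (∀ t i j, j ≠ t → φ t i (c.S j) = T t i) ∧
      ∀ t i t' i', T t i = T t' i' → t = t' ∧ i = i' := by
  classical
  have A : ∀ t : Fin 4, ∃ (φ : Fin 3 → B →+* V) (T : Fin 3 → V), (∀ i, TP c ψ (φ i) t) ∧
      (∀ i j, j ≠ t → φ i (c.S j) = T i) ∧ Injective T := by
    intro t
    obtain ⟨j, hj, -⟩ := BTw_third t t
    obtain ⟨φ, hφ, hi⟩ := exists_nine (c := c) (ψ := ψ) h3 hs t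
    have h1 := Finset.card_le_mul_card_image (f := fun n => φ n (c.S j)) Finset.univ 3 (by
      intro a ha
      obtain ⟨m, -, rfl⟩ := Finset.mem_image.1 ha
      refine le_trans (Finset.card_le_card_of_injOn (fun n => φ n c.x)
        (t := {φ m c.x, φ m (c.x1 j), φ m (c.x2 j)}) (fun n hn => ?_) hi.injOn)
        Finset.card_le_three
      have hn' : φ n (c.S j) = φ m (c.S j) := (Finset.mem_filter.1 hn).2
      simpa using (hφ m).fibre (hφ n) hj hj (s j) hn'.symm)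
    rw [Finset.card_univ, Fintype.card_fin] at h1
    obtain ⟨f, hf⟩ := Function.Embedding.exists_of_card_le_finset (α := Fin 3)
      (s := Finset.univ.image fun n => φ n (c.S j)) (by rw [Fintype.card_fin]; omega)
    have h2 : ∀ i, ∃ n, φ n (c.S j) = f i := fun i => by
      obtain ⟨n, -, hn⟩ := Finset.mem_image.1 (hf ⟨i, rfl⟩)
      exact ⟨n, hn⟩
    choose m hm using h2
    exact ⟨fun i => φ (m i), f, fun i => hφ _,
      fun i j' hj' => ((hφ _).S_eq hj' hj).trans (hm i), f.injective⟩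
  choose φ T h1 h2 h4 using A
  refine ⟨φ, T, h1, h2, fun t i t' i' e => ?_⟩
  have ht : t = t' := by
    obtain ⟨j, hj, hj'⟩ := BTw_third t t'
    have e1 := (h1 t i).fibre (h1 t' i') hj hj' (s j) (by rw [h2 t i j hj, h2 t' i' j hj', e])
    have key : ∀ g, φ t' i' c.x = φ t i (c.T g c.x) → t = t' := fun g hg => by
      have h5 := (h1 t i).comp g
      rw [← (h1 t' i').ext h5 hg] at h5
      exact h5.uniq h3 (h1 t' i')
    rcases e1 with e1 | e1 | e1
    · exact key 1 (by rw [c.one]; exact e1)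
    · exact key _ e1
    · exact key _ e1
  subst ht
  exact ⟨rfl, h4 t e⟩

/-- `φ (x - x1) ≠ 0`: otherwise `φ` is fixed by `rh j` (`TP.uniq`); the same for `x2`, since
`rh j = (rh j * rh j)^2` and `dv`.  With `z = φ (z (rh t))`: if `chZ j t = 1` use `der` for `g = rh t`, if
`chZ j t = -1` use `g = rh t * rh t`, `φ (z g) = z^2`, `2 z^2 + 1 = -(2 z + 1)`. -/
theorem TP.der_S (h3 : (3 : V) ≠ 0) {φ : B →+* V} {t j : Fin 4} (h : TP c ψ φ t) (hj : j ≠ t)
    {Ws Vs p₁ p₂ : R[X]} (s : CfS c j Ws Vs p₁ p₂) :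
    2 * (derivative (Ws.map ψ)).eval (φ (c.S j)) =
      (Vs.map ψ).eval (φ (c.S j)) * ((chZ j t : V) * (2 * φ (c.z (rh t)) + 1) - 3) := by
  have n1 : φ (c.x - c.x1 j) ≠ 0 := fun e =>
    hj (TP.uniq h3 ⟨h.alg, (sub_eq_zero.1 ((map_sub φ _ _).symm.trans e)).symm⟩ h)
  have n2 : φ (c.x - c.x2 j) ≠ 0 := fun e => by
    have e1 : ∀ b, φ (c.T (rh j * rh j) b) = φ b := fun b => by
      refine sub_eq_zero.1 ((map_sub φ _ _).symm.trans (BTw_zero φ (c.dv _ b) ?_))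
      rw [← neg_sub, map_neg]
      exact neg_eq_zero.2 e
    refine hj (TP.uniq h3 ⟨h.alg, ?_⟩ h)
    rw [BTw_four j, c.mul, e1, e1]
  have key : ∀ g, chi j g = 1 → φ (c.T g c.x - c.x) = 0 →
      (derivative (Ws.map ψ)).eval (φ (c.S j)) =
        (Vs.map ψ).eval (φ (c.S j)) * (φ (c.z g) - 1) := fun g hg e => by
    have a := BTw_zero φ (s.der g hg) e
    rw [map_mul, map_mul, mul_eq_zero, or_iff_right (mul_ne_zero n1 n2), map_sub, map_mul,
      BTw_ev h, BTw_ev h, map_sub, map_one, sub_eq_zero] at a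
    rwa [derivative_map]
  rcases BTw_sign j t hj with ⟨e0, e⟩ | ⟨e0, e⟩
  · rw [key _ e (by rw [map_sub, h.fix, sub_self]), e0]
    push_cast
    ring
  · rw [key _ e (BTw_sq h _), e0, c.zmul, map_mul, h.fix_all]
    push_cast
    linear_combination 2 * (Vs.map ψ).eval (φ (c.S j)) * h.z3

end Pool.Agent.MP_deef5c_ag.E
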