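import Pool.Agent.MP_deef5c_ag.O.Qb
import Pool.Agent.MP_deef5c_ag.O.Stm

/-! Definitions for the example of an action of `(Z/3)^2` which lifts modulo `9` but not to
characteristic zero. -/

open PowerSeries IsLocalRing Function Pool.Agent.MP_deef5c_ag.O
open scoped Polynomial

namespace Pool.Agent.MP_deef5c_ag.E

universe u

instance clArt (A : Type u) [CommRing A] [IsLocalRing A] [IsArtinianRing A] : CL A :=
  ⟨inferInstance, inferInstance⟩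

/-- the group `(Z/3)^2` -/
abbrev EE : Type := Multiplicative (ZMod 3 × ZMod 3)

def sg : EE := Multiplicative.ofAdd (1, 0)

def ta : EE := Multiplicative.ofAdd (0, 1)

section Ring

variable {R : Type*} [CommRing R]

def TT (x s : R) : R := s * (1 + x ^ 15 * s ^ 3) * (1 + s - x - s ^ 3)

def ST (c x s t : R) : R :=
  t * (1 + x ^ 6 * (s ^ 2 - x ^ 6) ^ 3) + (s ^ 3 + x ^ 9) * (s - c - x ^ 3)

def Qf (u v : R) : R := u ^ 3 - u * v ^ 2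

/-- the binary cubic form attached to the matrix `N = [[r, q], [-w, -r]]` and the value `T` -/
def ch (q r w T Z Y : R) : R := Qf Z (r * Z + q * Y) - T * Qf Y (-(w * Z) - r * Y)

/-- the error term -/
def NE (a r w T Th β ρ ω : R) : R :=
  Qf β ((1 + ρ) * a - β * r) - Th * Qf (1 - ρ) (-(ω * a) - (1 - ρ) * r) +
    T * (Qf (1 + ρ) ((1 + ρ) * r - β * w) - Th * Qf (-ω) (-(ω * r) - (1 - ρ) * w))

end Ring

/-- the local action in characteristic three -/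
structure Mod {k : Type u} [Field k] (c : k) (ρ : EE →* (k⟦X⟧ ≃ₐ[k] k⟦X⟧)) (x s : k⟦X⟧) : Prop where
  x0 : constantCoeff x = 0
  s0 : constantCoeff s = 0
  e1 : s ^ 3 - x ^ 6 * s = x
  e2 : X ^ 3 - s ^ 6 * X = TT x s
  tx : ρ ta x = x
  ts : ρ ta s = s
  tt : ρ ta X = X + s ^ 3
  sx : ρ sg x = x
  ss : ρ sg s = s + x ^ 3
  st : ρ sg X = ST (C c) x s X

/-! ### Filtrations -/

/-- multiplicative filtrations -/
structure MF (A : Type u) [CommRing A] where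
  F : ℕ → Ideal A
  zero : F 0 = ⊤
  anti : Antitone F
  mul : ∀ {i j : ℕ} {a b : A}, a ∈ F i → b ∈ F j → a * b ∈ F (i + j)

namespace MF

variable {A : Type u} [CommRing A] (Φ : MF A)

theorem mem_zero (a : A) : a ∈ Φ.F 0 := Φ.zero ▸ Submodule.mem_top

theorem le {i j : ℕ} {a : A} (h : a ∈ Φ.F i) (hij : j ≤ i) : a ∈ Φ.F j := Φ.anti hij h

/-- the induced filtration on power series; `X` has weight one -/
def ps : MF A⟦X⟧ where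
  F n :=
    { carrier := {f | ∀ j, coeff j f ∈ Φ.F (n - j)}
      add_mem' := fun hf hg j => by
        rw [map_add]
        exact add_mem (hf j) (hg j)
      zero_mem' := fun j => by simp
      smul_mem' := fun g f hf j => by
        rw [smul_eq_mul, coeff_mul]
        refine sum_mem fun p hp => Ideal.mul_mem_left _ _ (Φ.le (hf p.2) ?_)
        have := Finset.HasAntidiagonal.mem_antidiagonal.1 hp
        omega }
  zero := eq_top_iff.2 fun f _ j => by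
    rw [Nat.zero_sub]
    exact Φ.mem_zero _
  anti := fun i j hij f hf n => Φ.le (hf n) (by omega)
  mul := fun {i j f g} hf hg n => by
    rw [coeff_mul]
    refine sum_mem fun p hp => Φ.le (Φ.mul (hf p.1) (hg p.2)) ?_
    have := Finset.HasAntidiagonal.mem_antidiagonal.1 hp
    omega

theorem mem_ps {n : ℕ} {f : A⟦X⟧} : f ∈ Φ.ps.F n ↔ ∀ j, coeff j f ∈ Φ.F (n - j) := Iff.rfl

/-- all weights multiplied by three -/
def tri : MF A where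
  F i := Φ.F ((i + 2) / 3)
  zero := by rw [show (0 + 2) / 3 = 0 by omega, Φ.zero]
  anti := fun i j hij => Φ.anti (by omega)
  mul := fun ha hb => Φ.le (Φ.mul ha hb) (by omega)

theorem mem_tri {n : ℕ} {a : A} : a ∈ Φ.tri.F n ↔ a ∈ Φ.F ((n + 2) / 3) := Iff.rfl

theorem X_mem : (X : A⟦X⟧) ∈ Φ.ps.F 1 := fun j => by
  rcases j with _ | j
  · simp
  · rw [show 1 - (j + 1) = 0 by omega]
    exact Φ.mem_zero _

theorem C_mem {n : ℕ} {a : A} (h : a ∈ Φ.F n) : (C a : A⟦X⟧) ∈ Φ.ps.F n := fun j => by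
  rw [coeff_C]
  split_ifs with hj
  · subst hj
    exact h
  · exact zero_mem _

theorem pow {i : ℕ} {a : A} (h : a ∈ Φ.F i) (n : ℕ) : a ^ n ∈ Φ.F (i * n) := by
  induction n with
  | zero => exact Φ.mem_zero _
  | succ n ih =>
    rw [pow_succ, Nat.mul_succ]
    exact Φ.mul ih h

/-- the filtration starts with the maximal ideal and stops after `e` steps -/
structure Loc [IsLocalRing A] (e : ℕ) : Prop where
  one : Φ.F 1 = maximalIdeal A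
  top : Φ.F (e + 1) = ⊥

theorem Loc.tri [IsLocalRing A] {Φ : MF A} {e : ℕ} (h : Φ.Loc e) : Φ.tri.Loc (3 * e) :=
  ⟨h.one, by
    change Φ.F ((3 * e + 1 + 2) / 3) = ⊥
    rw [show (3 * e + 1 + 2) / 3 = e + 1 by omega, h.top]⟩

end MF

/-- Weight inference.  After `have : HW Φ a 3 := ⟨ha⟩` etc. for the atoms, a goal
`a * b ^ 2 + 3 * c ∈ Φ.F 9` is closed by `HW.of (by norm_num)` or `HW.of (by decide)`. -/
class HW {A : Type u} [CommRing A] (Φ : MF A) (a : A) (n : outParam ℕ) : Prop where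
  mem : a ∈ Φ.F n

namespace HW

variable {A : Type u} [CommRing A] {Φ : MF A} {a b : A} {i j : ℕ}

theorem of [h : HW Φ a i] (hj : j ≤ i) : a ∈ Φ.F j := Φ.le h.mem hj

instance (priority := low) base : HW Φ a 0 := ⟨Φ.mem_zero a⟩

instance add [h : HW Φ a i] [h' : HW Φ b j] : HW Φ (a + b) (min i j) :=
  ⟨add_mem (Φ.le h.mem (min_le_left _ _)) (Φ.le h'.mem (min_le_right _ _))⟩

instance sub [h : HW Φ a i] [h' : HW Φ b j] : HW Φ (a - b) (min i j) :=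
  ⟨sub_mem (Φ.le h.mem (min_le_left _ _)) (Φ.le h'.mem (min_le_right _ _))⟩

instance neg [h : HW Φ a i] : HW Φ (-a) i := ⟨neg_mem h.mem⟩

instance mul [h : HW Φ a i] [h' : HW Φ b j] : HW Φ (a * b) (i + j) := ⟨Φ.mul h.mem h'.mem⟩

instance pow [h : HW Φ a i] {n : ℕ} : HW Φ (a ^ n) (i * n) := ⟨Φ.pow h.mem n⟩

instance X : HW Φ.ps (X : A⟦X⟧) 1 := ⟨Φ.X_mem⟩

instance C [h : HW Φ a i] : HW Φ.ps (C a : A⟦X⟧) i := ⟨Φ.C_mem h.mem⟩

example {a b c e : A} (ha : a ∈ Φ.F 3) (hb : b ∈ Φ.F 2) (h3 : (3 : A) ∈ Φ.F 16) (he : e ∈ Φ.F 9) :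
    a * b ^ 3 * (1 + c) - 3 * c + 2 * e ∈ Φ.F 9 := by
  have : HW Φ a 3 := ⟨ha⟩
  have : HW Φ b 2 := ⟨hb⟩
  have : HW Φ (3 : A) 16 := ⟨h3⟩
  have : HW Φ e 9 := ⟨he⟩
  exact HW.of (by norm_num)

end HW

/-! ### The certificate -/

section Cert

variable {A : Type u} [CommRing A]

def cU (h1 : A) : A := h1 - h1 ^ 2

def cB (v2 u3 : A) : A := u3 ^ 3 - v2 ^ 2 * u3

/-- `c₃ - v₂³` -/
def cC (v1 v2 u2 u3 h0 : A) : A :=
  -(v2 ^ 2 * u3) - 2 * v1 * v2 * u3 - v2 ^ 2 * u2 + u2 ^ 3 + h0 * v2 ^ 3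

def cD (v1 v2 u2 u3 h0 h1 : A) : A :=
  cC v1 v2 u2 u3 h0 - u3 ^ 3 - ((v1 ^ 2 + 2 * v2) * u3 + 2 * v1 * v2 * u2 + v2 ^ 2 * cU h1) +
    h1 * v2 ^ 3

/-- the coefficients `c₀, ..., c₇` of `W = s^9 + ∑ c_j s^j` -/
def cc (v1 v2 u2 u3 h0 h1 : A) : ℕ → A
  | 0 => u3 ^ 3
  | 1 => u3 ^ 3
  | 2 => cB v2 u3
  | 3 => cC v1 v2 u2 u3 h0 + v2 ^ 3
  | 4 => cD v1 v2 u2 u3 h0 h1
  | 5 => h1 ^ 2
  | 6 => h0 + v1 ^ 3
  | 7 => h1
  | _ => 0

structure Cert (Φ : MF A) (v1 v2 u2 u3 h0 h1 : A) : Prop where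
  three : (3 : A) ∈ Φ.F 16
  mv1 : v1 ∈ Φ.F 1
  mv2 : v2 ∈ Φ.F 2
  mu2 : u2 ∈ Φ.F 2
  mu3 : u3 ∈ Φ.F 3
  mh0 : h0 ∈ Φ.F 3
  mh1 : h1 ∈ Φ.F 2
  e5 : h1 ^ 2 - cD v1 v2 u2 u3 h0 h1 + cB v2 u3 + 2 * v1 * u3 + (v1 ^ 2 + 2 * v2) * u2 +
    2 * v1 * v2 * cU h1 = 0
  e6 : h0 - h1 ^ 2 + cC v1 v2 u2 u3 h0 + u3 + 2 * v1 * u2 + (v1 ^ 2 + 2 * v2) * cU h1 - cU h1 ^ 3 -
    h0 * v1 ^ 3 = 0
  e7 : h1 - h0 + cD v1 v2 u2 u3 h0 h1 + u2 + 2 * v1 * cU h1 - h1 * v1 ^ 3 = 0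
  p3 : 2 * h1 * cD v1 v2 u2 u3 h0 h1 - cB v2 u3 - (h0 + v1 ^ 3) * h1 ^ 2 = 0
  p2 : cD v1 v2 u2 u3 h0 h1 ^ 2 + 2 * h1 * u3 ^ 3 - (h0 + v1 ^ 3) * cB v2 u3 -
    (cC v1 v2 u2 u3 h0 + v2 ^ 3) * h1 ^ 2 = 0
  p1 : 2 * cD v1 v2 u2 u3 h0 h1 * u3 ^ 3 - (cC v1 v2 u2 u3 h0 + v2 ^ 3) * cB v2 u3 -
    u3 ^ 3 * h1 ^ 2 = 0
  p0 : u3 ^ 4 * v2 ^ 2 = -3

noncomputable def w0 (c : ℕ → A) (x : A⟦X⟧) : A⟦X⟧ := x ^ 3 + C (c 6) * x ^ 2 + C (c 3) * x + C (c 0)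

noncomputable def w1 (c : ℕ → A) (x : A⟦X⟧) : A⟦X⟧ := C (c 7) * x ^ 2 + C (c 4) * x + C (c 1)

noncomputable def w2 (c : ℕ → A) (x : A⟦X⟧) : A⟦X⟧ := C (c 5) * x + C (c 2)

noncomputable def WW (c : ℕ → A) : A⟦X⟧ := w0 c (X ^ 3) + X * w1 c (X ^ 3) + X ^ 2 * w2 c (X ^ 3)

noncomputable def Th (A : Type u) [CommRing A] : A⟦X⟧ := 1 - X + X ^ 3

variable {k : Type u} [Field k]

/-- the certificate read in `A⟦s⟧` -/
structure Dat (Φ : MF A) (π : A →+* k) (a u H : A⟦X⟧) (c : ℕ → A) : Prop where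
  three : (3 : A) ∈ Φ.F 16
  ma : a ∈ Φ.ps.F 3
  mu : u ∈ Φ.ps.F 3
  mc : ∀ j < 8, c j ∈ Φ.F (9 - j)
  ra : PowerSeries.map π a = X ^ 3
  ru : PowerSeries.map π u = 0
  rH : PowerSeries.map π H = 0
  u3 : 3 * u = 0
  eqC : WW c * Th A + a ^ 2 * u - u ^ 3 = (Th A + H) * a ^ 3
  eqP : ∀ x, w1 c x ^ 2 - w0 c x * w2 c x = -3

/-- the lift of the action on the intermediate curve -/
structure SLv [IsLocalRing A] (Φ : MF A) (π : A →+* k) (W x : A⟦X⟧) (σ : En A) : Prop where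
  x0 : constantCoeff x ∈ maximalIdeal A
  s0 : constantCoeff (σ X) ∈ maximalIdeal A
  rx : X ^ 3 - PowerSeries.map π x ^ 6 * X = PowerSeries.map π x
  rs : PowerSeries.map π (σ X) = X + PowerSeries.map π x ^ 3
  sx : σ x = x
  s3 : σ ^ 3 = 1
  mx : x - X ^ 3 ∈ Φ.ps.F 19
  ms : σ X - X - (W - W * d⁄dX A W) ∈ Φ.ps.F 25

/-- the data of the top step, over the intermediate curve -/
structure DL (Φ : MF A) (π : A →+* k) (c : k) (x : A⟦X⟧) (σ : En A) (a r w β ρ ω : A⟦X⟧) :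
    Prop where
  ra : PowerSeries.map π a = X ^ 3
  rr : PowerSeries.map π r = 0
  rw' : PowerSeries.map π w = 0
  rb : X ^ 4 ∣ PowerSeries.map π β + C c * X ^ 3
  rel : r ^ 2 - a * w = -3
  ma : a ∈ Φ.ps.F 3
  mr : r ∈ Φ.ps.F 8
  mw : w ∈ Φ.ps.F 13
  mb : β ∈ Φ.ps.F 3
  mρ : ρ ∈ Φ.ps.F 8
  mω : ω ∈ Φ.ps.F 13
  d2 : σ r * β + σ a * (1 - ρ) = (1 + ρ) * a - β * r
  d3 : σ r * (1 + ρ) - σ a * ω = (1 + ρ) * r - β * w
  d4 : NE a r w (TT x X) (TT x (σ X)) β ρ ω ∈ Φ.ps.F 22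

end Cert

end Pool.Agent.MP_deef5c_ag.E
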