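import Pool.Agent.MP_deef5c_ag.E.Defs

/-! Definitions for the proof that the characteristic of the lifts is bounded. -/

open IsLocalRing Function Pool.Agent.MP_deef5c_ag.O
open scoped Polynomial PowerSeries

namespace Pool.Agent.MP_deef5c_ag.E

universe u

/-- generators of the four subgroups of order three -/
def rh : Fin 4 → EE :=
  ![Multiplicative.ofAdd (0, 1), Multiplicative.ofAdd (1, 0), Multiplicative.ofAdd (1, -1),
    Multiplicative.ofAdd (1, 1)]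

/-- the character with kernel generated by `rh j` -/
def chi (j : Fin 4) (g : EE) : ZMod 3 :=
  ![g.toAdd.1, g.toAdd.2, g.toAdd.1 + g.toAdd.2, g.toAdd.1 - g.toAdd.2] j

/-- the additive map `EE → k` with values `a`, `b` on `sg`, `ta` -/
def lin2 {k : Type u} [Field k] (a b : k) (g : EE) : k :=
  (g.toAdd.1.val : k) * a + (g.toAdd.2.val : k) * b

/-- leading terms of the action -/
structure Ld {k : Type u} [Field k] (ρ : EE →* (k⟦X⟧ ≃ₐ[k] k⟦X⟧)) (l₁ l₂ y₁ y₂ : k) : Prop where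
  ld : ∀ g, PowerSeries.X ^ 13 ∣ ρ g PowerSeries.X - PowerSeries.X - PowerSeries.X ^ 9 *
    (PowerSeries.C (lin2 l₁ l₂ g) + PowerSeries.C (lin2 y₁ y₂ g) * PowerSeries.X ^ 3)
  n1 : l₁ ≠ 0
  n2 : l₂ ≠ 0
  n3 : l₁ + l₂ ≠ 0
  n4 : l₁ - l₂ ≠ 0
  det : l₁ * y₂ ≠ l₂ * y₁

/-- the data on the top curve which survive products and passage to a valuation ring -/
structure CfT (R B : Type u) [CommRing R] [CommRing B] (J : Ideal R) where
  i : R →+* B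
  x : B
  T : EE → B →+* B
  W : Fin 4 → R[X]
  z : EE → B
  one : ∀ b, T 1 b = b
  mul : ∀ g h b, T (g * h) b = T g (T h b)
  fix : ∀ g a, T g (i a) = i a
  dv : ∀ g b, T g x - x ∣ T g b - b
  mon : ∀ c, (W c).Monic
  deg : ∀ c, (W c).natDegree = 9
  dist : ∀ c, ∀ n < 9, (W c).coeff n ∈ J
  as1 : ∀ c, T (rh c) x - x ∣ (W c).eval₂ i x
  as2 : ∀ c, (W c).eval₂ i x ∣ T (rh c) x - x
  surj : ∀ b, ∃ r : R[X], r.degree < 36 ∧ (∏ c, W c).eval₂ i x ∣ b - r.eval₂ i x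
  inj : ∀ r : R[X], r.degree < 36 → (∏ c, W c).eval₂ i x ∣ r.eval₂ i x → r = 0
  zmul : ∀ g h, z (g * h) = T g (z h) * z g
  z3 : ∀ c, T (rh c) x - x ∣ 1 + z (rh c) + z (rh c) ^ 2
  sim : ∀ c, ∃ U, T (rh c) x - x ∣ z (rh c) - 1 - U * (Polynomial.derivative (W c)).eval₂ i x

namespace CfT

variable {R B : Type u} [CommRing R] [CommRing B] {J : Ideal R} (c : CfT R B J)

/-- first conjugate of `x` under `rh j` -/
def x1 (j : Fin 4) : B := c.T (rh j) c.x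

/-- second conjugate of `x` under `rh j` -/
def x2 (j : Fin 4) : B := c.T (rh j * rh j) c.x

/-- the norm of `x`, a coordinate on the quotient by `rh j` -/
def S (j : Fin 4) : B := c.x * c.x1 j * c.x2 j

end CfT

/-- the data on the quotient by `rh j` -/
structure CfS {R B : Type u} [CommRing R] [CommRing B] {J : Ideal R} (c : CfT R B J) (j : Fin 4)
    (Ws Vs p₁ p₂ : R[X]) : Prop where
  mon : Ws.Monic
  deg : Ws.natDegree = 9
  dist : ∀ n < 9, Ws.coeff n ∈ J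
  dV : Vs.degree < 9
  d1 : p₁.degree < 9
  d2 : p₂.degree < 9
  ws : ∀ g, chi j g = 1 → c.T g c.x - c.x ∣ Ws.eval₂ c.i (c.S j)
  der : ∀ g, chi j g = 1 → c.T g c.x - c.x ∣ (c.x - c.x1 j) * (c.x - c.x2 j) *
    ((Polynomial.derivative Ws).eval₂ c.i (c.S j) - Vs.eval₂ c.i (c.S j) * (c.z g - 1))
  s1 : Ws.eval₂ c.i (c.S j) ∣ c.x + c.x1 j + c.x2 j - p₁.eval₂ c.i (c.S j)
  s2 : Ws.eval₂ c.i (c.S j) ∣
    c.x * c.x1 j + c.x * c.x2 j + c.x1 j * c.x2 j - p₂.eval₂ c.i (c.S j)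

/-- all data -/
def Cfg (R B : Type u) [CommRing R] [CommRing B] (J : Ideal R) : Prop :=
  ∃ (c : CfT R B J) (Ws Vs p₁ p₂ : Fin 4 → R[X]), (∀ j, CfS c j (Ws j) (Vs j) (p₁ j) (p₂ j)) ∧
    (∀ j, IsUnit ((Vs j).coeff 0)) ∧
    IsUnit ((Vs 0).coeff 0 * (Vs 1).coeff 1 - (Vs 1).coeff 0 * (Vs 0).coeff 1)

section Val

open Polynomial

variable {V : Type u} [CommRing V]

noncomputable def Qp (T : Fin 3 → V) : V[X] := (X - C (T 0)) * (X - C (T 1)) * (X - C (T 2))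

/-- `Qp T * ∑ e i / (X - T i)` -/
noncomputable def np (e : Fin 3 → ℤ) (T : Fin 3 → V) : V[X] :=
  C (e 0 : V) * ((X - C (T 1)) * (X - C (T 2))) + C (e 1 : V) * ((X - C (T 0)) * (X - C (T 2))) +
    C (e 2 : V) * ((X - C (T 0)) * (X - C (T 1)))

/-- `∑_c chi j (rh c) * n c * ∏_{c' ≠ c, j} q c'` -/
def NQ {P : Type u} [CommRing P] (n q : Fin 4 → P) : Fin 4 → P :=
  ![n 1 * q 2 * q 3 + n 2 * q 1 * q 3 + n 3 * q 1 * q 2,
    n 0 * q 2 * q 3 - n 2 * q 0 * q 3 + n 3 * q 0 * q 2,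
    n 0 * q 1 * q 3 + n 1 * q 0 * q 3 - n 3 * q 0 * q 1,
    -(n 0 * q 1 * q 2) + n 1 * q 0 * q 2 - n 2 * q 0 * q 1]

/-- `∏_{c ≠ j} q c` -/
def WQ {P : Type u} [CommRing P] (q : Fin 4 → P) : Fin 4 → P :=
  ![q 1 * q 2 * q 3, q 0 * q 2 * q 3, q 0 * q 1 * q 3, q 0 * q 1 * q 2]

/-- numerators of the four logarithmic forms -/
noncomputable def NN (e : Fin 4 → Fin 3 → ℤ) (T : Fin 4 → Fin 3 → V) : Fin 4 → V[X] :=
  NQ (fun c => np (e c) (T c)) fun c => Qp (T c)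

/-- `chi j (rh c)` as an integer -/
def chZ : Fin 4 → Fin 4 → ℤ := ![![0, 1, 1, 1], ![1, 0, -1, 1], ![1, 1, 0, -1], ![-1, 1, -1, 0]]

/-- the branch points over a valuation ring -/
structure VD [IsLocalRing V] (ν : V) (T : Fin 4 → Fin 3 → V) (e : Fin 4 → Fin 3 → ℤ)
    (M : Fin 4 → V[X]) : Prop where
  hν : ν ^ 2 = -3
  hT : ∀ c i, T c i ∈ maximalIdeal V
  ne : T 0 0 ≠ T 0 1
  he : ∀ c i, e c i = 1 ∨ e c i = -1
  hN : ∀ j, NN e T j = C ν * M j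
  hu : ∀ j, IsUnit ((M j).coeff 0)
  hd : IsUnit ((M 0).coeff 0 * (M 1).coeff 1 - (M 1).coeff 0 * (M 0).coeff 1)

/-- the branch points after rescaling the disc -/
structure SD [IsLocalRing V] (ρ δ : V) (z : Fin 4 → Fin 3 → V) (e : Fin 4 → Fin 3 → ℤ)
    (G : Fin 4 → V[X]) (y : Fin 4 → V) : Prop where
  hρ : ρ ∈ maximalIdeal V
  ρ0 : ρ ≠ 0
  δ0 : δ ≠ 0
  h3 : δ ^ 2 * ρ ^ 16 = -3
  he : ∀ c i, e c i = 1 ∨ e c i = -1
  hz : ∃ c i c' i', IsUnit (z c i - z c' i')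
  hN : ∀ j, NN e z j = C δ * G j
  hG : ∀ j n, n ≠ 0 → (G j).coeff n ∈ maximalIdeal V
  hy : ∀ j, (G j).coeff 1 = ρ * y j
  hu : ∀ j, IsUnit ((G j).coeff 0)
  hd : IsUnit ((G 0).coeff 0 * y 1 - (G 1).coeff 0 * y 0)
  l2 : (G 2).coeff 0 - (G 0).coeff 0 - (G 1).coeff 0 ∈ maximalIdeal V
  l3 : (G 3).coeff 0 - (G 0).coeff 0 + (G 1).coeff 0 ∈ maximalIdeal V
  y2 : y 2 - y 0 - y 1 ∈ maximalIdeal V
  y3 : y 3 - y 0 + y 1 ∈ maximalIdeal V

end Val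

end Pool.Agent.MP_deef5c_ag.E
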