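import Pool.Agent.MP_deef5c_ag.E.Defs
import Pool.Agent.MP_deef5c_ag.O.GDefs

/-! Definitions for the construction of the curve. -/

open CategoryTheory AlgebraicGeometry IsLocalRing Function Pool.Agent.MP_deef5c_ag.O
open scoped Polynomial PowerSeries

namespace Pool.Agent.MP_deef5c_ag.E

universe u

variable {k : Type u} [Field k]

/-- the relations of the first chart -/
def R1 {B : Type u} [CommRing B] (c w y₁ y₂ : B) : Prop :=
  y₂ ^ 3 - y₂ = w ^ 8 ∧ y₁ ^ 3 - y₁ = c ^ 3 * w ^ 8 + w ^ 7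

/-- the relations of the second chart -/
def R2 {B : Type u} [CommRing B] (x s t : B) : Prop :=
  s ^ 3 - x ^ 6 * s = x ∧ t ^ 3 - s ^ 6 * t = TT x s

/-- presentation of the first chart -/
structure P1 (c : k) {B : Type u} [CommRing B] [Algebra k B] (w y₁ y₂ : B) : Prop where
  rel : R1 (algebraMap k B c) w y₁ y₂
  gen : Algebra.adjoin k {w, y₁, y₂} = ⊤
  univ : ∀ (R : Type u) [CommRing R] [Algebra k R] (w' y₁' y₂' : R), R1 (algebraMap k R c) w' y₁' y₂' →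
    ∃ φ : B →ₐ[k] R, φ w = w' ∧ φ y₁ = y₁' ∧ φ y₂ = y₂'

/-- presentation of the second chart -/
structure P2 (k : Type u) [Field k] {B : Type u} [CommRing B] [Algebra k B] (x s t : B) : Prop where
  rel : R2 x s t
  gen : Algebra.adjoin k {x, s, t} = ⊤
  univ : ∀ (R : Type u) [CommRing R] [Algebra k R] (x' s' t' : R), R2 x' s' t' →
    ∃ φ : B →ₐ[k] R, φ x = x' ∧ φ s = s' ∧ φ t = t'

/-- the Jacobian with respect to `x`, `s` in characteristic three -/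
def JJ {B : Type u} [CommRing B] (x s : B) : B := (1 + x ^ 15 * s ^ 3) * (1 - s + x)

/-- two affine charts, integral over `k[w]` and `k[x]`, with `w x = 1` on the overlap `L` -/
structure TC (k : Type u) [Field k] {B₁ B₂ : Type u} (L : Type u) [CommRing B₁] [CommRing B₂]
    [CommRing L] [Algebra k B₁] [Algebra k B₂] [Algebra k L] [Algebra B₁ L] [Algebra B₂ L]
    (w : B₁) (x : B₂) : Prop where
  t1 : IsScalarTower k B₁ L
  t2 : IsScalarTower k B₂ L
  l1 : IsLocalization.Away w L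
  l2 : IsLocalization.Away x L
  inv : algebraMap B₁ L w * algebraMap B₂ L x = 1
  f1 : Algebra.FiniteType k B₁
  f2 : Algebra.FiniteType k B₂
  i1 : ∀ b : B₁, IsIntegral (Algebra.adjoin k {w}) b
  i2 : ∀ b : B₂, IsIntegral (Algebra.adjoin k {x}) b

/-- `Spec` of a ring homomorphism -/
noncomputable abbrev sp {A B : Type u} [CommRing A] [CommRing B] (φ : A →+* B) :
    Spec (.of B) ⟶ Spec (.of A) := Spec.map (CommRingCat.ofHom φ)

/-- `X` is glued from two open subschemes along `U` -/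
structure Gl2 {U Y₁ Y₂ X : Scheme.{u}} (a : U ⟶ Y₁) (b : U ⟶ Y₂) (i₁ : Y₁ ⟶ X) (i₂ : Y₂ ⟶ X) :
    Prop where
  po : IsPushout a b i₁ i₂
  o1 : IsOpenImmersion i₁
  o2 : IsOpenImmersion i₂
  cov : ∀ z : X, (∃ p, i₁ p = z) ∨ ∃ q, i₂ q = z
  ov : ∀ p q, i₁ p = i₂ q → ∃ r, a r = p ∧ b r = q

/-- compatible actions on the two charts -/
structure AC (c : k) {B₁ B₂ L : Type u} [CommRing B₁] [CommRing B₂] [CommRing L] [Algebra k B₁]
    [Algebra k B₂] [Algebra k L] [Algebra B₁ L] [Algebra B₂ L] (w y₁ y₂ : B₁) (x s t : B₂)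
    (α₁ : EE →* (B₁ ≃ₐ[k] B₁)) (α₂ : EE →* (B₂ ≃ₐ[k] B₂)) (α : EE →* (L ≃ₐ[k] L)) : Prop where
  c1 : ∀ g b, α g (algebraMap B₁ L b) = algebraMap B₁ L (α₁ g b)
  c2 : ∀ g b, α g (algebraMap B₂ L b) = algebraMap B₂ L (α₂ g b)
  a1 : ∀ g, α₁ g y₁ = y₁ + (g.toAdd.2.val : B₁)
  a2 : ∀ g, α₁ g y₂ = y₂ + (g.toAdd.1.val : B₁)
  tx : α₂ ta x = x
  ts : α₂ ta s = s
  tt : α₂ ta t = t + s ^ 3
  sx : α₂ sg x = x
  ss : α₂ sg s = s + x ^ 3
  st : α₂ sg t = ST (algebraMap k B₂ c) x s t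

/-- the local structure of the curve at the ramified point -/
structure PtD (c : k) {X : Scheme.{u}} (f : X ⟶ Spec (.of k)) (ρ : EE →* Aut X) (P : X)
    (hP : ∀ g, (ρ g).hom P = P) (x s t : X.presheaf.stalk P) : Prop where
  max : maximalIdeal (X.presheaf.stalk P) = Ideal.span {t}
  t0 : t ≠ 0
  xm : x ∈ maximalIdeal (X.presheaf.stalk P)
  sm : s ∈ maximalIdeal (X.presheaf.stalk P)
  rel : R2 x s t
  tx : (locMap (ρ ta⁻¹).hom P (hP _)).hom x = x
  ts : (locMap (ρ ta⁻¹).hom P (hP _)).hom s = s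
  tt : (locMap (ρ ta⁻¹).hom P (hP _)).hom t = t + s ^ 3
  sx : (locMap (ρ sg⁻¹).hom P (hP _)).hom x = x
  ss : (locMap (ρ sg⁻¹).hom P (hP _)).hom s = s + x ^ 3
  st : (locMap (ρ sg⁻¹).hom P (hP _)).hom t = ST ((strMap f P).hom c) x s t

end Pool.Agent.MP_deef5c_ag.E
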