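import Pool.Agent.MP_deef5c_ag.E.DefsG

/-! The action on the coordinate rings. -/

open PowerSeries IsLocalRing Function Pool.Agent.MP_deef5c_ag.O
open scoped Polynomial

namespace Pool.Agent.MP_deef5c_ag.E

universe u

theorem GAc_lift {k B : Type u} [CommRing k] [CommRing B] [Algebra k B] (φ : EE → B →ₐ[k] B)
    (h1 : φ 1 = AlgHom.id k B) (hm : ∀ g g', φ (g * g') = (φ g).comp (φ g')) :
    ∃ α : EE →* (B ≃ₐ[k] B), ∀ g b, α g b = φ g b :=
  ⟨MonoidHom.mk' (fun g => AlgEquiv.ofAlgHom (φ g) (φ g⁻¹) (by rw [← hm, mul_inv_cancel, h1])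
    (by rw [← hm, inv_mul_cancel, h1])) fun g g' => AlgEquiv.ext fun b =>
      DFunLike.congr_fun (hm g g') b, fun _ _ => rfl⟩

theorem GAc_three (k : Type u) [Field k] [CharP k 3] (B : Type u) [CommRing B] [Algebra k B] :
    (3 : B) = 0 := by
  rw [← map_ofNat (algebraMap k B), show (3 : k) = 0 from CharP.cast_eq_zero k 3, map_zero]

theorem GAc_add {B : Type u} [CommRing B] (h3 : (3 : B) = 0) (a b : ZMod 3) :
    ((a + b).val : B) = a.val + b.val := by
  have h := congrArg (Nat.cast : ℕ → B) (Nat.div_add_mod (a.val + b.val) 3)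
  rw [ZMod.val_add]
  push_cast at h
  rwa [h3, zero_mul, zero_add] at h

theorem GAc_cube {B : Type u} [CommRing B] (h3 : (3 : B) = 0) (a : ZMod 3) (y : B) :
    (y + a.val) ^ 3 - (y + a.val) = y ^ 3 - y := by
  have h := a.val_lt
  generalize a.val = n at h
  interval_cases n
  · simp
  · push_cast; linear_combination (y ^ 2 + y) * h3
  · push_cast; linear_combination (2 * y ^ 2 + 4 * y + 2) * h3

theorem GAc_gen : ∀ g : EE, g = sg ^ g.toAdd.1.val * ta ^ g.toAdd.2.val := by decide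

variable {k : Type u} [Field k] [CharP k 3]

/-- `univ` gives endomorphisms `w ↦ w`, `y₁ ↦ y₁ + j`, `y₂ ↦ y₂ + i` (`n^3 = n` in characteristic three); they
are multiplicative by `AlgHom.ext_of_adjoin_eq_top` (use the ring map `ZMod.castHom`, `ZMod.natCast_val`);
a monoid homomorphism from a group to `B →ₐ[k] B` lifts to units (`MonoidHom.toHomUnits`,
`AlgEquiv.algHomUnitsEquiv`). -/
theorem exists_a1 {c : k} {B : Type u} [CommRing B] [Algebra k B] {w y₁ y₂ : B} (h : P1 c w y₁ y₂) :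
    ∃ α₁ : EE →* (B ≃ₐ[k] B), (∀ g, α₁ g w = w) ∧ (∀ g, α₁ g y₁ = y₁ + (g.toAdd.2.val : B)) ∧
      ∀ g, α₁ g y₂ = y₂ + (g.toAdd.1.val : B) := by
  have h3 := GAc_three k B
  choose φ hw h1 h2 using fun g : EE => h.univ B w (y₁ + (g.toAdd.2.val : B))
    (y₂ + (g.toAdd.1.val : B)) ⟨(GAc_cube h3 _ _).trans h.rel.1, (GAc_cube h3 _ _).trans h.rel.2⟩
  obtain ⟨α, hα⟩ := GAc_lift φ (AlgHom.ext_of_adjoin_eq_top h.gen (by
      rintro _ (rfl | rfl | rfl) <;> simp [hw, h1, h2]))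
    fun g g' => AlgHom.ext_of_adjoin_eq_top h.gen (by
      rintro _ (rfl | rfl | rfl) <;>
        simp only [AlgHom.coe_comp, comp_apply, hw, h1, h2, map_add, map_natCast, toAdd_mul,
          Prod.fst_add, Prod.snd_add, GAc_add h3, add_assoc])
  exact ⟨α, fun g => by rw [hα, hw], fun g => by rw [hα, h1], fun g => by rw [hα, h2]⟩

/-- `α g` extends `α₁ g` to the localisation away from the fixed element `w`.  In `L`: `α g x = x`,
`α sg s = s + x^3`, `α ta s = s`, `α ta t = t + s^3`, and with `z = y₁ - (c + s) y₂`, `t = s^3 z`, `x^3 y₂ = s`: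
`α sg z = z - c + s - x^3` (characteristic three), `x^9 z = x^6 (s^2 - x^6)^3 t`.  So `sg` and `ta`, hence all `g`,
map the image of `B₂` (generated by `x, s, t`) into itself, and `α₂` is the restriction. -/
theorem exists_ac {c : k} {B₁ B₂ L : Type u} [CommRing B₁] [CommRing B₂] [CommRing L] [Algebra k B₁]
    [Algebra k B₂] [Algebra k L] [Algebra B₁ L] [Algebra B₂ L] {w y₁ y₂ : B₁} {x s t : B₂}
    (h₁ : P1 c w y₁ y₂) (h₂ : P2 k x s t) (T : TC k L w x) (hi : Injective (algebraMap B₂ L))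
    (hs : algebraMap B₂ L s = algebraMap B₁ L y₂ * algebraMap B₂ L x ^ 3)
    (ht : algebraMap B₂ L t = algebraMap B₂ L s ^ 3 *
      (algebraMap B₁ L y₁ - (algebraMap k L c + algebraMap B₂ L s) * algebraMap B₁ L y₂)) :
    ∃ α₁ α₂ α, AC c w y₁ y₂ x s t α₁ α₂ (α : EE →* (L ≃ₐ[k] L)) := by
  obtain ⟨α₁, hw, a1, a2⟩ := exists_a1 h₁
  have := T.t1
  have := T.t2
  have := T.l1
  have h3 := GAc_three k L
  have hex : ∀ g : EE, ∃ ψ : L →ₐ[k] L, ∀ b, ψ (algebraMap B₁ L b) = algebraMap B₁ L (α₁ g b) :=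
    fun g => ⟨IsLocalization.liftAlgHom (M := Submonoid.powers w)
      (f := (IsScalarTower.toAlgHom k B₁ L).comp (α₁ g : B₁ →ₐ[k] B₁)) (by
        rintro ⟨_, n, rfl⟩
        have h := IsLocalization.map_units L (⟨_, n, rfl⟩ : Submonoid.powers w)
        simpa [hw] using h), fun b => by simp⟩
  choose ψ hψ using hex
  have hext : ∀ f f' : L →ₐ[k] L, (∀ b, f (algebraMap B₁ L b) = f' (algebraMap B₁ L b)) → f = f' :=
    fun f f' h => AlgHom.coe_ringHom_injective
      (IsLocalization.ringHom_ext (Submonoid.powers w) (RingHom.ext h))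
  obtain ⟨α, hα⟩ := GAc_lift ψ (hext _ _ fun b => by simp [hψ])
    fun g g' => hext _ _ fun b => by simp [hψ]
  have c1 : ∀ g b, α g (algebraMap B₁ L b) = algebraMap B₁ L (α₁ g b) := fun g b => by
    rw [hα, hψ]
  have hx : ∀ g, α g (algebraMap B₂ L x) = algebraMap B₂ L x := fun g => by
    have h := congrArg (α g) T.inv
    rw [map_mul, c1, hw, map_one] at h
    linear_combination algebraMap B₂ L x * h - α g (algebraMap B₂ L x) * T.inv
  have hs' : ∀ g, α g (algebraMap B₂ L s) =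
      algebraMap B₂ L s + (g.toAdd.1.val : L) * algebraMap B₂ L x ^ 3 := fun g => by
    rw [hs, map_mul, map_pow, hx, c1, a2, map_add, map_natCast, add_mul]
  have ts : α ta (algebraMap B₂ L s) = algebraMap B₂ L s := by simp [hs', ta]
  have ss : α sg (algebraMap B₂ L s) = algebraMap B₂ L (s + x ^ 3) := by
    simp [hs', sg, ZMod.val_one]
  have tt : α ta (algebraMap B₂ L t) = algebraMap B₂ L (t + s ^ 3) := by
    rw [map_add, map_pow, ht]
    simp only [map_mul, map_pow, map_sub, map_add, ts, c1, a1, a2, AlgEquiv.commutes, map_natCast]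
    simp only [ta, toAdd_ofAdd, ZMod.val_zero, ZMod.val_one, Nat.cast_zero, Nat.cast_one]
    ring
  have st : α sg (algebraMap B₂ L t) = algebraMap B₂ L (ST (algebraMap k B₂ c) x s t) := by
    have hr := congrArg (algebraMap B₂ L) h₂.rel.1
    simp only [map_sub, map_mul, map_pow] at hr
    rw [ST]
    simp only [map_mul, map_pow, map_sub, map_add, map_one, ← IsScalarTower.algebraMap_apply]
    rw [ht]
    simp only [map_mul, map_pow, map_sub, map_add, ss, c1, a1, a2, AlgEquiv.commutes, map_natCast]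
    simp only [sg, toAdd_ofAdd, ZMod.val_zero, ZMod.val_one, Nat.cast_zero, Nat.cast_one]
    generalize algebraMap B₂ L x = X at *
    generalize algebraMap B₂ L s = S at *
    generalize algebraMap B₁ L y₁ = Y₁ at *
    generalize algebraMap B₁ L y₂ = Y₂ at *
    generalize algebraMap k L c = C at *
    have e1 : (S + X ^ 3) ^ 3 = S ^ 3 + X ^ 9 := by
      linear_combination (S ^ 2 * X ^ 3 + S * X ^ 6) * h3
    have e2 : S ^ 3 * (S ^ 2 - X ^ 6) ^ 3 = X ^ 3 := by
      rw [← mul_pow, show S * (S ^ 2 - X ^ 6) = X by linear_combination hr]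
    have e3 : Y₁ + 0 - (C + (S + X ^ 3)) * (Y₂ + 1) = Y₁ - (C + S) * Y₂ + (S - C - X ^ 3) := by
      linear_combination hs - S * h3
    rw [e1, e3]
    linear_combination -(X ^ 6 * (Y₁ - (C + S) * Y₂)) * e2
  have key : ∀ g, α g (algebraMap B₂ L s) ∈ (IsScalarTower.toAlgHom k B₂ L).range →
      α g (algebraMap B₂ L t) ∈ (IsScalarTower.toAlgHom k B₂ L).range →
      ∀ z ∈ (IsScalarTower.toAlgHom k B₂ L).range, α g z ∈ (IsScalarTower.toAlgHom k B₂ L).range := by
    rintro g h4 h5 _ ⟨b, rfl⟩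
    have h6 : Algebra.adjoin k {x, s, t} ≤ (IsScalarTower.toAlgHom k B₂ L).range.comap
        ((α g : L →ₐ[k] L).comp (IsScalarTower.toAlgHom k B₂ L)) := Algebra.adjoin_le (by
      rintro _ (rfl | rfl | rfl)
      exacts [⟨_, (hx g).symm⟩, h4, h5])
    exact h6 (h₂.gen ▸ Algebra.mem_top)
  have hpow : ∀ g, (∀ z ∈ (IsScalarTower.toAlgHom k B₂ L).range,
      α g z ∈ (IsScalarTower.toAlgHom k B₂ L).range) → ∀ n : ℕ,
      ∀ z ∈ (IsScalarTower.toAlgHom k B₂ L).range,
        α (g ^ n) z ∈ (IsScalarTower.toAlgHom k B₂ L).range := fun g h n z hz => by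
    induction n with
    | zero => simpa using hz
    | succ n ih => rw [pow_succ', map_mul, AlgEquiv.mul_apply]; exact h _ ih
  have hall : ∀ g b, ((α g : L →ₐ[k] L).comp (IsScalarTower.toAlgHom k B₂ L)) b ∈
      (IsScalarTower.toAlgHom k B₂ L).range := fun g b => by
    rw [GAc_gen g, map_mul]
    exact hpow _ (key _ ⟨_, ss.symm⟩ ⟨_, st.symm⟩) _ _
      (hpow _ (key _ ⟨_, ts.symm⟩ ⟨_, tt.symm⟩) _ _ ⟨b, rfl⟩)
  have hex2 : ∀ g : EE, ∃ φ : B₂ →ₐ[k] B₂, ∀ b,
      algebraMap B₂ L (φ b) = α g (algebraMap B₂ L b) := fun g =>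
    ⟨(AlgEquiv.ofInjective (IsScalarTower.toAlgHom k B₂ L) hi).symm.toAlgHom.comp
      (AlgHom.codRestrict _ _ (hall g)), fun b => congrArg Subtype.val
        ((AlgEquiv.ofInjective (IsScalarTower.toAlgHom k B₂ L) hi).apply_symm_apply
          ⟨_, hall g b⟩)⟩
  choose φ hφ using hex2
  obtain ⟨α₂, hα₂⟩ := GAc_lift φ (AlgHom.ext fun b => hi (by simp [hφ]))
    fun g g' => AlgHom.ext fun b => hi (by simp [hφ])
  have c2 : ∀ g b, α g (algebraMap B₂ L b) = algebraMap B₂ L (α₂ g b) := fun g b => by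
    rw [hα₂, hφ]
  exact ⟨α₁, α₂, α, c1, c2, a1, a2, hi ((c2 _ _).symm.trans (hx _)), hi ((c2 _ _).symm.trans ts),
    hi ((c2 _ _).symm.trans tt), hi ((c2 _ _).symm.trans (hx _)), hi ((c2 _ _).symm.trans ss),
    hi ((c2 _ _).symm.trans st)⟩

end Pool.Agent.MP_deef5c_ag.E
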