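import Pool.Agent.MP_deef5c_ag.E.DefsG
import Pool.Agent.MP_deef5c_ag.E.ATopA

/-! The second chart is a domain. -/

open PowerSeries IsLocalRing Function Pool.Agent.MP_deef5c_ag.O
open scoped Polynomial

namespace Pool.Agent.MP_deef5c_ag.E

universe u

variable {k : Type u} [Field k] [CharP k 3]

section Aux

omit [CharP k 3]

theorem GDom_ord {f u g : k⟦X⟧} (h : f * u = g) (hu : constantCoeff u = 1) : order f = order g := by
  rw [← h, order_mul, order_zero_of_unit (f := u) (isUnit_iff_constantCoeff.2 (hu ▸ isUnit_one)), add_zero]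

theorem GDom_li {ι : Type*} {f : ι → k⟦X⟧} {d : ι → ℕ} (hd : Injective d)
    (h : ∀ i, order (f i) = d i) : LinearIndependent k f := by
  classical
  rw [linearIndependent_iff']
  intro S g hg
  by_contra hne
  push Not at hne
  obtain ⟨i, hi, hmin⟩ := Finset.exists_min_image (S.filter fun i => g i ≠ 0) d
    (hne.imp fun i hi => Finset.mem_filter.2 hi)
  obtain ⟨hiS, hgi⟩ := Finset.mem_filter.1 hi
  have h1 := congrArg (coeff (d i)) hg
  rw [map_sum, map_zero, Finset.sum_eq_single i (fun j hj hji => ?_) (fun h => absurd hiS h),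
    map_smul, smul_eq_mul] at h1
  · exact mul_ne_zero hgi (order_eq_nat.1 (h i)).1 h1
  · by_cases hgj : g j = 0
    · rw [hgj, zero_smul, map_zero]
    · have h2 := hmin j (Finset.mem_filter.2 ⟨hj, hgj⟩)
      rw [map_smul, (order_eq_nat.1 (h j)).2 _ (h2.lt_of_ne fun e => hji (hd e).symm), smul_zero]

variable {B : Type u} [CommRing B] [Algebra k B]

theorem GDom_cub {S : Set B} {y a₀ a₁ : B} (h0 : a₀ ∈ Algebra.adjoin k S)
    (h1 : a₁ ∈ Algebra.adjoin k S) (h : y ^ 3 = a₁ * y + a₀) {b : B}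
    (hb : b ∈ Algebra.adjoin k (insert y S)) : ∃ p₀ ∈ Algebra.adjoin k S, ∃ p₁ ∈ Algebra.adjoin k S,
      ∃ p₂ ∈ Algebra.adjoin k S, b = p₀ + p₁ * y + p₂ * y ^ 2 := by
  induction hb using Algebra.adjoin_induction with
  | mem z hz =>
    rcases hz with rfl | hz
    · exact ⟨0, zero_mem _, 1, one_mem _, 0, zero_mem _, by ring⟩
    · exact ⟨z, Algebra.subset_adjoin hz, 0, zero_mem _, 0, zero_mem _, by ring⟩
  | algebraMap r => exact ⟨_, Subalgebra.algebraMap_mem _ r, 0, zero_mem _, 0, zero_mem _, by ring⟩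
  | add _ _ _ _ hp hq =>
    obtain ⟨p₀, a0, p₁, a1, p₂, a2, rfl⟩ := hp
    obtain ⟨q₀, b0, q₁, b1, q₂, b2, rfl⟩ := hq
    exact ⟨_, add_mem a0 b0, _, add_mem a1 b1, _, add_mem a2 b2, by ring⟩
  | mul _ _ _ _ hp hq =>
    obtain ⟨p₀, a0, p₁, a1, p₂, a2, rfl⟩ := hp
    obtain ⟨q₀, b0, q₁, b1, q₂, b2, rfl⟩ := hq
    have c3 := add_mem (mul_mem a1 b2) (mul_mem a2 b1)
    have c4 := mul_mem a2 b2
    exact ⟨_, add_mem (mul_mem a0 b0) (mul_mem c3 h0),
      _, add_mem (add_mem (add_mem (mul_mem a0 b1) (mul_mem a1 b0)) (mul_mem c3 h1)) (mul_mem c4 h0),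
      _, add_mem (add_mem (add_mem (mul_mem a0 b2) (mul_mem a1 b1)) (mul_mem a2 b0)) (mul_mem c4 h1),
      by linear_combination (p₁ * q₂ + p₂ * q₁ + p₂ * q₂ * y) * h⟩

theorem GDom_two {x s t a₀ a₁ b₀ b₁ : B} (gen : Algebra.adjoin k (insert t (insert s {x})) = ⊤)
    (h0 : a₀ ∈ Algebra.adjoin k {x}) (h1 : a₁ ∈ Algebra.adjoin k {x}) (h : s ^ 3 = a₁ * s + a₀)
    (h0' : b₀ ∈ Algebra.adjoin k (insert s {x})) (h1' : b₁ ∈ Algebra.adjoin k (insert s {x}))
    (h' : t ^ 3 = b₁ * t + b₀) (M : AddSubgroup B)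
    (hM : ∀ p ∈ Algebra.adjoin k {x}, ∀ i j : Fin 3, p * (s ^ (i : ℕ) * t ^ (j : ℕ)) ∈ M) (b : B) :
    b ∈ M := by
  have key : ∀ p ∈ Algebra.adjoin k (insert s {x}), ∀ j : Fin 3, p * t ^ (j : ℕ) ∈ M := by
    intro p hp j
    obtain ⟨p₀, a0, p₁, a1, p₂, a2, rfl⟩ := GDom_cub h0 h1 h hp
    have := add_mem (add_mem (hM _ a0 0 j) (hM _ a1 1 j)) (hM _ a2 2 j)
    convert this using 1
    simp only [Fin.val_zero, Fin.val_one, Fin.val_two]
    ring
  obtain ⟨p₀, a0, p₁, a1, p₂, a2, rfl⟩ := GDom_cub h0' h1' h' (b := b) (gen ▸ Algebra.mem_top)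
  have := add_mem (add_mem (key _ a0 0) (key _ a1 1)) (key _ a2 2)
  convert this using 1
  simp only [Fin.val_zero, Fin.val_one, Fin.val_two]
  ring

theorem GDom_int {x s t a₀ a₁ b₀ b₁ : B} (gen : Algebra.adjoin k (insert t (insert s {x})) = ⊤)
    (h0 : a₀ ∈ Algebra.adjoin k {x}) (h1 : a₁ ∈ Algebra.adjoin k {x}) (h : s ^ 3 = a₁ * s + a₀)
    (h0' : b₀ ∈ Algebra.adjoin k (insert s {x})) (h1' : b₁ ∈ Algebra.adjoin k (insert s {x}))
    (h' : t ^ 3 = b₁ * t + b₀) :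
    Algebra.FiniteType k B ∧ ∀ b : B, IsIntegral (Algebra.adjoin k {x}) b := by
  classical
  refine ⟨⟨⟨{t, s, x}, by simpa using gen⟩⟩, fun b => ?_⟩
  have : Module.Finite (Algebra.adjoin k {x}) B := by
    refine ⟨(Submodule.fg_def).2 ⟨Set.range fun i : Fin 3 × Fin 3 => s ^ (i.1 : ℕ) * t ^ (i.2 : ℕ),
      Set.finite_range _, eq_top_iff.2 fun b _ => ?_⟩⟩
    refine GDom_two gen h0 h1 h h0' h1' h' (Submodule.span (Algebra.adjoin k {x}) (Set.range
      fun i : Fin 3 × Fin 3 => s ^ (i.1 : ℕ) * t ^ (i.2 : ℕ))).toAddSubgroup (fun p hp i j => ?_) b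
    exact Submodule.smul_mem (Submodule.span (Algebra.adjoin k {x}) (Set.range
      fun i : Fin 3 × Fin 3 => s ^ (i.1 : ℕ) * t ^ (i.2 : ℕ))) ⟨p, hp⟩
      (Submodule.subset_span (Set.mem_range_self (i, j)))
  exact IsIntegral.of_finite _ b

theorem GDom_mem {x s : B} : x ∈ Algebra.adjoin k (insert s {x}) ∧
    s ∈ Algebra.adjoin k (insert s {x}) :=
  ⟨Algebra.subset_adjoin (by simp), Algebra.subset_adjoin (by simp)⟩

theorem GDom_TT {x s : B} : TT x s ∈ Algebra.adjoin k (insert s {x}) := by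
  obtain ⟨hx, hs⟩ := GDom_mem (k := k) (x := x) (s := s)
  exact mul_mem (mul_mem hs (add_mem (one_mem _) (mul_mem (pow_mem hx _) (pow_mem hs _))))
    (sub_mem (sub_mem (add_mem (one_mem _) hs) hx) (pow_mem hs _))

theorem GDom_rel {x s t : B} (h : R2 x s t) :
    s ^ 3 = x ^ 6 * s + x ∧ t ^ 3 = s ^ 6 * t + TT x s :=
  ⟨eq_add_of_sub_eq' h.1, eq_add_of_sub_eq' h.2⟩

theorem GDom_gen {x s t : B} (h : Algebra.adjoin k {x, s, t} = ⊤) :
    Algebra.adjoin k (insert t (insert s {x})) = ⊤ := by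
  rw [← h]
  congr 1
  ext z
  simp only [Set.mem_insert_iff, Set.mem_singleton_iff]
  tauto

end Aux

/-- `cub_ex` over `D = k` with `r = w = 0`: first `q = X^3`, `T = X` gives `x₁` with `X^3 - x₁^6 X = x₁`; then
`q = X^3`, `T = TT x₁ X` (`TT_unit`) gives `φ`; `s = φ X`, `x = φ x₁`.  Orders: `x₁ = X^3 * unit` and
`s * unit = X^3 - s^6 X`. -/
theorem exists_model : ∃ x s : k⟦X⟧, R2 x s X ∧ order x = (9 : ℕ) ∧ order s = (3 : ℕ) := by
  have hm : ∀ a : k, a ∈ maximalIdeal k ↔ a = 0 := fun a => by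
    rw [maximalIdeal_eq_bot, Ideal.mem_bot]
  obtain ⟨ψ, hψ, e1⟩ := cub_ex (D := k) (q := X ^ 3) (r := 0) (w := 0) (T := X) (by simp) (by simp)
    (by simp)
  obtain ⟨t1, t2⟩ := TT_unit (RingHom.id k) surjective_id hψ
  obtain ⟨φ, hφ, e2⟩ := cub_ex (D := k) (q := X ^ 3) (r := 0) (w := 0) (by simp) t1 t2
  rw [ch_poly, map_zero, map_pow] at e1 e2
  rw [map_TT] at e2
  have e3 : X ^ 3 - ψ X ^ 6 * X = ψ X := by linear_combination e1
  have e4 := congrArg φ e3
  rw [map_sub, map_mul, map_pow, map_pow] at e4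
  have e5 : X ^ 3 - φ X ^ 6 * X = TT (φ (ψ X)) (φ X) := by linear_combination e2
  have s0 := (hm _).1 hφ
  have x0 := (hm _).1 (en_mem φ hφ hψ)
  have hs : order (φ X) = (3 : ℕ) := by
    rw [← order_X_pow (R := k) 3]
    refine GDom_ord (u := (1 + φ (ψ X) ^ 15 * φ X ^ 3) * (1 + φ X - φ (ψ X) - φ X ^ 3) +
      φ X ^ 5 * X) ?_ (by simp [s0, x0])
    rw [TT] at e5
    linear_combination -e5
  refine ⟨φ (ψ X), φ X, ⟨e4, e5⟩, ?_, hs⟩
  rw [GDom_ord (u := 1 + φ (ψ X) ^ 5 * φ X) (g := φ X ^ 3) (by linear_combination -e4)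
    (by simp [s0]), order_pow, hs]
  rfl

/-- Every element is `∑_{i,j<3} p i j (x) s^i t^j` (the set of such sums is a subalgebra: it is stable under
multiplication by `x, s, t`; first reduce powers of `t` over `k[x, s]`, then powers of `s`).  The map to `k⟦X⟧`
given by `exists_model` and `univ` is injective, since the non-zero terms have orders `9 n + 3 i + j`, which
are distinct. -/
theorem P2.dom {B : Type u} [CommRing B] [Algebra k B] {x s t : B} (h : P2 k x s t) :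
    IsDomain B ∧ x ≠ 0 ∧ t ≠ 0 := by
  obtain ⟨x', s', hr, hx, hs⟩ := exists_model (k := k)
  obtain ⟨φ, φx, φs, φt⟩ := h.univ _ x' s' X hr
  let v : ℕ × Fin 3 × Fin 3 → B := fun i => x ^ i.1 * (s ^ (i.2.1 : ℕ) * t ^ (i.2.2 : ℕ))
  have hv : Submodule.span k (Set.range v) = ⊤ := by
    refine eq_top_iff.2 fun b _ => GDom_two (GDom_gen h.gen) (Algebra.self_mem_adjoin_singleton k x)
      (pow_mem (Algebra.self_mem_adjoin_singleton k x) 6) (GDom_rel h.rel).1 GDom_TT
      (pow_mem GDom_mem.2 6) (GDom_rel h.rel).2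
      (Submodule.span k (Set.range v)).toAddSubgroup
      (fun p hp i j => ?_) b
    rw [Algebra.adjoin_singleton_eq_range_aeval] at hp
    obtain ⟨q, rfl⟩ := hp
    change Polynomial.aeval x q * _ ∈ Submodule.span k (Set.range v)
    rw [Polynomial.aeval_eq_sum_range, Finset.sum_mul]
    refine sum_mem fun n _ => ?_
    rw [smul_mul_assoc]
    exact Submodule.smul_mem _ _ (Submodule.subset_span ⟨(n, i, j), rfl⟩)
  have hli : LinearIndependent k (φ.toLinearMap ∘ v) := by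
    refine GDom_li (d := fun i => 9 * i.1 + 3 * i.2.1 + i.2.2) ?_ fun i => ?_
    · rintro ⟨n, i, j⟩ ⟨n', i', j'⟩ e
      have := i.2
      have := j.2
      have := i'.2
      have := j'.2
      simp only at e
      exact Prod.ext (by simp only; omega) (Prod.ext (Fin.ext (by simp only; omega))
        (Fin.ext (by simp only; omega)))
    · simp only [comp_apply, AlgHom.toLinearMap_apply, v, map_mul, map_pow, φx, φs, φt, order_mul,
        order_pow, hx, hs, order_X, nsmul_eq_mul]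
      push_cast
      ring
  have hinj : Injective φ := LinearMap.injective_of_linearIndependent hv hli
  refine ⟨hinj.isDomain φ, fun e => ?_, fun e => ?_⟩
  · rw [e, map_zero] at φx
    rw [← φx, order_zero] at hx
    exact ENat.top_ne_natCast _ hx
  · rw [e, map_zero] at φt
    exact X_ne_zero φt.symm

omit [CharP k 3] in
/-- `s` is integral over `k[x]`, `t` over `k[x, s]` -/
theorem P2.int {B : Type u} [CommRing B] [Algebra k B] {x s t : B} (h : P2 k x s t) :
    Algebra.FiniteType k B ∧ ∀ b : B, IsIntegral (Algebra.adjoin k {x}) b := by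
  exact GDom_int (GDom_gen h.gen) (Algebra.self_mem_adjoin_singleton k x)
    (pow_mem (Algebra.self_mem_adjoin_singleton k x) 6) (GDom_rel h.rel).1 GDom_TT
    (pow_mem GDom_mem.2 6) (GDom_rel h.rel).2

omit [CharP k 3] in
theorem P1.int {c : k} {B : Type u} [CommRing B] [Algebra k B] {w y₁ y₂ : B} (h : P1 c w y₁ y₂) :
    Algebra.FiniteType k B ∧ ∀ b : B, IsIntegral (Algebra.adjoin k {w}) b := by
  have hw : w ∈ Algebra.adjoin k {w} := Algebra.self_mem_adjoin_singleton k w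
  exact GDom_int (GDom_gen h.gen) (add_mem (mul_mem (pow_mem (Subalgebra.algebraMap_mem _ c) 3)
    (pow_mem hw 8)) (pow_mem hw 7)) (one_mem _) (by linear_combination h.rel.2)
    (pow_mem GDom_mem.1 8) (one_mem _) (by linear_combination h.rel.1)

omit [CharP k 3] in
/-- modulo `x` the element `s` is nilpotent and `JJ x s ≡ 1 - s` -/
theorem span_JJ {B : Type u} [CommRing B] {x s t : B} (h : R2 x s t) :
    Ideal.span {x, JJ x s} = ⊤ := by
  rw [Ideal.eq_top_iff_one, Ideal.mem_span_pair]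
  refine ⟨1 + x ^ 5 * s - (1 + x ^ 14 * s ^ 3 * (1 - s + x)) * (1 + s + s ^ 2), 1 + s + s ^ 2, ?_⟩
  rw [JJ]
  linear_combination -h.1

end Pool.Agent.MP_deef5c_ag.E
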