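import Pool.Agent.MP_deef5c_ag.E.DefsG
import Pool.Agent.MP_deef5c_ag.O.GTwo

/-! Global lifts give local lifts. -/

open CategoryTheory AlgebraicGeometry IsLocalRing Function Pool.Agent.MP_deef5c_ag.O
open scoped Polynomial PowerSeries

namespace Pool.Agent.MP_deef5c_ag.E

universe u

section Aux

open PowerSeries

variable {A B : Type u} [CommRing A] [CommRing B] [Algebra A B] {t : B}

theorem GGl_dvd (h0 : ∀ b, t * b = 0 → b = 0) (hu : ∀ a : A, t ∣ algebraMap A B a → a = 0)
    (n : ℕ) : ∀ P : A[X], t ^ n ∣ Polynomial.aeval t P → Polynomial.X ^ n ∣ P := by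
  induction n with
  | zero => simp
  | succ n ih =>
    intro P hP
    rw [← P.X_mul_divX_add, map_add, map_mul, Polynomial.aeval_X, Polynomial.aeval_C] at hP
    have hc : P.coeff 0 = 0 := hu _
      ((dvd_add_right (dvd_mul_right _ _)).1 ((dvd_pow_self t n.succ_ne_zero).trans hP))
    rw [hc, map_zero, add_zero, pow_succ'] at hP
    obtain ⟨z, hz⟩ := hP
    have h1 := h0 (Polynomial.aeval t P.divX - t ^ n * z) (by linear_combination hz)
    rw [← P.X_mul_divX_add, hc, map_zero, add_zero, pow_succ']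
    exact mul_dvd_mul_left _ (ih _ ⟨z, sub_eq_zero.1 h1⟩)

theorem GGl_ext {g g' : A⟦X⟧} (h : ∀ n, X ^ n ∣ g - g') : g = g' := by
  ext n
  rw [← sub_eq_zero, ← map_sub]
  exact X_pow_dvd_iff.1 (h (n + 1)) n n.lt_succ_self

/-- `g` is the expansion of `y` -/
def GGl_R (t y : B) (g : A⟦X⟧) : Prop :=
  ∀ n, ∃ P : A[X], t ^ n ∣ y - Polynomial.aeval t P ∧ X ^ n ∣ g - (P : A⟦X⟧)

theorem GGl_hom (h0 : ∀ b, t * b = 0 → b = 0) (hu : ∀ a : A, t ∣ algebraMap A B a → a = 0)
    (hres : ∀ y, ∃ c z, y = algebraMap A B c + t * z) : ∃ φ : B →ₐ[A] A⟦X⟧, φ t = X := by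
  choose c z hz using hres
  have hG : ∀ y, GGl_R t y (mk fun n => c (z^[n] y)) := fun y n => by
    induction n generalizing y with
    | zero => exact ⟨0, by simp, by simp⟩
    | succ n ih =>
      obtain ⟨P, h1, h2⟩ := ih (z y)
      refine ⟨Polynomial.X * P + Polynomial.C (c y), ?_, ?_⟩
      · rw [map_add, map_mul, Polynomial.aeval_X, Polynomial.aeval_C, pow_succ']
        convert mul_dvd_mul_left t h1 using 1
        linear_combination hz y
      · rw [eq_X_mul_shift_add_const (mk _), pow_succ']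
        convert mul_dvd_mul_left X h2 using 1
        simp [mul_sub, ← coeff_zero_eq_constantCoeff_apply]
  have hU : ∀ {y g}, GGl_R t y g → (mk fun n => c (z^[n] y)) = g := fun {y g} h =>
    GGl_ext fun n => by
      obtain ⟨P, h1, h2⟩ := hG y n
      obtain ⟨Q, h3, h4⟩ := h n
      have h5 := GGl_dvd h0 hu n (P - Q) (by
        rw [map_sub]
        convert dvd_sub h3 h1 using 1
        ring)
      have h6 := map_dvd (Polynomial.coeToPowerSeries.ringHom (R := A)) h5
      simp only [map_pow, map_sub, Polynomial.coeToPowerSeries.ringHom_apply,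
        Polynomial.coe_X] at h6
      convert dvd_add (dvd_sub h2 h4) h6 using 1
      ring
  refine ⟨{ toFun := fun y => mk fun n => c (z^[n] y)
            map_one' := hU fun n => ⟨1, by simp, by simp⟩
            map_zero' := hU fun n => ⟨0, by simp, by simp⟩
            map_mul' := fun a b => hU fun n => ?_
            map_add' := fun a b => hU fun n => ?_
            commutes' := fun a => hU fun n =>
              ⟨Polynomial.C a, by simp, by simp [PowerSeries.algebraMap_apply]⟩ },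
    hU fun n => ⟨Polynomial.X, by simp, by simp⟩⟩
  · obtain ⟨P, h1, h2⟩ := hG a n
    obtain ⟨Q, h3, h4⟩ := hG b n
    refine ⟨P * Q, ?_, ?_⟩
    · rw [map_mul]
      convert dvd_add (h1.mul_right b) (h3.mul_left (Polynomial.aeval t P)) using 1
      ring
    · rw [Polynomial.coe_mul]
      convert dvd_add (h2.mul_right (mk fun n => c (z^[n] b))) (h4.mul_left P) using 1
      ring
  · obtain ⟨P, h1, h2⟩ := hG a n
    obtain ⟨Q, h3, h4⟩ := hG b n
    refine ⟨P + Q, ?_, ?_⟩
    · rw [map_add]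
      convert dvd_add h1 h3 using 1
      ring
    · rw [Polynomial.coe_add]
      convert dvd_add h2 h4 using 1
      ring

/-- the expansion map of the special fibre gives the setting of the division theorem -/
theorem GGl_setup [IsLocalRing A] {k O : Type u} [Field k] [CommRing O] {π : A →+* k}
    (hπ : Surjective π) {ψ : B →+* O} (hs : Surjective ψ)
    (hk : RingHom.ker ψ = (maximalIdeal A).map (algebraMap A B)) {J : O →+* k⟦X⟧}
    (hJ : ∀ a b, J a ∣ J b → a ∣ b) (ht : J (ψ t) = X)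
    (hC : ∀ a, J (ψ (algebraMap A B a)) = C (π a)) [IsDomain O] : Setup A ψ t where
  surj := hs
  ker := hk
  ne := fun h => X_ne_zero (R := k) (by rw [← ht, h, map_zero])
  nu := fun h => X_prime.not_isUnit (ht ▸ h.map J)
  res := fun y => by
    obtain ⟨a, ha⟩ := hπ (constantCoeff (J y))
    refine ⟨a, hJ _ _ ?_⟩
    rw [ht, X_dvd_iff, map_sub, hC, map_sub, constantCoeff_C, ha, sub_self]
  pw := fun y hy => by
    have h0 : J y ≠ 0 := fun e => hy (zero_dvd_iff.1 (hJ 0 y (by rw [e]; exact dvd_zero _)))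
    have hu : IsUnit (divXPowOrder (J y)) := by
      rw [isUnit_iff_constantCoeff, isUnit_iff_ne_zero]
      exact fun h => h0 (constantCoeff_divXPowOrder_eq_zero_iff.1 h)
    have h3 := associated_mul_unit_left (X ^ (order (J y)).toNat) _ hu
    rw [X_pow_order_mul_divXPowOrder] at h3
    exact ⟨_, associated_of_dvd_dvd (hJ _ _ (by rw [map_pow, ht]; exact h3.dvd))
      (hJ _ _ (by rw [map_pow, ht]; exact h3.symm.dvd))⟩

end Aux

/-- Expansion in powers of `t`. -/
theorem exists_expand {A B O : Type u} [CommRing A] [IsLocalRing A] [IsArtinianRing A] [CommRing B]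
    [Algebra A B] [Module.Flat A B] [CommRing O] [IsDomain O] {ψ : B →+* O} {t : B}
    (S : Setup A ψ t) : ∃ J' : B →ₐ[A] A⟦X⟧, J' t = PowerSeries.X := by
  refine GGl_hom (fun b hb => S.nzd S.ne hb) (fun a ha => ?_) fun y => ?_
  · obtain ⟨z, hz⟩ := ha
    have h1 : Setup.dv A t t 1 (fun _ => a, -z) = Setup.dv A t t 1 0 := by
      rw [Setup.dv_apply, map_zero]
      simp [hz]
    exact congrFun (congrArg Prod.fst (S.dv_inj (d := 1) (by simp) h1)) 0
  · obtain ⟨⟨a, z⟩, rfl⟩ := S.dv_surj (δ := t) (d := 1) (by simp) y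
    exact ⟨a 0, z, by simp [Setup.dv_apply]⟩

/-- two homomorphisms to a separated ring which agree on `A` and on `t`: `b = p(t) + t^n b'` -/
theorem setup_ext {A B O C : Type u} [CommRing A] [IsLocalRing A] [IsArtinianRing A] [CommRing B]
    [Algebra A B] [CommRing O] [IsDomain O] {ψ : B →+* O} {t : B} (S : Setup A ψ t) [CommRing C]
    (I : Ideal C) [IsHausdorff I C] (φ φ' : B →+* C)
    (h : ∀ a, φ (algebraMap A B a) = φ' (algebraMap A B a)) (ht : φ t = φ' t) (hI : φ t ∈ I) :
    φ = φ' := by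
  refine RingHom.ext fun b => sub_eq_zero.1 (BaseA_haus I fun n => ?_)
  obtain ⟨⟨a, z⟩, rfl⟩ := S.dv_surj (δ := t ^ n) (d := n) (by simp) b
  rw [Setup.dv_apply]
  simp only [map_add, map_sum, map_mul, map_pow, h, ← ht]
  rw [add_sub_add_left_eq_sub, ← mul_sub]
  exact Ideal.mul_mem_right _ _ (Ideal.pow_mem_pow hI n)

/-- the algebraic part -/
theorem GGl_alg {A B O k : Type u} [CommRing A] [IsLocalRing A] [IsArtinianRing A] [CommRing B]
    [Algebra A B] [Module.Flat A B] [CommRing O] [IsDomain O] [Field k] {π : A →+* k}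
    (hπ : Surjective π) {ψ : B →+* O} {t : B} (S : Setup A ψ t) {J : O →+* k⟦X⟧}
    (ht : J (ψ t) = PowerSeries.X) (hC : ∀ a, J (ψ (algebraMap A B a)) = PowerSeries.C (π a))
    {H : Type*} [Group H] (T : H → B →ₐ[A] B) (h1 : ∀ b, T 1 b = b)
    (hm : ∀ g h b, T (g * h) b = T h (T g b)) {ρx : H →* (k⟦X⟧ ≃ₐ[k] k⟦X⟧)}
    (hT : ∀ h b, J (ψ (T h b)) = ρx h⁻¹ (J (ψ b))) : LocLifts ρx π := by
  obtain ⟨J', hJ'⟩ := exists_expand S
  have hred : ∀ b, PowerSeries.map π (J' b) = J (ψ b) := fun b =>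
    RingHom.congr_fun (setup_ext S (maximalIdeal k⟦X⟧) ((PowerSeries.map π).comp J') (J.comp ψ)
      (fun a => by
        change PowerSeries.map π (J' (algebraMap A B a)) = J (ψ (algebraMap A B a))
        rw [hC, AlgHom.commutes]
        exact PowerSeries.map_C π a)
      (by
        change PowerSeries.map π (J' t) = J (ψ t)
        rw [ht, hJ', PowerSeries.map_X])
      (by
        change PowerSeries.map π (J' t) ∈ _
        rw [hJ', PowerSeries.map_X, mem_max_iff, PowerSeries.constantCoeff_X]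
        exact zero_mem _)) b
  have ha : ∀ h, PowerSeries.map π (J' (T h⁻¹ t)) = ρx h PowerSeries.X := fun h => by
    rw [hred, hT, inv_inv, ht]
  have h0 : ∀ h, PowerSeries.constantCoeff (ρx h PowerSeries.X) ∈ maximalIdeal k := fun h => by
    rw [← mem_max_iff]
    intro hu
    have := hu.map (ρx h).symm
    rw [AlgEquiv.symm_apply_apply] at this
    exact PowerSeries.X_prime.not_isUnit this
  have hx : ∀ h, PowerSeries.constantCoeff (J' (T h⁻¹ t)) ∈ maximalIdeal A := fun h => by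
    rw [← mem_max_iff]
    intro hu
    rw [isUnit_of_map π hπ, ha] at hu
    exact (mem_max_iff _).2 (h0 h) hu
  have key : ∀ h b, sub (J' (T h⁻¹ t)) (J' b) = J' (T h⁻¹ b) := fun h b =>
    RingHom.congr_fun (setup_ext S (maximalIdeal A⟦X⟧)
      ((sub (J' (T h⁻¹ t))).comp J' : B →ₐ[A] A⟦X⟧) (J'.comp (T h⁻¹) : B →ₐ[A] A⟦X⟧)
      (fun a => (((sub (J' (T h⁻¹ t))).comp J').commutes a).trans
        ((J'.comp (T h⁻¹)).commutes a).symm)
      (by
        change sub (J' (T h⁻¹ t)) (J' t) = J' (T h⁻¹ t)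
        rw [hJ', sub_X (hx h)])
      (by
        change sub (J' (T h⁻¹ t)) (J' t) ∈ _
        rw [hJ', sub_X (hx h), mem_max_iff]
        exact hx h)) b
  let r : H →* En A :=
    { toFun := fun h => sub (J' (T h⁻¹ t))
      map_one' := en_ext (by rw [sub_X (hx 1), inv_one, h1, hJ', AlgHom.one_apply])
        (by rw [sub_X (hx 1)]; exact hx 1)
      map_mul' := fun g h => en_ext (by
        rw [sub_X (hx _), AlgHom.mul_apply, sub_X (hx h), key, mul_inv_rev, hm])
        (by rw [sub_X (hx _)]; exact hx _) }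
  refine ⟨(AlgEquiv.algHomUnitsEquiv A A⟦X⟧).toMonoidHom.comp r.toHomUnits, fun g φ => ?_⟩
  exact map_en π (sub (J' (T g⁻¹ t))) (ρx g : k⟦X⟧ →ₐ[k] k⟦X⟧)
    (by rw [sub_X (hx g)]; exact ha g) (h0 g) φ

variable {k : Type u} [Field k] [IsAlgClosed k] {X : Scheme.{u}} [IsIntegral X]
  (f : X ⟶ Spec (.of k)) [IsSeparated f] [SmoothOfRelativeDimension 1 f]

/-- A global lift gives a lift of the local action at a point. -/
theorem glob_loc {G : Type*} [Group G] [Finite G] {ρ : G →* Aut X} (hρ : Injective ρ)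
    (hρk : ∀ g, (ρ g).hom ≫ f = f) {x : X} (hx : IsClosed {x}) (g₀ : stab ρ x) (hg : g₀ ≠ 1)
    {j : X.functionField →+* LaurentSeries k} {t : X.functionField}
    (C : letI := (fa f).toAlgebra; CP (Ox x) j t) {ρx : stab ρ x →* (k⟦X⟧ ≃ₐ[k] k⟦X⟧)}
    (h : LA (fun h : stab ρ x => fT (ρ h)) j ρx) {A : Type u} [CommRing A] [IsLocalRing A]
    [IsArtinianRing A] (π : A →+* k) (hπ : Surjective π) (hl : LiftsTo f ρ π) : LocLifts ρx π := by
  obtain ⟨X', f', ι, ρ', hsm, hι, hρA, hc⟩ := hl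
  obtain ⟨J, t₀, hJ, ht₀, hσ, hk⟩ := GTwo_ex f ρ C h
  have hK' : ∀ g : stab ρ x, (ρ' g).hom (ι x) = ι x := fun g => by
    rw [← Scheme.Hom.comp_apply, hc, Scheme.Hom.comp_apply, g.2]
  have := closedImm hπ hι
  have hsurj : Surjective (ι.stalkMap x).hom := ι.stalkMap_surjective x
  obtain ⟨t', rfl⟩ := hsurj t₀
  let _ : Algebra A (X'.presheaf.stalk (ι x)) := (strMap f' (ι x)).hom.toAlgebra
  have hfl : Module.Flat A (X'.presheaf.stalk (ι x)) := strMap_flat f' (ι x)
  let T : stab ρ x → X'.presheaf.stalk (ι x) →ₐ[A] X'.presheaf.stalk (ι x) := fun g =>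
    { (locMap (ρ' g).hom (ι x) (hK' g)).hom with
      commutes' := fun a => congrArg (fun φ => φ.hom a) (strMap_locMap f' (ι x) _ (hK' g) (hρA g)) }
  have hT : ∀ (g : stab ρ x) b, (ι.stalkMap x).hom (T g b) =
      (locMap (ρ g).hom x g.2).hom ((ι.stalkMap x).hom b) := fun g b =>
    congrArg (fun φ => φ.hom b) (locMap_stalkMap ι _ _ x g.2 (hK' g) (hc g))
  have hC : ∀ a, J ((ι.stalkMap x).hom (algebraMap A _ a)) = PowerSeries.C (π a) := fun a => by
    rw [← hk]
    exact congrArg (fun φ => J (φ.hom a)) (strMap_stalkMap hι x)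
  have hone : ∀ b, T 1 b = b := fun b =>
    congrArg (fun φ => φ.hom b) (locMap_id _ (ι x) (hK' 1) (by simp; rfl))
  have hmul : ∀ g h b, T (g * h) b = T h (T g b) := fun g h b =>
    congrArg (fun φ => φ.hom b) (locMap_comp _ _ _ (ι x) (hK' g) (hK' h) (hK' (g * h))
      (by rw [Subgroup.coe_mul, map_mul]; rfl))
  exact GGl_alg hπ (GGl_setup hπ hsurj (ker_stalkMap hπ hι x) hJ ht₀ hC) ht₀ hC T hone hmul
    fun g b => by rw [hT, hσ]

end Pool.Agent.MP_deef5c_ag.E
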