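import Pool.Agent.MP_deef5c_ag.E.GDom

/-! The overlap of the two charts. -/

open PowerSeries IsLocalRing Function Pool.Agent.MP_deef5c_ag.O
open scoped Polynomial

namespace Pool.Agent.MP_deef5c_ag.E

universe u

variable {k : Type u} [Field k] [CharP k 3]

theorem GLink_a {L : Type u} [CommRing L] (h3 : (3 : L) = 0) {c x s w y z : L}
    (hc : c - c ^ 3 = 1) (h1 : y ^ 3 - y = w ^ 8) (h2 : s ^ 3 * w ^ 8 = w ^ 7 + x * y) :
    (z + (c + s) * y) ^ 3 - (z + (c + s) * y) - (c ^ 3 * w ^ 8 + w ^ 7) =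
      z ^ 3 - z - (1 + s - x - s ^ 3) * y := by
  have f : ∀ a b : L, (a + b) ^ 3 = a ^ 3 + b ^ 3 := fun a b => by
    linear_combination (a ^ 2 * b + a * b ^ 2) * h3
  rw [f, mul_pow, f]
  linear_combination (c ^ 3 + s ^ 3) * h1 - y * hc + h2

theorem GLink_b {L : Type u} [CommRing L] (h3 : (3 : L) = 0) {x s y : L}
    (h1 : s ^ 3 - x ^ 6 * s = x) (h2 : s = y * x ^ 3) :
    s ^ 9 * ((1 + s - x - s ^ 3) * y) = TT x s := by
  have e : s ^ 3 = x + x ^ 6 * s := by linear_combination h1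
  have e9 : s ^ 9 = x ^ 3 * (1 + x ^ 15 * s ^ 3) := by
    rw [show s ^ 9 = (s ^ 3) ^ 3 by ring]
    conv_lhs => rw [e]
    linear_combination (x ^ 8 * s + x ^ 13 * s ^ 2) * h3
  rw [TT, e9]
  linear_combination (-((1 + x ^ 15 * s ^ 3) * (1 + s - x - s ^ 3))) * h2

theorem GLink_pow {L : Type u} [CommRing L] {w x : L} (hw : w * x = 1) (n : ℕ) :
    w ^ n * x ^ n = 1 := by
  rw [← mul_pow, hw, one_pow]

theorem GLink_c {L : Type u} [CommRing L] {x s w : L} (h1 : s ^ 3 - x ^ 6 * s = x)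
    (hw : w * x = 1) : s ^ 3 * w ^ 8 = w ^ 7 + x * (s * w ^ 3) := by
  linear_combination w ^ 8 * h1 + (w ^ 7 - s * w ^ 2) * hw + s * w ^ 2 * GLink_pow hw 6

theorem GLink_d {L : Type u} [CommRing L] {x s w : L} (h1 : s ^ 3 - x ^ 6 * s = x)
    (hw : w * x = 1) : s * (w * (s ^ 2 - x ^ 6)) = 1 := by
  linear_combination w * h1 + hw

theorem GLink_e {L : Type u} [CommRing L] {x w y : L} (h1 : y ^ 3 - y = w ^ 8)
    (hw : w * x = 1) : (y * x ^ 3) ^ 3 - x ^ 6 * (y * x ^ 3) = x := by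
  linear_combination x ^ 9 * h1 + x * GLink_pow hw 8

/-- from the second chart to the first: `y₂ = s w^3`, `z = t / s^3`, `y₁ = z + (c + s) y₂`; `s` is a unit since
`s (s^2 - x^6) = x`.  One has `s^9 = x^3 (1 + x^15 s^3)`, so `z^3 - z = (1 + s - x - s^3) y₂`, and
`x^9 y₂^3 = s^3`. -/
theorem r1_of_r2 {L : Type u} [CommRing L] (h3 : (3 : L) = 0) {c x s t w : L} (hc : c - c ^ 3 = 1)
    (h : R2 x s t) (hw : w * x = 1) :
    R1 c w (t * (w * (s ^ 2 - x ^ 6)) ^ 3 + (c + s) * (s * w ^ 3)) (s * w ^ 3) := by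
  obtain ⟨h1, h2⟩ := h
  have hv := GLink_d h1 hw
  generalize w * (s ^ 2 - x ^ 6) = v at hv
  have hy : (s * w ^ 3) ^ 3 - s * w ^ 3 = w ^ 8 := by
    linear_combination w ^ 9 * h1 + w ^ 8 * hw + s * w ^ 3 * GLink_pow hw 6
  refine ⟨hy, ?_⟩
  have a := GLink_a h3 (z := t * v ^ 3) hc hy (GLink_c h1 hw)
  have b := GLink_b h3 (y := s * w ^ 3) h1 (by linear_combination (-s) * GLink_pow hw 3)
  rw [← h2] at b
  linear_combination a - v ^ 9 * b + (1 + s - x - s ^ 3) * (s * w ^ 3) * GLink_pow hv 9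
    + t * v ^ 3 * GLink_pow hv 6

theorem r2_of_r1 {L : Type u} [CommRing L] (h3 : (3 : L) = 0) {c x w y₁ y₂ : L} (hc : c - c ^ 3 = 1)
    (h : R1 c w y₁ y₂) (hw : w * x = 1) :
    R2 x (y₂ * x ^ 3) ((y₂ * x ^ 3) ^ 3 * (y₁ - (c + y₂ * x ^ 3) * y₂)) := by
  obtain ⟨h1, h2⟩ := h
  have e := GLink_e h1 hw
  refine ⟨e, ?_⟩
  have hs : y₂ * x ^ 3 * w ^ 3 = y₂ := by linear_combination y₂ * GLink_pow hw 3
  have c2 := GLink_c e hw
  rw [hs] at c2
  have b := GLink_b h3 e rfl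
  generalize y₂ * x ^ 3 = s at *
  have a := GLink_a h3 (z := y₁ - (c + s) * y₂) hc h1 c2
  rw [sub_add_cancel] at a
  generalize y₁ - (c + s) * y₂ = z at *
  rw [← b]
  linear_combination s ^ 9 * (h2 - a)

/-- `φ` from `univ` and `r1_of_r2`.  Let `L₁ = Localization.Away w`; `r2_of_r1` gives `B₂ → L₁`; both maps extend
to the localisations (`IsLocalization.Away.lift`) and are inverse to each other (check on generators,
`AlgHom.ext_of_adjoin_eq_top`, `IsLocalization.ringHom_ext`); transport with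
`IsLocalization.isLocalization_of_algEquiv`. -/
theorem link {c : k} (hc : c - c ^ 3 = 1) {B₁ B₂ : Type u} [CommRing B₁] [CommRing B₂] [Algebra k B₁]
    [Algebra k B₂] {w y₁ y₂ : B₁} {x s t : B₂} (h₁ : P1 c w y₁ y₂) (h₂ : P2 k x s t)
    (L : Type u) [CommRing L] [Algebra k L] [Algebra B₂ L] [IsScalarTower k B₂ L]
    [IsLocalization.Away x L] :
    ∃ _ : Algebra B₁ L, TC k L w x ∧
      algebraMap B₂ L s = algebraMap B₁ L y₂ * algebraMap B₂ L x ^ 3 ∧
      algebraMap B₂ L t = algebraMap B₂ L s ^ 3 *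
        (algebraMap B₁ L y₁ - (algebraMap k L c + algebraMap B₂ L s) * algebraMap B₁ L y₂) := by
  have three : ∀ (R : Type u) [CommRing R] [Algebra k R], (3 : R) = 0 := fun R _ _ => by
    have := congrArg (algebraMap k R) (CharP.cast_eq_zero k 3)
    simpa [map_ofNat] using this
  have hcR : ∀ (R : Type u) [CommRing R] [Algebra k R],
      algebraMap k R c - algebraMap k R c ^ 3 = 1 := fun R _ _ => by
    rw [← map_pow, ← map_sub, hc, map_one]
  let j₂ : B₂ →ₐ[k] L := IsScalarTower.toAlgHom k B₂ L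
  obtain ⟨W, hW⟩ : ∃ W : L, W * j₂ x = 1 :=
    (IsLocalization.Away.algebraMap_isUnit (S := L) x).exists_left_inv
  have r2 : R2 (j₂ x) (j₂ s) (j₂ t) := by
    obtain ⟨a, b⟩ := h₂.rel
    refine ⟨by simpa using congrArg j₂ a, ?_⟩
    simpa [TT] using congrArg j₂ b
  obtain ⟨φ, φw, φ1, φ2⟩ := h₁.univ L _ _ _ (r1_of_r2 (three L) (hcR L) r2 hW)
  have hv := GLink_d r2.1 hW
  have es : j₂ s = φ y₂ * j₂ x ^ 3 := by
    rw [φ2]
    linear_combination (-j₂ s) * GLink_pow hW 3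
  have et : j₂ t = j₂ s ^ 3 * (φ y₁ - (algebraMap k L c + j₂ s) * φ y₂) := by
    rw [φ1, φ2]
    linear_combination (-j₂ t) * GLink_pow hv 3
  let L₁ := Localization.Away w
  let j₁ : B₁ →ₐ[k] L₁ := IsScalarTower.toAlgHom k B₁ L₁
  obtain ⟨X₁, hX⟩ : ∃ X₁ : L₁, j₁ w * X₁ = 1 :=
    (IsLocalization.Away.algebraMap_isUnit (S := L₁) w).exists_right_inv
  have r1 : R1 (algebraMap k L₁ c) (j₁ w) (j₁ y₁) (j₁ y₂) := by
    obtain ⟨a, b⟩ := h₁.rel
    refine ⟨by simpa using congrArg j₁ a, ?_⟩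
    simpa only [map_sub, map_add, map_mul, map_pow, AlgHom.commutes] using congrArg j₁ b
  obtain ⟨ψ, ψx, ψs, ψt⟩ := h₂.univ L₁ _ _ _ (r2_of_r1 (three L₁) (hcR L₁) r1 hX)
  have u1 : IsUnit (φ.toRingHom w) := IsUnit.of_mul_eq_one (j₂ x) (by rw [← hW, ← φw]; rfl)
  have u2 : IsUnit (ψ.toRingHom x) :=
    IsUnit.of_mul_eq_one (j₁ w) (by rw [← hX, ← ψx, mul_comm]; rfl)
  let F : L₁ →+* L := IsLocalization.Away.lift w u1
  let G : L →+* L₁ := IsLocalization.Away.lift x u2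
  have hF : ∀ b, F (j₁ b) = φ b := fun b => IsLocalization.Away.lift_eq w u1 b
  have hG : ∀ b, G (j₂ b) = ψ b := fun b => IsLocalization.Away.lift_eq x u2 b
  have hFk : ∀ a, F (algebraMap k L₁ a) = algebraMap k L a := fun a => by
    rw [← j₁.commutes, hF, φ.commutes]
  have hGk : ∀ a, G (algebraMap k L a) = algebraMap k L₁ a := fun a => by
    rw [← j₂.commutes, hG, ψ.commutes]
  have FX : F X₁ = j₂ x := by
    have := congrArg F hX
    rw [map_mul, hF, φw, map_one] at this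
    linear_combination j₂ x * this - F X₁ * hW
  have GW : G W = j₁ w := by
    have := congrArg G hW
    rw [map_mul, hG, ψx, map_one] at this
    linear_combination j₁ w * this - G W * hX
  have FG : ∀ b, F (ψ b) = j₂ b := by
    have : (AlgHom.mk F hFk).comp ψ = j₂ := by
      refine AlgHom.ext_of_adjoin_eq_top h₂.gen ?_
      rintro _ (rfl | rfl | rfl)
      · exact (congrArg F ψx).trans FX
      · refine (congrArg F ψs).trans ?_
        rw [map_mul, map_pow, hF, FX, es]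
      · refine (congrArg F ψt).trans ?_
        simp only [map_mul, map_pow, map_sub, map_add, hF, FX, hFk]
        rw [← es, ← et]
    exact fun b => DFunLike.congr_fun this b
  have GF : ∀ b, G (φ b) = j₁ b := by
    have g2 : G (φ y₂) = j₁ y₂ := by
      rw [φ2, map_mul, map_pow, hG, GW, ψs]
      linear_combination j₁ y₂ * GLink_pow hX 3
    have g1 : G (φ y₁) = j₁ y₁ := by
      have a := congrArg G et
      have b := congrArg G hv
      simp only [map_mul, map_pow, map_sub, map_add, hG, g2, hGk, map_one] at a b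
      rw [ψt, ← ψs] at a
      generalize G W * (ψ s ^ 2 - ψ x ^ 6) = v at b
      linear_combination (-v ^ 3) * a + (j₁ y₁ - G (φ y₁)) * GLink_pow b 3
    have : (AlgHom.mk G hGk).comp φ = j₁ := by
      refine AlgHom.ext_of_adjoin_eq_top h₁.gen ?_
      rintro _ (rfl | rfl | rfl)
      · exact (congrArg G φw).trans GW
      · exact g1
      · exact g2
    exact fun b => DFunLike.congr_fun this b
  have e1 : G.comp F = RingHom.id _ := IsLocalization.ringHom_ext (Submonoid.powers w)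
    (RingHom.ext fun b => (congrArg G (hF b)).trans (GF b))
  have e2 : F.comp G = RingHom.id _ := IsLocalization.ringHom_ext (Submonoid.powers x)
    (RingHom.ext fun b => (congrArg F (hG b)).trans (FG b))
  let _ : Algebra B₁ L := φ.toRingHom.toAlgebra
  let e : L₁ ≃ₐ[B₁] L := AlgEquiv.ofRingEquiv (f := RingEquiv.ofRingHom F G e2 e1) hF
  refine ⟨inferInstance, ⟨IsScalarTower.of_algebraMap_eq fun a => (φ.commutes a).symm,
    inferInstance, IsLocalization.isLocalization_of_algEquiv _ e, inferInstance, ?_, h₁.int.1,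
    h₂.int.1, h₁.int.2, h₂.int.2⟩, es, et⟩
  rw [← hW, ← φw]
  rfl

end Pool.Agent.MP_deef5c_ag.E
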