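import Pool.Agent.MP_deef5c_ag.E.DefsG
import Pool.Agent.MP_deef5c_ag.E.ABas
import Pool.Agent.MP_deef5c_ag.O.GTwo

/-! The local action at the ramified point. -/

open CategoryTheory AlgebraicGeometry IsLocalRing Function Pool.Agent.MP_deef5c_ag.O
open scoped Polynomial PowerSeries

namespace Pool.Agent.MP_deef5c_ag.E

universe u

theorem GMd_cp {k K O : Type u} [Field k] [Field K] [Algebra k K] [CommRing O] [IsDomain O]
    [IsDiscreteValuationRing O] [Algebra O K] [IsFractionRing O K] (s : k →+* O)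
    (hs : ∀ c, algebraMap O K (s c) = algebraMap k K c)
    (hres : ∀ y : O, ∃ c, y - s c ∈ maximalIdeal O) {ϖ : O} (hϖ : Irreducible ϖ) :
    ∃ (j : K →+* LaurentSeries k) (φ : O →+* k⟦X⟧), CP (algebraMap O K).range j (algebraMap O K ϖ) ∧
      (∀ y, j (algebraMap O K y) = lc k (φ y)) ∧ φ ϖ = PowerSeries.X ∧
      ∀ c, φ (s c) = PowerSeries.C c := by
  have hm : ∀ y, y ∈ maximalIdeal O ↔ ϖ ∣ y := fun y => by
    rw [hϖ.maximalIdeal_eq, Ideal.mem_span_singleton]
  obtain ⟨φ, h1, h2⟩ := GCp_hom s hϖ.ne_zero hϖ.not_isUnit fun y => by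
    obtain ⟨c, hc⟩ := hres y
    obtain ⟨z, hz⟩ := (hm _).1 hc
    exact ⟨c, z, by rw [← hz, add_sub_cancel]⟩
  have hi : Injective ((lc k).comp φ) := (injective_iff_map_eq_zero _).2 fun y hy => by
    by_contra h0
    obtain ⟨n, u, rfl⟩ := IsDiscreteValuationRing.eq_unit_mul_pow_irreducible h0 hϖ
    refine Lau_ne ?_ hy
    rw [map_mul, map_pow, h2]
    exact mul_ne_zero (u.isUnit.map φ).ne_zero (pow_ne_zero _ PowerSeries.X_ne_zero)
  have hj : ∀ y, IsFractionRing.lift (K := K) hi (algebraMap O K y) = lc k (φ y) := fun y =>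
    IsFractionRing.lift_algebraMap hi y
  refine ⟨IsFractionRing.lift hi, φ, ⟨fun c => by rw [← hs, hj, h1, GCp_C],
    fun b => ⟨?_, fun hb => ?_⟩, by rw [hj, h2]⟩, hj, h2, h1⟩
  · rintro ⟨y, rfl⟩
    exact hj y ▸ vv_lc_le _
  rcases ValuationRing.isInteger_or_isInteger O b with h | ⟨y, hy⟩
  · exact h
  by_cases hu : IsUnit y
  · obtain ⟨u, rfl⟩ := hu
    exact ⟨↑u⁻¹, by rw [map_units_inv, hy, inv_inv]⟩
  by_cases hb0 : b = 0
  · exact hb0 ▸ zero_mem _
  obtain ⟨z, rfl⟩ := (hm y).1 hu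
  have e := congrArg (fun x => vv k (IsFractionRing.lift (K := K) hi (x * b))) hy
  simp only [inv_mul_cancel₀ hb0, map_one, map_mul, hj, h2] at e
  exact absurd e (mul_lt_one_of_lt_of_le (mul_lt_one_of_lt_of_le GCp_X (vv_lc_le _)) hb).ne

variable {k : Type u} [Field k] [IsAlgClosed k] {X : Scheme.{u}} [IsIntegral X]
  (f : X ⟶ Spec (.of k)) [IsSeparated f] [SmoothOfRelativeDimension 1 f]

theorem exists_mod {c : k} {ρ : EE →* Aut X} (hρ : Injective ρ) (hρk : ∀ g, (ρ g).hom ≫ f = f)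
    {P : X} (hc : IsClosed {P}) {hP : ∀ g, (ρ g).hom P = P} {x s t : X.presheaf.stalk P}
    (h : PtD c f ρ P hP x s t) :
    ∃ (j : X.functionField →+* LaurentSeries k) (t₀ : X.functionField)
      (ρx : stab ρ P →* (k⟦X⟧ ≃ₐ[k] k⟦X⟧)) (x₀ s₀ : k⟦X⟧),
      (letI := (fa f).toAlgebra; CP (Ox P) j t₀) ∧ LA (fun h : stab ρ P => fT (ρ h)) j ρx ∧
      Mod c (ρx.comp ((MonoidHom.id EE).codRestrict (stab ρ P) hP)) x₀ s₀ := by
  letI := (fa f).toAlgebra
  obtain ⟨hN, hpr, hres⟩ := GPt.Aux.closed_principal f P hc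
  have hF : ¬IsField (X.presheaf.stalk P) := fun hF => h.t0 (by
    rw [← Ideal.mem_bot, ← IsLocalRing.isField_iff_maximalIdeal_eq.1 hF, h.max]
    exact Ideal.mem_span_singleton_self t)
  have hD : IsDiscreteValuationRing (X.presheaf.stalk P) :=
    ((IsDiscreteValuationRing.TFAE (X.presheaf.stalk P) hF).out 0 4).2 hpr
  obtain ⟨j, φ, C, hj, ht, hC⟩ := GMd_cp (K := X.functionField) (strMap f P).hom
    (fun c => fa_stalk f P c) hres ((IsDiscreteValuationRing.irreducible_iff_uniformizer t).2 h.max)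
  obtain ⟨ρx, hL⟩ := exists_la C (fun h : stab ρ P => fT (ρ h))
    ⟨fun b => (fT_ra ρ).one b, fun g h b => (fT_ra ρ).mul g h b⟩
    (fun g c => fT_fa f _ (hρk g) c)
    (fun h b hb => (fT_mem (ρ h) P b).1 (by rwa [show (ρ h).hom P = P from h.2]))
    (fun h hh => Subtype.ext (hρ ((fT_faithful f _ (hρk h) hh).trans (map_one ρ).symm)))
  have hi : Injective (lc k) := HahnSeries.ofPowerSeries_injective
  have key : ∀ (g : EE) y, ρx ⟨g, hP g⟩ (φ y) = φ ((locMap (ρ g⁻¹).hom P (hP _)).hom y) :=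
    fun g y => hi (by
      rw [← hL.2 ⟨g, hP g⟩ _ _ (hj y), ← hj, ← fT_locMap]
      rfl)
  have hm : ∀ y ∈ maximalIdeal (X.presheaf.stalk P), PowerSeries.constantCoeff (φ y) = 0 :=
    fun y hy => by
      rw [h.max, Ideal.mem_span_singleton] at hy
      obtain ⟨z, rfl⟩ := hy
      rw [map_mul, ht, map_mul, PowerSeries.constantCoeff_X, zero_mul]
  have e1 := congrArg φ h.rel.1
  have e2 := congrArg φ h.rel.2
  simp only [map_sub, map_mul, map_pow, map_TT, ht] at e1 e2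
  refine ⟨j, _, ρx, φ x, φ s, C, hL, hm x h.xm, hm s h.sm, e1, e2, ?_, ?_, ?_, ?_, ?_, ?_⟩
  · exact (key ta x).trans (by rw [h.tx])
  · exact (key ta s).trans (by rw [h.ts])
  · rw [← ht]
    exact (key ta t).trans (by rw [h.tt, map_add, map_pow])
  · exact (key sg x).trans (by rw [h.sx])
  · exact (key sg s).trans (by rw [h.ss, map_add, map_pow])
  · rw [← ht]
    exact (key sg t).trans (by rw [h.st, map_ST, hC])

end Pool.Agent.MP_deef5c_ag.E
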