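import Pool.Agent.MP_deef5c_ag.E.GProj

/-! The curve is projective. -/

open CategoryTheory AlgebraicGeometry IsLocalRing Function Pool.Agent.MP_deef5c_ag.O
open scoped Polynomial PowerSeries

namespace Pool.Agent.MP_deef5c_ag.E

universe u

variable {k B₁ B₂ L : Type u} [Field k] [CommRing B₁] [CommRing B₂] [CommRing L] [Algebra k B₁]
  [Algebra k B₂] [Algebra k L] [Algebra B₁ L] [Algebra B₂ L] {X : Scheme.{u}}
  {i₁ : Spec (.of B₁) ⟶ X} {i₂ : Spec (.of B₂) ⟶ X}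

theorem proj_ex {c : k} {w y₁ y₂ : B₁} {x s t : B₂} (p₁ : P1 c w y₁ y₂) (p₂ : P2 k x s t)
    (T : TC k L w x) (hs : algebraMap B₂ L s = algebraMap B₁ L y₂ * algebraMap B₂ L x ^ 3)
    (ht : algebraMap B₂ L t = algebraMap B₂ L s ^ 3 *
      (algebraMap B₁ L y₁ - (algebraMap k L c + algebraMap B₂ L s) * algebraMap B₁ L y₂))
    (G : Gl2 (sp (algebraMap B₁ L)) (sp (algebraMap B₂ L)) i₁ i₂) (f : X ⟶ Spec (.of k))
    (h₁ : i₁ ≫ f = sp (algebraMap k B₁)) (h₂ : i₂ ≫ f = sp (algebraMap k B₂)) [IsProper f] :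
    IsProj f := by
  have := T.t1
  have := T.t2
  have hi := T.inv
  have hr := congrArg (algebraMap B₂ L) p₂.rel.1
  simp only [map_sub, map_mul, map_pow] at hr
  refine proj_gl T G f h₁ h₂ (N := 7) (m := 12) (by norm_num)
    ![w ^ 12, 1, w ^ 11, y₂ * w ^ 9, y₂ ^ 3 * w ^ 3 * (y₁ - algebraMap k B₁ c * y₂) - y₂ ^ 5, w, y₂, y₁]
    ![1, x ^ 12, x, s, t, x ^ 11, x ^ 9 * s,
      x ^ 9 * t * (s ^ 2 - x ^ 6) ^ 3 + (algebraMap k B₂ c + s) * s * x ^ 9] 0 1 rfl rfl rfl rfl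
    (fun i => ?_) ?_ ?_
  · have hn : ∀ n, algebraMap B₂ L x ^ n * algebraMap B₁ L w ^ n = 1 := fun n => by
      rw [← mul_pow, mul_comm, hi, one_pow]
    fin_cases i <;> simp only [Fin.reduceFinMk, Matrix.cons_val, map_sub, map_add, map_mul, map_pow,
      map_one, ← IsScalarTower.algebraMap_apply]
    · linear_combination -hn 12
    · ring
    · linear_combination -algebraMap B₂ L x * hn 11
    · linear_combination hs - algebraMap B₂ L x ^ 3 * algebraMap B₁ L y₂ * hn 9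
    · rw [ht, hs]
      linear_combination -algebraMap B₂ L x ^ 9 * algebraMap B₁ L y₂ ^ 3 *
        (algebraMap B₁ L y₁ - algebraMap k L c * algebraMap B₁ L y₂) * hn 3
    · linear_combination -algebraMap B₂ L x ^ 11 * hn 1
    · linear_combination algebraMap B₂ L x ^ 9 * hs
    · have h3 : (algebraMap B₂ L s * (algebraMap B₂ L s ^ 2 - algebraMap B₂ L x ^ 6)) ^ 3 =
          algebraMap B₂ L x ^ 3 := congrArg (· ^ 3) (by linear_combination hr)
      rw [ht]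
      linear_combination algebraMap B₂ L x ^ 9 * (algebraMap B₁ L y₁ -
        (algebraMap k L c + algebraMap B₂ L s) * algebraMap B₁ L y₂) * h3 +
        (algebraMap k L c + algebraMap B₂ L s) * algebraMap B₂ L x ^ 9 * hs
  · rw [eq_top_iff, ← p₁.gen]
    refine Algebra.adjoin_mono ?_
    rintro _ (rfl | rfl | rfl)
    exacts [⟨5, rfl⟩, ⟨7, rfl⟩, ⟨6, rfl⟩]
  · rw [eq_top_iff, ← p₂.gen]
    refine Algebra.adjoin_mono ?_
    rintro _ (rfl | rfl | rfl)
    exacts [⟨2, rfl⟩, ⟨3, rfl⟩, ⟨4, rfl⟩]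

end Pool.Agent.MP_deef5c_ag.E
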