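import Mathlib

open CategoryTheory AlgebraicGeometry

universe u

namespace Pool.Agent.MP_deef5c_ag.E

attribute [local instance] MvPolynomial.gradedAlgebra

/-- `f : X ⟶ Spec k` is projective: it factors through a closed immersion into some projective space
`P^N = Proj k[X_0, ..., X_N]`. -/
def IsProj {k : Type u} [Field k] {X : Scheme.{u}} (f : X ⟶ Spec (.of k)) : Prop :=
  ∃ (N : ℕ) (i : X ⟶ Proj (MvPolynomial.homogeneousSubmodule (Fin (N + 1)) k)),
    IsClosedImmersion i ∧ i ≫ Proj.toSpecZero _ ≫ Spec.map (CommRingCat.ofHom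
      (algebraMap k (MvPolynomial.homogeneousSubmodule (Fin (N + 1)) k 0))) = f

end Pool.Agent.MP_deef5c_ag.E
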