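import Pool.Agent.MP_deef5c_ag.E.DefsG
import Pool.Agent.MP_deef5c_ag.E.PDef

/-! A projective embedding of a curve with two charts. -/

open CategoryTheory AlgebraicGeometry IsLocalRing Function Pool.Agent.MP_deef5c_ag.O
open scoped Polynomial PowerSeries

namespace Pool.Agent.MP_deef5c_ag.E

universe u

section Aux

open HomogeneousLocalization

variable {σ : Type*} {A B B' L : Type u} [CommRing A] [SetLike σ A] [AddSubgroupClass σ A]
  (𝒜 : ℕ → σ) [GradedRing 𝒜] [CommRing B] [CommRing B'] [CommRing L]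

/-- the chart map attached to `φ` -/
noncomputable def GProj_psi (φ : A →+* B) (a : A) (h : IsUnit (φ a)) : Away 𝒜 a →+* B :=
  (IsLocalization.Away.lift a h : Localization.Away a →+* B).comp (algebraMap _ _)

theorem GProj_mk (φ : A →+* B) {a : A} (h : IsUnit (φ a)) {d : ℕ} (ha : a ∈ 𝒜 d) (n : ℕ) (p : A)
    (hp : p ∈ 𝒜 (n • d)) : GProj_psi 𝒜 φ a h (Away.mk 𝒜 ha n p hp) * φ a ^ n = φ p := by
  rw [GProj_psi, RingHom.comp_apply, HomogeneousLocalization.algebraMap_apply, Away.val_mk,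
    ← IsLocalization.Away.lift_eq (S := Localization.Away a) a h a,
    ← IsLocalization.Away.lift_eq (S := Localization.Away a) a h p, ← map_pow, ← map_mul,
    ← map_pow, Localization.mk_eq_mk']
  congr 1
  exact IsLocalization.mk'_spec _ p (⟨a ^ n, n, rfl⟩ : Submonoid.powers a)

theorem GProj_zero (φ : A →+* B) {a : A} (h : IsUnit (φ a)) (r : 𝒜 0) :
    GProj_psi 𝒜 φ a h (fromZeroRingHom 𝒜 _ r) = φ r := by
  rw [GProj_psi, RingHom.comp_apply, ← HomogeneousLocalization.algebraMap_eq,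
    ← IsScalarTower.algebraMap_apply, IsScalarTower.algebraMap_apply (𝒜 0) A,
    IsLocalization.Away.lift_eq]
  rfl

theorem GProj_comp (φ : A →+* B) (θ : B →+* L) (φL : A →+* L) {u : L} (hu : IsUnit u)
    (hθ : ∀ n, ∀ p ∈ 𝒜 n, θ (φ p) = u ^ n * φL p) {a g x : A} (ha : a ∈ 𝒜 1) (hg : g ∈ 𝒜 1)
    (hx : x = a * g) (h : IsUnit (φ a)) (hL : IsUnit (φL x)) :
    (GProj_psi 𝒜 φL x hL).comp (awayMap 𝒜 hg hx) = θ.comp (GProj_psi 𝒜 φ a h) := by
  ext z
  obtain ⟨n, p, hp, rfl⟩ := Away.mk_surjective 𝒜 ha z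
  rw [RingHom.comp_apply, RingHom.comp_apply, awayMap_mk]
  refine (hL.pow n).mul_right_cancel ((hu.pow n).mul_left_cancel ?_)
  have h1 := congrArg θ (GProj_mk 𝒜 φ h ha n p hp)
  rw [map_mul, map_pow, hθ 1 a ha, hθ _ p hp, smul_eq_mul, mul_one, pow_one] at h1
  rw [GProj_mk, hx, map_mul, map_mul, map_pow]
  linear_combination -(φL g ^ n) * h1

theorem GProj_glue (φ : A →+* B) (φ' : A →+* B') (θ : B →+* L) (θ' : B' →+* L) {u : L}
    (hu : IsUnit u) (hθ : ∀ n, ∀ p ∈ 𝒜 n, θ' (φ' p) = u ^ n * θ (φ p)) {a b : A} (ha : a ∈ 𝒜 1)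
    (hb : b ∈ 𝒜 1) (h : IsUnit (φ b)) (h' : IsUnit (φ' a)) (hL : IsUnit (θ (φ a))) :
    sp θ ≫ sp (GProj_psi 𝒜 φ b h) ≫ Proj.awayι 𝒜 b hb one_pos =
      sp θ' ≫ sp (GProj_psi 𝒜 φ' a h') ≫ Proj.awayι 𝒜 a ha one_pos := by
  have hx : IsUnit ((θ.comp φ) (b * a)) := by
    rw [map_mul]
    exact (h.map θ).mul hL
  have e1 := GProj_comp 𝒜 φ θ (θ.comp φ) isUnit_one (fun n p _ => by simp) hb ha rfl h hx
  have e2 := GProj_comp 𝒜 φ' θ' (θ.comp φ) hu hθ ha hb (mul_comm b a) h' hx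
  rw [← Spec.map_comp_assoc, ← Spec.map_comp_assoc, ← CommRingCat.ofHom_comp,
    ← CommRingCat.ofHom_comp, ← e1, ← e2, CommRingCat.ofHom_comp, CommRingCat.ofHom_comp,
    Spec.map_comp_assoc, Spec.map_comp_assoc, Proj.SpecMap_awayMap_awayι,
    Proj.SpecMap_awayMap_awayι]

theorem GProj_pre [Algebra B L] {X : Scheme.{u}} {j : Spec (.of B) ⟶ X} {j' : Spec (.of B') ⟶ X}
    [IsOpenImmersion j'] {θ' : B' →+* L} (hw : sp (algebraMap B L) ≫ j = sp θ' ≫ j')
    (cov : ∀ z : X, (∃ p, j p = z) ∨ ∃ q, j' q = z) (w : B) [IsLocalization.Away w L] {m : ℕ}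
    (hm : 0 < m) (φ : A →+* B) {a b : A} (ha : a ∈ 𝒜 1) (hb : b ∈ 𝒜 1) (hb1 : φ b = 1)
    (ha1 : φ a = w ^ m) (h : IsUnit (φ b)) (i : X ⟶ Proj 𝒜)
    (hi : j ≫ i = sp (GProj_psi 𝒜 φ b h) ≫ Proj.awayι 𝒜 b hb one_pos)
    (g : Spec (.of B') ⟶ Spec (.of (Away 𝒜 a))) (hi' : j' ≫ i = g ≫ Proj.awayι 𝒜 a ha one_pos) :
    i ⁻¹ᵁ (Proj.awayι 𝒜 a ha one_pos).opensRange = j'.opensRange := by
  ext z
  constructor
  · intro hz
    rcases cov z with ⟨p, rfl⟩ | hq
    · have h1 : p ∈ (j ≫ i) ⁻¹ᵁ Proj.basicOpen 𝒜 a := by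
        rw [← Proj.opensRange_awayι 𝒜 a ha one_pos]
        exact hz
      rw [hi, Scheme.Hom.comp_preimage, Proj.awayι_preimage_basicOpen 𝒜 hb one_pos ha one_pos] at h1
      have h2 : GProj_psi 𝒜 φ b h (Away.isLocalizationElem hb ha) ∉ p.asIdeal := h1
      have h3 : GProj_psi 𝒜 φ b h (Away.isLocalizationElem hb ha) = w ^ m := by
        have := GProj_mk 𝒜 φ h hb 1 (a ^ 1) (by simpa using ha)
        rw [hb1, one_pow, mul_one] at this
        exact this.trans (by rw [pow_one, ha1])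
      rw [h3] at h2
      have h4 : p ∈ Set.range (PrimeSpectrum.comap (algebraMap B L)) := by
        rw [PrimeSpectrum.localization_away_comap_range L w]
        exact fun hw => h2 (Ideal.pow_mem_of_mem _ hw _ hm)
      obtain ⟨r, hr⟩ : ∃ r : Spec (.of L), sp (algebraMap B L) r = p := h4
      refine ⟨sp θ' r, ?_⟩
      rw [← Scheme.Hom.comp_apply, ← hw, Scheme.Hom.comp_apply, hr]
    · exact hq
  · rintro ⟨q, rfl⟩
    refine ⟨g q, ?_⟩
    rw [← Scheme.Hom.comp_apply, ← hi', Scheme.Hom.comp_apply]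

theorem GProj_res {U V X Y : Scheme.{u}} (g : U ⟶ V) (iU : U ⟶ X) (iV : V ⟶ Y) (f : X ⟶ Y)
    [IsOpenImmersion iU] [IsOpenImmersion iV] (H : iU ≫ f = g ≫ iV)
    (H' : f ⁻¹ᵁ iV.opensRange = iU.opensRange) [IsClosedImmersion g] :
    IsImmersion (f ∣_ iV.opensRange) := by
  have h := IsOpenImmersion.isPullback g iU iV f H H'
  have : MorphismProperty.RespectsIso @IsImmersion.{u} := by
    apply MorphismProperty.RespectsIso.mk <;> intro X Y Z e f hf <;> infer_instance
  refine (MorphismProperty.arrow_mk_iso_iff (P := @IsImmersion.{u})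
    (morphismRestrictOpensRange f iV)).2 ?_
  rw [← h.flip.isoPullback_inv_snd]
  infer_instance

theorem GProj_hom {k ι : Type*} [CommRing k] [Algebra k L] (u : L) (G : ι → L) {n : ℕ}
    {p : MvPolynomial ι k} (hp : p.IsHomogeneous n) :
    MvPolynomial.aeval (fun i => u * G i) p = u ^ n * MvPolynomial.aeval G p := by
  rw [MvPolynomial.aeval_def, MvPolynomial.aeval_def, MvPolynomial.eval₂_eq,
    MvPolynomial.eval₂_eq, Finset.mul_sum]
  refine Finset.sum_congr rfl fun d hd => ?_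
  have h1 : ∑ i ∈ d.support, d i = n := by
    have := hp (MvPolynomial.mem_support_iff.1 hd)
    simpa [Finsupp.weight_apply, Finsupp.sum] using this
  simp only [mul_pow, Finset.prod_mul_distrib, Finset.prod_pow_eq_pow_sum, h1]
  ring

attribute [local instance] MvPolynomial.gradedAlgebra

theorem GProj_surj {k : Type u} {ι : Type} [CommRing k] [Algebra k B] (H : ι → B) (b : ι) (Hb : H b = 1)
    (gH : Algebra.adjoin k (Set.range H) = ⊤)
    (h : IsUnit ((MvPolynomial.aeval H : MvPolynomial ι k →ₐ[k] B).toRingHom (MvPolynomial.X b))) :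
    Surjective (GProj_psi (MvPolynomial.homogeneousSubmodule ι k) _ _ h) := by
  intro y
  have hy : y ∈ Algebra.adjoin k (Set.range H) := gH ▸ Algebra.mem_top
  change y ∈ (GProj_psi (MvPolynomial.homogeneousSubmodule ι k) _ _ h).range
  induction hy using Algebra.adjoin_induction with
  | mem y hy =>
    obtain ⟨i, rfl⟩ := hy
    have := GProj_mk (MvPolynomial.homogeneousSubmodule ι k) _ h (d := 1)
      (MvPolynomial.isHomogeneous_X k b) 1 (MvPolynomial.X i) (MvPolynomial.isHomogeneous_X k i)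
    exact ⟨_, by simpa [Hb] using this⟩
  | algebraMap r =>
    refine ⟨_, (GProj_zero (MvPolynomial.homogeneousSubmodule ι k) _ h
      ⟨MvPolynomial.C r, MvPolynomial.isHomogeneous_C ι r⟩).trans ?_⟩
    simp
  | add y z _ _ hy hz => exact add_mem hy hz
  | mul y z _ _ hy hz => exact mul_mem hy hz

theorem GProj_str {k : Type u} {ι : Type} [CommRing k] [Algebra k B] (H : ι → B) (b : ι)
    (h : IsUnit ((MvPolynomial.aeval H : MvPolynomial ι k →ₐ[k] B).toRingHom (MvPolynomial.X b)))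
    (hb : MvPolynomial.X b ∈ MvPolynomial.homogeneousSubmodule ι k 1) :
    (sp (GProj_psi (MvPolynomial.homogeneousSubmodule ι k) _ _ h) ≫
      Proj.awayι (MvPolynomial.homogeneousSubmodule ι k) _ hb one_pos) ≫ Proj.toSpecZero _ ≫
      Spec.map (CommRingCat.ofHom (algebraMap k (MvPolynomial.homogeneousSubmodule ι k 0))) =
      sp (algebraMap k B) := by
  rw [Category.assoc, Proj.awayι_toSpecZero_assoc, ← Spec.map_comp, ← Spec.map_comp,
    ← CommRingCat.ofHom_comp, ← CommRingCat.ofHom_comp]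
  congr 2
  ext r
  rw [RingHom.comp_apply, RingHom.comp_apply, GProj_zero]
  simp

end Aux

attribute [local instance] MvPolynomial.gradedAlgebra

variable {k B₁ B₂ L : Type u} [Field k] [CommRing B₁] [CommRing B₂] [CommRing L] [Algebra k B₁]
  [Algebra k B₂] [Algebra k L] [Algebra B₁ L] [Algebra B₂ L] {X : Scheme.{u}}
  {i₁ : Spec (.of B₁) ⟶ X} {i₂ : Spec (.of B₂) ⟶ X}

/-- Let `𝒜 = homogeneousSubmodule (Fin (N + 1)) k` (with `attribute [local instance] MvPolynomial.gradedAlgebra`).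
For a `k`-algebra `B`, `F : Fin (N + 1) → B` and homogeneous `a` with `aeval F a` a unit, let
`ψ : HomogeneousLocalization.Away 𝒜 a →+* B` be `val` followed by `IsLocalization.Away.lift`; it does not change
when `F` is multiplied by a unit (homogeneity).  Glue `sp ψ₁ ≫ Proj.awayι 𝒜 (X b)` and `sp ψ₂ ≫ Proj.awayι 𝒜 (X a)`
with `G.po.desc`: on `Spec L` both factor through `awayι 𝒜 (X a * X b)` (`Proj.SpecMap_awayMap_awayι`).  The
`ψ` are surjective, so the `sp ψ` are closed immersions.  The preimage of `basicOpen (X a)` is the range of `i₂`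
(a prime of `B₁` not containing `w` comes from `L`; `Proj.awayι_preimage_basicOpen`), likewise for `b`; so the
squares are cartesian (`IsOpenImmersion.isPullback`) and `i` is an immersion
(`IsZariskiLocalAtTarget.of_range_subset_iSup`).  It is proper (`IsProper.of_comp`, `Proj.toSpecZero` is separated,
and so is any `Spec.map`), so its range is closed: `IsClosedImmersion.of_isPreimmersion`. -/
theorem proj_gl {w : B₁} {x : B₂} (T : TC k L w x)
    (G : Gl2 (sp (algebraMap B₁ L)) (sp (algebraMap B₂ L)) i₁ i₂) (f : X ⟶ Spec (.of k))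
    (h₁ : i₁ ≫ f = sp (algebraMap k B₁)) (h₂ : i₂ ≫ f = sp (algebraMap k B₂)) [IsProper f] {N m : ℕ}
    (hm : 0 < m) (H : Fin (N + 1) → B₁) (F : Fin (N + 1) → B₂) (a b : Fin (N + 1)) (Ha : H a = w ^ m)
    (Hb : H b = 1) (Fa : F a = 1) (Fb : F b = x ^ m)
    (hc : ∀ i, algebraMap B₂ L (F i) = algebraMap B₂ L x ^ m * algebraMap B₁ L (H i))
    (gH : Algebra.adjoin k (Set.range H) = ⊤) (gF : Algebra.adjoin k (Set.range F) = ⊤) :
    IsProj f := by
  have := T.t1
  have := T.t2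
  have := T.l1
  have := T.l2
  have := G.o1
  have := G.o2
  let 𝒜 := MvPolynomial.homogeneousSubmodule (Fin (N + 1)) k
  let φ₁ := (MvPolynomial.aeval H : MvPolynomial (Fin (N + 1)) k →ₐ[k] B₁).toRingHom
  let φ₂ := (MvPolynomial.aeval F : MvPolynomial (Fin (N + 1)) k →ₐ[k] B₂).toRingHom
  have e1 : ∀ i, φ₁ (MvPolynomial.X i) = H i := fun i => MvPolynomial.aeval_X H i
  have e2 : ∀ i, φ₂ (MvPolynomial.X i) = F i := fun i => MvPolynomial.aeval_X F i
  have u1 : IsUnit (φ₁ (MvPolynomial.X b)) := by rw [e1, Hb]; exact isUnit_one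
  have u2 : IsUnit (φ₂ (MvPolynomial.X a)) := by rw [e2, Fa]; exact isUnit_one
  have dX : ∀ i, MvPolynomial.X i ∈ 𝒜 1 := fun i => MvPolynomial.isHomogeneous_X k i
  have hglue := GProj_glue 𝒜 φ₁ φ₂ (algebraMap B₁ L) (algebraMap B₂ L)
    (u := algebraMap B₂ L x ^ m) ((IsLocalization.Away.algebraMap_isUnit x).pow m)
    (fun n p hp => by
      have h1 : algebraMap B₂ L (φ₂ p) = MvPolynomial.aeval (fun i => algebraMap B₂ L (F i)) p :=
        (MvPolynomial.aeval_algebraMap_apply L F p).symm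
      have h2 : algebraMap B₁ L (φ₁ p) = MvPolynomial.aeval (fun i => algebraMap B₁ L (H i)) p :=
        (MvPolynomial.aeval_algebraMap_apply L H p).symm
      rw [h1, h2, funext hc]
      exact GProj_hom _ _ hp)
    (dX a) (dX b) u1 u2 (by
      rw [e1, Ha, map_pow]
      exact (IsLocalization.Away.algebraMap_isUnit w).pow m)
  let i := G.po.desc _ _ hglue
  have hi1 := G.po.inl_desc _ _ hglue
  have hi2 := G.po.inr_desc _ _ hglue
  have hf : i ≫ Proj.toSpecZero _ ≫ Spec.map (CommRingCat.ofHom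
      (algebraMap k (MvPolynomial.homogeneousSubmodule (Fin (N + 1)) k 0))) = f := by
    refine G.po.hom_ext ?_ ?_
    · rw [← Category.assoc, hi1, h₁]
      exact GProj_str H b u1 _
    · rw [← Category.assoc, hi2, h₂]
      exact GProj_str F a u2 _
  refine ⟨N, i, ?_, hf⟩
  have p2 := GProj_pre 𝒜 G.po.w G.cov w hm φ₁ (dX a) (dX b) (by rw [e1, Hb]) (by rw [e1, Ha]) u1
    i hi1 _ hi2
  have p1 := GProj_pre 𝒜 G.po.w.symm (fun z => (G.cov z).symm) x hm φ₂ (dX b) (dX a)
    (by rw [e2, Fa]) (by rw [e2, Fb]) u2 i hi2 _ hi1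
  have c1 : IsClosedImmersion (sp (GProj_psi 𝒜 φ₁ _ u1)) :=
    IsClosedImmersion.spec_of_surjective _ (GProj_surj H b Hb gH u1)
  have c2 : IsClosedImmersion (sp (GProj_psi 𝒜 φ₂ _ u2)) :=
    IsClosedImmersion.spec_of_surjective _ (GProj_surj F a Fa gF u2)
  have r1 := GProj_res _ _ _ i hi1 p1
  have r2 := GProj_res _ _ _ i hi2 p2
  have : MorphismProperty.RespectsRight @IsImmersion.{u} @IsOpenImmersion.{u} :=
    ⟨fun j hj g hg => inferInstance⟩
  have : IsImmersion i := by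
    refine IsZariskiLocalAtTarget.of_range_subset_iSup (P := @IsImmersion)
      (fun t : Bool => cond t (Proj.awayι 𝒜 _ (dX b) one_pos).opensRange
        (Proj.awayι 𝒜 _ (dX a) one_pos).opensRange) ?_ ?_
    · rintro _ ⟨z, rfl⟩
      simp only [TopologicalSpace.Opens.coe_iSup, Set.mem_iUnion]
      rcases G.cov z with hz | hz
      · refine ⟨true, ?_⟩
        have : z ∈ i ⁻¹ᵁ (Proj.awayι 𝒜 _ (dX b) one_pos).opensRange := by
          rw [p1]; exact hz
        exact this
      · refine ⟨false, ?_⟩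
        have : z ∈ i ⁻¹ᵁ (Proj.awayι 𝒜 _ (dX a) one_pos).opensRange := by
          rw [p2]; exact hz
        exact this
    · rintro (_ | _)
      · exact r2
      · exact r1
  have : IsProper i := by
    have : IsProper (i ≫ Proj.toSpecZero _ ≫ Spec.map (CommRingCat.ofHom
        (algebraMap k (MvPolynomial.homogeneousSubmodule (Fin (N + 1)) k 0)))) := by
      rw [hf]; infer_instance
    exact IsProper.of_comp i (Proj.toSpecZero _ ≫ Spec.map (CommRingCat.ofHom
      (algebraMap k (MvPolynomial.homogeneousSubmodule (Fin (N + 1)) k 0))))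
  exact IsClosedImmersion.of_isPreimmersion i i.isClosedMap.isClosed_range

end Pool.Agent.MP_deef5c_ag.E
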