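import Pool.Agent.MP_deef5c_ag.E.DefsG

/-! Properness by the valuative criterion. -/

open CategoryTheory AlgebraicGeometry IsLocalRing Function Pool.Agent.MP_deef5c_ag.O
open scoped Polynomial PowerSeries

namespace Pool.Agent.MP_deef5c_ag.E

universe u

variable {k B₁ B₂ L : Type u} [Field k] [CommRing B₁] [CommRing B₂] [CommRing L] [Algebra k B₁]
  [Algebra k B₂] [Algebra k L] [Algebra B₁ L] [Algebra B₂ L] {X : Scheme.{u}}
  {i₁ : Spec (.of B₁) ⟶ X} {i₂ : Spec (.of B₂) ⟶ X}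

theorem GProp_comp {A B C : Type u} [CommRing A] [CommRing B] [CommRing C] (φ : A →+* B)
    (ψ : B →+* C) : sp ψ ≫ sp φ = sp (ψ.comp φ) := by
  rw [sp, sp, sp, ← Spec.map_comp, CommRingCat.ofHom_comp]

theorem GProp_inj {A B : Type u} [CommRing A] [CommRing B] {φ ψ : A →+* B} (h : sp φ = sp ψ) :
    φ = ψ := by
  have := Spec.map_injective h
  exact congrArg CommRingCat.Hom.hom this

theorem GProp_sur {A B : Type u} [CommRing A] [CommRing B] (g : Spec (.of B) ⟶ Spec (.of A)) :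
    ∃ φ : A →+* B, sp φ = g :=
  ⟨(Spec.preimage g).hom, Spec.map_preimage g⟩

theorem GProp_fac {B R : Type u} [CommRing B] [CommRing R] [IsLocalRing R] {Y : Scheme.{u}}
    (i : Spec (.of B) ⟶ Y) [IsOpenImmersion i] (g : Spec (.of R) ⟶ Y)
    (h : ∃ p, i p = g (closedPoint R)) : ∃ φ : B →+* R, sp φ ≫ i = g := by
  have H : Set.range g ⊆ Set.range i := by
    rintro _ ⟨q, rfl⟩
    have h1 : g q ⤳ g (closedPoint R) := (specializes_closedPoint q).map g.continuous
    exact h1.mem_open i.isOpenEmbedding.isOpen_range h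
  obtain ⟨φ, hφ⟩ := GProp_sur (IsOpenImmersion.lift i g H)
  exact ⟨φ, by rw [hφ, IsOpenImmersion.lift_fac]⟩

theorem GProp_symT {w : B₁} {x : B₂} (T : TC k L w x) : TC k L x w :=
  ⟨T.t2, T.t1, T.l2, T.l1, by rw [mul_comm, T.inv], T.f2, T.f1, T.i2, T.i1⟩

theorem GProp_symG {U Y₁ Y₂ Y : Scheme.{u}} {a : U ⟶ Y₁} {b : U ⟶ Y₂} {j₁ : Y₁ ⟶ Y} {j₂ : Y₂ ⟶ Y}
    (G : Gl2 a b j₁ j₂) : Gl2 b a j₂ j₁ :=
  ⟨G.po.flip, G.o2, G.o1, fun z => (G.cov z).symm, fun p q h => by
    obtain ⟨r, h1, h2⟩ := G.ov q p h.symm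
    exact ⟨r, h2, h1⟩⟩

theorem GProp_switch {w : B₁} {x : B₂} (T : TC k L w x)
    (G : Gl2 (sp (algebraMap B₁ L)) (sp (algebraMap B₂ L)) i₁ i₂) {A : Type u} [CommRing A]
    (φ : B₂ →+* A) (h : IsUnit (φ x)) :
    ∃ φ' : B₁ →+* A, sp φ' ≫ i₁ = sp φ ≫ i₂ ∧ φ' w * φ x = 1 := by
  have := T.l2
  let ψ : L →+* A := IsLocalization.Away.lift x h
  have hψ : ψ.comp (algebraMap B₂ L) = φ := IsLocalization.Away.lift_comp x h
  refine ⟨ψ.comp (algebraMap B₁ L), ?_, ?_⟩
  · rw [← hψ, ← GProp_comp, ← GProp_comp, Category.assoc, Category.assoc, G.po.w]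
  · rw [← hψ, RingHom.comp_apply, RingHom.comp_apply, ← map_mul, T.inv, map_one]

theorem GProp_lift {A R K : Type u} [CommRing A] [CommRing R] [CommRing K] (a : R →+* K)
    (ha : Injective a) (φ : A →+* K) (h : ∀ b, ∃ r, a r = φ b) : ∃ θ : A →+* R, a.comp θ = φ := by
  choose θ hθ using h
  refine ⟨⟨⟨⟨θ, ha ?_⟩, fun b c => ha ?_⟩, ha ?_, fun b c => ha ?_⟩, RingHom.ext hθ⟩
  all_goals simp only [hθ, map_one, map_mul, map_zero, map_add]

theorem GProp_int {B R K : Type u} [CommRing B] [Algebra k B] [CommRing R] [IsDomain R]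
    [ValuationRing R] [Field K] [Algebra R K] [IsFractionRing R K] {x : B}
    (hi : ∀ b : B, IsIntegral (Algebra.adjoin k {x}) b) (φ : B →+* K) (κ : k →+* R)
    (hκ : (algebraMap R K).comp κ = φ.comp (algebraMap k B)) (hx : ∃ r, algebraMap R K r = φ x) :
    ∃ θ : B →+* R, (algebraMap R K).comp θ = φ := by
  have ha : Injective (algebraMap R K) := IsFractionRing.injective R K
  have h1 : ∀ b ∈ Algebra.adjoin k {x}, φ b ∈ (algebraMap R K).range := by
    intro b hb
    induction hb using Algebra.adjoin_induction with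
    | mem y hy => rw [Set.mem_singleton_iff.1 hy]; exact hx
    | algebraMap c => exact ⟨κ c, RingHom.congr_fun hκ c⟩
    | add y z _ _ hy hz => rw [map_add]; exact add_mem hy hz
    | mul y z _ _ hy hz => rw [map_mul]; exact mul_mem hy hz
  obtain ⟨θ, hθ⟩ := GProp_lift (algebraMap R K) ha
    (φ.comp (algebraMap (Algebra.adjoin k {x}) B)) fun b => h1 b.1 b.2
  refine GProp_lift _ ha φ fun b => ?_
  exact IsIntegrallyClosed.isIntegral_iff.1 ((hi b).map_of_comp_eq θ φ hθ)

theorem GProp_ex1 {B : Type u} [CommRing B] [Algebra k B] {x : B}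
    (hi : ∀ b : B, IsIntegral (Algebra.adjoin k {x}) b) {i : Spec (.of B) ⟶ X}
    {f : X ⟶ Spec (.of k)} (h : i ≫ f = sp (algebraMap k B)) (S : ValuativeCommSq f)
    (φ : B →+* S.K) (hφ : sp φ ≫ i = S.i₁) (hx : ∃ r, algebraMap S.R S.K r = φ x) :
    S.commSq.HasLift := by
  obtain ⟨κ, hκ⟩ := GProp_sur S.i₂
  have h1 : (algebraMap S.R S.K).comp κ = φ.comp (algebraMap k B) := by
    apply GProp_inj
    rw [← GProp_comp, ← GProp_comp, hκ, ← h, ← Category.assoc, hφ]
    exact S.commSq.w.symm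
  obtain ⟨θ, hθ⟩ := GProp_int hi φ κ h1 hx
  refine CommSq.HasLift.mk' ⟨sp θ ≫ i, ?_, ?_⟩
  · rw [← hφ, ← hθ, ← GProp_comp, Category.assoc]
  · rw [Category.assoc, h, GProp_comp, ← hκ]
    congr 1
    ext c
    apply IsFractionRing.injective S.R S.K
    have := RingHom.congr_fun h1 c
    rw [← hθ] at this
    exact this.symm

theorem GProp_ex2 {w : B₁} {x : B₂} (T : TC k L w x)
    (G : Gl2 (sp (algebraMap B₁ L)) (sp (algebraMap B₂ L)) i₁ i₂) {f : X ⟶ Spec (.of k)}
    (h₁ : i₁ ≫ f = sp (algebraMap k B₁)) (h₂ : i₂ ≫ f = sp (algebraMap k B₂))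
    (S : ValuativeCommSq f) (h : ∃ p, i₂ p = S.i₁ (closedPoint S.K)) : S.commSq.HasLift := by
  have := G.o2
  obtain ⟨φ, hφ⟩ := GProp_fac i₂ S.i₁ h
  by_cases hx : ∃ r, algebraMap S.R S.K r = φ x
  · exact GProp_ex1 T.i2 h₂ S φ hφ hx
  have h0 : φ x ≠ 0 := fun h0 => hx ⟨0, by rw [h0, map_zero]⟩
  obtain ⟨φ', h1, h2⟩ := GProp_switch T G φ h0.isUnit
  refine GProp_ex1 T.i1 h₁ S φ' (h1.trans hφ) ?_
  rw [eq_inv_of_mul_eq_one_left h2]
  exact (ValuationRing.isInteger_or_isInteger S.R (φ x)).resolve_left hx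

theorem GProp_un1 {B R K : Type u} [CommRing B] [CommRing R] [CommRing K] {a : R →+* K}
    (ha : Injective a) (i : Spec (.of B) ⟶ X) [IsOpenImmersion i] {φ φ' : B →+* R}
    (h : sp a ≫ sp φ ≫ i = sp a ≫ sp φ' ≫ i) : sp φ ≫ i = sp φ' ≫ i := by
  rw [← Category.assoc, ← Category.assoc, cancel_mono, GProp_comp, GProp_comp] at h
  have := GProp_inj h
  have e : φ = φ' := RingHom.ext fun b => ha (RingHom.congr_fun this b)
  rw [e]

theorem GProp_un2 {w : B₁} {x : B₂} (T : TC k L w x)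
    (G : Gl2 (sp (algebraMap B₁ L)) (sp (algebraMap B₂ L)) i₁ i₂) {R K : Type u} [CommRing R]
    [Field K] {a : R →+* K} (ha : Injective a) {φ₁ : B₁ →+* R} {φ₂ : B₂ →+* R}
    (h : sp a ≫ sp φ₁ ≫ i₁ = sp a ≫ sp φ₂ ≫ i₂) : sp φ₁ ≫ i₁ = sp φ₂ ≫ i₂ := by
  have := G.o1
  have := G.o2
  have := T.l1
  have : IsOpenImmersion (sp (algebraMap B₁ L)) := IsOpenImmersion.of_isLocalization w
  have h' := h
  rw [← Category.assoc, ← Category.assoc, GProp_comp, GProp_comp] at h'
  obtain ⟨r, hr, -⟩ := G.ov (sp (a.comp φ₁) (closedPoint K)) (sp (a.comp φ₂) (closedPoint K)) (by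
    rw [← Scheme.Hom.comp_apply, ← Scheme.Hom.comp_apply, h'])
  obtain ⟨ψ, hψ⟩ := GProp_fac (sp (algebraMap B₁ L)) (sp (a.comp φ₁)) ⟨r, hr⟩
  have e2 : sp ψ ≫ sp (algebraMap B₂ L) = sp (a.comp φ₂) := by
    rw [← cancel_mono i₂, Category.assoc, ← G.po.w, ← Category.assoc, hψ, h']
  rw [GProp_comp] at hψ e2
  have e3 : φ₁ w * φ₂ x = 1 := by
    apply ha
    have a1 := RingHom.congr_fun (GProp_inj hψ) w
    have a2 := RingHom.congr_fun (GProp_inj e2) x
    simp only [RingHom.comp_apply] at a1 a2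
    rw [map_mul, ← a1, ← a2, ← map_mul, T.inv, map_one, map_one]
  obtain ⟨φ', h1, -⟩ := GProp_switch T G φ₂ (IsUnit.of_mul_eq_one_right _ e3)
  rw [← h1] at h ⊢
  exact GProp_un1 ha i₁ h

/-- `IsProper.of_valuativeCriterion`.  Quasi-compact: two compact opens cover.  Locally of finite type: local at
the source; so `X` is locally Noetherian, hence quasi-separated.  A morphism `Spec R ⟶ X` from a local ring
factors through a chart (`IsOpenImmersion.lift`, the chart containing the image of the closed point), so it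
is `sp φ ≫ iⱼ` (`Spec.preimage`).  Existence: if `φ : B₂ → K` has `φ x ∈ R` then `φ B₂ ⊆ R` (`i2`, valuation rings
are integrally closed); otherwise `φ x ≠ 0` and `(φ x)⁻¹ ∈ R`, `φ` extends to `L`, and its restriction to `B₁`
sends `w` into `R`.  Symmetrically for `B₁`.  Uniqueness: for lifts in the same chart use that `iⱼ` is a
monomorphism and `R → K` is injective.  For `φ₁ : B₁ → R`, `φ₂ : B₂ → R` with the same `K`-point, this point
lies in the overlap (`ov`), so it factors through `Spec L` (lift along the open immersion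
`sp (algebraMap B₁ L)`), which gives `φ₁ w * φ₂ x = 1` in `K`, hence in `R`; then `φ₂` extends to `L` and the
second lift also factors through the first chart. -/
theorem proper_gl {w : B₁} {x : B₂} (T : TC k L w x)
    (G : Gl2 (sp (algebraMap B₁ L)) (sp (algebraMap B₂ L)) i₁ i₂) (f : X ⟶ Spec (.of k))
    (h₁ : i₁ ≫ f = sp (algebraMap k B₁)) (h₂ : i₂ ≫ f = sp (algebraMap k B₂)) : IsProper f := by
  have := G.o1
  have := G.o2
  have : CompactSpace X := by
    refine ⟨?_⟩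
    have e : (Set.univ : Set X) = Set.range i₁ ∪ Set.range i₂ :=
      (Set.eq_univ_of_forall fun z => G.cov z).symm
    rw [e]
    exact (isCompact_range i₁.continuous).union (isCompact_range i₂.continuous)
  have : QuasiCompact f := (quasiCompact_iff_compactSpace f).2 this
  have : LocallyOfFiniteType f := by
    let 𝒰 : X.OpenCover := Scheme.Cover.mkOfCovers Bool
      (fun b => Bool.rec (Spec (.of B₁)) (Spec (.of B₂)) b) (fun b => Bool.rec i₁ i₂ b)
      (fun z => (G.cov z).elim (fun ⟨p, hp⟩ => ⟨false, p, hp⟩) fun ⟨p, hp⟩ => ⟨true, p, hp⟩)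
      (fun b => by
        cases b
        · exact G.o1
        · exact G.o2)
    refine IsZariskiLocalAtSource.of_openCover (P := @LocallyOfFiniteType) 𝒰 fun b => ?_
    cases b
    · change LocallyOfFiniteType (i₁ ≫ f)
      rw [h₁, HasRingHomProperty.Spec_iff (P := @LocallyOfFiniteType)]
      exact RingHom.finiteType_algebraMap.2 T.f1
    · change LocallyOfFiniteType (i₂ ≫ f)
      rw [h₂, HasRingHomProperty.Spec_iff (P := @LocallyOfFiniteType)]
      exact RingHom.finiteType_algebraMap.2 T.f2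
  have : IsLocallyNoetherian X := LocallyOfFiniteType.isLocallyNoetherian f
  refine IsProper.of_valuativeCriterion f (ValuativeCriterion.iff.2 ⟨fun S => ?_, fun S => ?_⟩)
  · rcases G.cov (S.i₁ (closedPoint S.K)) with h | h
    · exact GProp_ex2 (GProp_symT T) (GProp_symG G) h₂ h₁ S h
    · exact GProp_ex2 T G h₁ h₂ S h
  · refine ⟨fun l l' => CommSq.LiftStruct.ext ?_⟩
    have ha : Injective (algebraMap S.R S.K) := IsFractionRing.injective S.R S.K
    have h : sp (algebraMap S.R S.K) ≫ l.l = sp (algebraMap S.R S.K) ≫ l'.l :=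
      l.fac_left.trans l'.fac_left.symm
    rcases G.cov (l.l (closedPoint S.R)) with a | a <;>
      rcases G.cov (l'.l (closedPoint S.R)) with b | b <;>
      obtain ⟨φ, hφ⟩ := GProp_fac _ _ a <;> obtain ⟨φ', hφ'⟩ := GProp_fac _ _ b <;>
      rw [← hφ, ← hφ'] at h ⊢
    · exact GProp_un1 ha _ h
    · exact GProp_un2 T G ha h
    · exact GProp_un2 (GProp_symT T) (GProp_symG G) ha h
    · exact GProp_un1 ha _ h

end Pool.Agent.MP_deef5c_ag.E
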