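import Pool.Agent.MP_deef5c_ag.E.GDom

/-! The ramified point and the stabilisers. -/

open CategoryTheory AlgebraicGeometry IsLocalRing Function Pool.Agent.MP_deef5c_ag.O
open scoped Polynomial PowerSeries

namespace Pool.Agent.MP_deef5c_ag.E

universe u

variable {k B₁ B₂ L : Type u} [Field k] [CharP k 3] [CommRing B₁] [CommRing B₂] [CommRing L]
  [Algebra k B₁] [Algebra k B₂] [Algebra k L] [Algebra B₁ L] [Algebra B₂ L] {X : Scheme.{u}}
  {i₁ : Spec (.of B₁) ⟶ X} {i₂ : Spec (.of B₂) ⟶ X} {c : k} {w y₁ y₂ : B₁} {x s t : B₂}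
  {α₁ : EE →* (B₁ ≃ₐ[k] B₁)} {α₂ : EE →* (B₂ ≃ₐ[k] B₂)} {α : EE →* (L ≃ₐ[k] L)}

theorem GPtD_unit (k : Type u) [Field k] [CharP k 3] {B : Type u} [CommRing B] [Algebra k B]
    (n : ZMod 3) (h : n ≠ 0) : IsUnit (n.val : B) := by
  rw [← map_natCast (algebraMap k B)]
  refine (Ne.isUnit fun h0 => h ?_).map _
  rw [CharP.cast_eq_zero_iff k 3] at h0
  exact (ZMod.val_eq_zero n).1 (Nat.eq_zero_of_dvd_of_lt h0 n.val_lt)

theorem GPtD_gen : ∀ g : EE, ∃ a b : Fin 3, g = sg ^ a.val * ta ^ b.val := by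
  decide

omit [CharP k 3] in
theorem GPtD_fix (A : AC c w y₁ y₂ x s t α₁ α₂ α) (g : EE) : α₂ g x = x := by
  obtain ⟨a, b, rfl⟩ := GPtD_gen g
  let H : Subgroup EE := (MulAction.stabilizer (B₂ ≃ₐ[k] B₂) x).comap α₂
  exact H.mul_mem (H.pow_mem (x := sg) A.sx _) (H.pow_mem (x := ta) A.tx _)

theorem GPtD_max {R : Type u} [CommRing R] [IsLocalRing R] {x s t : R} (h : R2 x s t)
    (hx : x ∈ maximalIdeal R) (hs : s ∈ maximalIdeal R) (ht : t ∈ maximalIdeal R)
    (hm : maximalIdeal R = Ideal.span {x, s, t}) : maximalIdeal R = Ideal.span {t} := by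
  have hu : ∀ a ∈ maximalIdeal R, IsUnit (1 + a) := fun a ha => by
    simpa using isUnit_one_sub_self_of_mem_nonunits (-a) (neg_mem ha)
  have h1 := hu _ (Ideal.mul_mem_right (s ^ 3) _ (Ideal.pow_mem_of_mem _ hx 15 (by norm_num)))
  have h2 := hu _ (sub_mem (sub_mem hs hx) (Ideal.pow_mem_of_mem _ hs 3 (by norm_num)))
  have h3 : t ∣ s := by
    refine (h1.mul h2).dvd_mul_right.1 ⟨t ^ 2 - s ^ 6, ?_⟩
    have := h.2
    rw [TT] at this
    linear_combination -this
  have h4 : t ∣ x := h3.trans ⟨s ^ 2 - x ^ 6, by linear_combination -h.1⟩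
  refine le_antisymm ?_ ((Ideal.span_singleton_le_iff_mem _).2 ht)
  rw [hm, Ideal.span_le]
  rintro b (rfl | rfl | rfl)
  · exact Ideal.mem_span_singleton.2 h4
  · exact Ideal.mem_span_singleton.2 h3
  · exact Ideal.mem_span_singleton_self _

theorem GPtD_app {U Y₁ Y₂ X : Scheme.{u}} {a : U ⟶ Y₁} {b : U ⟶ Y₂} {i₁ : Y₁ ⟶ X} {i₂ : Y₂ ⟶ X}
    (h : a ≫ i₁ = b ≫ i₂) (z : U) : i₁ (a z) = i₂ (b z) := by
  rw [← Scheme.Hom.comp_apply, h, Scheme.Hom.comp_apply]

theorem GPtD_st (B : CommRingCat.{u}) (i : Spec B ⟶ X) [IsOpenImmersion i] (p : Spec B) :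
    ∃ st : B ⟶ X.presheaf.stalk (i p), Spec.map st ≫ i = X.fromSpecStalk (i p) ∧
      letI := st.hom.toAlgebra
      haveI : p.asIdeal.IsPrime := p.2
      IsLocalization.AtPrime (X.presheaf.stalk (i p)) p.asIdeal := by
  let t0 : B ⟶ (Spec B).presheaf.stalk p := StructureSheaf.toStalk B p
  have h1 : Spec.map t0 = (Spec B).fromSpecStalk p := (Spec.fromSpecStalk_eq' B p).symm
  refine ⟨t0 ≫ inv (i.stalkMap p), ?_, ?_⟩
  · rw [Spec.map_comp, Category.assoc, h1, ← Scheme.SpecMap_stalkMap_fromSpecStalk,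
      ← Category.assoc, ← Spec.map_comp, IsIso.hom_inv_id, Spec.map_id, Category.id_comp]
  have : p.asIdeal.IsPrime := p.2
  let _ : Algebra B (X.presheaf.stalk (i p)) := (t0 ≫ inv (i.stalkMap p)).hom.toAlgebra
  let _ : Algebra B ((Spec B).presheaf.stalk p) := t0.hom.toAlgebra
  have hl : IsLocalization.AtPrime ((Spec B).presheaf.stalk p) p.asIdeal :=
    StructureSheaf.IsLocalization.to_stalk B p
  exact IsLocalization.isLocalization_of_algEquiv p.asIdeal.primeCompl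
    (S := (Spec B).presheaf.stalk p)
    (AlgEquiv.ofRingEquiv (f := (asIso (i.stalkMap p)).symm.commRingCatIsoToRingEquiv)
      fun _ => rfl)

theorem GPtD_str {B K : CommRingCat.{u}} (i : Spec B ⟶ X) (f : X ⟶ Spec K) (a : K ⟶ B)
    (hf : i ≫ f = Spec.map a) (p : Spec B) (st : B ⟶ X.presheaf.stalk (i p))
    (key : Spec.map st ≫ i = X.fromSpecStalk (i p)) : strMap f (i p) = a ≫ st := by
  apply Spec.map_injective
  rw [spec_strMap, ← key, Category.assoc, hf, Spec.map_comp]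

theorem GPtD_loc {B : CommRingCat.{u}} (i : Spec B ⟶ X) [Mono i] (e : X ⟶ X) (φ : B ⟶ B)
    (he : i ≫ e = Spec.map φ ≫ i) (p : Spec B) (h : e (i p) = i p)
    (st : B ⟶ X.presheaf.stalk (i p)) (key : Spec.map st ≫ i = X.fromSpecStalk (i p)) :
    st ≫ locMap e (i p) h = φ ≫ st := by
  apply Spec.map_injective
  rw [← cancel_mono i, Spec.map_comp, Category.assoc, key, spec_locMap, ← key, Category.assoc,
    he, Spec.map_comp, Category.assoc]

omit [CharP k 3] in
/-- The stalk of `X` at a point of an affine chart.  `st` is `toStalk` followed by the inverse of the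
isomorphism `i.stalkMap p`; identities between maps to the stalk are checked with `stalk_ext`,
`spec_locMap`, `spec_strMap` of `Glue.lean` (`Spec.map st ≫ i = X.fromSpecStalk _`). -/
theorem exists_st {B : Type u} [CommRing B] [Algebra k B] (i : Spec (.of B) ⟶ X) [IsOpenImmersion i]
    (f : X ⟶ Spec (.of k)) (hf : i ≫ f = sp (algebraMap k B)) (p : PrimeSpectrum B) :
    ∃ _ : Algebra B (X.presheaf.stalk (i p)),
      IsLocalization.AtPrime (X.presheaf.stalk (i p)) p.asIdeal ∧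
      (∀ a, (strMap f (i p)).hom a = algebraMap B (X.presheaf.stalk (i p)) (algebraMap k B a)) ∧
      ∀ (e : X ⟶ X) (φ : B →+* B) (_ : i ≫ e = sp φ ≫ i) (h : e (i p) = i p) (b : B),
        (locMap e (i p) h).hom (algebraMap B _ b) = algebraMap B _ (φ b) := by
  obtain ⟨st, key, hl⟩ := GPtD_st (.of B) i p
  refine ⟨st.hom.toAlgebra, hl, fun a => ?_, fun e φ he h b => ?_⟩
  · exact congrArg (fun ψ => ψ.hom a) (GPtD_str i f _ hf p st key)
  · exact congrArg (fun ψ => ψ.hom b) (GPtD_loc i e _ he p h st key)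

omit [CharP k 3] in
/-- `p` is the kernel of `x, s, t ↦ 0` (`univ`); it equals `span {x, s, t}` (every element is congruent to a
constant), and a prime containing `x` contains `s` and `t` -/
theorem P2.point (h : P2 k x s t) : ∃ p : PrimeSpectrum B₂, p.asIdeal.IsMaximal ∧
    p.asIdeal = Ideal.span {x, s, t} ∧ ∀ q : PrimeSpectrum B₂, x ∈ q.asIdeal → q = p := by
  obtain ⟨φ, hx, hs, ht⟩ := h.univ k 0 0 0 ⟨by simp, by simp [TT]⟩
  have hm : (RingHom.ker φ).IsMaximal :=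
    RingHom.ker_isMaximal_of_surjective φ fun a => ⟨algebraMap k B₂ a, φ.commutes a⟩
  have h1 : ∀ b : B₂, b - algebraMap k B₂ (φ b) ∈ Ideal.span {x, s, t} := by
    intro b
    have hb : b ∈ Algebra.adjoin k {x, s, t} := h.gen ▸ Algebra.mem_top
    induction hb using Algebra.adjoin_induction with
    | mem b hb =>
      have : φ b = 0 := by
        rcases hb with rfl | rfl | rfl <;> assumption
      rw [this, map_zero, sub_zero]
      exact Ideal.subset_span hb
    | algebraMap a => simp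
    | add a b _ _ ha hb =>
      rw [map_add, map_add, add_sub_add_comm]
      exact add_mem ha hb
    | mul a b _ _ ha hb =>
      have e : a * b - algebraMap k B₂ (φ (a * b)) = a * (b - algebraMap k B₂ (φ b)) +
          algebraMap k B₂ (φ b) * (a - algebraMap k B₂ (φ a)) := by
        rw [map_mul, map_mul]
        ring
      rw [e]
      exact add_mem (Ideal.mul_mem_left _ _ hb) (Ideal.mul_mem_left _ _ ha)
  have h2 : RingHom.ker φ = Ideal.span {x, s, t} := by
    refine le_antisymm (fun b hb => ?_) (Ideal.span_le.2 ?_)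
    · have h3 := h1 b
      rwa [RingHom.mem_ker.1 hb, map_zero, sub_zero] at h3
    · rintro b (rfl | rfl | rfl) <;> assumption
  refine ⟨⟨RingHom.ker φ, hm.isPrime⟩, hm, h2, fun q hq => ?_⟩
  have hsq : s ∈ q.asIdeal := by
    refine q.2.mem_of_pow_mem 3 ?_
    rw [eq_add_of_sub_eq h.rel.1]
    exact add_mem hq (Ideal.mul_mem_right _ _ (Ideal.pow_mem_of_mem _ hq _ (by norm_num)))
  have htq : t ∈ q.asIdeal := by
    refine q.2.mem_of_pow_mem 3 ?_
    rw [eq_add_of_sub_eq h.rel.2, TT]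
    exact add_mem (Ideal.mul_mem_right _ _ (Ideal.mul_mem_right _ _ hsq))
      (Ideal.mul_mem_right _ _ (Ideal.pow_mem_of_mem _ hsq _ (by norm_num)))
  refine PrimeSpectrum.ext (hm.eq_of_le q.2.ne_top ?_).symm
  rw [h2, Ideal.span_le]
  rintro b (rfl | rfl | rfl) <;> assumption

/-- `P = i₂ p`.  It is fixed since `α₂ g x = x` for all `g`.  It is closed: its preimage in the second chart is
`{p}`, in the first chart it is empty (`ov`, `x` is a unit of `L`).  In the local ring `s * unit = t^3 - s^6 t` and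
`x = s (s^2 - x^6)`, so `t` generates the maximal ideal.  Every other point lies in the first chart. -/
theorem exists_ptd (h₂ : P2 k x s t) (T : TC k L w x)
    (G : Gl2 (sp (algebraMap B₁ L)) (sp (algebraMap B₂ L)) i₁ i₂) (f : X ⟶ Spec (.of k))
    (hf : i₂ ≫ f = sp (algebraMap k B₂)) (A : AC c w y₁ y₂ x s t α₁ α₂ α) (ρ : EE →* Aut X)
    (hρ : ∀ g, i₂ ≫ (ρ g).hom = sp (α₂ g⁻¹ : B₂ →+* B₂) ≫ i₂) :
    ∃ (P : X) (hP : ∀ g, (ρ g).hom P = P) (x' s' t' : X.presheaf.stalk P), IsClosed {P} ∧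
      PtD c f ρ P hP x' s' t' ∧ ∀ y : X, y ≠ P → ∃ q, i₁ q = y := by
  obtain ⟨p, hpm, hps, hpu⟩ := h₂.point
  obtain ⟨hd, -, ht0⟩ := h₂.dom
  have := G.o1
  have := G.o2
  have := T.l2
  have hxp : x ∈ p.asIdeal := hps ▸ Ideal.subset_span (by simp)
  have hsp : s ∈ p.asIdeal := hps ▸ Ideal.subset_span (by simp)
  have htp : t ∈ p.asIdeal := hps ▸ Ideal.subset_span (by simp)
  have hP : ∀ g, (ρ g).hom (i₂ p) = i₂ p := by
    intro g
    refine (GPtD_app (hρ g) p).trans (congrArg i₂ (hpu _ ?_))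
    change α₂ g⁻¹ x ∈ p.asIdeal
    rwa [GPtD_fix A]
  have hy : ∀ y : X, y ≠ i₂ p → ∃ q, i₁ q = y := by
    intro y hy
    rcases G.cov y with h | ⟨q, rfl⟩
    · exact h
    have h1 : q ∈ Set.range (PrimeSpectrum.comap (algebraMap B₂ L)) := by
      rw [PrimeSpectrum.localization_away_comap_range L x]
      exact fun hq => hy (by rw [hpu q hq])
    obtain ⟨r, rfl⟩ := h1
    exact ⟨_, GPtD_app G.po.w r⟩
  have hn : ∀ q, i₁ q ≠ i₂ p := by
    intro q hq
    obtain ⟨r, -, hr⟩ := G.ov q p hq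
    have h1 : algebraMap B₂ L x ∈ r.asIdeal := by
      rw [← hr] at hxp
      exact hxp
    exact r.2.ne_top (Ideal.eq_top_of_isUnit_mem _ h1 (IsLocalization.Away.algebraMap_isUnit x))
  obtain ⟨_, hl, hst, hloc⟩ := exists_st i₂ f hf p
  have hm : ∀ b ∈ p.asIdeal, algebraMap B₂ (X.presheaf.stalk (i₂ p)) b ∈ maximalIdeal _ :=
    fun b hb => (IsLocalization.AtPrime.to_map_mem_maximal_iff _ p.asIdeal b).2 hb
  have hrel : R2 (algebraMap B₂ (X.presheaf.stalk (i₂ p)) x) (algebraMap B₂ _ s)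
      (algebraMap B₂ _ t) := by
    constructor
    · simpa using congrArg (algebraMap B₂ (X.presheaf.stalk (i₂ p))) h₂.rel.1
    · simpa [TT] using congrArg (algebraMap B₂ (X.presheaf.stalk (i₂ p))) h₂.rel.2
  have hact : ∀ g b, (locMap (ρ g⁻¹).hom (i₂ p) (hP _)).hom (algebraMap B₂ _ b) =
      algebraMap B₂ _ (α₂ g b) := fun g b => by
    have h1 := hloc _ _ (hρ g⁻¹) (hP _) b
    rw [inv_inv] at h1
    exact h1
  refine ⟨i₂ p, hP, algebraMap B₂ _ x, algebraMap B₂ _ s, algebraMap B₂ _ t, ?_,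
    ⟨?_, ?_, hm x hxp, hm s hsp, hrel, ?_, ?_, ?_, ?_, ?_, ?_⟩, hy⟩
  · rw [← isOpen_compl_iff]
    have h1 : ({i₂ p}ᶜ : Set X) = Set.range i₁ :=
      Set.ext fun y => ⟨fun h => hy y h, fun ⟨q, hq⟩ h => hn q (hq.trans h)⟩
    rw [h1]
    exact i₁.isOpenEmbedding.isOpen_range
  · refine GPtD_max hrel (hm x hxp) (hm s hsp) (hm t htp) ?_
    rw [← IsLocalization.AtPrime.map_eq_maximalIdeal p.asIdeal, hps, Ideal.map_span]
    simp only [Set.image_insert_eq, Set.image_singleton]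
  · exact fun h0 => ht0 (IsLocalization.injective (X.presheaf.stalk (i₂ p))
      p.asIdeal.primeCompl_le_nonZeroDivisors (h0.trans (map_zero _).symm))
  · rw [hact, A.tx]
  · rw [hact, A.ts]
  · rw [hact, A.tt, map_add, map_pow]
  · rw [hact, A.sx]
  · rw [hact, A.ss, map_add, map_pow]
  · rw [hact, A.st, hst]
    simp [ST]

/-- A closed point `i₁ q` has `q` maximal, with residue field `k` (`finite_of_finite_type_of_isJacobsonRing`,
`IsAlgClosed.algebraMap_bijective_of_isIntegral`).  If `g` fixes it then `α₁ g⁻¹` preserves `q`, so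
`α₁ g⁻¹ b - b ∈ q` for all `b`; take `b = y₁, y₂`: a natural number `< 3` lying in `q` is zero. -/
theorem stab_chart [IsAlgClosed k] [Algebra.FiniteType k B₁] [IsOpenImmersion i₁]
    (A : AC c w y₁ y₂ x s t α₁ α₂ α) (ρ : EE →* Aut X)
    (hρ : ∀ g, i₁ ≫ (ρ g).hom = sp (α₁ g⁻¹ : B₁ →+* B₁) ≫ i₁) (q : Spec (.of B₁))
    (hq : IsClosed {i₁ q}) : stab ρ (i₁ q) = ⊥ := by
  have hm : q.asIdeal.IsMaximal := by
    refine (PrimeSpectrum.isClosed_singleton_iff_isMaximal q).1 ?_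
    have h1 : i₁ ⁻¹' {i₁ q} = {q} :=
      Set.ext fun y => ⟨fun h => i₁.isOpenEmbedding.injective h, fun h => congrArg i₁ h⟩
    have h2 := hq.preimage i₁.continuous
    rwa [h1] at h2
  refine (Subgroup.eq_bot_iff_forall _).2 fun g hg => ?_
  have h1 : sp (α₁ g⁻¹ : B₁ →+* B₁) q = q :=
    i₁.isOpenEmbedding.injective ((GPtD_app (hρ g) q).symm.trans hg)
  have h2 : ∀ b ∈ q.asIdeal, α₁ g⁻¹ b ∈ q.asIdeal := fun b hb => by
    rw [← h1] at hb
    exact hb
  have h3 : ∀ b : B₁, α₁ g⁻¹ b - b ∈ q.asIdeal := by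
    intro b
    let _ := Ideal.Quotient.field q.asIdeal
    have := finite_of_finite_type_of_isJacobsonRing k (B₁ ⧸ q.asIdeal)
    obtain ⟨a, ha⟩ := (IsAlgClosed.algebraMap_bijective_of_isIntegral (k := k)
      (K := B₁ ⧸ q.asIdeal)).2 (Ideal.Quotient.mk _ b)
    have h4 : b - algebraMap k B₁ a ∈ q.asIdeal := Ideal.Quotient.eq.1 ha.symm
    have h5 := h2 _ h4
    rw [map_sub, AlgEquiv.commutes] at h5
    simpa using sub_mem h5 h4
  have h6 : ∀ n : ZMod 3, (n.val : B₁) ∈ q.asIdeal → n = 0 := fun n hn => by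
    by_contra h0
    exact hm.ne_top (Ideal.eq_top_of_isUnit_mem _ hn (GPtD_unit k n h0))
  have h7 := h3 y₁
  have h8 := h3 y₂
  rw [A.a1, add_sub_cancel_left] at h7
  rw [A.a2, add_sub_cancel_left] at h8
  exact inv_eq_one.1 (Multiplicative.toAdd.injective (Prod.ext (h6 _ h8) (h6 _ h7)))

/-- `i₁` is a monomorphism and `Spec` is faithful -/
theorem act_inj [Nontrivial B₁] [IsOpenImmersion i₁] (A : AC c w y₁ y₂ x s t α₁ α₂ α)
    (ρ : EE →* Aut X) (hρ : ∀ g, i₁ ≫ (ρ g).hom = sp (α₁ g⁻¹ : B₁ →+* B₁) ≫ i₁) : Injective ρ := by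
  refine (injective_iff_map_eq_one ρ).2 fun g hg => ?_
  have h1 : sp (α₁ g⁻¹ : B₁ →+* B₁) = Spec.map (𝟙 _) := by
    rw [← cancel_mono i₁, ← hρ, hg, Spec.map_id, Category.id_comp]
    exact Category.comp_id _
  have h2 : ∀ b, α₁ g⁻¹ b = b := fun b => congrArg (fun ψ => ψ.hom b) (Spec.map_injective h1)
  have h6 : ∀ n : ZMod 3, (n.val : B₁) = 0 → n = 0 := fun n hn => by
    by_contra h0
    exact (GPtD_unit k n h0).ne_zero hn
  have h7 := h2 y₁
  have h8 := h2 y₂
  rw [A.a1, add_eq_left] at h7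
  rw [A.a2, add_eq_left] at h8
  exact inv_eq_one.1 (Multiplicative.toAdd.injective (Prod.ext (h6 _ h8) (h6 _ h7)))

end Pool.Agent.MP_deef5c_ag.E
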