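import Pool.Agent.MP_deef5c_ag.E.DefsG

/-! Gluing two schemes along a common open subscheme. -/

open CategoryTheory AlgebraicGeometry IsLocalRing Function Pool.Agent.MP_deef5c_ag.O
open scoped Polynomial PowerSeries

namespace Pool.Agent.MP_deef5c_ag.E

universe u

open Limits in
theorem exists_gl2 {U Y₁ Y₂ : Scheme.{u}} (a : U ⟶ Y₁) (b : U ⟶ Y₂) [IsOpenImmersion a]
    [IsOpenImmersion b] : ∃ (X : Scheme.{u}) (i₁ : Y₁ ⟶ X) (i₂ : Y₂ ⟶ X), Gl2 a b i₁ i₂ := by
  have h0 : ∀ {i j : WalkingSpan} (f : i ⟶ j), IsOpenImmersion ((span a b).map f) := by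
    rintro i j (_ | (_ | _))
    · rw [WidePushoutShape.hom_id, CategoryTheory.Functor.map_id]; infer_instance
    · exact inferInstanceAs (IsOpenImmersion a)
    · exact inferInstanceAs (IsOpenImmersion b)
  refine ⟨colimit (span a b), colimit.ι (span a b) WalkingSpan.left,
    colimit.ι (span a b) WalkingSpan.right, IsPushout.of_hasPushout a b,
    inferInstanceAs (IsOpenImmersion (colimit.ι (span a b) WalkingSpan.left)),
    inferInstanceAs (IsOpenImmersion (colimit.ι (span a b) WalkingSpan.right)), fun z => ?_,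
    fun p q h => ?_⟩
  · obtain ⟨i, y, rfl⟩ := Scheme.IsLocallyDirected.ι_jointly_surjective (span a b) z
    rcases i with _ | _ | _
    · left
      refine ⟨a y, ?_⟩
      rw [← colimit.w (span a b) WalkingSpan.Hom.fst]
      rfl
    · exact Or.inl ⟨y, rfl⟩
    · exact Or.inr ⟨y, rfl⟩
  · obtain ⟨l, f1, f2, r, h1, h2⟩ :=
      (Scheme.IsLocallyDirected.ι_eq_ι_iff (span a b) (i := WalkingSpan.left) (j := WalkingSpan.right)).1 h
    rcases l with _ | _ | _
    · have e1 : f1 = WalkingSpan.Hom.fst := Subsingleton.elim _ _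
      have e2 : f2 = WalkingSpan.Hom.snd := Subsingleton.elim _ _
      subst e1 e2
      exact ⟨r, h1, h2⟩
    · exact nomatch f2
    · exact nomatch f1

variable {k B₁ B₂ L : Type u} [Field k] [CommRing B₁] [CommRing B₂] [CommRing L] [Algebra k B₁]
  [Algebra k B₂] [Algebra k L] [Algebra B₁ L] [Algebra B₂ L] {X : Scheme.{u}}
  {i₁ : Spec (.of B₁) ⟶ X} {i₂ : Spec (.of B₂) ⟶ X}

theorem GPush_comp {A B C : Type u} [CommRing A] [CommRing B] [CommRing C] (φ : A →+* B)
    (ψ : B →+* C) : sp ψ ≫ sp φ = sp (ψ.comp φ) := by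
  rw [sp, sp, sp, ← Spec.map_comp, CommRingCat.ofHom_comp]

theorem GPush_mul {B : Type u} [CommRing B] [Algebra k B] {H : Type*} [Group H]
    (β : H →* (B ≃ₐ[k] B)) (g h : H) :
    sp (β g : B →+* B) ≫ sp (β h : B →+* B) = sp (β (g * h) : B →+* B) := by
  rw [GPush_comp, map_mul]; rfl

theorem GPush_one {B : Type u} [CommRing B] [Algebra k B] {H : Type*} [Group H]
    (β : H →* (B ≃ₐ[k] B)) : sp (β 1 : B →+* B) = 𝟙 _ := by
  rw [map_one, ← Spec.map_id]; rfl

theorem GPush_over {B : Type u} [CommRing B] [Algebra k B] (e : B ≃ₐ[k] B) :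
    sp (e : B →+* B) ≫ sp (algebraMap k B) = sp (algebraMap k B) := by
  rw [GPush_comp]; congr 1; ext c; simp

theorem exists_act (G : Gl2 (sp (algebraMap B₁ L)) (sp (algebraMap B₂ L)) i₁ i₂)
    (f : X ⟶ Spec (.of k)) (h₁ : i₁ ≫ f = sp (algebraMap k B₁)) (h₂ : i₂ ≫ f = sp (algebraMap k B₂))
    {H : Type*} [Group H] (α₁ : H →* (B₁ ≃ₐ[k] B₁)) (α₂ : H →* (B₂ ≃ₐ[k] B₂)) (α : H →* (L ≃ₐ[k] L))
    (c₁ : ∀ g b, α g (algebraMap B₁ L b) = algebraMap B₁ L (α₁ g b))
    (c₂ : ∀ g b, α g (algebraMap B₂ L b) = algebraMap B₂ L (α₂ g b)) :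
    ∃ ρ : H →* Aut X, (∀ g, i₁ ≫ (ρ g).hom = sp (α₁ g⁻¹ : B₁ →+* B₁) ≫ i₁) ∧
      (∀ g, i₂ ≫ (ρ g).hom = sp (α₂ g⁻¹ : B₂ →+* B₂) ≫ i₂) ∧ ∀ g, (ρ g).hom ≫ f = f := by
  have e₁ (g : H) : sp (algebraMap B₁ L) ≫ sp (α₁ g : B₁ →+* B₁) =
      sp (α g : L →+* L) ≫ sp (algebraMap B₁ L) := by
    rw [GPush_comp, GPush_comp]; congr 1; ext b; exact (c₁ g b).symm
  have e₂ (g : H) : sp (algebraMap B₂ L) ≫ sp (α₂ g : B₂ →+* B₂) =
      sp (α g : L →+* L) ≫ sp (algebraMap B₂ L) := by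
    rw [GPush_comp, GPush_comp]; congr 1; ext b; exact (c₂ g b).symm
  have hd (g : H) : ∃ D : X ⟶ X, i₁ ≫ D = sp (α₁ g : B₁ →+* B₁) ≫ i₁ ∧
      i₂ ≫ D = sp (α₂ g : B₂ →+* B₂) ≫ i₂ :=
    ⟨G.po.desc (sp (α₁ g : B₁ →+* B₁) ≫ i₁) (sp (α₂ g : B₂ →+* B₂) ≫ i₂) (by
      rw [← Category.assoc, e₁, ← Category.assoc, e₂, Category.assoc, Category.assoc, G.po.w]),
      G.po.inl_desc _ _ _, G.po.inr_desc _ _ _⟩
  choose D d₁ d₂ using hd
  have hm (g h : H) : D g ≫ D h = D (g * h) := by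
    refine G.po.hom_ext ?_ ?_
    · rw [← Category.assoc, d₁, Category.assoc, d₁, ← Category.assoc, GPush_mul, d₁]
    · rw [← Category.assoc, d₂, Category.assoc, d₂, ← Category.assoc, GPush_mul, d₂]
  have ho : D 1 = 𝟙 X := by
    refine G.po.hom_ext ?_ ?_
    · rw [d₁, GPush_one, Category.id_comp, Category.comp_id]
    · rw [d₂, GPush_one, Category.id_comp, Category.comp_id]
  let r (g : H) : Aut X :=
    ⟨D g⁻¹, D g, by rw [hm, inv_mul_cancel, ho], by rw [hm, mul_inv_cancel, ho]⟩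
  refine ⟨MonoidHom.mk' r fun g h => Iso.ext ?_, fun g => d₁ _, fun g => d₂ _, fun g => ?_⟩
  · change D (g * h)⁻¹ = D h⁻¹ ≫ D g⁻¹
    rw [hm, mul_inv_rev]
  · change D g⁻¹ ≫ f = f
    refine G.po.hom_ext ?_ ?_
    · rw [← Category.assoc, d₁, Category.assoc, h₁, GPush_over]
    · rw [← Category.assoc, d₂, Category.assoc, h₂, GPush_over]

theorem integral_gl [IsDomain B₁] [IsDomain B₂] [Nontrivial L]
    (G : Gl2 (sp (algebraMap B₁ L)) (sp (algebraMap B₂ L)) i₁ i₂) : IsIntegral X := by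
  have := G.o1
  have := G.o2
  have hr : ∀ z : X, _root_.IsReduced (X.presheaf.stalk z) := by
    intro z
    rcases G.cov z with ⟨p, rfl⟩ | ⟨p, rfl⟩
    · exact isReduced_of_injective (i₁.stalkMap p).hom
        (asIso (i₁.stalkMap p)).commRingCatIsoToRingEquiv.injective
    · exact isReduced_of_injective (i₂.stalkMap p).hom
        (asIso (i₂.stalkMap p)).commRingCatIsoToRingEquiv.injective
  have := isReduced_of_isReduced_stalk X
  have a1 : IsIrreducible (Set.range i₁) := by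
    rw [← Set.image_univ]
    exact (IrreducibleSpace.isIrreducible_univ _).image _ i₁.continuous.continuousOn
  have a2 : IsIrreducible (Set.range i₂) := by
    rw [← Set.image_univ]
    exact (IrreducibleSpace.isIrreducible_univ _).image _ i₂.continuous.continuousOn
  obtain ⟨r⟩ : Nonempty (Spec (.of L)) := inferInstance
  have hV : (Set.range i₁ ∩ Set.range i₂).Nonempty :=
    ⟨i₁ (sp (algebraMap B₁ L) r), ⟨_, rfl⟩, sp (algebraMap B₂ L) r, by
      rw [← Scheme.Hom.comp_apply, ← Scheme.Hom.comp_apply, G.po.w]⟩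
  have key : ∀ u : Set X, IsOpen u → u.Nonempty → (Set.range i₁ ∩ u).Nonempty := by
    rintro u hu ⟨z, hz⟩
    rcases G.cov z with hp | hp
    · exact ⟨z, hp, hz⟩
    · obtain ⟨y, hy⟩ := a2.2 u (Set.range i₁) hu i₁.isOpenEmbedding.isOpen_range ⟨z, hp, hz⟩
        (by rw [Set.inter_comm]; exact hV)
      exact ⟨y, hy.2.2, hy.2.1⟩
  have : PreirreducibleSpace X := ⟨fun u v hu hv ⟨y, hy⟩ ⟨z, hz⟩ => by
    obtain ⟨t, ht⟩ := a1.2 u v hu hv (key u hu ⟨y, hy.2⟩) (key v hv ⟨z, hz.2⟩)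
    exact ⟨t, trivial, ht.2⟩⟩
  have : IrreducibleSpace X := ⟨⟨hV.some⟩⟩
  exact isIntegral_of_irreducibleSpace_of_isReduced X

theorem GPush_sm {B : Type u} [CommRing B] [Algebra k B]
    [h : Algebra.IsStandardSmoothOfRelativeDimension 1 k B] :
    SmoothOfRelativeDimension 1 (sp (algebraMap k B)) := by
  rw [HasRingHomProperty.Spec_iff (P := @SmoothOfRelativeDimension 1)]
  refine RingHom.locally_of RingHom.isStandardSmoothOfRelativeDimension_respectsIso _ ?_
  exact (RingHom.isStandardSmoothOfRelativeDimension_algebraMap 1).2 h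

theorem smooth_gl {x J : B₂} [IsLocalization.Away x L]
    (G : Gl2 (sp (algebraMap B₁ L)) (sp (algebraMap B₂ L)) i₁ i₂) (f : X ⟶ Spec (.of k))
    (h₁ : i₁ ≫ f = sp (algebraMap k B₁)) (h₂ : i₂ ≫ f = sp (algebraMap k B₂))
    (hJ : Ideal.span {x, J} = ⊤) [Algebra.IsStandardSmoothOfRelativeDimension 1 k B₁]
    [Algebra.IsStandardSmoothOfRelativeDimension 1 k (Localization.Away J)] :
    SmoothOfRelativeDimension 1 f := by
  have := G.o1
  have := G.o2
  have oJ : IsOpenImmersion (sp (algebraMap B₂ (Localization.Away J))) :=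
    IsOpenImmersion.of_isLocalization J
  have cov : ∀ z : X, (∃ p, i₁ p = z) ∨
      ∃ q, (sp (algebraMap B₂ (Localization.Away J)) ≫ i₂) q = z := by
    intro z
    rcases G.cov z with hp | ⟨q, rfl⟩
    · exact Or.inl hp
    by_cases hx : x ∈ PrimeSpectrum.asIdeal q
    · right
      have hj : J ∉ PrimeSpectrum.asIdeal q := fun hj => q.2.ne_top (by
        rw [eq_top_iff, ← hJ, Ideal.span_le]
        rintro _ (rfl | rfl) <;> assumption)
      have : q ∈ Set.range (PrimeSpectrum.comap (algebraMap B₂ (Localization.Away J))) := by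
        rw [PrimeSpectrum.localization_away_comap_range _ J]; exact hj
      obtain ⟨r, hr⟩ := this
      exact ⟨r, by rw [Scheme.Hom.comp_apply, ← hr]; rfl⟩
    · left
      have : q ∈ Set.range (PrimeSpectrum.comap (algebraMap B₂ L)) := by
        rw [PrimeSpectrum.localization_away_comap_range _ x]; exact hx
      obtain ⟨r, hr⟩ := this
      refine ⟨sp (algebraMap B₁ L) r, ?_⟩
      rw [← Scheme.Hom.comp_apply, G.po.w, Scheme.Hom.comp_apply, ← hr]; rfl
  let 𝒰 : X.OpenCover := Scheme.Cover.mkOfCovers Bool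
    (fun b => match b with
      | true => Spec (.of B₁)
      | false => Spec (.of (Localization.Away J)))
    (fun b => match b with
      | true => i₁
      | false => sp (algebraMap B₂ (Localization.Away J)) ≫ i₂)
    (fun z => (cov z).elim (fun ⟨p, h⟩ => ⟨true, p, h⟩) (fun ⟨p, h⟩ => ⟨false, p, h⟩))
    (fun b => match b with
      | true => G.o1
      | false => inferInstanceAs (IsOpenImmersion (sp (algebraMap B₂ (Localization.Away J)) ≫ i₂)))
  refine IsZariskiLocalAtSource.of_openCover (P := @SmoothOfRelativeDimension 1) 𝒰 ?_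
  rintro (_ | _)
  · change SmoothOfRelativeDimension 1 ((sp (algebraMap B₂ (Localization.Away J)) ≫ i₂) ≫ f)
    rw [Category.assoc, h₂, GPush_comp, ← IsScalarTower.algebraMap_eq]
    exact GPush_sm
  · change SmoothOfRelativeDimension 1 (i₁ ≫ f)
    rw [h₁]
    exact GPush_sm

end Pool.Agent.MP_deef5c_ag.E
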