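import Pool.Agent.MP_deef5c_ag.E.DefsG

/-! The two coordinate rings. -/

open CategoryTheory AlgebraicGeometry IsLocalRing Function Pool.Agent.MP_deef5c_ag.O
open scoped Polynomial PowerSeries

namespace Pool.Agent.MP_deef5c_ag.E

universe u

variable (k : Type u) [Field k] [CharP k 3]

theorem GRing_three (B : Type u) [CommRing B] [Algebra k B] : (3 : B) = 0 := by
  have h : ((3 : ℕ) : k) = 0 := CharP.cast_eq_zero k 3
  have h2 := congrArg (algebraMap k B) h
  rw [map_natCast, map_zero] at h2
  exact_mod_cast h2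

/-- the Jacobian of the naive presentation with two relations -/
theorem GRing_jac {R : Type u} [CommRing R] {σ : Type} (v : Fin 2 → MvPolynomial σ R)
    (a : Fin 2 → σ) (ha : Function.Injective a) :
    (Algebra.PreSubmersivePresentation.naive (v := v) a ha).jacobian =
      Ideal.Quotient.mk (Ideal.span (Set.range v))
        (MvPolynomial.pderiv (a 0) (v 0) * MvPolynomial.pderiv (a 1) (v 1) -
          MvPolynomial.pderiv (a 0) (v 1) * MvPolynomial.pderiv (a 1) (v 0)) := by
  rw [Algebra.PreSubmersivePresentation.jacobian_eq_jacobiMatrix_det, Matrix.det_fin_two]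
  simp only [Algebra.PreSubmersivePresentation.jacobiMatrix_naive]
  rfl

/-- the polynomial ring in one variable -/
noncomputable def GRing_pol (R : Type u) [CommRing R] :
    Algebra.SubmersivePresentation R R[X] Unit Empty where
  val _ := Polynomial.X
  σ' p := Polynomial.aeval (MvPolynomial.X ()) p
  aeval_val_σ' p := by
    rw [← Polynomial.aeval_algHom_apply]
    simp
  relation := Empty.elim
  span_range_relation_eq_ker := by
    rw [Set.range_eq_empty, Ideal.span_empty, eq_comm, eq_bot_iff]
    intro p hp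
    rw [Algebra.Generators.ker_eq_ker_aeval_val, RingHom.mem_ker] at hp
    have h : ((Polynomial.aeval (MvPolynomial.X ()) : R[X] →ₐ[R] MvPolynomial Unit R).comp
        (MvPolynomial.aeval fun _ : Unit => (Polynomial.X : R[X]))) = AlgHom.id R _ := by
      ext i
      simp
    have h2 := DFunLike.congr_fun h p
    rw [AlgHom.comp_apply, AlgHom.id_apply] at h2
    rw [Ideal.mem_bot, ← h2]
    erw [hp]
    rw [map_zero]
  map := Empty.elim
  map_inj := fun a => a.elim
  jacobian_isUnit := by
    rw [Algebra.PreSubmersivePresentation.jacobian_eq_jacobiMatrix_det, Matrix.det_isEmpty, map_one]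
    exact isUnit_one

theorem GRing_pol_sm (R : Type u) [CommRing R] :
    Algebra.IsStandardSmoothOfRelativeDimension 1 R R[X] :=
  (GRing_pol R).isStandardSmoothOfRelativeDimension (by simp [Algebra.Presentation.dimension])

/-- relations of the first chart -/
noncomputable def GRing_v1 (c : k) : Fin 2 → MvPolynomial (Fin 2) k[X] :=
  ![MvPolynomial.X 0 ^ 3 - MvPolynomial.X 0 -
      MvPolynomial.C (Polynomial.C c ^ 3 * Polynomial.X ^ 8 + Polynomial.X ^ 7),
    MvPolynomial.X 1 ^ 3 - MvPolynomial.X 1 - MvPolynomial.C (Polynomial.X ^ 8)]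

/-- relations of the second chart -/
noncomputable def GRing_v2 : Fin 2 → MvPolynomial (Fin 3) k :=
  ![MvPolynomial.X 1 ^ 3 - MvPolynomial.X 0 ^ 6 * MvPolynomial.X 1 - MvPolynomial.X 0,
    MvPolynomial.X 2 ^ 3 - MvPolynomial.X 1 ^ 6 * MvPolynomial.X 2 -
      TT (MvPolynomial.X 0) (MvPolynomial.X 1)]

theorem GRing_et (c : k) : Algebra.IsStandardSmoothOfRelativeDimension 0 k[X]
    (MvPolynomial (Fin 2) k[X] ⧸ Ideal.span (Set.range (GRing_v1 k c))) := by
  refine Algebra.SubmersivePresentation.isStandardSmoothOfRelativeDimension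
    ⟨Algebra.PreSubmersivePresentation.naive (v := GRing_v1 k c) id injective_id, ?_⟩
    (by simp [Algebra.Presentation.dimension])
  rw [GRing_jac]
  have h3 : (3 : MvPolynomial (Fin 2) k[X]) = 0 := GRing_three k _
  have h : MvPolynomial.pderiv (id 0) (GRing_v1 k c 0) * MvPolynomial.pderiv (id 1) (GRing_v1 k c 1) -
      MvPolynomial.pderiv (id 0) (GRing_v1 k c 1) * MvPolynomial.pderiv (id 1) (GRing_v1 k c 0) = 1 := by
    simp only [GRing_v1, id, Matrix.cons_val_zero, Matrix.cons_val_one, map_sub,
      MvPolynomial.pderiv_C, Derivation.leibniz_pow, MvPolynomial.pderiv_X]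
    simp [h3]
    ring
  rw [h, map_one]
  exact isUnit_one

/-- For instance `B = MvPolynomial (Fin 2) k[X] ⧸ (relations)`, which is standard smooth of relative dimension
`0` over `k[X]` (`PreSubmersivePresentation.naive`, the Jacobian matrix is `-1`), hence flat, so that `w = X`
is a non-zero-divisor; `k[X]` is standard smooth of relative dimension one over `k`
(`IsStandardSmoothOfRelativeDimension.trans`).  Alternatively `MvPolynomial (Fin 3) k ⧸ (relations)`, or a
tower of two `AdjoinRoot` of monic polynomials (free modules). -/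
theorem exists_p1 (c : k) : ∃ (B : Type u) (_ : CommRing B) (_ : Algebra k B) (w y₁ y₂ : B),
    P1 c w y₁ y₂ ∧ Algebra.IsStandardSmoothOfRelativeDimension 1 k B ∧ w ∈ nonZeroDivisors B := by
  let I := Ideal.span (Set.range (GRing_v1 k c))
  have hv : ∀ i, Ideal.Quotient.mk I (GRing_v1 k c i) = 0 := fun i =>
    Ideal.Quotient.eq_zero_iff_mem.2 (Ideal.subset_span ⟨i, rfl⟩)
  have he := GRing_et k c
  have hp := GRing_pol_sm k
  refine ⟨MvPolynomial (Fin 2) k[X] ⧸ I, inferInstance, inferInstance,
    Ideal.Quotient.mk I (MvPolynomial.C Polynomial.X), Ideal.Quotient.mk I (MvPolynomial.X 0),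
    Ideal.Quotient.mk I (MvPolynomial.X 1), ⟨⟨?_, ?_⟩, ?_, ?_⟩,
    Algebra.IsStandardSmoothOfRelativeDimension.trans (n := 1) (m := 0) k k[X] _, ?_⟩
  · have h := hv 1
    simp only [GRing_v1, Matrix.cons_val_one, Matrix.cons_val_zero, map_sub, map_pow] at h
    exact sub_eq_zero.1 h
  · have h := hv 0
    simp only [GRing_v1, Matrix.cons_val_zero, map_sub, map_pow, map_add, map_mul] at h
    exact sub_eq_zero.1 h
  · rw [eq_top_iff]
    rintro b -
    obtain ⟨p, rfl⟩ := Ideal.Quotient.mk_surjective b
    induction p using MvPolynomial.induction_on with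
    | C q =>
      induction q using Polynomial.induction_on' with
      | add q r hq hr =>
        rw [map_add, map_add]
        exact add_mem hq hr
      | monomial n a =>
        rw [← Polynomial.C_mul_X_pow_eq_monomial, map_mul, map_mul, map_pow, map_pow]
        exact mul_mem (Subalgebra.algebraMap_mem _ a)
          (pow_mem (Algebra.subset_adjoin (by simp)) n)
    | add p q hp hq =>
      rw [map_add]
      exact add_mem hp hq
    | mul_X p i hp =>
      rw [map_mul]
      refine mul_mem hp (Algebra.subset_adjoin ?_)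
      fin_cases i <;> simp
  · intro R _ _ w' y₁' y₂' hR
    let ψ : MvPolynomial (Fin 2) k[X] →ₐ[k] R :=
      MvPolynomial.aevalTower (Polynomial.aeval w') ![y₁', y₂']
    have hψ : ∀ a ∈ I, ψ a = 0 := by
      intro a ha
      refine (show I ≤ RingHom.ker ψ from Ideal.span_le.2 ?_) ha
      rintro _ ⟨i, rfl⟩
      have h1 := hR.1
      have h2 := hR.2
      fin_cases i
      · simp [ψ, GRing_v1, h2]
      · simp [ψ, GRing_v1, h1]
    refine ⟨Ideal.Quotient.liftₐ I ψ hψ, ?_, ?_, ?_⟩ <;> simp [ψ]
  · have hs := Algebra.IsStandardSmoothOfRelativeDimension.isStandardSmooth (H := he)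
    have hf : Module.Flat k[X] (MvPolynomial (Fin 2) k[X] ⧸ I) :=
      Algebra.Smooth.flat k[X] (MvPolynomial (Fin 2) k[X] ⧸ I)
    have hr : IsSMulRegular (MvPolynomial (Fin 2) k[X] ⧸ I) (Polynomial.X : k[X]) :=
      Module.Flat.isSMulRegular_of_nonZeroDivisors
        (mem_nonZeroDivisors_of_ne_zero Polynomial.X_ne_zero)
    refine mem_nonZeroDivisors_iff_left.2 fun b hb => hr ?_
    change (Polynomial.X : k[X]) • b = (Polynomial.X : k[X]) • 0
    rw [smul_zero]
    exact (Algebra.smul_def (Polynomial.X : k[X]) b).trans hb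

/-- `B = MvPolynomial (Fin 3) k ⧸ (relations)` with the `naive` presubmersive presentation for the variables
`x, s`: in characteristic three the Jacobian determinant is
`(1 + x^15 s^3) (1 + 2 s - x - s^3 + x^6 s) = JJ x s` in `B`.  Compose with
`PreSubmersivePresentation.localizationAway` (`comp_jacobian_eq_jacobian_smul_jacobian`,
`dimension_comp_eq_dimension_add_dimension`). -/
theorem exists_p2 : ∃ (B : Type u) (_ : CommRing B) (_ : Algebra k B) (x s t : B),
    P2 k x s t ∧ Algebra.IsStandardSmoothOfRelativeDimension 1 k (Localization.Away (JJ x s)) := by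
  let I := Ideal.span (Set.range (GRing_v2 k))
  have hv : ∀ i, Ideal.Quotient.mk I (GRing_v2 k i) = 0 := fun i =>
    Ideal.Quotient.eq_zero_iff_mem.2 (Ideal.subset_span ⟨i, rfl⟩)
  have r1 : Ideal.Quotient.mk I (MvPolynomial.X 1) ^ 3 -
      Ideal.Quotient.mk I (MvPolynomial.X 0) ^ 6 * Ideal.Quotient.mk I (MvPolynomial.X 1) =
      Ideal.Quotient.mk I (MvPolynomial.X 0) := by
    have h := hv 0
    simp only [GRing_v2, Matrix.cons_val_zero, map_sub, map_pow, map_mul] at h
    exact sub_eq_zero.1 h
  refine ⟨MvPolynomial (Fin 3) k ⧸ I, inferInstance, inferInstance,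
    Ideal.Quotient.mk I (MvPolynomial.X 0), Ideal.Quotient.mk I (MvPolynomial.X 1),
    Ideal.Quotient.mk I (MvPolynomial.X 2), ⟨⟨r1, ?_⟩, ?_, ?_⟩, ?_⟩
  · have h := hv 1
    simp only [GRing_v2, TT, Matrix.cons_val_one, Matrix.cons_val_zero, map_sub, map_pow, map_mul,
      map_add, map_one] at h
    exact sub_eq_zero.1 h
  · rw [eq_top_iff]
    rintro b -
    obtain ⟨p, rfl⟩ := Ideal.Quotient.mk_surjective b
    induction p using MvPolynomial.induction_on with
    | C q => exact Subalgebra.algebraMap_mem _ q
    | add p q hp hq =>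
      rw [map_add]
      exact add_mem hp hq
    | mul_X p i hp =>
      rw [map_mul]
      refine mul_mem hp (Algebra.subset_adjoin ?_)
      fin_cases i <;> simp
  · intro R _ _ x' s' t' hR
    let ψ : MvPolynomial (Fin 3) k →ₐ[k] R := MvPolynomial.aeval ![x', s', t']
    have hψ : ∀ a ∈ I, ψ a = 0 := by
      intro a ha
      refine (show I ≤ RingHom.ker ψ from Ideal.span_le.2 ?_) ha
      rintro _ ⟨i, rfl⟩
      have h1 := hR.1
      have h2 := hR.2
      rw [TT] at h2
      fin_cases i
      · simp [ψ, GRing_v2, h1]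
      · simp [ψ, GRing_v2, TT, h2]
    refine ⟨Ideal.Quotient.liftₐ I ψ hψ, ?_, ?_, ?_⟩ <;> simp [ψ]
  · have ha : Function.Injective (![0, 1] : Fin 2 → Fin 3) := by decide
    let P := Algebra.PreSubmersivePresentation.naive (v := GRing_v2 k) ![0, 1] ha
    have h3 : (3 : MvPolynomial (Fin 3) k ⧸ I) = 0 := GRing_three k _
    have hj : P.jacobian =
        JJ (Ideal.Quotient.mk I (MvPolynomial.X 0)) (Ideal.Quotient.mk I (MvPolynomial.X 1)) := by
      have h3' : (3 : MvPolynomial (Fin 3) k) = 0 := GRing_three k _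
      have h6 : (6 : MvPolynomial (Fin 3) k) = 0 := by linear_combination 2 * h3'
      have h15 : (15 : MvPolynomial (Fin 3) k) = 0 := by linear_combination 5 * h3'
      have e : MvPolynomial.pderiv 0 (GRing_v2 k 0) * MvPolynomial.pderiv 1 (GRing_v2 k 1) -
          MvPolynomial.pderiv 0 (GRing_v2 k 1) * MvPolynomial.pderiv 1 (GRing_v2 k 0) =
          (1 + MvPolynomial.X 0 ^ 15 * MvPolynomial.X 1 ^ 3) *
            (1 + 2 * MvPolynomial.X 1 - MvPolynomial.X 0 - MvPolynomial.X 1 ^ 3 +
              MvPolynomial.X 0 ^ 6 * MvPolynomial.X 1) := by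
        simp only [GRing_v2, TT, Matrix.cons_val_zero, Matrix.cons_val_one, map_sub, map_add,
          Derivation.leibniz, Derivation.leibniz_pow, MvPolynomial.pderiv_X,
          Derivation.map_one_eq_zero]
        simp [h3', h6, h15]
        ring
      rw [GRing_jac]
      simp only [Matrix.cons_val_zero, Matrix.cons_val_one]
      rw [e, JJ]
      simp only [map_mul, map_add, map_sub, map_pow, map_one, map_ofNat]
      congr 1
      linear_combination (-1 : MvPolynomial (Fin 3) k ⧸ I) * r1 +
        (Ideal.Quotient.mk I (MvPolynomial.X 1) - Ideal.Quotient.mk I (MvPolynomial.X 0)) * h3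
    let J := JJ (Ideal.Quotient.mk I (MvPolynomial.X 0)) (Ideal.Quotient.mk I (MvPolynomial.X 1))
    let Q := Algebra.PreSubmersivePresentation.localizationAway (Localization.Away J) J
    refine Algebra.SubmersivePresentation.isStandardSmoothOfRelativeDimension ⟨Q.comp P, ?_⟩
      (by simp [Algebra.Presentation.dimension])
    rw [Algebra.PreSubmersivePresentation.comp_jacobian_eq_jacobian_smul_jacobian, hj,
      Algebra.PreSubmersivePresentation.localizationAway_jacobian, Algebra.smul_def]
    have hu : IsUnit (algebraMap _ (Localization.Away J) J) := IsLocalization.Away.algebraMap_isUnit J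
    exact hu.mul hu

end Pool.Agent.MP_deef5c_ag.E
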