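import Pool.Agent.MP_deef5c_ag.Defs

open CategoryTheory AlgebraicGeometry IsLocalRing

universe u

namespace Pool.Agent.MP_deef5c_ag.E

/-- Two properties of a hull `R` of the deformation functor of `(X, ρ)`: the pair lifts to every
`R / m^(i+1)`, and every local Artinian `W(k)`-algebra `A` with residue field `k` to which the pair lifts
receives a `W(k)`-algebra map `R → A` compatible with the residue maps. -/
def Versal (p : ℕ) [Fact p.Prime] {k : Type u} [Field k] {X : Scheme.{u}} (f : X ⟶ Spec (.of k))
    {G : Type*} [Group G] (ρ : G →* Aut X) {R : Type u} [CommRing R] [IsLocalRing R]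
    [Algebra (WittVector p k) R] (π : R →+* k) : Prop :=
  (∀ (i : ℕ) (π' : R ⧸ maximalIdeal R ^ (i + 1) →+* k),
    π'.comp (Ideal.Quotient.mk _) = π → LiftsTo f ρ π') ∧
  ∀ (A : Type u) [CommRing A] [IsLocalRing A] [IsArtinianRing A] [Algebra (WittVector p k) A]
    (π' : A →+* k), (∀ w, π' (algebraMap (WittVector p k) A w) = w.coeff 0) → LiftsTo f ρ π' →
    ∃ φ : R →ₐ[WittVector p k] A, π'.comp φ = π

end Pool.Agent.MP_deef5c_ag.E
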