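import Pool.Agent.MP_deef5c_ag.E.AMain
import Pool.Agent.MP_deef5c_ag.E.BMain
import Pool.Agent.MP_deef5c_ag.E.GPush
import Pool.Agent.MP_deef5c_ag.E.GProp
import Pool.Agent.MP_deef5c_ag.E.GPex
import Pool.Agent.MP_deef5c_ag.E.VDef
import Pool.Agent.MP_deef5c_ag.E.GRing
import Pool.Agent.MP_deef5c_ag.E.GLink
import Pool.Agent.MP_deef5c_ag.E.GAc
import Pool.Agent.MP_deef5c_ag.E.GPtD
import Pool.Agent.MP_deef5c_ag.E.GMd
import Pool.Agent.MP_deef5c_ag.E.GGl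
import Pool.Agent.MP_deef5c_ag.O.GMain

/-! The example. -/

open CategoryTheory AlgebraicGeometry IsLocalRing Function Pool.Agent.MP_deef5c_ag.O
open scoped Polynomial PowerSeries

namespace Pool.Agent.MP_deef5c_ag.E

universe u

variable (k : Type u) [Field k] [IsAlgClosed k] [CharP k 3]

theorem exists_curve : ∃ (c : k) (X : Scheme.{u}) (f : X ⟶ Spec (.of k)) (ρ : EE →* Aut X) (P : X)
    (hP : ∀ g, (ρ g).hom P = P) (x s t : X.presheaf.stalk P), c - c ^ 3 = 1 ∧ IsIntegral X ∧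
    IsProper f ∧ IsProj f ∧ SmoothOfRelativeDimension 1 f ∧ Injective ρ ∧ (∀ g, (ρ g).hom ≫ f = f) ∧
    IsClosed {P} ∧ PtD c f ρ P hP x s t ∧ ∀ y : X, IsClosed {y} → y ≠ P → stab ρ y = ⊥ := by
  obtain ⟨c, hc⟩ : ∃ c : k, c - c ^ 3 = 1 := by
    obtain ⟨c, hc⟩ := IsAlgClosed.exists_root (Polynomial.X ^ 3 - Polynomial.X + 1 : k[X]) (by
      have : (Polynomial.X ^ 3 - Polynomial.X + 1 : k[X]).degree = 3 := by compute_degree!
      rw [this]
      norm_num)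
    simp only [Polynomial.IsRoot, Polynomial.eval_add, Polynomial.eval_sub, Polynomial.eval_pow,
      Polynomial.eval_X, Polynomial.eval_one] at hc
    exact ⟨c, by linear_combination -hc⟩
  obtain ⟨B₁, _, _, w, y₁, y₂, h₁, s₁, hw⟩ := exists_p1 k c
  obtain ⟨B₂, _, _, x, s, t, h₂, s₂⟩ := exists_p2 k
  obtain ⟨_, hx, -⟩ := h₂.dom
  have hx' : Submonoid.powers x ≤ nonZeroDivisors B₂ :=
    powers_le_nonZeroDivisors_of_noZeroDivisors hx
  let L := Localization.Away x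
  have : IsDomain L := IsLocalization.isDomain_localization hx'
  obtain ⟨_, T, hs, ht⟩ := link hc h₁ h₂ L
  have := T.l1
  have := T.t1
  have := T.f1
  have : IsDomain B₁ := (IsLocalization.injective L (Submonoid.powers_le.2 hw)).isDomain _
  obtain ⟨α₁, α₂, α, A⟩ := exists_ac h₁ h₂ T (IsLocalization.injective L hx') hs ht
  have o1 : IsOpenImmersion (sp (algebraMap B₁ L)) := IsOpenImmersion.of_isLocalization w
  have o2 : IsOpenImmersion (sp (algebraMap B₂ L)) := IsOpenImmersion.of_isLocalization x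
  obtain ⟨X, i₁, i₂, G⟩ := exists_gl2 (sp (algebraMap B₁ L)) (sp (algebraMap B₂ L))
  have := G.o1
  let f : X ⟶ Spec (.of k) := G.po.desc (sp (algebraMap k B₁)) (sp (algebraMap k B₂)) (by
    rw [← Spec.map_comp, ← Spec.map_comp, ← CommRingCat.ofHom_comp, ← CommRingCat.ofHom_comp,
      ← IsScalarTower.algebraMap_eq, ← IsScalarTower.algebraMap_eq])
  have f₁ : i₁ ≫ f = sp (algebraMap k B₁) := G.po.inl_desc _ _ _
  have f₂ : i₂ ≫ f = sp (algebraMap k B₂) := G.po.inr_desc _ _ _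
  obtain ⟨ρ, r₁, r₂, r₃⟩ := exists_act G f f₁ f₂ α₁ α₂ α A.c1 A.c2
  obtain ⟨P, hP, x', s', t', hcl, D, ho⟩ := exists_ptd h₂ T G f f₂ A ρ r₂
  have := proper_gl T G f f₁ f₂
  refine ⟨c, X, f, ρ, P, hP, x', s', t', hc, integral_gl G, this, proj_ex h₁ h₂ T hs ht G f f₁ f₂,
    smooth_gl G f f₁ f₂ (span_JJ h₂.rel), act_inj A ρ r₁, r₃, hcl, D, fun y hy hne => ?_⟩
  obtain ⟨q, rfl⟩ := ho y hne
  exact stab_chart A ρ r₁ q hy

theorem locLifts_comp {k : Type u} [Field k] {G H : Type*} [Group G] [Group H]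
    {ρ : G →* (k⟦X⟧ ≃ₐ[k] k⟦X⟧)} {A : Type u} [CommRing A] {π : A →+* k} (h : LocLifts ρ π)
    (e : H →* G) : LocLifts (ρ.comp e) π := by
  obtain ⟨ρ', h⟩ := h
  exact ⟨ρ'.comp e, fun g f => h (e g) f⟩

theorem two_parts : ∃ (X : Scheme.{u}) (f : X ⟶ Spec (.of k)) (ρ : EE →* Aut X), IsIntegral X ∧
    IsProj f ∧ SmoothOfRelativeDimension 1 f ∧ Injective ρ ∧ (∀ g, (ρ g).hom ≫ f = f) ∧
    (∃ (A : Type u) (_ : CommRing A) (_ : IsLocalRing A) (_ : IsArtinianRing A)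
      (_ : Algebra (WittVector 3 k) A) (π : A →+* k),
      (∀ w, π (algebraMap (WittVector 3 k) A w) = w.coeff 0) ∧ (3 : A) ≠ 0 ∧ LiftsTo f ρ π) ∧
    ∃ N : ℕ, ∀ (A : Type u) [CommRing A] [IsLocalRing A] [IsArtinianRing A] (π : A →+* k),
      Surjective π → LiftsTo f ρ π → (3 : A) ^ N = 0 := by
  classical
  obtain ⟨c, X, f, ρ, P, hP, x, s, t, hc, _, _, _, _, hρ, hρk, hcl, D, ho⟩ := exists_curve k
  obtain ⟨j, t₀, ρP, x₀, s₀, C, hL, M⟩ := exists_mod f hρ hρk hcl D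
  refine ⟨X, f, ρ, ‹_›, ‹_›, ‹_›, hρ, hρk, ?_, ?_⟩
  · obtain ⟨A, _, _, _, _, π, hπ, h3, hl⟩ := lift_a hc M
    have hs : Surjective π := fun a => ⟨algebraMap _ A (WittVector.teichmuller 3 a), by
      rw [hπ, WittVector.teichmuller_coeff_zero]⟩
    have hd : ∀ y, ∃ ρy, LD f ρ y ρy ∧ (IsClosed {y} → LocLifts ρy π) := fun y => by
      by_cases hy : y = P
      · subst hy
        exact ⟨ρP, Or.inr ⟨hcl, j, t₀, C, hL⟩, fun _ => locLifts_comp hl (stab ρ y).subtype⟩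
      · obtain ⟨ρy, h⟩ := exists_ld f ρ hρ hρk y
        refine ⟨ρy, h, fun hc => ⟨1, fun g φ => ?_⟩⟩
        have : g = 1 := Subtype.ext (Subgroup.mem_bot.1 (ho y hc hy ▸ g.2))
        simp [this]
    choose ρx h1 h2 using hd
    exact ⟨A, _, ‹_›, ‹_›, ‹_›, π, hπ, h3, loc_glob f ρ hρk ρx h1 π hs h2⟩
  · obtain ⟨N, hN⟩ := bound_ld (M.ld hc)
    refine ⟨N, fun A _ _ _ π hπ hl => hN A π hπ (locLifts_comp ?_ _)⟩
    exact glob_loc f hρ hρk hcl ⟨sg, hP _⟩ (fun h => (show ¬sg = 1 by decide) (congrArg Subtype.val h))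
      C hL π hπ hl

theorem final : ∃ (X : Scheme.{u}) (f : X ⟶ Spec (.of k)) (ρ : EE →* Aut X) (n : ℕ),
    IsIntegral X ∧ IsProj f ∧ SmoothOfRelativeDimension 1 f ∧ Injective ρ ∧
    (∀ g, (ρ g).hom ≫ f = f) ∧ 2 ≤ n ∧
    IsGreatest {m : ℕ | ∃ (A : Type u) (_ : CommRing A) (_ : IsLocalRing A) (_ : IsArtinianRing A)
      (_ : Algebra (WittVector 3 k) A) (π : A →+* k),
      (∀ w, π (algebraMap (WittVector 3 k) A w) = w.coeff 0) ∧ LiftsTo f ρ π ∧ ringChar A = m}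
      (3 ^ n) ∧
    ∀ (R : Type u) [CommRing R] [IsLocalRing R] [IsNoetherianRing R] [Algebra (WittVector 3 k) R]
      (π : R →+* k), (∀ w, π (algebraMap (WittVector 3 k) R w) = w.coeff 0) → Versal 3 f ρ π →
      ringChar R = 3 ^ n := by
  classical
  obtain ⟨X, f, ρ, h1, h2, h3, h4, h5, ⟨A₀, _, _, _, _, π₀, a1, a2, a3⟩, N, hN⟩ := two_parts k
  have hex : ∃ n : ℕ, ∀ (A : Type u) [CommRing A] [IsLocalRing A] [IsArtinianRing A]
      [Algebra (WittVector 3 k) A] (π : A →+* k),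
      (∀ w, π (algebraMap (WittVector 3 k) A w) = w.coeff 0) → LiftsTo f ρ π → (3 : A) ^ n = 0 :=
    ⟨N, fun A _ _ _ _ π hπ => hN A π fun a => ⟨algebraMap _ A (WittVector.teichmuller 3 a), by
      rw [hπ, WittVector.teichmuller_coeff_zero]⟩⟩
  have hn := Nat.find_spec hex
  have h2n : 2 ≤ Nat.find hex := by
    by_contra h
    have h0 := hn A₀ π₀ a1 a3
    exact a2 ((pow_one _).symm.trans (pow_eq_zero_of_le (show Nat.find hex ≤ 1 by omega) h0))
  have hdvd : ∀ (A : Type u) [CommRing A] (n : ℕ), (3 : A) ^ n = 0 ↔ ringChar A ∣ 3 ^ n :=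
    fun A _ n => by rw [← ringChar.spec]; simp
  have hm := Nat.find_min hex (m := Nat.find hex - 1) (by omega)
  push Not at hm
  obtain ⟨A, _, _, _, _, π, b1, b2, b3⟩ := hm
  have key : ∀ (R : Type u) [CommRing R], (3 : R) ^ Nat.find hex = 0 →
      (3 : R) ^ (Nat.find hex - 1) ≠ 0 → ringChar R = 3 ^ Nat.find hex := fun R _ c1 c2 => by
    obtain ⟨i, hi, e⟩ := (Nat.dvd_prime_pow Nat.prime_three).1 ((hdvd R _).1 c1)
    rw [e]
    rcases hi.eq_or_lt with h | h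
    · rw [h]
    · exact absurd ((hdvd R _).2 (e ▸ pow_dvd_pow 3 (by omega))) c2
  refine ⟨X, f, ρ, Nat.find hex, h1, h2, h3, h4, h5, h2n,
    ⟨⟨A, _, ‹_›, ‹_›, ‹_›, π, b1, b2, key A (hn A π b1 b2) b3⟩, ?_⟩, ?_⟩
  · rintro m ⟨A, _, _, _, _, π, b1, b2, rfl⟩
    exact Nat.le_of_dvd (by positivity) ((hdvd A _).1 (hn A π b1 b2))
  · intro R _ _ _ _ πR hR hV
    have hs : Surjective πR := fun a => ⟨algebraMap _ R (WittVector.teichmuller 3 a), by
      rw [hR, WittVector.teichmuller_coeff_zero]⟩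
    refine key R ?_ fun h0 => ?_
    · rw [← Ideal.mem_bot, ← Ideal.iInf_pow_eq_bot_of_isLocalRing _ (maximalIdeal.isMaximal R).ne_top,
        Ideal.mem_iInf]
      intro i
      have hJ : maximalIdeal R ^ (i + 1) ≠ ⊤ := ne_top_of_le_ne_top
        (maximalIdeal.isMaximal R).ne_top (Ideal.pow_le_self (Nat.succ_ne_zero i))
      have := local_quot _ hJ
      have : IsArtinianRing (R ⧸ maximalIdeal R ^ (i + 1)) := by
        rw [isArtinianRing_iff_isNilpotent_maximalIdeal, ← map_maximalIdeal_of_surjective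
          (Ideal.Quotient.mk (maximalIdeal R ^ (i + 1))) Ideal.Quotient.mk_surjective]
        exact ⟨i + 1, by rw [← Ideal.map_pow, Ideal.map_quotient_self]; rfl⟩
      obtain ⟨π', -, hc⟩ := exists_pi_quot πR hs _ hJ
      have h0 := hn _ π' (fun w => (hc _).trans (hR w)) (hV.1 i π' (RingHom.ext hc))
      refine Ideal.pow_le_pow_right (Nat.le_succ i) (Ideal.Quotient.eq_zero_iff_mem.1 ?_)
      rwa [map_pow, map_ofNat]
    · obtain ⟨φ, -⟩ := hV.2 A π b1 b2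
      have := congrArg φ h0
      rw [map_pow, map_ofNat, map_zero] at this
      exact b3 this

end Pool.Agent.MP_deef5c_ag.E
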